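import Pool.Agent.H732R3.TupIP

/-!
Abstract form of the bounded perturbation argument.
-/

namespace Pool.Agent.H732R3.AbsIP

open Finset

/-- a quarter of any family of `T` clusters is good -/
def QuarterGood {k : ℕ} (T : ℕ) (Good : (Fin k → ℤ) → Prop) : Prop :=
  ∃ Q : ℕ, 1 ≤ Q ∧ ∀ pos : Fin T → ℤ,
    ∃ (S : Finset (Fin T)) (h : Fin T → ℤ), T ≤ 4 * S.card ∧ Function.Injective h ∧
      (∀ g, (Q : ℤ) * pos g ≤ h g ∧ h g < Q * pos g + Q) ∧
      ∀ g0 ∈ S, ∀ g : Fin k → Fin T, (∀ i, g i ∈ S) → Good (fun i => h (g i) - h g0)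

theorem ipstar (k : ℕ) : ∃ T n : ℕ, ∀ Good : (Fin k → ℤ) → Prop, QuarterGood T Good → ∃ C : ℕ,
    ∀ v : Fin n → Fin k → ℤ, ∃ J : Finset (Fin n), J.Nonempty ∧
    ∃ a : Fin k → ℤ, Function.Injective a ∧ (∀ i, a i ≠ 0) ∧
      (∀ i, |a i - ∑ j ∈ J, v j i| ≤ C) ∧ Good a := by
  classical
  obtain ⟨n, hn⟩ := Pool.Agent.H732R3.Tup.dhj_quarter k
  refine ⟨(k + 1) ^ n, n, fun Good hG => ?_⟩
  obtain ⟨Q, hQ1, hcl⟩ := hG
  refine ⟨2 * Q, fun v => ?_⟩
  have hQ0 : (0 : ℤ) < Q := by exact_mod_cast hQ1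
  set e : (Fin n → Fin (k + 1)) ≃ Fin ((k + 1) ^ n) := finFunctionFinEquiv with he
  set V : Fin n → Fin (k + 1) → ℤ := fun j => Fin.cons 0 (v j) with hV
  set s : (Fin n → Fin (k + 1)) → ℤ := fun w => ∑ j, V j (w j) with hs
  obtain ⟨S, h, hS, hinj, hpos, hgood⟩ := hcl (fun g => s (e.symm g) / Q)
  obtain ⟨L, hL⟩ := hn (S.map e.symm.toEmbedding) (by rw [card_map]; exact hS)
  have hLS : ∀ i, e (L i) ∈ S := by
    intro i
    have := hL i
    rw [mem_map] at this
    obtain ⟨g, hg, hgi⟩ := this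
    have h2 : e (L i) = g := by
      rw [← hgi]
      simp
    rw [h2]; exact hg
  have hclose : ∀ w, |h (e w) - s w| ≤ Q := by
    intro w
    have h1 := hpos (e w)
    rw [Equiv.symm_apply_apply] at h1
    have h2 := Int.emod_add_mul_ediv (s w) Q
    have h3 := Int.emod_nonneg (s w) hQ0.ne'
    have h4 := Int.emod_lt_of_pos (s w) hQ0
    rw [abs_le]
    constructor <;> linarith [h1.1, h1.2]
  set J : Finset (Fin n) := univ.filter (fun j => L.idxFun j = none) with hJ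
  have hJne : J.Nonempty := by
    obtain ⟨j, hj⟩ := L.proper
    exact ⟨j, by simp [hJ, hj]⟩
  have hdiff : ∀ i : Fin k, s (L i.succ) - s (L 0) = ∑ j ∈ J, v j i := by
    intro i
    rw [hs]
    simp only
    rw [← sum_sub_distrib, hJ, sum_filter]
    refine sum_congr rfl fun j _ => ?_
    by_cases hj : L.idxFun j = none
    · rw [if_pos hj, Combinatorics.Line.apply_none _ _ _ hj, Combinatorics.Line.apply_none _ _ _ hj]
      simp [hV]
    · rw [if_neg hj]
      obtain ⟨y, hy⟩ := Option.ne_none_iff_exists'.1 hj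
      rw [Combinatorics.Line.apply_some hy, Combinatorics.Line.apply_some hy, sub_self]
  have hLinj : Function.Injective (fun i => L i) := by
    intro i i' hii
    obtain ⟨j, hj⟩ := L.proper
    have := congrFun hii j
    simp only at this
    rw [Combinatorics.Line.apply_none _ _ _ hj, Combinatorics.Line.apply_none _ _ _ hj] at this
    exact this
  refine ⟨J, hJne, fun i => h (e (L i.succ)) - h (e (L 0)), ?_, ?_, ?_, ?_⟩
  · intro i i' hii
    simp only [sub_left_inj] at hii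
    exact Fin.succ_injective _ (hLinj (e.injective (hinj hii)))
  · intro i
    rw [sub_ne_zero]
    intro hh
    exact Fin.succ_ne_zero i (hLinj (e.injective (hinj hh)))
  · intro i
    have h1 := hclose (L i.succ)
    have h2 := hclose (L 0)
    have h3 := hdiff i
    rw [abs_le] at h1 h2 ⊢
    push_cast
    constructor <;> linarith [h1.1, h1.2, h2.1, h2.2]
  · exact hgood (e (L 0)) (hLS 0) (fun i => e (L i.succ)) (fun i => hLS _)

theorem syndetic (k : ℕ) : ∃ T : ℕ, ∀ Good : (Fin k → ℤ) → Prop, QuarterGood T Good →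
    ∃ C : ℕ, ∀ v : Fin k → ℤ, ∃ a : Fin k → ℤ, Function.Injective a ∧ (∀ i, a i ≠ 0) ∧
      (∀ i, |a i - v i| ≤ C) ∧ Good a := by
  classical
  obtain ⟨T, n, hT⟩ := ipstar k
  refine ⟨T, fun Good hG => ?_⟩
  obtain ⟨C, hnC⟩ := hT Good hG
  by_contra hcon
  push Not at hcon
  choose w hw using hcon
  let sz : (Fin k → ℤ) → ℕ := fun x => ∑ i, (x i).natAbs
  have hsz : ∀ (x : Fin k → ℤ) i, |x i| ≤ sz x := by
    intro x i
    have h1 : (x i).natAbs ≤ sz x := Finset.single_le_sum (f := fun i => (x i).natAbs)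
      (fun _ _ => Nat.zero_le _) (mem_univ i)
    rw [Int.abs_eq_natAbs]
    exact_mod_cast h1
  obtain ⟨D, hD0, hDs⟩ : ∃ D : ℕ → ℕ, D 0 = C ∧ ∀ m, D (m + 1) = D m + sz (w (D m)) :=
    ⟨fun m => Nat.rec C (fun _ d => d + sz (w d)) m, rfl, fun _ => rfl⟩
  have hsum : ∀ m, C + ∑ j ∈ range m, sz (w (D j)) ≤ D m := by
    intro m
    induction m with
    | zero => simp [hD0]
    | succ m ih => rw [sum_range_succ, hDs]; omega
  obtain ⟨J, hJ, a, hinj, hne, hcl, hg⟩ := hnC (fun j => w (D j))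
  set m := J.max' hJ with hm
  refine hw (D m) a hinj hne ?_ hg
  intro i
  have hmJ : m ∈ J := J.max'_mem hJ
  have h1 := hcl i
  rw [← Finset.add_sum_erase J _ hmJ] at h1
  have h2 : |∑ j ∈ J.erase m, w (D j) i| ≤ ∑ j ∈ range (m : ℕ), (sz (w (D j)) : ℤ) := by
    refine (Finset.abs_sum_le_sum_abs _ _).trans ?_
    calc ∑ j ∈ J.erase m, |w (D j) i| ≤ ∑ j ∈ J.erase m, (sz (w (D j)) : ℤ) :=
          sum_le_sum (fun j _ => hsz _ i)
      _ = ∑ j ∈ (J.erase m).map ⟨fun j : Fin n => (j : ℕ), Fin.val_injective⟩, (sz (w (D j)) : ℤ) := by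
          rw [sum_map]; rfl
      _ ≤ _ := by
          apply sum_le_sum_of_subset_of_nonneg
          · intro x hx
            rw [mem_map] at hx
            obtain ⟨j, hj, rfl⟩ := hx
            rw [mem_erase] at hj
            rw [mem_range]
            have h3 : j < m := lt_of_le_of_ne (J.le_max' j hj.2) hj.1
            exact h3
          · intro x _ _; positivity
  have h4 : (C : ℤ) + ∑ j ∈ range (m : ℕ), (sz (w (D j)) : ℤ) ≤ ((D (m : ℕ) : ℕ) : ℤ) := by
    have h5 := hsum (m : ℕ)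
    exact_mod_cast h5
  rw [abs_le] at h1 h2 ⊢
  constructor <;> linarith [h1.1, h1.2, h2.1, h2.2]

end Pool.Agent.H732R3.AbsIP
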