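import Pool.Agent.H732R3.TupIP

/-!
Dickson's conjecture for the forms `a_i x + c` up to bounded factors: the coloured Maynard-Tao
theorem combined with the density Hales-Jewett theorem.
-/

namespace Pool.Agent.H732R3.Dick

open Finset Pool.Agent.H461R2.PD

/-- In an admissible family of forms indexed by the words of a large length there is a combinatorial line
whose forms are simultaneously prime. -/
theorem line_hit (hQ : Quarter) (k : ℕ) : ∃ n K : ℕ, 1 ≤ K ∧
    ∀ (α β : (Fin n → Fin (k + 1)) → Fin K → ℤ), (∀ w s, 0 < α w s) →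
    (∀ w s w' s', α w s = α w' s' → β w s = β w' s' → w = w' ∧ s = s') →
    (∀ p : ℕ, p.Prime → ∃ m : ℤ, ∀ w s, ¬ ((p : ℤ) ∣ α w s * m + β w s)) →
    ∃ (L : Combinatorics.Line (Fin (k + 1)) (Fin n)) (σ : Fin (k + 1) → Fin K),
      {m : ℕ | ∀ i, 0 < α (L i) (σ i) * (m : ℤ) + β (L i) (σ i) ∧
        Prime (α (L i) (σ i) * (m : ℤ) + β (L i) (σ i))}.Infinite := by
  classical
  obtain ⟨n, hn⟩ := Pool.Agent.H732R3.Tup.dhj_quarter k
  obtain ⟨K, hK, hq⟩ := hQ ((k + 1) ^ n)
  refine ⟨n, K, hK, fun α β hα hinj hadm => ?_⟩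
  set e : (Fin n → Fin (k + 1)) ≃ Fin ((k + 1) ^ n) := finFunctionFinEquiv with he
  obtain ⟨S, c, hS, hinf⟩ := hq (fun g s => α (e.symm g) s) (fun g s => β (e.symm g) s)
    (fun g s => hα _ _)
    (by
      rintro ⟨g, s⟩ ⟨g', s'⟩ h
      simp only [Prod.mk.injEq] at h
      obtain ⟨h1, h2⟩ := hinj _ _ _ _ h.1 h.2
      exact Prod.ext (e.symm.injective h1) h2)
    (by
      intro p hp
      obtain ⟨m, hm⟩ := hadm p hp
      exact ⟨m, fun g s => hm _ _⟩)
  obtain ⟨L, hL⟩ := hn (S.map e.symm.toEmbedding) (by rw [card_map]; exact hS)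
  have hLS : ∀ i, e (L i) ∈ S := by
    intro i
    have := hL i
    rw [mem_map] at this
    obtain ⟨g, hg, hgi⟩ := this
    have h2 : e (L i) = g := by
      rw [← hgi]
      simp
    rw [h2]; exact hg
  refine ⟨L, fun i => c (e (L i)), hinf.mono ?_⟩
  intro m hm i
  have := hm (e (L i)) (hLS i)
  simp only [Equiv.symm_apply_apply] at this
  exact this

theorem line_inj {k n : ℕ} (L : Combinatorics.Line (Fin (k + 1)) (Fin n)) :
    Function.Injective (fun i => L i) := by
  intro i i' hii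
  obtain ⟨j, hj⟩ := L.proper
  have := congrFun hii j
  simp only at this
  rw [Combinatorics.Line.apply_none _ _ _ hj, Combinatorics.Line.apply_none _ _ _ hj] at this
  exact this

/-- Dickson's conjecture for forms `a_i x + c` up to bounded factors. -/
theorem multiplicative (hQ : Quarter) (k : ℕ) (c : ℤ) (hc : c ≠ 0) : ∃ C : ℕ, ∀ a : Fin (k + 1) → ℕ,
    (∀ i, 1 ≤ a i) → (∀ i, IsCoprime (a i : ℤ) c) → ∃ f : Fin (k + 1) → ℕ,
      (∀ i, 1 ≤ f i ∧ f i ≤ C) ∧ Function.Injective (fun i => f i * a i) ∧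
      {x : ℕ | ∀ i, ∃ p : ℕ, p.Prime ∧ (p : ℤ) = f i * a i * x + c}.Infinite := by
  classical
  obtain ⟨n, K, hK, hline⟩ := line_hit hQ k
  obtain ⟨l, hlc, hl⟩ := Nat.exists_infinite_primes (c.natAbs + 1)
  have hlc' : ¬ (l : ℤ) ∣ c := by
    intro h
    have h1 := Int.natAbs_dvd_natAbs.2 h
    rw [Int.natAbs_natCast] at h1
    have := Nat.le_of_dvd (Int.natAbs_pos.2 hc) h1
    omega
  have hl0 : 0 < l := hl.pos
  set e : (Fin n → Fin (k + 1)) ≃ Fin ((k + 1) ^ n) := finFunctionFinEquiv with he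
  set N : ℕ := (k + 1) ^ n * K with hN
  have hNpos : 0 < N := by positivity
  set idx : (Fin n → Fin (k + 1)) → Fin K → ℕ := fun w s => (finProdFinEquiv (e w, s) : ℕ) with hidx
  have hidxlt : ∀ w s, idx w s < N := fun w s => (finProdFinEquiv (e w, s)).2
  have hidxinj : ∀ w s w' s', idx w s = idx w' s' → w = w' ∧ s = s' := by
    intro w s w' s' h
    have h1 := finProdFinEquiv.injective (Fin.ext h)
    exact ⟨e.injective (congrArg Prod.fst h1), congrArg Prod.snd h1⟩
  by_contra hcon
  push Not at hcon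
  choose b hb1 hbc hb using hcon
  obtain ⟨D, hD0, hDs⟩ : ∃ D : ℕ → ℕ, D 0 = l ^ N ∧ ∀ m, D (m + 1) = D m * ∑ i, b (D m) i :=
    ⟨fun m => Nat.rec (l ^ N) (fun _ d => d * ∑ i, b d i) m, rfl, fun _ => rfl⟩
  have hDprod : ∀ m, l ^ N * ∏ j ∈ range m, ∑ i, b (D j) i = D m := by
    intro m
    induction m with
    | zero => simp [hD0]
    | succ m ih => rw [prod_range_succ, ← mul_assoc, ih, hDs]
  -- the product attached to a word
  let A : (Fin n → Fin (k + 1)) → ℕ := fun w => ∏ j : Fin n, b (D j) (w j)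
  have hApos : ∀ w, 0 < A w := fun w => prod_pos fun j _ => hb1 _ _
  let ex : (Fin n → Fin (k + 1)) → Fin K → ℕ := fun w s =>
    (idx w s + (N - padicValNat l (A w) % N)) % N
  have hexlt : ∀ w s, ex w s < N := fun w s => Nat.mod_lt _ hNpos
  have hval : ∀ w s, padicValNat l (l ^ ex w s * A w) % N = idx w s := by
    intro w s
    have : Fact l.Prime := ⟨hl⟩
    rw [padicValNat.mul (by positivity) (hApos w).ne', padicValNat.prime_pow]
    have h1 := Nat.mod_lt (padicValNat l (A w)) hNpos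
    have h2 : (ex w s + padicValNat l (A w)) % N =
        ((idx w s + (N - padicValNat l (A w) % N)) + padicValNat l (A w) % N) % N := by
      rw [Nat.add_mod, Nat.add_mod (idx w s + (N - padicValNat l (A w) % N))]
      simp only [ex, Nat.mod_mod]
    rw [h2]
    have h3 : idx w s + (N - padicValNat l (A w) % N) + padicValNat l (A w) % N = idx w s + N := by omega
    rw [h3, Nat.add_mod_right]
    exact Nat.mod_eq_of_lt (hidxlt w s)
  have hdist : ∀ w s w' s', l ^ ex w s * A w = l ^ ex w' s' * A w' → w = w' ∧ s = s' := by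
    intro w s w' s' h
    apply hidxinj
    rw [← hval w s, ← hval w' s', h]
  obtain ⟨L, σ, hinf⟩ := hline (fun w s => ((l ^ ex w s * A w : ℕ) : ℤ)) (fun _ _ => c)
    (fun w s => by
      have := hApos w
      positivity)
    (fun w s w' s' h _ => hdist w s w' s' (by exact_mod_cast h))
    (by
      intro p hp
      have hpp := Nat.prime_iff_prime_int.1 hp
      by_cases hpc : (p : ℤ) ∣ c
      · refine ⟨1, fun w s hd => ?_⟩
        rw [mul_one] at hd
        have h1 : (p : ℤ) ∣ ((l ^ ex w s * A w : ℕ) : ℤ) := (dvd_add_left hpc).1 hd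
        push_cast at h1
        rcases hpp.dvd_or_dvd h1 with h2 | h2
        · have h3 := hpp.dvd_of_dvd_pow h2
          have h4 : p = l := (Nat.prime_dvd_prime_iff_eq hp hl).1 (by exact_mod_cast h3)
          rw [h4] at hpc
          exact hlc' hpc
        · simp only [A] at h2
          push_cast at h2
          obtain ⟨j, _, hj⟩ := (Prime.dvd_finsetProd_iff hpp _).1 h2
          exact hpp.not_isUnit ((hbc (D j) (w j)).isUnit_of_dvd' hj hpc)
      · exact ⟨0, fun w s hd => hpc (by simpa using hd)⟩)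
  -- the last moving coordinate
  set J : Finset (Fin n) := univ.filter (fun j => L.idxFun j = none) with hJ
  have hJne : J.Nonempty := by
    obtain ⟨j, hj⟩ := L.proper
    exact ⟨j, by simp [hJ, hj]⟩
  set m := J.max' hJne with hm
  have hmJ : m ∈ J := J.max'_mem hJne
  have hLm : ∀ i, L i m = i := by
    intro i
    rw [hJ, mem_filter] at hmJ
    exact Combinatorics.Line.apply_none _ _ _ hmJ.2
  have hLgt : ∀ i j, m < j → L i j = L 0 j := by
    intro i j hj
    have h1 : L.idxFun j ≠ none := by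
      intro h
      have h2 : j ∈ J := by rw [hJ, mem_filter]; exact ⟨mem_univ _, h⟩
      exact absurd (J.le_max' j h2) (not_le.2 hj)
    obtain ⟨y, hy⟩ := Option.ne_none_iff_exists'.1 h1
    rw [Combinatorics.Line.apply_some hy, Combinatorics.Line.apply_some hy]
  -- splitting of the product
  let P : Fin (k + 1) → ℕ := fun i => ∏ j ∈ (univ.erase m).filter (· < m), b (D j) (L i j)
  set R : ℕ := ∏ j ∈ (univ.erase m).filter (fun j => ¬ j < m), b (D j) (L 0 j) with hR
  have hA : ∀ i, A (L i) = P i * b (D m) i * R := by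
    intro i
    have h1 : A (L i) = b (D m) (L i m) * ∏ j ∈ univ.erase m, b (D j) (L i j) :=
      (Finset.mul_prod_erase univ _ (mem_univ m)).symm
    rw [h1, hLm, ← Finset.prod_filter_mul_prod_filter_not (univ.erase m) (· < m)]
    have h2 : ∏ j ∈ (univ.erase m).filter (fun j => ¬ j < m), b (D j) (L i j) = R := by
      refine prod_congr rfl fun j hj => ?_
      rw [mem_filter, mem_erase] at hj
      rw [hLgt i j (lt_of_le_of_ne (not_lt.1 hj.2) (Ne.symm hj.1.1))]
    rw [h2]
    simp only [P]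
    ring
  have hRpos : 0 < R := prod_pos fun j _ => hb1 _ _
  have hPpos : ∀ i, 0 < P i := fun i => prod_pos fun j _ => hb1 _ _
  have hPle : ∀ i, P i ≤ ∏ j ∈ range (m : ℕ), ∑ i, b (D j) i := by
    intro i
    have hsub : ((univ.erase m).filter (· < m)).map ⟨fun j : Fin n => (j : ℕ), Fin.val_injective⟩ ⊆
        range (m : ℕ) := by
      intro x hx
      rw [mem_map] at hx
      obtain ⟨j, hj, rfl⟩ := hx
      rw [mem_filter] at hj
      rw [mem_range]
      exact hj.2
    calc P i ≤ ∏ j ∈ (univ.erase m).filter (· < m), ∑ i, b (D j) i :=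
          prod_le_prod (fun _ _ => Nat.zero_le _) (fun j _ =>
            single_le_sum (f := fun i => b (D j) i) (fun _ _ => Nat.zero_le _) (mem_univ _))
      _ = ∏ x ∈ ((univ.erase m).filter (· < m)).map ⟨fun j : Fin n => (j : ℕ), Fin.val_injective⟩,
            ∑ i, b (D x) i := by
          rw [prod_map]; rfl
      _ ≤ _ := by
          apply prod_le_prod_of_subset_of_one_le' hsub
          intro x _ _
          have h1 : b (D x) 0 ≤ ∑ i, b (D x) i :=
            single_le_sum (f := fun i => b (D x) i) (fun _ _ => Nat.zero_le _) (mem_univ _)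
          exact (hb1 _ _).trans h1
  have hfa : ∀ i, l ^ ex (L i) (σ i) * A (L i) = (l ^ ex (L i) (σ i) * P i) * b (D m) i * R := by
    intro i
    rw [hA]; ring
  refine Set.Infinite.not_finite ?_ (hb (D m) (fun i => l ^ ex (L i) (σ i) * P i) ?_ ?_)
  rotate_left
  · intro i
    refine ⟨Nat.mul_pos (pow_pos hl0 _) (hPpos i), ?_⟩
    rw [← hDprod]
    exact Nat.mul_le_mul (Nat.pow_le_pow_right hl0 (hexlt _ _).le) (hPle i)
  · intro i i' h
    simp only at h
    have h1 : l ^ ex (L i) (σ i) * A (L i) = l ^ ex (L i') (σ i') * A (L i') := by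
      rw [hfa, hfa, h]
    exact line_inj L (hdist _ _ _ _ h1).1
  · have hinj : Set.InjOn (fun x : ℕ => R * x) {x : ℕ | ∀ i, 0 < ((l ^ ex (L i) (σ i) * A (L i) : ℕ) : ℤ) * (x : ℤ) + c ∧
        Prime (((l ^ ex (L i) (σ i) * A (L i) : ℕ) : ℤ) * (x : ℤ) + c)} := by
      intro x _ y _ h
      exact Nat.eq_of_mul_eq_mul_left hRpos h
    refine (hinf.image hinj).mono ?_
    rintro _ ⟨x, hx, rfl⟩ i
    obtain ⟨h1, h2⟩ := hx i
    refine ⟨(((l ^ ex (L i) (σ i) * A (L i) : ℕ) : ℤ) * (x : ℤ) + c).toNat, ?_, ?_⟩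
    · rw [Nat.prime_iff_prime_int, Int.toNat_of_nonneg h1.le]
      exact h2
    · rw [Int.toNat_of_nonneg h1.le, hfa]
      push_cast
      ring

end Pool.Agent.H732R3.Dick
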