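import Pool.Agent.H732R3.CMQ
import Pool.Agent.H732R3.DickM

/-!
Sets of natural numbers with at least `x ^ (1 - η)` elements up to `x` for arbitrarily large `x`, for every `η > 0`,
and the coloured Maynard-Tao theorem with such sets.
-/

namespace Pool.Agent.H732R3.BigQ

open Finset Filter

/-- for every `η > 0` there are arbitrarily large `x` with at least `x ^ (1 - η)` elements of `F` up to `x` -/
def Big (F : Set ℕ) : Prop :=
  ∀ η : ℝ, 0 < η → ∃ᶠ x : ℝ in atTop, x ^ (1 - η) ≤ ({n : ℕ | n ∈ F ∧ (n : ℝ) ≤ x}.ncard : ℝ)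

theorem fin_le (F : Set ℕ) (x : ℝ) : {n : ℕ | n ∈ F ∧ (n : ℝ) ≤ x}.Finite := by
  apply (Set.finite_Iic ⌊x⌋₊).subset
  rintro n ⟨_, h⟩
  rw [Set.mem_Iic]
  exact Nat.le_floor h

theorem Big.mono {F G : Set ℕ} (h : F ⊆ G) (hF : Big F) : Big G := by
  intro η hη
  refine (hF η hη).mono fun x hx => hx.trans ?_
  have hsub : {n : ℕ | n ∈ F ∧ (n : ℝ) ≤ x} ⊆ {n : ℕ | n ∈ G ∧ (n : ℝ) ≤ x} :=
    fun n hn => ⟨h hn.1, hn.2⟩
  exact_mod_cast Set.ncard_le_ncard hsub (fin_le G x)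

/-- images under positive affine maps -/
theorem Big.affine {F G : Set ℕ} (hF : Big F) (A : ℕ) (B : ℤ) (hA : 1 ≤ A) (φ : ℕ → ℕ)
    (hφ : ∀ n ∈ F, ((φ n : ℕ) : ℤ) = A * n + B) (hG : ∀ n ∈ F, φ n ∈ G) : Big G := by
  intro η hη
  set κ : ℝ := A + |(B : ℝ)| with hκ
  have hA' : (1 : ℝ) ≤ A := by exact_mod_cast hA
  have hκ1 : 1 ≤ κ := by have := abs_nonneg (B : ℝ); linarith
  have hκ0 : 0 < κ := by linarith
  have ht : Tendsto (fun x : ℝ => κ * x) atTop atTop := tendsto_id.const_mul_atTop hκ0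
  refine ht.frequently (((hF (η / 2) (by linarith)).and_eventually
    ((tendsto_rpow_atTop (show 0 < η / 2 by linarith)).eventually_ge_atTop (κ ^ (1 - η)) |>.and
      (eventually_ge_atTop (1 : ℝ)))).mono ?_)
  rintro x ⟨h1, h2, h3⟩
  have hx0 : 0 < x := by linarith
  have h4 : (κ * x) ^ (1 - η) ≤ x ^ (1 - η / 2) := by
    rw [Real.mul_rpow hκ0.le hx0.le]
    calc κ ^ (1 - η) * x ^ (1 - η) ≤ x ^ (η / 2) * x ^ (1 - η) :=
          mul_le_mul_of_nonneg_right h2 (Real.rpow_nonneg hx0.le _)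
      _ = x ^ (1 - η / 2) := by
          rw [← Real.rpow_add hx0]; congr 1; ring
  refine h4.trans (h1.trans ?_)
  have hinj : Set.InjOn φ {n : ℕ | n ∈ F ∧ (n : ℝ) ≤ x} := by
    intro n hn m hm h
    have e1 := hφ n hn.1
    have e2 := hφ m hm.1
    rw [h] at e1
    have e3 : (A : ℤ) * n = A * m := by linarith
    have hA0 : (A : ℤ) ≠ 0 := by exact_mod_cast (by omega : A ≠ 0)
    exact_mod_cast mul_left_cancel₀ hA0 e3
  rw [← Set.InjOn.ncard_image hinj]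
  have hsub : φ '' {n : ℕ | n ∈ F ∧ (n : ℝ) ≤ x} ⊆ {n : ℕ | n ∈ G ∧ (n : ℝ) ≤ κ * x} := by
    rintro _ ⟨n, ⟨hn, hnx⟩, rfl⟩
    refine ⟨hG n hn, ?_⟩
    have e1 : ((φ n : ℕ) : ℝ) = A * n + B := by exact_mod_cast hφ n hn
    rw [e1, hκ, add_mul]
    have e2 : (B : ℝ) ≤ |(B : ℝ)| * x := by
      calc (B : ℝ) ≤ |(B : ℝ)| := le_abs_self _
        _ ≤ |(B : ℝ)| * x := le_mul_of_one_le_right (abs_nonneg _) h3
    have e3 : (A : ℝ) * n ≤ A * x := mul_le_mul_of_nonneg_left hnx (by linarith)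
    linarith
  exact_mod_cast Set.ncard_le_ncard hsub (fin_le G _)

theorem Big.infinite {F : Set ℕ} (hF : Big F) : F.Infinite := by
  intro hfin
  obtain ⟨x, h1, h2, h3⟩ := ((hF (1 / 2) (by norm_num)).and_eventually
    (((tendsto_rpow_atTop (show (0 : ℝ) < 1 - 1 / 2 by norm_num)).eventually_gt_atTop
      (F.ncard : ℝ)).and (eventually_ge_atTop (1 : ℝ)))).exists
  have h4 : ({n : ℕ | n ∈ F ∧ (n : ℝ) ≤ x}.ncard : ℝ) ≤ F.ncard := by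
    have hsub : {n : ℕ | n ∈ F ∧ (n : ℝ) ≤ x} ⊆ F := fun n hn => hn.1
    exact_mod_cast Set.ncard_le_ncard hsub hfin
  linarith

/-- the coloured Maynard-Tao theorem with big sets -/
def QuarterB : Prop := ∀ T : ℕ, ∃ K : ℕ, 1 ≤ K ∧ ∀ (a b : Fin T → Fin K → ℤ), (∀ g i, 0 < a g i) →
    Function.Injective (fun x : Fin T × Fin K => (a x.1 x.2, b x.1 x.2)) →
    (∀ p : ℕ, p.Prime → ∃ n : ℤ, ∀ g i, ¬ ((p : ℤ) ∣ a g i * n + b g i)) →
    ∃ (S : Finset (Fin T)) (c : Fin T → Fin K), T ≤ 4 * S.card ∧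
      Big {n : ℕ | ∀ g ∈ S, 0 < a g (c g) * (n : ℤ) + b g (c g) ∧
        Prime (a g (c g) * (n : ℤ) + b g (c g))}

/-- pigeonhole for big sets -/
theorem big_of_cover {ι : Type*} [Finite ι] (F : ι → Set ℕ) (G : Set ℕ)
    (hG : ∀ η : ℝ, 0 < η → ∀ᶠ x : ℝ in atTop, x ^ (1 - η) ≤ ({n : ℕ | n ∈ G ∧ (n : ℝ) ≤ x}.ncard : ℝ))
    (hcov : G ⊆ ⋃ i, F i) : ∃ i, Big (F i) := by
  classical
  have := Fintype.ofFinite ι
  by_contra hcon
  push Not at hcon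
  have h1 : ∀ i, ∃ η : ℝ, 0 < η ∧ ∀ᶠ x : ℝ in atTop,
      ({n : ℕ | n ∈ F i ∧ (n : ℝ) ≤ x}.ncard : ℝ) < x ^ (1 - η) := by
    intro i
    have := hcon i
    unfold Big at this
    push Not at this
    obtain ⟨η, hη, h⟩ := this
    exact ⟨η, hη, h⟩
  choose η hη hlt using h1
  -- a common exponent
  obtain ⟨δ, hδ0, hδ⟩ : ∃ δ : ℝ, 0 < δ ∧ ∀ i, δ ≤ η i := by
    rcases isEmpty_or_nonempty ι with hι | hι
    · exact ⟨1, one_pos, fun i => (hι.false i).elim⟩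
    · obtain ⟨i0, hi0⟩ := Finite.exists_min η
      exact ⟨η i0, hη i0, hi0⟩
  have hall : ∀ᶠ x : ℝ in atTop, ∀ i, ({n : ℕ | n ∈ F i ∧ (n : ℝ) ≤ x}.ncard : ℝ) < x ^ (1 - η i) :=
    eventually_all.2 hlt
  obtain ⟨x, hx1, hx2, hx3, hx4⟩ := (hall.and ((hG (δ / 2) (by linarith)).and
    (((tendsto_rpow_atTop (show 0 < δ / 2 by linarith)).eventually_ge_atTop
      ((Fintype.card ι : ℝ))).and (eventually_ge_atTop (1 : ℝ))))).exists
  have hx0 : 0 < x := by linarith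
  have h2 : ({n : ℕ | n ∈ G ∧ (n : ℝ) ≤ x}.ncard : ℝ) ≤
      ∑ i, ({n : ℕ | n ∈ F i ∧ (n : ℝ) ≤ x}.ncard : ℝ) := by
    have hsub : {n : ℕ | n ∈ G ∧ (n : ℝ) ≤ x} ⊆ ⋃ i ∈ (univ : Finset ι), {n : ℕ | n ∈ F i ∧ (n : ℝ) ≤ x} := by
      rintro n ⟨hn, hnx⟩
      obtain ⟨i, hi⟩ := Set.mem_iUnion.1 (hcov hn)
      exact Set.mem_iUnion₂.2 ⟨i, mem_univ i, hi, hnx⟩
    have hfin : (⋃ i ∈ (univ : Finset ι), {n : ℕ | n ∈ F i ∧ (n : ℝ) ≤ x}).Finite :=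
      Set.Finite.biUnion (univ : Finset ι).finite_toSet (fun i _ => fin_le _ _)
    have h3 := Set.ncard_le_ncard hsub hfin
    have h4 : (⋃ i ∈ (univ : Finset ι), {n : ℕ | n ∈ F i ∧ (n : ℝ) ≤ x}).ncard ≤
        ∑ i, {n : ℕ | n ∈ F i ∧ (n : ℝ) ≤ x}.ncard :=
      Finset.set_ncard_biUnion_le _ _
    exact_mod_cast h3.trans h4
  have h5 : ∑ i, ({n : ℕ | n ∈ F i ∧ (n : ℝ) ≤ x}.ncard : ℝ) ≤ Fintype.card ι * x ^ (1 - δ) := by
    calc _ ≤ ∑ _i : ι, x ^ (1 - δ) := sum_le_sum fun i _ => (hx1 i).le.trans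
          (Real.rpow_le_rpow_of_exponent_le hx4 (by have := hδ i; linarith))
      _ = _ := by rw [sum_const, card_univ, nsmul_eq_mul]
  rcases isEmpty_or_nonempty ι with hι | ⟨⟨i0⟩⟩
  · have h6 : (Fintype.card ι : ℝ) = 0 := by
      have := Fintype.card_eq_zero (α := ι)
      exact_mod_cast this
    rw [h6, zero_mul] at h5
    have h7 : 0 < x ^ (1 - δ / 2) := Real.rpow_pos_of_pos hx0 _
    linarith
  · have h8 : ∑ i, ({n : ℕ | n ∈ F i ∧ (n : ℝ) ≤ x}.ncard : ℝ) < Fintype.card ι * x ^ (1 - δ) := by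
      calc _ < ∑ _i : ι, x ^ (1 - δ) := sum_lt_sum_of_nonempty ⟨i0, mem_univ _⟩ fun i _ =>
            (hx1 i).trans_le (Real.rpow_le_rpow_of_exponent_le hx4 (by have := hδ i; linarith))
        _ = _ := by rw [sum_const, card_univ, nsmul_eq_mul]
    have h9 : Fintype.card ι * x ^ (1 - δ) ≤ x ^ (δ / 2) * x ^ (1 - δ) :=
      mul_le_mul_of_nonneg_right hx3 (Real.rpow_nonneg hx0.le _)
    rw [← Real.rpow_add hx0] at h9
    have h10 : δ / 2 + (1 - δ) = 1 - δ / 2 := by ring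
    rw [h10] at h9
    linarith

end Pool.Agent.H732R3.BigQ
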