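import Pool.Agent.H732R3.PertB

/-!
Consequences: `r`-tuples of shifts, and dyadic intervals.
-/

namespace Pool.Agent.H732R3.BigQ

open Finset Filter

/-- finitely many elements do not matter -/
theorem Big.ge {F : Set ℕ} (hF : Big F) (n0 : ℕ) : Big {n : ℕ | n ∈ F ∧ n0 ≤ n} := by
  intro η hη
  set δ : ℝ := min η 1 / 2 with hδ
  have hm : 0 < min η 1 := lt_min hη one_pos
  have hδ0 : 0 < δ := by rw [hδ]; linarith
  have hδη : 2 * δ ≤ η := by rw [hδ]; have := min_le_left η 1; linarith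
  have hδ1 : 2 * δ ≤ 1 := by rw [hδ]; have := min_le_right η 1; linarith
  refine ((hF δ hδ0).and_eventually
    ((((tendsto_rpow_atTop hδ0).eventually_ge_atTop ((n0 : ℝ) + 1))).and
      (eventually_ge_atTop (1 : ℝ)))).mono ?_
  rintro x ⟨h1, h2, h3⟩
  have hx0 : 0 < x := by linarith
  have h4 : {n : ℕ | n ∈ F ∧ (n : ℝ) ≤ x} ⊆
      {n : ℕ | n ∈ {n : ℕ | n ∈ F ∧ n0 ≤ n} ∧ (n : ℝ) ≤ x} ∪ (Finset.range n0 : Set ℕ) := by
    rintro n ⟨hn, hnx⟩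
    by_cases h : n0 ≤ n
    · exact Or.inl ⟨⟨hn, h⟩, hnx⟩
    · exact Or.inr (by rw [Finset.coe_range]; exact not_le.1 h)
  have h5 := Set.ncard_le_ncard h4 ((fin_le _ x).union (Finset.finite_toSet _))
  have h6 := Set.ncard_union_le {n : ℕ | n ∈ {n : ℕ | n ∈ F ∧ n0 ≤ n} ∧ (n : ℝ) ≤ x}
    (Finset.range n0 : Set ℕ)
  rw [Set.ncard_coe_finset, Finset.card_range] at h6
  have h7 : ({n : ℕ | n ∈ F ∧ (n : ℝ) ≤ x}.ncard : ℝ) ≤
      ({n : ℕ | n ∈ {n : ℕ | n ∈ F ∧ n0 ≤ n} ∧ (n : ℝ) ≤ x}.ncard : ℝ) + n0 := by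
    exact_mod_cast h5.trans h6
  have h8 : x ^ (1 - 2 * δ) * (n0 + 1) ≤ x ^ (1 - δ) := by
    calc x ^ (1 - 2 * δ) * (n0 + 1) ≤ x ^ (1 - 2 * δ) * x ^ δ :=
          mul_le_mul_of_nonneg_left h2 (Real.rpow_nonneg hx0.le _)
      _ = x ^ (1 - δ) := by rw [← Real.rpow_add hx0]; congr 1; ring
  have h9 : 1 ≤ x ^ (1 - 2 * δ) := Real.one_le_rpow h3 (by linarith)
  have h10 : (n0 : ℝ) ≤ x ^ (1 - 2 * δ) * n0 := le_mul_of_one_le_left (Nat.cast_nonneg _) h9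
  have h11 : x ^ (1 - η) ≤ x ^ (1 - 2 * δ) := Real.rpow_le_rpow_of_exponent_le h3 (by linarith)
  nlinarith

/-- `r`-tuples: every vector of `r` integers is at a bounded distance from a good `r`-tuple. -/
theorem tuples (hQ : QuarterB) (k : ℕ) : ∃ C : ℕ, ∀ v : Fin (k + 1) → ℤ, ∃ a : Fin (k + 1) → ℤ,
    Function.Injective a ∧ (∀ i, |a i - v i| ≤ C) ∧
    Big {n : ℕ | 1 ≤ n ∧ ∀ i, ∃ p : ℕ, p.Prime ∧ (p : ℤ) = n + a i} := by
  obtain ⟨C, hC⟩ := syndeticB hQ k 1 0 le_rfl (by rw [Nat.cast_one]; exact isCoprime_one_right)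
  refine ⟨C, fun v => ?_⟩
  obtain ⟨b, hbinj, hb0, hb, hg⟩ := hC (fun i => v i.succ - v 0)
  refine ⟨Fin.cons (v 0) (fun i => v 0 + b i), ?_, ?_, ?_⟩
  · rw [Fin.cons_injective_iff]
    refine ⟨?_, ?_⟩
    · rintro ⟨i, hi⟩
      exact hb0 i (by simpa using hi)
    · intro i j hij
      exact hbinj (by simpa using hij)
  · intro i
    refine Fin.cases ?_ (fun i => ?_) i
    · simp
    · rw [Fin.cons_succ]
      have h1 := hb i
      have h2 : v 0 + b i - v i.succ = b i - (v i.succ - v 0) := by ring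
      rw [h2]; exact h1
  · refine (Big.ge hg ((v 0).toNat + 1)).affine 1 (-(v 0)) le_rfl (fun N => ((N : ℤ) - v 0).toNat) ?_ ?_
    · rintro N ⟨_, hN⟩
      have h1 : v 0 ≤ (v 0).toNat := Int.self_le_toNat _
      have h2 : ((v 0).toNat : ℤ) + 1 ≤ N := by exact_mod_cast hN
      show (((((N : ℤ) - v 0).toNat : ℕ)) : ℤ) = _
      rw [Int.toNat_of_nonneg (by linarith)]
      push_cast
      ring
    · rintro N ⟨⟨hNp, _, hN2⟩, hN⟩
      have h1 : v 0 ≤ (v 0).toNat := Int.self_le_toNat _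
      have h2 : ((v 0).toNat : ℤ) + 1 ≤ N := by exact_mod_cast hN
      have h3 : (((((N : ℤ) - v 0).toNat : ℕ)) : ℤ) = N - v 0 := Int.toNat_of_nonneg (by linarith)
      refine ⟨?_, fun i => ?_⟩
      · have h4 : (1 : ℤ) ≤ ((((N : ℤ) - v 0).toNat : ℕ) : ℤ) := by rw [h3]; linarith
        exact_mod_cast h4
      · rw [h3]
        refine Fin.cases ?_ (fun i => ?_) i
        · exact ⟨N, hNp, by simp⟩
        · obtain ⟨p, hp, hpe⟩ := hN2 i
          refine ⟨p, hp, ?_⟩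
          rw [hpe, Fin.cons_succ]
          push_cast
          ring

/-- dyadic intervals -/
theorem Big.dyadic {F : Set ℕ} (hF : Big F) : ∀ η : ℝ, 0 < η → ∃ᶠ x : ℝ in atTop,
    x ^ (1 - η) ≤ ({n : ℕ | n ∈ F ∧ x ≤ n ∧ (n : ℝ) < 2 * x}.ncard : ℝ) := by
  intro η hη hcon
  set δ : ℝ := min η 1 with hδ
  have hδ0 : 0 < δ := lt_min hη one_pos
  have hδη : δ ≤ η := min_le_left η 1
  have hδ1 : δ ≤ 1 := min_le_right η 1
  obtain ⟨X1, hX1⟩ := eventually_atTop.1 hcon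
  set X0 : ℝ := max X1 1 with hX0
  have hX01 : 1 ≤ X0 := le_max_right _ _
  have hfin : ∀ y : ℝ, {n : ℕ | n ∈ F ∧ (n : ℝ) < y}.Finite := fun y =>
    (fin_le F y).subset fun n hn => ⟨hn.1, hn.2.le⟩
  have hstep : ∀ x : ℝ, X0 ≤ x → ({n : ℕ | n ∈ F ∧ (n : ℝ) < 2 * x}.ncard : ℝ) ≤
      ({n : ℕ | n ∈ F ∧ (n : ℝ) < x}.ncard : ℝ) + x ^ (1 - δ) := by
    intro x hx
    have hx1 : 1 ≤ x := hX01.trans hx
    have h1 := hX1 x ((le_max_left _ _).trans hx)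
    rw [not_le] at h1
    have h2 : {n : ℕ | n ∈ F ∧ (n : ℝ) < 2 * x} ⊆ {n : ℕ | n ∈ F ∧ (n : ℝ) < x} ∪
        {n : ℕ | n ∈ F ∧ x ≤ n ∧ (n : ℝ) < 2 * x} := by
      rintro n ⟨hn, hnx⟩
      by_cases h : (n : ℝ) < x
      · exact Or.inl ⟨hn, h⟩
      · exact Or.inr ⟨hn, not_lt.1 h, hnx⟩
    have h3 : {n : ℕ | n ∈ F ∧ x ≤ n ∧ (n : ℝ) < 2 * x}.Finite :=
      (hfin (2 * x)).subset fun n hn => ⟨hn.1, hn.2.2⟩
    have h4 := (Set.ncard_le_ncard h2 ((hfin x).union h3)).trans (Set.ncard_union_le _ _)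
    have h5 : ({n : ℕ | n ∈ F ∧ (n : ℝ) < 2 * x}.ncard : ℝ) ≤
      ({n : ℕ | n ∈ F ∧ (n : ℝ) < x}.ncard : ℝ) +
        ({n : ℕ | n ∈ F ∧ x ≤ n ∧ (n : ℝ) < 2 * x}.ncard : ℝ) := by exact_mod_cast h4
    have h6 : x ^ (1 - η) ≤ x ^ (1 - δ) := Real.rpow_le_rpow_of_exponent_le hx1 (by linarith)
    linarith
  -- iteration
  have hit : ∀ m : ℕ, ∀ y : ℝ, X0 ≤ y → y < 2 * X0 →
      ({n : ℕ | n ∈ F ∧ (n : ℝ) < 2 ^ m * y}.ncard : ℝ) ≤
        ({n : ℕ | n ∈ F ∧ (n : ℝ) < 2 * X0}.ncard : ℝ) + m * (2 ^ m * y) ^ (1 - δ) := by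
    intro m
    induction m with
    | zero =>
      intro y hy hy2
      rw [pow_zero, one_mul, Nat.cast_zero, zero_mul, add_zero]
      have hsub : {n : ℕ | n ∈ F ∧ (n : ℝ) < y} ⊆ {n : ℕ | n ∈ F ∧ (n : ℝ) < 2 * X0} :=
        fun n hn => ⟨hn.1, hn.2.trans hy2⟩
      exact_mod_cast Set.ncard_le_ncard hsub (hfin _)
    | succ m ih =>
      intro y hy hy2
      have hy1 : 1 ≤ y := hX01.trans hy
      have h2m : (1 : ℝ) ≤ 2 ^ m := one_le_pow₀ (by norm_num)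
      have h1 : X0 ≤ 2 ^ m * y := by
        calc X0 ≤ y := hy
          _ ≤ 2 ^ m * y := le_mul_of_one_le_left (by linarith) h2m
      have h2 := hstep (2 ^ m * y) h1
      have h3 := ih y hy hy2
      have h4 : (2 : ℝ) ^ (m + 1) * y = 2 * (2 ^ m * y) := by ring
      rw [h4]
      have h5 : (2 ^ m * y) ^ (1 - δ) ≤ (2 * (2 ^ m * y)) ^ (1 - δ) :=
        Real.rpow_le_rpow (by positivity) (by linarith [show (0 : ℝ) ≤ 2 ^ m * y by positivity]) (by linarith)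
      push_cast
      have h6 : (m : ℝ) * (2 ^ m * y) ^ (1 - δ) ≤ m * (2 * (2 ^ m * y)) ^ (1 - δ) :=
        mul_le_mul_of_nonneg_left h5 (Nat.cast_nonneg _)
      nlinarith
  -- comparison
  set c0 : ℝ := ({n : ℕ | n ∈ F ∧ (n : ℝ) < 2 * X0}.ncard : ℝ) with hc0
  have hup : ∀ x : ℝ, X0 ≤ x → ({n : ℕ | n ∈ F ∧ (n : ℝ) < x}.ncard : ℝ) ≤
      c0 + (2 * Real.log x) * x ^ (1 - δ) := by
    intro x hx
    have hx1 : 1 ≤ x := hX01.trans hx
    have hX0p : 0 < X0 := by linarith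
    obtain ⟨m, hm1, hm2⟩ := exists_nat_pow_near (x := x / X0) (y := (2 : ℝ))
      (by rw [le_div_iff₀ hX0p]; linarith) (by norm_num)
    have h2m : (0 : ℝ) < 2 ^ m := by positivity
    rw [le_div_iff₀ hX0p] at hm1
    rw [div_lt_iff₀ hX0p] at hm2
    have h1 := hit m (x / 2 ^ m) (by rw [le_div_iff₀ h2m]; linarith)
      (by rw [div_lt_iff₀ h2m]; rw [pow_succ] at hm2; linarith)
    have h2 : (2 : ℝ) ^ m * (x / 2 ^ m) = x := by field_simp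
    rw [h2] at h1
    refine h1.trans ?_
    have h3 : (m : ℝ) ≤ 2 * Real.log x := by
      have h4 : (2 : ℝ) ^ m ≤ x := by
        calc (2 : ℝ) ^ m ≤ 2 ^ m * X0 := le_mul_of_one_le_right h2m.le hX01
          _ ≤ x := hm1
      have h5 := Real.log_le_log h2m h4
      rw [Real.log_pow] at h5
      have h6 := Real.log_two_gt_d9
      nlinarith [Nat.cast_nonneg (α := ℝ) m]
    have h7 : 0 ≤ x ^ (1 - δ) := Real.rpow_nonneg (by linarith) _
    nlinarith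
  have hc00 : 0 ≤ c0 := by rw [hc0]; positivity
  obtain ⟨x, h1, h2, h3, h4⟩ := ((hF (δ / 2) (by linarith)).and_eventually
    ((Pool.Agent.H410R2.ev_polylog (c0 + 9) 1 (1 - δ) (1 - δ / 2) (by linarith)).and
      ((eventually_ge_atTop (X0 + 1)).and (eventually_ge_atTop (Real.exp 1))))).exists
  have hx2 : 2 ≤ x := by linarith
  have hx0 : 0 < x := by linarith
  have hL : 1 ≤ Real.log x := by
    rw [← Real.log_exp 1]
    exact Real.log_le_log (Real.exp_pos 1) h4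
  have hX : 1 ≤ x ^ (1 - δ) := Real.one_le_rpow (by linarith) (by linarith)
  have h5 := hup (2 * x) (by linarith)
  have h6 : ({n : ℕ | n ∈ F ∧ (n : ℝ) ≤ x}.ncard : ℝ) ≤ ({n : ℕ | n ∈ F ∧ (n : ℝ) < 2 * x}.ncard : ℝ) := by
    have hsub : {n : ℕ | n ∈ F ∧ (n : ℝ) ≤ x} ⊆ {n : ℕ | n ∈ F ∧ (n : ℝ) < 2 * x} :=
      fun n hn => ⟨hn.1, by have := hn.2; linarith⟩
    exact_mod_cast Set.ncard_le_ncard hsub (hfin _)
  have h7 : Real.log (2 * x) ≤ 2 * Real.log x := by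
    have h8 : 2 * x ≤ x ^ 2 := by nlinarith
    have h9 := Real.log_le_log (by linarith) h8
    rw [Real.log_pow] at h9
    exact_mod_cast h9
  have h8 : (2 * x) ^ (1 - δ) ≤ 2 * x ^ (1 - δ) := by
    rw [Real.mul_rpow (by norm_num) hx0.le]
    apply mul_le_mul_of_nonneg_right _ (by positivity)
    calc (2 : ℝ) ^ (1 - δ) ≤ 2 ^ (1 : ℝ) := Real.rpow_le_rpow_of_exponent_le (by norm_num) (by linarith)
      _ = 2 := Real.rpow_one 2
  have h9 : 2 * Real.log (2 * x) * (2 * x) ^ (1 - δ) ≤ (4 * Real.log x) * (2 * x ^ (1 - δ)) :=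
    mul_le_mul (by linarith) h8 (by positivity) (by linarith)
  rw [pow_one] at h2
  have h10 : 1 ≤ Real.log x * x ^ (1 - δ) := by nlinarith
  nlinarith

end Pool.Agent.H732R3.BigQ
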