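import Mathlib
import Pool.Agent.H362R2.CM.Final

/-! Coloured Maynard-Tao with a lower bound `x ^ (1 - η)` for the number of good `n ≤ x`. -/

namespace Pool.Agent.H732R3.CMQ

open Finset Filter Topology
open Pool.Agent.H410R2 hiding GP GP_prof GP_cut_some GP_cut_none GP_lip gg_pos gg_le_one gg_anti ee_bound ee_nonneg gg_lip LB_gg LB_ee Sums exists_sums yx wx wxi Br sum_GP_none sum_GP_some sum_GP_some_ee sum_GP_some_one sum_GPr_none sum_GPr_some S1_final QI_final S2_final w_abs_le wmax gg ee I1 I2 IE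
open Pool.Agent.H361R2.GM
open Pool.Agent.H362R2.CM


/-- the final counting argument with an exceptional set -/
theorem count_exc {T k : ℕ} (cl : Fin k → Fin T) (N : Finset ℕ) (u : ℕ → ℝ)
    (hu : ∀ n ∈ N, 0 ≤ u n) (pr : Fin k → ℕ → Prop) [∀ i n, Decidable (pr i n)] (M : ℕ)
    (E : Finset ℕ)
    (hM : ∀ n ∈ N, n ∉ E → (univ.filter (fun g : Fin T => ∃ i, cl i = g ∧ pr i n)).card ≤ M) :
    ∑ g : Fin T, (∑ n ∈ N, if ∃ i ∈ univ.filter (fun i => cl i = g), pr i n then u n else 0) ≤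
      M * ∑ n ∈ N, u n + T * ∑ n ∈ N.filter (fun n => n ∈ E), u n := by
  classical
  rw [Finset.sum_comm, Finset.mul_sum, Finset.mul_sum, Finset.sum_filter,
    ← Finset.sum_add_distrib]
  apply Finset.sum_le_sum
  intro n hn
  have hun := hu n hn
  have e1 : (∑ g : Fin T, if ∃ i ∈ univ.filter (fun i => cl i = g), pr i n then u n else 0) =
      ((univ.filter (fun g : Fin T => ∃ i, cl i = g ∧ pr i n)).card : ℝ) * u n := by
    rw [← Finset.sum_filter, Finset.sum_const, nsmul_eq_mul]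
    congr 3
    ext g
    simp
  rw [e1]
  by_cases h : n ∈ E
  · rw [if_pos h]
    have h1 : ((univ.filter (fun g : Fin T => ∃ i, cl i = g ∧ pr i n)).card : ℝ) ≤ T := by
      have h2 := Finset.card_filter_le (univ : Finset (Fin T))
        (fun g : Fin T => ∃ i, cl i = g ∧ pr i n)
      rw [Finset.card_univ, Fintype.card_fin] at h2
      exact_mod_cast h2
    have h3 : 0 ≤ (M : ℝ) * u n := by positivity
    have h4 := mul_le_mul_of_nonneg_right h1 hun
    linarith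
  · rw [if_neg h, add_zero]
    apply mul_le_mul_of_nonneg_right _ hun
    exact_mod_cast hM n hn h

theorem core_quant_of (hT1 : S1Upper) (hT2 : S2Approx) (hT3 : S2Model) (hBV : BVAP) (hPNT : PNTLog)
    (hPB : ProdBound) (hOB : OmegaBound) (hOD : OneDim) (hTail : TailBound) (hAri : AriSetup)
    (T M : ℕ) (hTM : 4 * M < T) :
    ∃ K : ℕ, 2 ≤ K ∧ ∀ (a b : Fin (T * K) → ℕ) (cl : Fin (T * K) → Fin T),
      (∀ g, (univ.filter (fun i => cl i = g)).card = K) → (∀ i, 1 ≤ a i) → (∀ i, 1 ≤ b i) →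
      (∀ i j, i ≠ j → a i * b j ≠ a j * b i) →
      (∀ p : ℕ, p.Prime → ∃ n : ℕ, ¬ p ∣ n ∧ ∀ i, ¬ p ∣ a i * n + b i) →
      ∀ η : ℝ, 0 < η → ∀ᶠ x : ℝ in atTop, x ^ (1 - η) ≤ (((Icc 1 ⌊x⌋₊).filter (fun n : ℕ =>
        M + 1 ≤ (univ.filter (fun g : Fin T => ∃ i, cl i = g ∧ (a i * n + b i).Prime)).card)).card : ℝ) := by
  classical
  obtain ⟨K, Q, ρ, ε, hK, hρ, hρ1, hε, hε1, hI1, hI2, hBr, hnum⟩ := num_all T M hTM
  refine ⟨K, hK, ?_⟩
  set k := T * K with hk
  intro a b cl hcl ha hb hnp hadm η hη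
  have hT0 : 0 < T := by omega
  have hI2p : 0 < Q.I2 := hε.trans hI2
  have hI1p : 0 < Q.I1 := hε.trans hI1
  have h1ε : 0 < 1 - ε := by linarith
  have hI1ε : 0 < Q.I1 - ε := by linarith
  have h14 : 0 < 1 / 4 - 2 * ρ := by linarith
  have hKp : (0 : ℝ) < K := by exact_mod_cast (by omega : 0 < K)
  have hAc : 0 < Ac Q k ε := by unfold Ac; positivity
  have hβc : 0 < βc Q k ε := by unfold βc; positivity
  have hγc : 0 < γc Q k ρ ε := by unfold γc; positivity
  -- choice of `D`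
  obtain ⟨D2, hctx⟩ := exists_ctx hAri a b ha hb hnp hadm
  obtain ⟨D3, hκ⟩ := κ1_of hTail k ε hε
  obtain ⟨D4, hov⟩ := ovl_of hTail k ε hε
  obtain ⟨D5, hκ3⟩ := κ3_of hTail k ε hε
  obtain ⟨D6, hsum⟩ := sums_all Q hOD (k + 1) ε hε ρ hρ hρ1
  set D := D2 + D3 + D4 + D5 + D6 with hD
  obtain ⟨v, hc⟩ := hctx D (by omega)
  have hκ := hκ D (by omega)
  have hov := hov D (by omega)
  have hκ3 := hκ3 D (by omega)
  have hsum := hsum D (by omega)
  have hsingle := single_bound Q hT2 hT3 hBV hPNT hPB hOB hc ρ hρ hρ1 ε hε hε1 hI1 hI2 hBr hκ hov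
    (hsum.mono fun x hx => hx.1)
  have hpair := pair_bound Q hT2 hBV hPNT hPB hOB hc ρ hρ hρ1 ε hε hε1 hI1p hI2p hκ3
    (hsum.mono fun x hx => hx.2)
  have hptw := ptw Q hPB hOB hc ρ hρ hρ1 (η / 4) (by linarith)
  set A0 : ℝ := (1 / 3 + ε) * (Q.I2 + ε) ^ k with hA0
  have hA0p : 0 < A0 := by positivity
  filter_upwards [hsingle, hpair, hptw, hsum, E1_le hPB ρ hρ hρ1 k D,
    Q1_large ρ hρ k D hc.hW hc.BDpos (1 / (ε * A0)),
    Q1_large ρ hρ k D hc.hW hc.BDpos (1 / (ε * Ac Q k ε)),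
    ev_polylog T 1 (1 - η + η / 4) 1 (by linarith), eventually_gt_atTop (1 : ℝ)]
    with x hsingle hpair hptw hsum hE1 hQa hQb hpl hx
  set E : Finset ℕ := (Icc 1 ⌊x⌋₊).filter (fun n : ℕ =>
    M + 1 ≤ (univ.filter (fun g : Fin T => ∃ i, cl i = g ∧ (a i * n + b i).Prime)).card) with hE
  by_contra hcon
  push Not at hcon
  have hx0 : 0 < x := by linarith
  have hlx : 0 < Real.log x := Real.log_pos hx
  have hL : 0 < Lr ρ x := by unfold Lr; positivity
  set L := Lr ρ x with hLd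
  set P := Pr D x with hPd
  have hP : ∀ p ∈ P, p.Prime ∧ D < p := Pr_prime D x
  set Z := Q1 k D x L with hZ
  have hZA0 : x ≤ Z * (ε * A0) := by
    have h4 : 0 < ε * A0 := by positivity
    have := mul_le_mul_of_nonneg_right hQa h4.le
    calc x = 1 / (ε * A0) * x * (ε * A0) := by field_simp
      _ ≤ _ := this
  have hZA : x ≤ Z * (ε * Ac Q k ε) := by
    have h4 : 0 < ε * Ac Q k ε := by positivity
    have := mul_le_mul_of_nonneg_right hQb h4.le
    calc x = 1 / (ε * Ac Q k ε) * x * (ε * Ac Q k ε) := by field_simp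
      _ ≤ _ := this
  have hZ0 : 0 < Z := by
    have h4 : 0 < ε * A0 := by positivity
    by_contra h
    have h5 : Z * (ε * A0) ≤ 0 := mul_nonpos_of_nonpos_of_nonneg (not_lt.1 h) h4.le
    linarith
  set N := (Icc 1 ⌊x⌋₊).filter (fun n => n ≡ v [MOD (WW D)]) with hN
  set u : ℕ → ℝ := fun n => Real.log (x / n) * (wP Q a b P L n) ^ 2 with hu
  have hNm : ∀ n ∈ Icc 1 ⌊x⌋₊, 1 ≤ n ∧ (n : ℝ) ≤ x := by
    intro n hn
    rw [Finset.mem_Icc] at hn
    exact ⟨hn.1, (Nat.cast_le.2 hn.2).trans (Nat.floor_le hx0.le)⟩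
  have hu0 : ∀ n ∈ N, 0 ≤ u n := by
    intro n hn
    obtain ⟨h1, h2⟩ := hNm n (Finset.mem_filter.1 hn).1
    have hn0 : (0 : ℝ) < n := by exact_mod_cast h1
    apply mul_nonneg _ (sq_nonneg _)
    apply Real.log_nonneg
    rw [le_div_iff₀ hn0]
    linarith
  -- total mass
  have hS1 : ∑ n ∈ N, u n ≤ Z * Ac Q k ε := by
    have h1 := S1_P Q hT1 hc ε hε hI2p x hx L hL P hP hsum.1
    have h2 : x ^ (1 / 2 : ℝ) ≤ x := by
      calc x ^ (1 / 2 : ℝ) ≤ x ^ (1 : ℝ) := Real.rpow_le_rpow_of_exponent_le hx.le (by norm_num)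
        _ = x := Real.rpow_one x
    calc ∑ n ∈ N, u n ≤ Z * A0 + (Real.log x + 1) * (Real.exp (L / 48 + L) *
          ∏ t : IP P, (1 + 3 * ((k + 1 : ℕ) : ℝ) / (prP P t : ℝ))) ^ 2 := h1
      _ ≤ Z * A0 + Z * (ε * A0) := by linarith
      _ = Z * Ac Q k ε := by unfold Ac; rw [hA0]; ring
  -- classes
  have hclass : ∀ g : Fin T, (K * (Z * (ρ * βc Q k ε))) ^ 2 ≤
      (∑ n ∈ N, if ∃ i ∈ univ.filter (fun i => cl i = g), (a i * n + b i).Prime then u n else 0) *
      (K * (Z * (ρ * βc Q k ε)) + (K : ℝ) ^ 2 * (Z * γc Q k ρ ε)) := by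
    intro g
    have h1 := cs_class N u hu0 (univ.filter (fun i => cl i = g))
      (fun i n => (a i * n + b i).Prime) (Z * (ρ * βc Q k ε)) (Z * γc Q k ρ ε) (by positivity)
      (by positivity) (by
        intro i _
        refine (hsingle i).trans (le_of_eq ?_)
        rw [hN, ← Finset.sum_filter, Finset.filter_filter]) (by
        intro i _ j _ hij
        refine le_trans (le_of_eq ?_) (hpair i j hij)
        rw [hN, ← Finset.sum_filter, Finset.filter_filter]) (by rw [hcl g]; omega)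
    rw [hcl g] at h1
    exact h1
  have hcount := count_exc cl N u hu0 (fun i n => (a i * n + b i).Prime) M E (by
    intro n hn hnE
    by_contra h
    apply hnE
    rw [hE, Finset.mem_filter]
    exact ⟨(Finset.mem_filter.1 hn).1, by omega⟩)
  -- small `n`
  have hsmall : T * ∑ n ∈ N.filter (fun n => n ∈ E), u n ≤ Z * (ε * Ac Q k ε) := by
    refine le_trans ?_ hZA
    have h1 : ∑ n ∈ N.filter (fun n => n ∈ E), u n ≤ x ^ (1 - η) * (Real.log x * x ^ (η / 4)) := by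
      have h2 : ∑ n ∈ N.filter (fun n => n ∈ E), u n ≤
          ∑ _n ∈ N.filter (fun n => n ∈ E), Real.log x * x ^ (η / 4) := by
        apply Finset.sum_le_sum
        intro n hn
        obtain ⟨h1, h2⟩ := hNm n (Finset.mem_filter.1 (Finset.mem_filter.1 hn).1).1
        have hn1 : (1 : ℝ) ≤ n := by exact_mod_cast h1
        simp only [hu]
        apply mul_le_mul _ (hptw n h1 h2).1 (sq_nonneg _) hlx.le
        apply Real.log_le_log (by positivity)
        exact div_le_self hx0.le hn1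
      refine h2.trans ?_
      rw [Finset.sum_const, nsmul_eq_mul]
      apply mul_le_mul_of_nonneg_right _ (by positivity)
      have h3 : N.filter (fun n => n ∈ E) ⊆ E := by
        intro n hn
        exact (Finset.mem_filter.1 hn).2
      have h4 : ((N.filter (fun n => n ∈ E)).card : ℝ) ≤ E.card := by
        exact_mod_cast Finset.card_le_card h3
      exact h4.trans hcon.le
    calc T * ∑ n ∈ N.filter (fun n => n ∈ E), u n
        ≤ T * (x ^ (1 - η) * (Real.log x * x ^ (η / 4))) := by gcongr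
      _ = T * (Real.log x) ^ 1 * x ^ (1 - η + η / 4) := by
          rw [Real.rpow_add hx0]; ring
      _ ≤ x ^ (1 : ℝ) := hpl
      _ = x := Real.rpow_one x
  -- combine
  set q : Fin T → ℝ := fun g =>
    ∑ n ∈ N, if ∃ i ∈ univ.filter (fun i => cl i = g), (a i * n + b i).Prime then u n else 0 with hq
  set α : ℝ := K * (ρ * βc Q k ε) with hα
  set G : ℝ := (K : ℝ) ^ 2 * γc Q k ρ ε with hG
  have hαp : 0 < α := by positivity
  have hGp : 0 < G := by positivity
  have hclass' : ∀ g : Fin T, Z * α ^ 2 ≤ q g * (α + G) := by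
    intro g
    have h1 := hclass g
    have e1 : (K * (Z * (ρ * βc Q k ε))) ^ 2 = Z * (Z * α ^ 2) := by rw [hα]; ring
    have e2 : (K * (Z * (ρ * βc Q k ε)) + (K : ℝ) ^ 2 * (Z * γc Q k ρ ε)) = Z * (α + G) := by
      rw [hα, hG]; ring
    rw [e1, e2] at h1
    have h2 : Z * (Z * α ^ 2) ≤ Z * (q g * (α + G)) := by
      refine h1.trans (le_of_eq ?_)
      simp only [hq]
      ring
    exact le_of_mul_le_mul_left h2 hZ0
  have hsumq : T * (Z * α ^ 2) ≤ (∑ g, q g) * (α + G) := by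
    rw [Finset.sum_mul]
    have h1 := Finset.card_nsmul_le_sum (univ : Finset (Fin T)) (fun g => q g * (α + G))
      (Z * α ^ 2) (fun g _ => hclass' g)
    rw [Finset.card_univ, Fintype.card_fin, nsmul_eq_mul] at h1
    exact h1
  have hq2 : ∑ g, q g ≤ Z * ((M * (1 + ε) + ε) * Ac Q k ε) := by
    have h1 : (M : ℝ) * ∑ n ∈ N, u n ≤ M * (Z * Ac Q k ε) :=
      mul_le_mul_of_nonneg_left hS1 (Nat.cast_nonneg _)
    have h2 : (0 : ℝ) ≤ M * ε * (Z * Ac Q k ε) := by positivity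
    calc ∑ g, q g ≤ M * ∑ n ∈ N, u n + T * ∑ n ∈ N.filter (fun n => n ∈ E), u n := hcount
      _ ≤ M * (Z * Ac Q k ε) + Z * (ε * Ac Q k ε) := by linarith
      _ ≤ M * (Z * Ac Q k ε) + Z * (ε * Ac Q k ε) + M * ε * (Z * Ac Q k ε) := by linarith
      _ = _ := by ring
  have hfin : T * (Z * α ^ 2) ≤ Z * ((M * (1 + ε) + ε) * Ac Q k ε) * (α + G) :=
    hsumq.trans (mul_le_mul_of_nonneg_right hq2 (by positivity))
  have hfin2 : Z * (T * α ^ 2) ≤ Z * ((M * (1 + ε) + ε) * Ac Q k ε * (α + G)) := by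
    calc Z * (T * α ^ 2) = T * (Z * α ^ 2) := by ring
      _ ≤ _ := hfin
      _ = _ := by ring
  have hfin3 := le_of_mul_le_mul_left hfin2 hZ0
  linarith


theorem core_quant (T M : ℕ) (hTM : 4 * M < T) :
    ∃ K : ℕ, 2 ≤ K ∧ ∀ (a b : Fin (T * K) → ℕ) (cl : Fin (T * K) → Fin T),
      (∀ g, (univ.filter (fun i => cl i = g)).card = K) → (∀ i, 1 ≤ a i) → (∀ i, 1 ≤ b i) →
      (∀ i j, i ≠ j → a i * b j ≠ a j * b i) →
      (∀ p : ℕ, p.Prime → ∃ n : ℕ, ¬ p ∣ n ∧ ∀ i, ¬ p ∣ a i * n + b i) →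
      ∀ η : ℝ, 0 < η → ∀ᶠ x : ℝ in atTop, x ^ (1 - η) ≤ (((Icc 1 ⌊x⌋₊).filter (fun n : ℕ =>
        M + 1 ≤ (univ.filter (fun g : Fin T => ∃ i, cl i = g ∧ (a i * n + b i).Prime)).card)).card : ℝ) :=
  core_quant_of Pool.Agent.H361R2.s1Upper Pool.Agent.H732R2.s2Approx Pool.Agent.H361R2.s2Model bvap
    Pool.Agent.H732R2.pntLog Pool.Agent.H361R2.prodBound Pool.Agent.H361R2.omegaBound
    Pool.Agent.H399R2.oneDim Pool.Agent.H361R2.tailBound Pool.Agent.H398R2.ariSetup T M hTM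

end Pool.Agent.H732R3.CMQ
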