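import Pool.Agent.H732R3.BigR

/-!
Systems of linear forms up to bounded affine perturbations: arithmetic lemmas.
-/

namespace Pool.Agent.H732R3.DickS

open Finset

/-- avoiding the roots of few forms modulo a prime -/
theorem exists_avoid {ι : Type*} [Fintype ι] {p : ℕ} (hp : p.Prime) (hc : Fintype.card ι < p)
    (α β : ι → ℤ) (h : ∀ t, (p : ℤ) ∣ α t → ¬ (p : ℤ) ∣ β t) :
    ∃ m : ℤ, ∀ t, ¬ (p : ℤ) ∣ α t * m + β t := by
  classical
  have : Fact p.Prime := ⟨hp⟩
  set s : Finset (ZMod p) := univ.image fun t => -(β t : ZMod p) / (α t : ZMod p) with hs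
  have hcard : s.card < Fintype.card (ZMod p) := by
    calc s.card ≤ (univ : Finset ι).card := card_image_le
      _ = Fintype.card ι := rfl
      _ < p := hc
      _ = Fintype.card (ZMod p) := (ZMod.card p).symm
  obtain ⟨z, hz⟩ : ∃ z, z ∉ s := by
    by_contra hcon
    push Not at hcon
    have : s = univ := eq_univ_iff_forall.2 hcon
    rw [this, card_univ] at hcard
    exact lt_irrefl _ hcard
  refine ⟨(z.val : ℤ), fun t hd => ?_⟩
  have h1 : ((α t * (z.val : ℤ) + β t : ℤ) : ZMod p) = 0 := (ZMod.intCast_zmod_eq_zero_iff_dvd _ p).2 hd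
  push_cast at h1
  rw [ZMod.natCast_zmod_val] at h1
  by_cases h2 : (α t : ZMod p) = 0
  · have h3 : (p : ℤ) ∣ α t := (ZMod.intCast_zmod_eq_zero_iff_dvd _ p).1 h2
    rw [h2, zero_mul, zero_add] at h1
    exact h t h3 ((ZMod.intCast_zmod_eq_zero_iff_dvd _ p).1 h1)
  · apply hz
    rw [hs, mem_image]
    refine ⟨t, mem_univ _, ?_⟩
    rw [div_eq_iff h2]
    linear_combination -h1

/-- avoiding few primes in an arithmetic progression -/
theorem pick (P : Finset ℕ) (M : ℕ) (hPM : P.card ≤ M) (u v : ℤ)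
    (hP : ∀ p ∈ P, p.Prime ∧ M < p ∧ ¬ (p : ℤ) ∣ v) :
    ∃ l : ℕ, l ≤ M ∧ ∀ p ∈ P, ¬ (p : ℤ) ∣ u + v * l := by
  classical
  by_contra hcon
  push Not at hcon
  choose! f hf using hcon
  obtain ⟨l, hl, l', hl', hne, heq⟩ := Finset.exists_ne_map_eq_of_card_lt_of_maps_to
    (s := range (M + 1)) (t := P) (f := f) (by rw [card_range]; omega)
    (fun l hl => (hf l (by have := mem_range.1 hl; omega)).1)
  have hlM : l ≤ M := by have := mem_range.1 hl; omega
  have hlM' : l' ≤ M := by have := mem_range.1 hl'; omega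
  obtain ⟨h1, h2⟩ := hf l hlM
  obtain ⟨h3, h4⟩ := hf l' hlM'
  rw [← heq] at h4
  obtain ⟨hp, hMp, hpv⟩ := hP _ h1
  have hpp := Nat.prime_iff_prime_int.1 hp
  have h5 := dvd_sub h2 h4
  have h6 : u + v * (l : ℤ) - (u + v * (l' : ℤ)) = v * ((l : ℤ) - l') := by ring
  rw [h6] at h5
  rcases hpp.dvd_or_dvd h5 with h7 | h7
  · exact hpv h7
  · have h8 : |(l : ℤ) - l'| < f l := by
      have e1 : (l : ℤ) ≤ M := by exact_mod_cast hlM
      have e2 : (l' : ℤ) ≤ M := by exact_mod_cast hlM'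
      have e3 : (M : ℤ) < f l := by exact_mod_cast hMp
      rw [abs_lt]
      constructor <;> linarith [Nat.cast_nonneg (α := ℤ) l, Nat.cast_nonneg (α := ℤ) l']
    have h9 := Int.eq_zero_of_abs_lt_dvd h7 h8
    apply hne
    have : (l : ℤ) = l' := by linarith
    exact_mod_cast this

section compos

variable {k : ℕ} (a : ℕ → Fin (k + 1) → ℕ) (b : ℕ → Fin (k + 1) → ℤ)

/-- leading coefficient of the composition of the first `m` forms along the word `w` -/
def cA (w : ℕ → Fin (k + 1)) : ℕ → ℕ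
  | 0 => 1
  | m + 1 => cA w m * a m (w m)

/-- constant term of the composition of the first `m` forms along the word `w` -/
def cB (w : ℕ → Fin (k + 1)) : ℕ → ℤ
  | 0 => 0
  | m + 1 => cA a w m * b m (w m) + cB w m

theorem cA_pos (ha : ∀ j i, 1 ≤ a j i) (w : ℕ → Fin (k + 1)) (m : ℕ) : 0 < cA a w m := by
  induction m with
  | zero => simp [cA]
  | succ m ih => exact Nat.mul_pos ih (ha _ _)

theorem primes_card (ha : ∀ j i, 1 ≤ a j i) (r : ℕ) (hr : ∀ j i, (a j i).primeFactors.card ≤ r)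
    (w : ℕ → Fin (k + 1)) (m : ℕ) : (cA a w m).primeFactors.card ≤ m * r := by
  induction m with
  | zero => simp [cA]
  | succ m ih =>
    have h1 : cA a w (m + 1) = cA a w m * a m (w m) := rfl
    rw [h1, Nat.primeFactors_mul (cA_pos a ha w m).ne' (by have := ha m (w m); omega)]
    refine (card_union_le _ _).trans ?_
    have := hr m (w m)
    rw [Nat.succ_mul]
    omega

/-- splitting of the composition -/
theorem split (ha : ∀ j i, 1 ≤ a j i) (w0 : ℕ → Fin (k + 1)) (m d : ℕ) : ∃ (A' : ℕ) (B' : ℤ),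
    1 ≤ A' ∧ ∀ w : ℕ → Fin (k + 1), (∀ j, m ≤ j → w j = w0 j) →
      cA a w (m + d) = cA a w m * A' ∧ cB a b w (m + d) = cA a w m * B' + cB a b w m := by
  induction d with
  | zero => exact ⟨1, 0, le_rfl, fun w _ => by simp⟩
  | succ d ih =>
    obtain ⟨A', B', h1, h2⟩ := ih
    refine ⟨A' * a (m + d) (w0 (m + d)), A' * b (m + d) (w0 (m + d)) + B',
      Nat.mul_pos h1 (ha _ _), fun w hw => ?_⟩
    obtain ⟨h3, h4⟩ := h2 w hw
    have hwd := hw (m + d) (Nat.le_add_right _ _)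
    constructor
    · have h5 : cA a w (m + (d + 1)) = cA a w (m + d) * a (m + d) (w (m + d)) := rfl
      rw [h5, h3, hwd]
      ring
    · have h5 : cB a b w (m + (d + 1)) = cA a w (m + d) * b (m + d) (w (m + d)) + cB a b w (m + d) := rfl
      rw [h5, h3, h4, hwd]
      push_cast
      ring

theorem bound (ha : ∀ j i, 1 ≤ a j i) (D : ℕ → ℕ) (Λ μ : ℕ) (hD0 : Λ + μ ≤ D 0)
    (hDs : ∀ j, D j * (∑ i, (a j i + (b j i).natAbs) + 1) ≤ D (j + 1)) (w : ℕ → Fin (k + 1)) (m : ℕ) :
    Λ * cA a w m ≤ D m ∧ (Λ * cB a b w m).natAbs + μ ≤ D m := by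
  induction m with
  | zero => simp only [cA, cB]; constructor <;> simp <;> omega
  | succ m ih =>
    obtain ⟨h1, h2⟩ := ih
    have h3 : a m (w m) + (b m (w m)).natAbs ≤ ∑ i, (a m i + (b m i).natAbs) :=
      single_le_sum (f := fun i => a m i + (b m i).natAbs) (fun _ _ => Nat.zero_le _) (mem_univ _)
    set S := ∑ i, (a m i + (b m i).natAbs) with hS
    constructor
    · have h4 : cA a w (m + 1) = cA a w m * a m (w m) := rfl
      calc Λ * cA a w (m + 1) = (Λ * cA a w m) * a m (w m) := by rw [h4]; ring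
        _ ≤ D m * (S + 1) := Nat.mul_le_mul h1 (by omega)
        _ ≤ D (m + 1) := hDs m
    · have h4 : cB a b w (m + 1) = cA a w m * b m (w m) + cB a b w m := rfl
      have h5 : (Λ * cB a b w (m + 1)).natAbs ≤ (Λ * cA a w m) * (b m (w m)).natAbs +
          (Λ * cB a b w m).natAbs := by
        have e1 : (Λ : ℤ) * cB a b w (m + 1) = ((Λ * cA a w m : ℕ) : ℤ) * b m (w m) + Λ * cB a b w m := by
          rw [h4]; push_cast; ring
        rw [e1]
        refine (Int.natAbs_add_le _ _).trans ?_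
        rw [Int.natAbs_mul, Int.natAbs_natCast]
      calc (Λ * cB a b w (m + 1)).natAbs + μ
          ≤ (Λ * cA a w m) * (b m (w m)).natAbs + ((Λ * cB a b w m).natAbs + μ) := by omega
        _ ≤ D m * S + D m := Nat.add_le_add (Nat.mul_le_mul h1 (by omega)) h2
        _ = D m * (S + 1) := by ring
        _ ≤ D (m + 1) := hDs m

end compos

/-- coprime pairs with vanishing determinant coincide -/
theorem eq_of_det {α β α' β' : ℤ} (h : IsCoprime α β) (h' : IsCoprime α' β') (hα : 0 < α) (hα' : 0 < α')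
    (hdet : α * β' = α' * β) : α = α' ∧ β = β' := by
  have h1 : α ∣ α' := h.dvd_of_dvd_mul_right (Dvd.intro _ hdet)
  have h2 : α' ∣ α := h'.dvd_of_dvd_mul_right (Dvd.intro _ hdet.symm)
  have h3 : α = α' := Int.dvd_antisymm hα.le hα'.le h1 h2
  subst h3
  exact ⟨rfl, (mul_left_cancel₀ hα.ne' hdet).symm⟩

theorem coprime_of_primes {α β : ℤ} (hα : 0 < α) (h : ∀ p : ℕ, p.Prime → (p : ℤ) ∣ α → ¬ (p : ℤ) ∣ β) :
    IsCoprime α β := by
  rw [Int.isCoprime_iff_gcd_eq_one]
  by_contra hne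
  obtain ⟨p, hp, hpd⟩ := Nat.exists_prime_and_dvd hne
  have h1 : (p : ℤ) ∣ (Int.gcd α β : ℤ) := by exact_mod_cast hpd
  exact h p hp (h1.trans (Int.gcd_dvd_left α β)) (h1.trans (Int.gcd_dvd_right α β))

end Pool.Agent.H732R3.DickS
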