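import Pool.Agent.H732R3.AbsIP

/-!
The bounded perturbation theorem with exact patterns: all the other integers in a window of any given size are
composite, apart from a bounded number of positions.
-/

namespace Pool.Agent.H732R3.ExactE

open Finset Pool.Agent.H461R2.PD Pool.Agent.H602R3.Tup

/-- within distance `R` of `n` the primes are exactly the `n + y`, `y ∈ P` -/
def Exact (P : Finset ℤ) (R : ℕ) (n : ℕ) : Prop :=
  ∀ y : ℤ, |y| ≤ R → ((∃ p : ℕ, p.Prime ∧ (p : ℤ) = n + y) ↔ y ∈ P)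

/-- all positions -/
def Off {T K : ℕ} (off : Fin T → Fin K → ℤ) : Finset ℤ :=
  univ.image (fun x : Fin T × Fin K => off x.1 x.2)

theorem exact_R {T K : ℕ} (hq : ∀ (a b : Fin T → Fin K → ℤ), (∀ g i, 0 < a g i) →
    Function.Injective (fun x : Fin T × Fin K => (a x.1 x.2, b x.1 x.2)) →
    (∀ p : ℕ, p.Prime → ∃ n : ℤ, ∀ g i, ¬ ((p : ℤ) ∣ a g i * n + b g i)) →
    ∃ (S : Finset (Fin T)) (c : Fin T → Fin K), T ≤ 4 * S.card ∧
      {n : ℕ | ∀ g ∈ S, 0 < a g (c g) * (n : ℤ) + b g (c g) ∧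
        Prime (a g (c g) * (n : ℤ) + b g (c g))}.Infinite)
    (off : Fin T → Fin K → ℤ) (hinj : Function.Injective (fun x : Fin T × Fin K => off x.1 x.2))
    (hadm : ∀ p : ℕ, p.Prime → ∃ m : ℤ, ∀ g i, ¬ ((p : ℤ) ∣ m + off g i)) (R : ℕ) :
    ∃ (P : Finset ℤ) (S : Finset (Fin T)) (c : Fin T → Fin K), P ⊆ Off off ∧ T ≤ 4 * S.card ∧
      (∀ g ∈ S, off g (c g) ∈ P) ∧ {n : ℕ | Exact P R n}.Infinite := by
  classical
  have hOff : ∀ g i, off g i ∈ Off off := fun g i => mem_image.2 ⟨(g, i), mem_univ _, rfl⟩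
  set X : ℕ := R + ∑ y ∈ Off off, y.natAbs with hX
  have hXoff : ∀ y ∈ Off off, |y| + R ≤ X := by
    intro y hy
    have h1 : y.natAbs ≤ ∑ y ∈ Off off, y.natAbs :=
      single_le_sum (f := fun y : ℤ => y.natAbs) (fun _ _ => Nat.zero_le _) hy
    rw [Int.abs_eq_natAbs, hX]
    push_cast
    have : (y.natAbs : ℤ) ≤ ∑ y ∈ Off off, (y.natAbs : ℤ) := by exact_mod_cast h1
    linarith
  have hpinf : {p : ℕ | p.Prime ∧ X < p}.Infinite := by
    rw [Set.infinite_iff_exists_gt]
    intro N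
    obtain ⟨p, hp1, hp2⟩ := Nat.exists_infinite_primes (N + X + 1)
    exact ⟨p, ⟨hp2, by omega⟩, by omega⟩
  let emb := Set.Infinite.natEmbedding _ hpinf
  let pr : ℤ → ℕ := fun y => (emb ((y + R).toNat)).1
  have hpr : ∀ y, (pr y).Prime ∧ X < pr y := fun y => (emb ((y + R).toNat)).2
  set B : Finset ℤ := (Icc (-(R : ℤ)) R).filter (fun y => y ∉ Off off) with hB
  have hprinj : ∀ y ∈ B, ∀ y' ∈ B, pr y = pr y' → y = y' := by
    intro y hy y' hy' h
    have h1 := emb.injective (Subtype.ext h)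
    have h2 := mem_Icc.1 (mem_filter.1 hy).1
    have h3 := mem_Icc.1 (mem_filter.1 hy').1
    have h4 : ((y + R).toNat : ℤ) = ((y' + R).toNat : ℤ) := by exact_mod_cast h1
    rw [Int.toNat_of_nonneg (by linarith [h2.1]), Int.toNat_of_nonneg (by linarith [h3.1])] at h4
    linarith
  set q' : ℕ := ∏ y ∈ B, pr y with hq'
  have hq'0 : 0 < q' := prod_pos fun y _ => (hpr y).1.pos
  have hpair : Set.Pairwise (B : Set ℤ) (Function.onFun Nat.Coprime pr) := by
    intro y hy y' hy' hne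
    exact (Nat.coprime_primes (hpr y).1 (hpr y').1).2 fun h => hne (hprinj y hy y' hy' h)
  obtain ⟨ν, hν⟩ := Nat.chineseRemainderOfFinset (fun y : ℤ => ((-y) % pr y).toNat) pr B
    (fun y _ => (hpr y).1.ne_zero) hpair
  have hνd : ∀ y ∈ B, (pr y : ℤ) ∣ (ν : ℤ) + y := by
    intro y hy
    have h1 := hν y hy
    have h2 : (pr y : ℤ) ∣ (((-y) % pr y).toNat : ℤ) - (ν : ℤ) := Nat.modEq_iff_dvd.1 h1
    rw [Int.toNat_of_nonneg (Int.emod_nonneg _ (by exact_mod_cast (hpr y).1.ne_zero))] at h2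
    have h3 : (pr y : ℤ) ∣ (-y) - (-y) % pr y := Int.dvd_self_sub_emod
    have h4 := dvd_add h2 h3
    have h5 : ((-y) % (pr y : ℤ) - (ν : ℤ)) + ((-y) - (-y) % pr y) = -((ν : ℤ) + y) := by ring
    rw [h5] at h4
    exact (dvd_neg).1 h4
  obtain ⟨S, c, hS, hinf⟩ := hq (fun _ _ => (q' : ℤ)) (fun g i => ν + off g i)
    (fun _ _ => by exact_mod_cast hq'0)
    (by
      intro x y hxy
      simp only [Prod.mk.injEq, true_and, add_right_inj] at hxy
      exact hinj hxy)
    (by
      intro p hp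
      have hpp := Nat.prime_iff_prime_int.1 hp
      by_cases hpB : ∃ y ∈ B, pr y = p
      · obtain ⟨y, hy, rfl⟩ := hpB
        refine ⟨0, fun g i hd => ?_⟩
        rw [mul_zero, zero_add] at hd
        have h1 := dvd_sub hd (hνd y hy)
        have h2 : (ν : ℤ) + off g i - (ν + y) = off g i - y := by ring
        rw [h2] at h1
        have h3 := hXoff _ (hOff g i)
        have h4 := mem_Icc.1 (mem_filter.1 hy).1
        have h5 : |off g i - y| < pr y := by
          have h6 : (X : ℤ) < pr y := by exact_mod_cast (hpr y).2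
          have h7 : |y| ≤ R := abs_le.2 h4
          calc |off g i - y| ≤ |off g i| + |y| := abs_sub _ _
            _ < pr y := by linarith
        have h8 : off g i - y = 0 := Int.eq_zero_of_abs_lt_dvd h1 h5
        have h9 : y = off g i := by linarith
        exact (mem_filter.1 hy).2 (h9 ▸ hOff g i)
      · have hpq : ¬ (p : ℤ) ∣ (q' : ℤ) := by
          intro hd
          rw [hq'] at hd
          push_cast at hd
          obtain ⟨y, hy, hdy⟩ := (Prime.dvd_finsetProd_iff hpp _).1 hd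
          exact hpB ⟨y, hy, ((Nat.prime_dvd_prime_iff_eq hp (hpr y).1).1 (by exact_mod_cast hdy)).symm⟩
        have hcop : IsCoprime (q' : ℤ) (p : ℤ) := by
          rw [isCoprime_comm]
          exact (Prime.coprime_iff_not_dvd hpp).2 hpq
        obtain ⟨u, w, huw⟩ := hcop
        obtain ⟨m0, hm0⟩ := hadm p hp
        refine ⟨u * (m0 - ν), fun g i hd => hm0 g i ?_⟩
        have e1 : (q' : ℤ) * (u * (m0 - ν)) + (ν + off g i) =
            (m0 + off g i) + (-(w * (m0 - ν))) * p := by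
          have : u * (q' : ℤ) = 1 - w * p := by linarith
          calc (q' : ℤ) * (u * (m0 - ν)) + (ν + off g i)
              = (u * q') * (m0 - ν) + (ν + off g i) := by ring
            _ = _ := by rw [this]; ring
        rw [e1] at hd
        exact (dvd_add_left (Dvd.intro_left _ rfl)).1 hd)
  -- large elements
  set big : ℕ := R + ∑ y ∈ B, pr y with hbig
  set A : Set ℕ := {m : ℕ | (∀ g ∈ S, 0 < (q' : ℤ) * m + (ν + off g (c g)) ∧
      Prime ((q' : ℤ) * m + (ν + off g (c g)))) ∧ big < m} with hA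
  have hAinf : A.Infinite := by
    have h1 : {m : ℕ | ∀ g ∈ S, 0 < (q' : ℤ) * m + (ν + off g (c g)) ∧
      Prime ((q' : ℤ) * m + (ν + off g (c g)))} ⊆ A ∪ Set.Iic big := by
      intro m hm
      by_cases h : big < m
      · exact Or.inl ⟨hm, h⟩
      · exact Or.inr (not_lt.1 h)
    intro hfin
    exact hinf ((hfin.union (Set.finite_Iic big)).subset h1)
  let PP : ℕ → Finset ℤ := fun m => (Off off).filter
    (fun y => ∃ p : ℕ, p.Prime ∧ (p : ℤ) = ((q' * m + ν : ℕ) : ℤ) + y)
  obtain ⟨P, hPsub, hPinf⟩ : ∃ P ∈ (Off off).powerset, {m ∈ A | PP m = P}.Infinite := by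
    by_contra hcon
    push Not at hcon
    apply hAinf
    have h1 : A ⊆ ⋃ P ∈ (Off off).powerset, {m ∈ A | PP m = P} := by
      intro m hm
      exact Set.mem_iUnion₂.2 ⟨PP m, mem_powerset.2 (filter_subset _ _), hm, rfl⟩
    exact (Set.Finite.biUnion (Finset.finite_toSet _) (fun P hP => hcon P hP)).subset h1
  refine ⟨P, S, c, mem_powerset.1 hPsub, hS, ?_, ?_⟩
  · intro g hg
    obtain ⟨m, ⟨hm1, _⟩, hm2⟩ := hPinf.nonempty
    rw [← hm2]
    refine mem_filter.2 ⟨hOff g (c g), ?_⟩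
    obtain ⟨h1, h2⟩ := hm1 g hg
    refine ⟨((q' : ℤ) * m + (ν + off g (c g))).toNat, ?_, ?_⟩
    · rw [Nat.prime_iff_prime_int, Int.toNat_of_nonneg h1.le]
      exact h2
    · rw [Int.toNat_of_nonneg h1.le]
      push_cast
      ring
  · have hinj2 : Set.InjOn (fun m : ℕ => q' * m + ν) {m ∈ A | PP m = P} := by
      intro m _ m' _ h
      simp only [add_left_inj] at h
      exact Nat.eq_of_mul_eq_mul_left hq'0 h
    refine (hPinf.image hinj2).mono ?_
    rintro _ ⟨m, ⟨⟨_, hmb⟩, hmP⟩, rfl⟩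
    intro y hy
    by_cases hyO : y ∈ Off off
    · rw [← hmP]
      constructor
      · intro h; exact mem_filter.2 ⟨hyO, h⟩
      · intro h; exact (mem_filter.1 h).2
    · have hyB : y ∈ B := mem_filter.2 ⟨mem_Icc.2 (abs_le.1 hy), hyO⟩
      constructor
      · rintro ⟨p, hp, hpe⟩
        exfalso
        have h1 : (pr y : ℤ) ∣ p := by
          rw [hpe]
          have h2 : (pr y : ℤ) ∣ (q' : ℤ) * m := by
            apply Dvd.dvd.mul_right
            rw [hq']
            exact_mod_cast Finset.dvd_prod_of_mem pr hyB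
          have h3 := dvd_add h2 (hνd y hyB)
          have h4 : ((q' * m + ν : ℕ) : ℤ) + y = (q' : ℤ) * m + (ν + y) := by push_cast; ring
          rw [h4]; exact h3
        have h5 : pr y = p := (Nat.prime_dvd_prime_iff_eq (hpr y).1 hp).1 (by exact_mod_cast h1)
        have h6 : pr y ≤ ∑ y ∈ B, pr y :=
          single_le_sum (f := pr) (fun _ _ => Nat.zero_le _) hyB
        have h7 : (p : ℤ) ≤ big - R := by
          rw [← h5, hbig]; push_cast
          have : (pr y : ℤ) ≤ ∑ y ∈ B, (pr y : ℤ) := by exact_mod_cast h6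
          linarith
        have h8 : (m : ℤ) ≤ q' * m := le_mul_of_one_le_left (by positivity) (by exact_mod_cast hq'0)
        have h9 : (big : ℤ) < m := by exact_mod_cast hmb
        have h10 := (abs_le.1 hy).1
        rw [hpe] at h7
        push_cast at h7
        have h11 : (0 : ℤ) ≤ ν := by positivity
        linarith
      · intro h
        exact absurd (mem_powerset.1 hPsub h) hyO

theorem Exact.anti {P : Finset ℤ} {R R' n : ℕ} (h : R ≤ R') (hE : Exact P R' n) : Exact P R n :=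
  fun y hy => hE y (hy.trans (by exact_mod_cast h))

/-- one pattern for all windows -/
theorem exact_all {T K : ℕ} (hq : ∀ (a b : Fin T → Fin K → ℤ), (∀ g i, 0 < a g i) →
    Function.Injective (fun x : Fin T × Fin K => (a x.1 x.2, b x.1 x.2)) →
    (∀ p : ℕ, p.Prime → ∃ n : ℤ, ∀ g i, ¬ ((p : ℤ) ∣ a g i * n + b g i)) →
    ∃ (S : Finset (Fin T)) (c : Fin T → Fin K), T ≤ 4 * S.card ∧
      {n : ℕ | ∀ g ∈ S, 0 < a g (c g) * (n : ℤ) + b g (c g) ∧
        Prime (a g (c g) * (n : ℤ) + b g (c g))}.Infinite)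
    (off : Fin T → Fin K → ℤ) (hinj : Function.Injective (fun x : Fin T × Fin K => off x.1 x.2))
    (hadm : ∀ p : ℕ, p.Prime → ∃ m : ℤ, ∀ g i, ¬ ((p : ℤ) ∣ m + off g i)) :
    ∃ (P : Finset ℤ) (S : Finset (Fin T)) (c : Fin T → Fin K), P ⊆ Off off ∧ T ≤ 4 * S.card ∧
      (∀ g ∈ S, off g (c g) ∈ P) ∧ ∀ R : ℕ, {n : ℕ | Exact P R n}.Infinite := by
  classical
  choose P S c hP hS hc hI using exact_R hq off hinj hadm
  let f : ℕ → {P // P ∈ (Off off).powerset} × Finset (Fin T) × (Fin T → Fin K) :=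
    fun R => (⟨P R, mem_powerset.2 (hP R)⟩, S R, c R)
  obtain ⟨y, hy⟩ := Finite.exists_infinite_fiber f
  have hy' : (f ⁻¹' {y}).Infinite := Set.infinite_coe_iff.1 hy
  obtain ⟨R0, hR0⟩ := hy'.nonempty
  refine ⟨P R0, S R0, c R0, hP R0, hS R0, hc R0, fun R => ?_⟩
  obtain ⟨R', hR', hlt⟩ := hy'.exists_gt R
  have h1 : f R' = f R0 := by rw [hR', hR0]
  have h2 : P R' = P R0 := congrArg (fun z => (z.1 : Finset ℤ)) h1
  have h3 := hI R'
  rw [h2] at h3
  exact h3.mono fun n hn => Exact.anti hlt.le hn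

/-- exact clusters -/
theorem clustersE (hQ : Quarter) (T : ℕ) : ∃ Q M : ℕ, 1 ≤ Q ∧ ∀ pos : Fin T → ℤ,
    ∃ (P : Finset ℤ) (S : Finset (Fin T)) (h : Fin T → ℤ), P.card ≤ M ∧ T ≤ 4 * S.card ∧
      Function.Injective h ∧ (∀ g, (Q : ℤ) * pos g ≤ h g ∧ h g < Q * pos g + Q) ∧
      (∀ g ∈ S, h g ∈ P) ∧ ∀ R : ℕ, {n : ℕ | Exact P R n}.Infinite := by
  classical
  obtain ⟨K, hK, hq⟩ := hQ T
  set W : ℕ := (T * K).factorial with hW
  have hWpos : 0 < W := Nat.factorial_pos _
  set Q : ℕ := W * (T * K + 1) with hQdef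
  have hQpos : 0 < Q := by positivity
  refine ⟨Q, T * K, hQpos, fun pos => ?_⟩
  set idx : Fin T × Fin K → ℕ := fun x => (finProdFinEquiv x : ℕ) with hidx
  have hidxlt : ∀ x, idx x < T * K := fun x => (finProdFinEquiv x).2
  have hoff : ∀ x, W * idx x < Q := by
    intro x
    rw [hQdef]
    exact Nat.mul_lt_mul_of_pos_left (by have := hidxlt x; omega) hWpos
  set b : Fin T → Fin K → ℤ := fun g i => (Q : ℤ) * pos g + (W * idx (g, i) : ℕ) with hb
  have hmod : ∀ g i, b g i % Q = (W * idx (g, i) : ℕ) := by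
    intro g i
    rw [hb]
    simp only
    rw [add_comm, Int.add_mul_emod_self_left]
    exact Int.emod_eq_of_lt (by positivity) (by exact_mod_cast hoff (g, i))
  have hbinj : ∀ g i g' i', b g i = b g' i' → (g, i) = (g', i') := by
    intro g i g' i' h
    have h1 : (W * idx (g, i) : ℕ) = W * idx (g', i') := by
      have h2 := hmod g i
      rw [h, hmod g' i'] at h2
      exact_mod_cast h2.symm
    have h3 : idx (g, i) = idx (g', i') := Nat.eq_of_mul_eq_mul_left hWpos h1
    exact finProdFinEquiv.injective (Fin.ext h3)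
  obtain ⟨P, S, c, hP, hS, hc, hE⟩ := exact_all hq b
    (fun x y h => hbinj _ _ _ _ h)
    (by
      intro p hp
      rcases Nat.lt_or_ge (T * K) p with h | h
      · exact exists_shift_int hp h b
      · refine ⟨1, fun g i hd => ?_⟩
        have hpW : (p : ℤ) ∣ (W : ℤ) := by exact_mod_cast (Nat.dvd_factorial hp.pos h)
        have hpb : (p : ℤ) ∣ b g i := by
          rw [hb]
          simp only
          push_cast
          rw [hQdef]
          push_cast
          apply dvd_add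
          · exact Dvd.dvd.mul_right (Dvd.dvd.mul_right hpW _) _
          · exact Dvd.dvd.mul_right hpW _
        exact (Nat.prime_iff_prime_int.1 hp).not_isUnit
          (isUnit_of_dvd_one ((dvd_add_left hpb).1 hd)))
  refine ⟨P, S, fun g => b g (c g), ?_, hS, ?_, ?_, hc, hE⟩
  · calc P.card ≤ (Off b).card := card_le_card hP
      _ ≤ (univ : Finset (Fin T × Fin K)).card := card_image_le
      _ = T * K := by simp
  · intro g g' h
    exact congrArg Prod.fst (hbinj _ _ _ _ h)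
  · intro g
    rw [hb]
    simp only
    have := hoff (g, c g)
    have h2 : ((W * idx (g, c g) : ℕ) : ℤ) < Q := by exact_mod_cast this
    exact ⟨by have : (0 : ℤ) ≤ ((W * idx (g, c g) : ℕ) : ℤ) := by positivity
              linarith, by linarith⟩

end Pool.Agent.H732R3.ExactE

namespace Pool.Agent.H732R3.ExactE

open Finset Pool.Agent.H461R2.PD

/-- Every vector is at a bounded distance from a subtuple of a pattern with a bounded number of elements which is
realised by isolated runs of consecutive primes. -/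
theorem exact_pattern (hQ : Quarter) (k : ℕ) : ∃ C M : ℕ, ∀ v : Fin k → ℤ,
    ∃ (H : Finset ℤ) (a : Fin k → ℤ), H.card ≤ M ∧ 0 ∈ H ∧ Function.Injective a ∧
      (∀ i, a i ∈ H ∧ a i ≠ 0 ∧ |a i - v i| ≤ C) ∧ ∀ R : ℕ, {n : ℕ | Exact H R n}.Infinite := by
  classical
  obtain ⟨T, hT⟩ := Pool.Agent.H732R3.AbsIP.syndetic k
  obtain ⟨Q, M, hQ1, hcl⟩ := clustersE hQ T
  obtain ⟨C, hC⟩ := hT (fun a => ∃ H : Finset ℤ, H.card ≤ M ∧ 0 ∈ H ∧ (∀ i, a i ∈ H) ∧
      ∀ R : ℕ, {n : ℕ | Exact H R n}.Infinite) (by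
    refine ⟨Q, hQ1, fun pos => ?_⟩
    obtain ⟨P, S, h, hPM, hS, hinj, hpos, hSP, hE⟩ := hcl pos
    refine ⟨S, h, hS, hinj, hpos, fun g0 hg0 g hg => ?_⟩
    refine ⟨P.image (fun y => y - h g0), card_image_le.trans hPM,
      mem_image.2 ⟨h g0, hSP g0 hg0, sub_self _⟩, fun i => mem_image.2 ⟨_, hSP _ (hg i), rfl⟩,
      fun R => ?_⟩
    have h1 := hE (R + (h g0).natAbs)
    have hpos' : ∀ n ∈ {n : ℕ | Exact P (R + (h g0).natAbs) n},
        ((((n : ℤ) + h g0).toNat : ℕ) : ℤ) = n + h g0 := by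
      intro n hn
      obtain ⟨p, hp, hpe⟩ := (hn (h g0) (by
        rw [Int.abs_eq_natAbs]; push_cast; linarith [Nat.cast_nonneg (α := ℤ) R])).2 (hSP g0 hg0)
      exact Int.toNat_of_nonneg (by rw [← hpe]; positivity)
    have hinj2 : Set.InjOn (fun n : ℕ => ((n : ℤ) + h g0).toNat)
        {n : ℕ | Exact P (R + (h g0).natAbs) n} := by
      intro n hn n' hn' hnn
      have e1 := hpos' n hn
      have e2 := hpos' n' hn'
      simp only at hnn
      rw [hnn, e2] at e1
      have : (n' : ℤ) = n := by linarith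
      exact_mod_cast this.symm
    refine (h1.image hinj2).mono ?_
    rintro _ ⟨n, hn, rfl⟩
    intro y hy
    rw [hpos' n hn]
    have h2 : |h g0 + y| ≤ ((R + (h g0).natAbs : ℕ) : ℤ) := by
      push_cast
      calc |h g0 + y| ≤ |h g0| + |y| := abs_add_le _ _
        _ ≤ _ := by linarith
    have h3 := hn (h g0 + y) h2
    rw [← add_assoc] at h3
    rw [h3]
    constructor
    · intro h4; exact mem_image.2 ⟨_, h4, by ring⟩
    · intro h4
      obtain ⟨z, hz, hzy⟩ := mem_image.1 h4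
      have : h g0 + y = z := by linarith
      rw [this]; exact hz)
  refine ⟨C, M, fun v => ?_⟩
  obtain ⟨a, hainj, ha0, haC, H, hHM, hH0, haH, hE⟩ := hC v
  exact ⟨H, a, hHM, hH0, hainj, fun i => ⟨haH i, ha0 i, haC i⟩, hE⟩

end Pool.Agent.H732R3.ExactE
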