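import Mathlib

set_option autoImplicit false

/-!
# Directional derivatives of polynomials and Taylor expansions
-/

open MvPolynomial

namespace Pool.Agent.H732R3.FI

variable {σ : Type*} [Fintype σ] {K : Type*} [Field K]

/-- The derivative in the direction of the vector `v`. -/
noncomputable def DD (v : σ → K) : Derivation K (MvPolynomial σ K) (MvPolynomial σ K) :=
  ∑ i, v i • pderiv i

theorem DD_apply (v : σ → K) (F : MvPolynomial σ K) : DD v F = ∑ i, v i • pderiv i F := by
  unfold DD
  have h : ((∑ i, v i • pderiv i : Derivation K (MvPolynomial σ K) (MvPolynomial σ K)) :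
      MvPolynomial σ K → MvPolynomial σ K) = ∑ i, ((v i • pderiv i :
        Derivation K (MvPolynomial σ K) (MvPolynomial σ K)) :
      MvPolynomial σ K → MvPolynomial σ K) :=
    map_sum (Derivation.coeFnAddMonoidHom) (fun i => v i • pderiv i) Finset.univ
  rw [h, Finset.sum_apply]
  rfl

theorem DD_X (v : σ → K) (j : σ) : DD v (X j) = C (v j) := by
  classical
  rw [DD_apply, Finset.sum_eq_single j]
  · rw [pderiv_X_self, MvPolynomial.smul_eq_C_mul, mul_one]
  · intro i _ hij
    rw [pderiv_X_of_ne (Ne.symm hij), smul_zero]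
  · intro h
    exact absurd (Finset.mem_univ _) h

theorem DD_C (v : σ → K) (a : K) : DD v (C a) = 0 := by
  have := (DD v).map_algebraMap a
  rwa [MvPolynomial.algebraMap_eq] at this

/-- The derivative in the direction of `v` as a linear endomorphism. -/
noncomputable def E (v : σ → K) : Module.End K (MvPolynomial σ K) := (DD v).toLinearMap

theorem E_apply (v : σ → K) (F : MvPolynomial σ K) : E v F = DD v F := rfl

theorem E_comm (v w : σ → K) : Commute (E v) (E w) := by
  have h : ⁅DD v, DD w⁆ = 0 := by
    apply MvPolynomial.derivation_ext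
    intro i
    rw [Derivation.commutator_apply, DD_X, DD_X, DD_C, DD_C, sub_zero]
    rfl
  change E v * E w = E w * E v
  apply LinearMap.ext
  intro F
  have h2 := congrArg (fun D : Derivation K (MvPolynomial σ K) (MvPolynomial σ K) => D F) h
  simp only [Derivation.commutator_apply] at h2
  have h3 : DD v (DD w F) - DD w (DD v F) = 0 := h2
  exact sub_eq_zero.mp h3

theorem E_hom (v : σ → K) {d : ℕ} {F : MvPolynomial σ K} (hF : F.IsHomogeneous (d + 1)) :
    (E v F).IsHomogeneous d := by
  rw [E_apply, DD_apply]
  refine IsHomogeneous.sum _ _ _ fun i _ => ?_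
  have := hF.pderiv (i := i)
  rw [Nat.add_sub_cancel] at this
  exact (homogeneousSubmodule σ K d).smul_mem _ this

theorem Epow_hom (v : σ → K) (N : ℕ) {d : ℕ} {F : MvPolynomial σ K}
    (hF : F.IsHomogeneous (d + N)) : ((E v ^ N) F).IsHomogeneous d := by
  induction N generalizing F with
  | zero => simpa using hF
  | succ N ih =>
    rw [pow_succ]
    exact ih (E_hom v (by rwa [← add_assoc] at hF))

theorem Epow_hom_zero (v : σ → K) (N : ℕ) {d : ℕ} (hd : d < N) {F : MvPolynomial σ K}
    (hF : F.IsHomogeneous d) : (E v ^ N) F = 0 := by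
  obtain ⟨k, rfl⟩ : ∃ k, N = k + 1 + d := ⟨N - 1 - d, by omega⟩
  rw [pow_add]
  have h0 : ((E v ^ d) F).IsHomogeneous 0 := Epow_hom v d (by simpa using hF)
  rw [Module.End.mul_apply, pow_succ, Module.End.mul_apply]
  have h1 : (E v ^ d) F = C (((E v ^ d) F).coeff 0) := by
    rw [← totalDegree_eq_zero_iff_eq_C]
    exact Nat.le_zero.mp h0.totalDegree_le
  rw [h1, E_apply, DD_C, map_zero]

/-- `D^k (x_i F) = x_i D^k F + k v_i D^(k-1) F`. -/
theorem Epow_X_mul (v : σ → K) (i : σ) (F : MvPolynomial σ K) (k : ℕ) :
    (E v ^ (k + 1)) (F * X i) = (E v ^ (k + 1)) F * X i + ((k + 1 : ℕ) : K) • v i • (E v ^ k) F := by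
  induction k with
  | zero =>
    simp only [zero_add, pow_one, pow_zero, Nat.cast_one, one_smul, E_apply, Module.End.one_apply]
    rw [Derivation.leibniz, DD_X, smul_eq_mul, smul_eq_mul, MvPolynomial.smul_eq_C_mul]
    ring
  | succ k ih =>
    have h0 : E v ((E v ^ k) F) = (E v ^ (k + 1)) F := by
      rw [pow_succ', Module.End.mul_apply]
    rw [pow_succ' _ (k + 1), Module.End.mul_apply, ih, map_add, map_smul, map_smul, h0, E_apply,
      Derivation.leibniz, DD_X, smul_eq_mul, smul_eq_mul]
    have h1 : (E v * E v ^ (k + 1)) F = DD v ((E v ^ (k + 1)) F) := rfl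
    rw [h1]
    generalize DD v ((E v ^ (k + 1)) F) = G2
    generalize (E v ^ (k + 1)) F = G1
    simp only [MvPolynomial.smul_eq_C_mul]
    push_cast
    simp only [map_add, map_one, map_natCast]
    ring

variable [CharZero K]

/-- Taylor expansion. -/
theorem taylor_coeff {A : Type*} [CommRing A] [Algebra K A] (w : σ → A) (v : σ → K)
    (F : MvPolynomial σ K) (k : ℕ) :
    (aeval (fun i => Polynomial.C (w i) + Polynomial.X * Polynomial.C (algebraMap K A (v i))) F :
      Polynomial A).coeff k = algebraMap K A ((k.factorial : K)⁻¹) * aeval w ((E v ^ k) F) := by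
  induction F using MvPolynomial.induction_on generalizing k with
  | C a =>
    rw [algHom_C]
    have h1 : (algebraMap K (Polynomial A)) a = Polynomial.C (algebraMap K A a) := rfl
    rw [h1, Polynomial.coeff_C]
    cases k with
    | zero => simp
    | succ k =>
      have h2 : (E v ^ (k + 1)) (C a) = 0 := by
        rw [pow_succ, Module.End.mul_apply, E_apply, DD_C, map_zero]
      rw [h2, map_zero, mul_zero, if_neg (by omega)]
  | add p q hp hq =>
    rw [map_add, Polynomial.coeff_add, hp, hq, map_add, map_add, mul_add]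
  | mul_X p i hp =>
    rw [map_mul, aeval_X, mul_add, Polynomial.coeff_add, Polynomial.coeff_mul_C, hp]
    have h1 : (aeval (fun i => Polynomial.C (w i) + Polynomial.X * Polynomial.C (algebraMap K A (v i)))
        p : Polynomial A) * (Polynomial.X * Polynomial.C (algebraMap K A (v i))) =
        (aeval (fun i => Polynomial.C (w i) + Polynomial.X * Polynomial.C (algebraMap K A (v i)))
        p : Polynomial A) * Polynomial.C (algebraMap K A (v i)) * Polynomial.X := by ring
    rw [h1]
    cases k with
    | zero => simp
    | succ k =>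
      rw [Polynomial.coeff_mul_X, Polynomial.coeff_mul_C, hp, Epow_X_mul, map_add, map_mul, aeval_X,
        map_smul, map_smul, Algebra.smul_def, Algebra.smul_def]
      have h2 : algebraMap K A ((k.factorial : K)⁻¹) =
          algebraMap K A (((k + 1).factorial : K)⁻¹) * algebraMap K A (((k + 1 : ℕ)) : K) := by
        rw [← map_mul]
        congr 1
        have h3 : ((k + 1 : ℕ) : K) ≠ 0 := Nat.cast_ne_zero.mpr (by omega)
        have h4 : (k.factorial : K) ≠ 0 := Nat.cast_ne_zero.mpr (Nat.factorial_ne_zero k)
        rw [Nat.factorial_succ, Nat.cast_mul]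
        field_simp
      rw [h2]
      ring

/-- Taylor expansion, evaluated. -/
theorem taylor_eval {A : Type*} [CommRing A] [Algebra K A] (w : σ → A) (v : σ → K) (a : A)
    (F : MvPolynomial σ K) (N : ℕ) (hN : ∀ k, N ≤ k → (E v ^ k) F = 0) :
    aeval (fun i => w i + a * algebraMap K A (v i)) F =
      ∑ k ∈ Finset.range N, algebraMap K A ((k.factorial : K)⁻¹) * aeval w ((E v ^ k) F) * a ^ k := by
  set P : Polynomial A := aeval (fun i => Polynomial.C (w i) +
    Polynomial.X * Polynomial.C (algebraMap K A (v i))) F with hP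
  have h1 : P.eval a = aeval (fun i => w i + a * algebraMap K A (v i)) F := by
    have h2 : (Polynomial.aeval a (R := A) : Polynomial A →ₐ[A] A).restrictScalars K P =
        aeval (fun i => w i + a * algebraMap K A (v i)) F := by
      rw [hP, AlgHom.restrictScalars_apply, ← AlgHom.restrictScalars_apply K,
        MvPolynomial.comp_aeval_apply]
      congr 2
      funext i
      rw [AlgHom.restrictScalars_apply, map_add, map_mul, Polynomial.aeval_C, Polynomial.aeval_C,
        Polynomial.aeval_X, Algebra.algebraMap_self_apply, Algebra.algebraMap_self_apply]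
    rw [← h2, AlgHom.restrictScalars_apply, Polynomial.coe_aeval_eq_eval]
  have hdeg : ∀ k, N ≤ k → P.coeff k = 0 := by
    intro k hk
    rw [hP, taylor_coeff, hN k hk, map_zero, mul_zero]
  rw [← h1]
  rcases Nat.eq_zero_or_pos N with h0 | h0
  · subst h0
    have : P = 0 := by
      ext k
      rw [hdeg k (Nat.zero_le _), Polynomial.coeff_zero]
    rw [this]
    simp
  · have hlt : P.natDegree < N := by
      by_contra hcon
      push Not at hcon
      have h5 := hdeg P.natDegree hcon
      rw [Polynomial.coeff_natDegree, Polynomial.leadingCoeff_eq_zero] at h5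
      rw [h5, Polynomial.natDegree_zero] at hcon
      omega
    rw [Polynomial.eval_eq_sum_range' hlt]
    refine Finset.sum_congr rfl fun k _ => ?_
    rw [hP, taylor_coeff]

end Pool.Agent.H732R3.FI
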