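import Pool.Agent.H732R3.FI1

set_option autoImplicit false

/-!
# Divisibility of restrictions and surjectivity of iterated derivatives
-/

open MvPolynomial

namespace Pool.Agent.H732R3.FI

theorem finrank_hom {k : Type*} [Field k] (n s : ℕ) :
    Module.finrank k (homogeneousSubmodule (Fin (n + 1)) k s) = (n + s).choose n := by
  classical
  rw [homogeneousSubmodule_eq_finsupp_supported]
  rw [LinearEquiv.finrank_eq (AddMonoidAlgebra.supportedEquivFinsupp (S := k) (R := k)
    {d : Fin (n + 1) →₀ ℕ | d.degree = s})]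
  have hset : {d : Fin (n + 1) →₀ ℕ | d.degree = s} =
      ((Finset.univ : Finset (Fin (n + 1))).finsuppAntidiag s : Set (Fin (n + 1) →₀ ℕ)) := by
    ext d
    simp [Finset.mem_finsuppAntidiag, Finsupp.degree_eq_sum]
  have hfin : Finite {d : Fin (n + 1) →₀ ℕ | d.degree = s} := by
    rw [hset]; exact Finset.finite_toSet _
  have := Fintype.ofFinite {d : Fin (n + 1) →₀ ℕ | d.degree = s}
  rw [Module.finrank_finsupp_self, ← Nat.card_eq_fintype_card, Nat.card_coe_set_eq, hset,
    Set.ncard_coe_finset, Finset.card_finsuppAntidiag_nat_eq_choose]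
  simp only [Finset.card_univ, Fintype.card_fin]
  rw [show n + 1 + s - 1 = n + s by omega]
  exact (Nat.choose_symm_of_eq_add rfl).symm ▸ rfl

instance instFin {k : Type*} [Field k] (n s : ℕ) :
    FiniteDimensional k (homogeneousSubmodule (Fin n) k s) :=
  Module.Finite.iff_fg.mpr (homogeneousSubmodule_fg (Fin n) k s)

variable {σ : Type*} [Fintype σ] {K : Type*} [Field K]

theorem aeval_mul_hom {A : Type*} [CommRing A] [Algebra K A] (τ : A) (ψ : σ → A)
    {G : MvPolynomial σ K} {e : ℕ} (hG : G.IsHomogeneous e) :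
    aeval (fun i => τ * ψ i) G = τ ^ e * aeval ψ G := by
  rw [aeval_def, aeval_def, eval₂_eq, eval₂_eq, Finset.mul_sum]
  refine Finset.sum_congr rfl fun s hs => ?_
  have h1 : s.degree = e := by
    have := hG (mem_support_iff.mp hs)
    rw [Finsupp.degree_eq_weight_one]
    exact this
  have h2 : ∏ i ∈ s.support, (τ * ψ i) ^ s i = τ ^ e * ∏ i ∈ s.support, ψ i ^ s i := by
    simp only [mul_pow]
    rw [Finset.prod_mul_distrib, Finset.prod_pow_eq_pow_sum]
    congr 2
  rw [h2]
  ring

variable [CharZero K]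

/-- If `D_v^N F = 0` then `F` restricted to a germ through `v` vanishes to order `d + 1 - N`. -/
theorem dvd_of_E {A : Type*} [CommRing A] [Algebra K A] {d N : ℕ} (hNd : N ≤ d + 1)
    {F : MvPolynomial σ K} (hF : F.IsHomogeneous d) {v : σ → K} (hE : (E v ^ N) F = 0)
    (a τ : A) (ψ : σ → A) :
    τ ^ (d + 1 - N) ∣ aeval (fun i => τ * ψ i + a * algebraMap K A (v i)) F := by
  have hN : ∀ k, N ≤ k → (E v ^ k) F = 0 := by
    intro k hk
    obtain ⟨j, rfl⟩ := Nat.exists_eq_add_of_le hk
    rw [add_comm, pow_add, Module.End.mul_apply, hE, map_zero]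
  rw [taylor_eval (fun i => τ * ψ i) v a F N hN]
  refine Finset.dvd_sum fun k hk => ?_
  rw [Finset.mem_range] at hk
  have hk' : ((E v ^ k) F).IsHomogeneous (d - k) :=
    Epow_hom v k (by rwa [Nat.sub_add_cancel (by omega)])
  rw [aeval_mul_hom τ ψ hk']
  have h1 : τ ^ (d + 1 - N) ∣ τ ^ (d - k) := pow_dvd_pow _ (by omega)
  exact Dvd.dvd.mul_right (Dvd.dvd.mul_left (Dvd.dvd.mul_right h1 _) _) _

/-- Multiplication by a form that is constant in the direction `v`. -/
theorem Epow_mul_const (v : σ → K) {y : MvPolynomial σ K} (hy : E v y = 0)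
    (F : MvPolynomial σ K) (k : ℕ) : (E v ^ k) (y * F) = y * (E v ^ k) F := by
  induction k with
  | zero => simp
  | succ k ih =>
    rw [pow_succ', Module.End.mul_apply, ih, Module.End.mul_apply, E_apply, Derivation.leibniz]
    rw [E_apply] at hy
    rw [hy, smul_zero, add_zero, smul_eq_mul]
    rfl

/-- Euler's identity at `v`. -/
theorem eval_E (v : σ → K) {d : ℕ} {F : MvPolynomial σ K} (hF : F.IsHomogeneous d) :
    eval v (E v F) = (d : K) * eval v F := by
  have h := congrArg (eval v) hF.sum_X_mul_pderiv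
  rw [map_sum] at h
  rw [E_apply, DD_apply, map_sum]
  simp only [map_mul, eval_X, MvPolynomial.smul_eq_C_mul, eval_C] at h ⊢
  rw [h]
  simp

theorem eval_Epow_ne (v : σ → K) {m N : ℕ} {F : MvPolynomial σ K} (hF : F.IsHomogeneous (m + N))
    (hv : eval v F ≠ 0) : (m = 0 → True) ∧ eval v ((E v ^ N) F) ≠ 0 := by
  refine ⟨fun _ => trivial, ?_⟩
  induction N generalizing F with
  | zero => simpa using hv
  | succ N ih =>
    rw [pow_succ, Module.End.mul_apply]
    apply ih (E_hom v (by rwa [← add_assoc] at hF))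
    rw [eval_E v hF]
    exact mul_ne_zero (Nat.cast_ne_zero.mpr (by omega)) hv

/-- The linear form with coefficients `c`. -/
noncomputable def lf (c : σ → K) : MvPolynomial σ K := ∑ i, C (c i) * X i

theorem lf_hom (c : σ → K) : (lf c).IsHomogeneous 1 := by
  unfold lf
  refine IsHomogeneous.sum _ _ _ fun i _ => ?_
  have := (isHomogeneous_C σ (c i)).mul (isHomogeneous_X K i)
  rwa [zero_add] at this

theorem E_lf (v c : σ → K) : E v (lf c) = C (∑ i, c i * v i) := by
  rw [E_apply, lf, map_sum, map_sum]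
  refine Finset.sum_congr rfl fun i _ => ?_
  rw [Derivation.leibniz, DD_X, DD_C, smul_zero, add_zero, smul_eq_mul, C_mul]

theorem eval_lf (v c : σ → K) : eval v (lf c) = ∑ i, c i * v i := by
  simp [lf]

/-- Surjectivity of `Q ↦ D_v^N (P Q)`. -/
theorem surj (v lam : σ → K) (hlam : ∑ i, lam i * v i = 1) {P : MvPolynomial σ K} {e N : ℕ}
    (hP : P.IsHomogeneous e) (hPv : eval v P ≠ 0) (hN : e ≤ N) (b : ℕ) :
    ∀ h : MvPolynomial σ K, h.IsHomogeneous b →
      ∃ Q : MvPolynomial σ K, Q.IsHomogeneous (b + (N - e)) ∧ (E v ^ N) (P * Q) = h := by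
  induction b with
  | zero =>
    intro h hh
    have hGh : (P * lf lam ^ (N - e)).IsHomogeneous (0 + N) := by
      have := hP.mul ((lf_hom lam).pow (N - e))
      rwa [show e + 1 * (N - e) = 0 + N by omega] at this
    have hGv : eval v (P * lf lam ^ (N - e)) ≠ 0 := by
      rw [map_mul, map_pow, eval_lf, hlam, one_pow, mul_one]
      exact hPv
    have h1 := (eval_Epow_ne v hGh hGv).2
    have h2 : ((E v ^ N) (P * lf lam ^ (N - e))).IsHomogeneous 0 := Epow_hom v N hGh
    have h3 := totalDegree_eq_zero_iff_eq_C.mp (Nat.le_zero.mp h2.totalDegree_le)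
    have h4 := totalDegree_eq_zero_iff_eq_C.mp (Nat.le_zero.mp hh.totalDegree_le)
    set κ := coeff 0 ((E v ^ N) (P * lf lam ^ (N - e))) with hκ
    have h5 : κ ≠ 0 := by
      rw [h3, eval_C] at h1
      exact h1
    refine ⟨C (coeff 0 h / κ) * lf lam ^ (N - e), ?_, ?_⟩
    · have := (isHomogeneous_C σ (coeff 0 h / κ)).mul ((lf_hom lam).pow (N - e))
      rwa [one_mul] at this
    · rw [show P * (C (coeff 0 h / κ) * lf lam ^ (N - e)) =
        C (coeff 0 h / κ) * (P * lf lam ^ (N - e)) by ring, ← MvPolynomial.smul_eq_C_mul, map_smul, h3,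
        MvPolynomial.smul_eq_C_mul, ← C_mul, div_mul_cancel₀ _ h5, ← h4]
  | succ b ih =>
    set I : Submodule K (MvPolynomial σ K) :=
      (homogeneousSubmodule σ K (b + 1 + (N - e))).map
        ((E v ^ N) ∘ₗ LinearMap.mulLeft K P) with hI
    have hmemI : ∀ h, h ∈ I ↔ ∃ Q : MvPolynomial σ K, Q.IsHomogeneous (b + 1 + (N - e)) ∧
        (E v ^ N) (P * Q) = h := by
      intro h
      rw [hI, Submodule.mem_map]
      rfl
    set ℓ := lf lam with hℓ
    have hℓh : ℓ.IsHomogeneous 1 := lf_hom lam
    set y : σ → MvPolynomial σ K := fun i => X i - C (v i) * ℓ with hy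
    have hyE : ∀ i, E v (y i) = 0 := by
      intro i
      rw [hy]
      simp only
      rw [map_sub, ← MvPolynomial.smul_eq_C_mul, map_smul, E_lf, hlam, E_apply, DD_X,
        MvPolynomial.smul_eq_C_mul, ← C_mul, mul_one, sub_self]
    have hyh : ∀ i, (y i).IsHomogeneous 1 := by
      intro i
      have := (isHomogeneous_C σ (v i)).mul hℓh
      rw [zero_add] at this
      exact (isHomogeneous_X K i).sub this
    have hyI : ∀ i g, g.IsHomogeneous b → y i * g ∈ I := by
      intro i g hg
      obtain ⟨Q, hQ, hQg⟩ := ih g hg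
      rw [hmemI]
      refine ⟨y i * Q, ?_, ?_⟩
      · have := (hyh i).mul hQ
        rwa [show 1 + (b + (N - e)) = b + 1 + (N - e) by omega] at this
      · rw [show P * (y i * Q) = y i * (P * Q) by ring, Epow_mul_const v (hyE i), hQg]
    have key : ∀ k, k ≤ b + 1 → ∀ g : MvPolynomial σ K, g.IsHomogeneous k →
        ℓ ^ (b + 1 - k) * g - C (eval v g) * ℓ ^ (b + 1) ∈ I := by
      intro k
      induction k with
      | zero =>
        intro _ g hg
        have h4 := totalDegree_eq_zero_iff_eq_C.mp (Nat.le_zero.mp hg.totalDegree_le)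
        rw [h4, eval_C, Nat.sub_zero, mul_comm, sub_self]
        exact I.zero_mem
      | succ k ihk =>
        intro hk g hg
        have hEuler := hg.sum_X_mul_pderiv
        have h1 : ((k + 1 : ℕ) : K) • g = (∑ i, y i * pderiv i g) + ℓ * E v g := by
          have h2 : E v g = ∑ i, C (v i) * pderiv i g := by
            rw [E_apply, DD_apply]
            simp only [MvPolynomial.smul_eq_C_mul]
          rw [h2, Finset.mul_sum, ← Finset.sum_add_distrib]
          have h3 : ((k + 1 : ℕ) : K) • g = (k + 1) • g := by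
            rw [Nat.cast_smul_eq_nsmul]
          rw [h3, ← hEuler]
          refine Finset.sum_congr rfl fun i _ => ?_
          rw [hy]
          ring
        have hEg : (E v g).IsHomogeneous k := E_hom v hg
        have h4 := ihk (by omega) (E v g) hEg
        have h5 : ∑ i, y i * (ℓ ^ (b - k) * pderiv i g) ∈ I := by
          refine Submodule.sum_mem _ fun i _ => hyI i _ ?_
          have h6 := hg.pderiv (i := i)
          rw [Nat.add_sub_cancel] at h6
          have h7 := (hℓh.pow (b - k)).mul h6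
          rwa [show 1 * (b - k) + k = b by omega] at h7
        have h6 : ((k + 1 : ℕ) : K) • (ℓ ^ (b + 1 - (k + 1)) * g - C (eval v g) * ℓ ^ (b + 1)) ∈ I := by
          have h7 : ((k + 1 : ℕ) : K) • (ℓ ^ (b + 1 - (k + 1)) * g - C (eval v g) * ℓ ^ (b + 1)) =
              (∑ i, y i * (ℓ ^ (b - k) * pderiv i g)) +
              (ℓ ^ (b + 1 - k) * E v g - C (eval v (E v g)) * ℓ ^ (b + 1)) := by
            rw [smul_sub, show b + 1 - (k + 1) = b - k by omega, ← mul_smul_comm, h1, eval_E v hg,
              mul_add, Finset.mul_sum, show b + 1 - k = (b - k) + 1 by omega,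
              MvPolynomial.smul_eq_C_mul, C_mul, pow_succ]
            have h8 : ∀ i, ℓ ^ (b - k) * (y i * pderiv i g) = y i * (ℓ ^ (b - k) * pderiv i g) :=
              fun i => by ring
            simp only [h8]
            ring
          rw [h7]
          exact I.add_mem h5 h4
        have h9 : ((k + 1 : ℕ) : K) ≠ 0 := Nat.cast_ne_zero.mpr (by omega)
        exact (Submodule.smul_mem_iff I h9).mp h6
    have key2 : ∀ g : MvPolynomial σ K, g.IsHomogeneous (b + 1) →
        g - C (eval v g) * ℓ ^ (b + 1) ∈ I := by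
      intro g hg
      have := key (b + 1) le_rfl g hg
      rwa [Nat.sub_self, pow_zero, one_mul] at this
    have hGh : (P * ℓ ^ (b + 1 + (N - e))).IsHomogeneous (b + 1 + N) := by
      have := hP.mul (hℓh.pow (b + 1 + (N - e)))
      rwa [show e + 1 * (b + 1 + (N - e)) = b + 1 + N by omega] at this
    have hGv : eval v (P * ℓ ^ (b + 1 + (N - e))) ≠ 0 := by
      rw [map_mul, map_pow, eval_lf, hlam, one_pow, mul_one]
      exact hPv
    have hR : (E v ^ N) (P * ℓ ^ (b + 1 + (N - e))) ∈ I := by
      rw [hmemI]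
      refine ⟨ℓ ^ (b + 1 + (N - e)), ?_, rfl⟩
      have := hℓh.pow (b + 1 + (N - e))
      rwa [one_mul] at this
    have hR2 := key2 _ (Epow_hom v N hGh)
    have hRv := (eval_Epow_ne v hGh hGv).2
    have hℓI : ℓ ^ (b + 1) ∈ I := by
      have h1 := I.sub_mem hR hR2
      rw [sub_sub_cancel, ← MvPolynomial.smul_eq_C_mul] at h1
      exact (Submodule.smul_mem_iff I hRv).mp h1
    intro h hh
    rw [← hmemI]
    have h1 := key2 h hh
    have h2 : C (eval v h) * ℓ ^ (b + 1) ∈ I := by
      rw [← MvPolynomial.smul_eq_C_mul]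
      exact I.smul_mem _ hℓI
    have := I.add_mem h1 h2
    rwa [sub_add_cancel] at this

end Pool.Agent.H732R3.FI
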