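import Pool.Agent.H732R3.FI2

set_option autoImplicit false

/-!
# The dimension count
-/

open MvPolynomial

namespace Pool.Agent.H732R3.FI

section general

variable {n : ℕ} {K : Type*} [Field K] [CharZero K]

/-- `D_v^N` as a map between spaces of forms. -/
noncomputable def Dres (v : Fin n → K) (N d : ℕ) :
    ↥(homogeneousSubmodule (Fin n) K (d + N)) →ₗ[K] ↥(homogeneousSubmodule (Fin n) K d) :=
  (E v ^ N).restrict (fun _ hF => Epow_hom v N hF)

theorem Dres_coe (v : Fin n → K) (N d : ℕ) (F : ↥(homogeneousSubmodule (Fin n) K (d + N))) :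
    (Dres v N d F : MvPolynomial (Fin n) K) = (E v ^ N) F.1 := rfl

/-- All the derivatives `D_{p_j}^N F`. -/
noncomputable def Psi {s : ℕ} (p : Fin s → Fin n → K) (N b : ℕ) :
    ↥(homogeneousSubmodule (Fin n) K (b + N + N)) →ₗ[K]
      (Fin s → ↥(homogeneousSubmodule (Fin n) K (b + N))) :=
  LinearMap.pi fun j => Dres (p j) N (b + N)

theorem Psi_coe {s : ℕ} (p : Fin s → Fin n → K) (N b : ℕ)
    (F : ↥(homogeneousSubmodule (Fin n) K (b + N + N))) (j : Fin s) :
    (Psi p N b F j : MvPolynomial (Fin n) K) = (E (p j) ^ N) F.1 := rfl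

/-- The compatibility conditions `D_{p_i}^N G_j = D_{p_j}^N G_i`. -/
noncomputable def Kap {s : ℕ} (p : Fin s → Fin n → K) (N b : ℕ) :
    (Fin s → ↥(homogeneousSubmodule (Fin n) K (b + N))) →ₗ[K]
      ({q : Fin s × Fin s // q.1 < q.2} → ↥(homogeneousSubmodule (Fin n) K b)) :=
  LinearMap.pi fun q => (Dres (p q.1.1) N b) ∘ₗ LinearMap.proj q.1.2 -
    (Dres (p q.1.2) N b) ∘ₗ LinearMap.proj q.1.1

theorem Kap_apply {s : ℕ} (p : Fin s → Fin n → K) (N b : ℕ)
    (w : Fin s → ↥(homogeneousSubmodule (Fin n) K (b + N))) (q : {q : Fin s × Fin s // q.1 < q.2}) :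
    Kap p N b w q = Dres (p q.1.1) N b (w q.1.2) - Dres (p q.1.2) N b (w q.1.1) := rfl

theorem range_le {s : ℕ} (p : Fin s → Fin n → K) (N b : ℕ) :
    LinearMap.range (Psi p N b) ≤ LinearMap.ker (Kap p N b) := by
  rintro _ ⟨F, rfl⟩
  rw [LinearMap.mem_ker]
  funext q
  rw [Kap_apply]
  apply Subtype.ext
  change (E (p q.1.1) ^ N) ((E (p q.1.2) ^ N) F.1) - (E (p q.1.2) ^ N) ((E (p q.1.1) ^ N) F.1) = 0
  rw [← Module.End.mul_apply, ← Module.End.mul_apply, ((E_comm (p q.1.1) (p q.1.2)).pow_pow N N).eq,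
    sub_self]

theorem Kap_surj {s : ℕ} (p : Fin s → Fin n → K) (N b : ℕ)
    (H : ∀ i j, i ≠ j → ∀ h : ↥(homogeneousSubmodule (Fin n) K b),
      ∃ G : ↥(homogeneousSubmodule (Fin n) K (b + N)), Dres (p i) N b G = h ∧
        ∀ l, l ≠ i → l ≠ j → Dres (p l) N b G = 0) :
    Function.Surjective (Kap p N b) := by
  classical
  have hsingle : ∀ (q : {q : Fin s × Fin s // q.1 < q.2})
      (h : ↥(homogeneousSubmodule (Fin n) K b)), ∃ w, Kap p N b w = Pi.single q h := by
    intro q h
    obtain ⟨⟨i, j⟩, hij⟩ := q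
    simp only at hij
    obtain ⟨G, hG, hG'⟩ := H i j (ne_of_lt hij) h
    refine ⟨Pi.single j G, ?_⟩
    funext q'
    obtain ⟨⟨i', j'⟩, hij'⟩ := q'
    simp only at hij'
    rw [Kap_apply]
    simp only
    by_cases h1 : j' = j
    · subst h1
      rw [Pi.single_eq_same, Pi.single_eq_of_ne (ne_of_lt hij'), map_zero, sub_zero]
      by_cases h2 : i' = i
      · subst h2
        rw [Pi.single_eq_same, hG]
      · rw [Pi.single_eq_of_ne, hG' i' h2 (ne_of_lt hij')]
        intro h3
        apply h2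
        exact congrArg (fun z : {q : Fin s × Fin s // q.1 < q.2} => z.1.1) h3
    · rw [Pi.single_eq_of_ne h1, map_zero, zero_sub]
      have h3 : (⟨(i', j'), hij'⟩ : {q : Fin s × Fin s // q.1 < q.2}) ≠ ⟨(i, j), hij⟩ := by
        intro h3
        apply h1
        exact congrArg (fun z : {q : Fin s × Fin s // q.1 < q.2} => z.1.2) h3
      rw [Pi.single_eq_of_ne h3, neg_eq_zero]
      by_cases h2 : i' = j
      · subst h2
        rw [Pi.single_eq_same]
        apply hG' j' _ (ne_of_gt hij')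
        intro h4
        subst h4
        exact absurd (lt_trans hij hij') (lt_irrefl _)
      · rw [Pi.single_eq_of_ne h2, map_zero]
  intro z
  choose w hw using fun q => hsingle q (z q)
  refine ⟨∑ q, w q, ?_⟩
  rw [map_sum]
  simp only [hw]
  exact Finset.univ_sum_single z

/-- The dimension count: one more than the count given by the lines through pairs of points. -/
theorem count {s : ℕ} (p : Fin s → Fin n → K) (N b : ℕ)
    (H : ∀ i j, i ≠ j → ∀ h : ↥(homogeneousSubmodule (Fin n) K b),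
      ∃ G : ↥(homogeneousSubmodule (Fin n) K (b + N)), Dres (p i) N b G = h ∧
        ∀ l, l ≠ i → l ≠ j → Dres (p l) N b G = 0)
    (w : Fin s → ↥(homogeneousSubmodule (Fin n) K (b + N))) (hw : Kap p N b w = 0)
    (hw' : w ∉ LinearMap.range (Psi p N b)) :
    Module.finrank K ↥(homogeneousSubmodule (Fin n) K (b + N + N)) +
      Fintype.card {q : Fin s × Fin s // q.1 < q.2} *
        Module.finrank K ↥(homogeneousSubmodule (Fin n) K b) + 1 ≤
      Module.finrank K (LinearMap.ker (Psi p N b)) +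
        s * Module.finrank K ↥(homogeneousSubmodule (Fin n) K (b + N)) := by
  have h1 := LinearMap.finrank_range_add_finrank_ker (Psi p N b)
  have h2 := LinearMap.finrank_range_add_finrank_ker (Kap p N b)
  have h3 : Module.finrank K (LinearMap.range (Kap p N b)) =
      Fintype.card {q : Fin s × Fin s // q.1 < q.2} *
        Module.finrank K ↥(homogeneousSubmodule (Fin n) K b) := by
    rw [LinearMap.range_eq_top.mpr (Kap_surj p N b H), finrank_top, Module.finrank_pi_fintype]
    simp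
  have h4 : Module.finrank K (Fin s → ↥(homogeneousSubmodule (Fin n) K (b + N))) =
      s * Module.finrank K ↥(homogeneousSubmodule (Fin n) K (b + N)) := by
    rw [Module.finrank_pi_fintype]
    simp
  have h5 : LinearMap.range (Psi p N b) < LinearMap.ker (Kap p N b) := by
    refine lt_of_le_of_ne (range_le p N b) fun h => hw' ?_
    rw [h, LinearMap.mem_ker, hw]
  have h6 := Submodule.finrank_lt_finrank_of_lt h5
  rw [h3, h4] at h2
  omega

/-- A form divisible by a high power of a linear form vanishing at `v`. -/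
theorem E_zero_of_lf {v c : Fin n → K} (hcv : ∑ i, c i * v i = 0) (k N d : ℕ) (hd : d < N)
    {R : MvPolynomial (Fin n) K} (hR : R.IsHomogeneous d) : (E v ^ N) (lf c ^ k * R) = 0 := by
  have h1 : E v (lf c ^ k) = 0 := by
    rw [E_apply, Derivation.leibniz_pow, ← E_apply, E_lf, hcv, C_0]
    simp
  rw [Epow_mul_const v h1, Epow_hom_zero v N hd hR, mul_zero]

/-- The surjectivity hypothesis follows from the existence of two hyperplanes through the other
points. -/
theorem H_of_planes {s : ℕ} (p : Fin s → Fin n → K) (N b : ℕ) (hN : 2 * (b + 1) ≤ N)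
    (i : Fin s) (c c' lam : Fin n → K) (hlam : ∑ k, lam k * p i k = 1)
    (hc : ∑ k, c k * p i k ≠ 0) (hc' : ∑ k, c' k * p i k ≠ 0)
    (hl : ∀ l, l ≠ i → ∑ k, c k * p l k = 0 ∨ ∑ k, c' k * p l k = 0)
    (h : ↥(homogeneousSubmodule (Fin n) K b)) :
    ∃ G : ↥(homogeneousSubmodule (Fin n) K (b + N)), Dres (p i) N b G = h ∧
        ∀ l, l ≠ i → Dres (p l) N b G = 0 := by
  have hP : (lf c ^ (b + 1) * lf c' ^ (b + 1)).IsHomogeneous (2 * (b + 1)) := by
    have := ((lf_hom c).pow (b + 1)).mul ((lf_hom c').pow (b + 1))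
    rwa [show 1 * (b + 1) + 1 * (b + 1) = 2 * (b + 1) by ring] at this
  have hPv : eval (p i) (lf c ^ (b + 1) * lf c' ^ (b + 1)) ≠ 0 := by
    rw [map_mul, map_pow, map_pow, eval_lf, eval_lf]
    exact mul_ne_zero (pow_ne_zero _ hc) (pow_ne_zero _ hc')
  obtain ⟨Q, hQ, hQh⟩ := surj (p i) lam hlam hP hPv hN b h.1 h.2
  have hG : (lf c ^ (b + 1) * lf c' ^ (b + 1) * Q).IsHomogeneous (b + N) := by
    have := hP.mul hQ
    rwa [show 2 * (b + 1) + (b + (N - 2 * (b + 1))) = b + N by omega] at this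
  refine ⟨⟨_, hG⟩, Subtype.ext hQh, fun l hli => Subtype.ext ?_⟩
  change (E (p l) ^ N) (lf c ^ (b + 1) * lf c' ^ (b + 1) * Q) = 0
  rcases hl l hli with h0 | h0
  · rw [mul_assoc]
    have hR := ((lf_hom c').pow (b + 1)).mul hQ
    exact E_zero_of_lf h0 (b + 1) N _ (by omega) hR
  · rw [mul_comm (lf c ^ (b + 1)), mul_assoc]
    have hR := ((lf_hom c).pow (b + 1)).mul hQ
    exact E_zero_of_lf h0 (b + 1) N _ (by omega) hR

end general

end Pool.Agent.H732R3.FI
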