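import Pool.Agent.H732R3.FI3

set_option autoImplicit false

/-!
# The rational normal curve
-/

open MvPolynomial

namespace Pool.Agent.H732R3.FI

section general

variable {σ : Type*} [Fintype σ] {K : Type*} [Field K]

theorem E_mul_zero {v : σ → K} {a b : MvPolynomial σ K} (ha : E v a = 0) (hb : E v b = 0) :
    E v (a * b) = 0 := by
  rw [E_apply] at *
  rw [Derivation.leibniz, ha, hb, smul_zero, smul_zero, add_zero]

theorem E_pow_zero {v : σ → K} {a : MvPolynomial σ K} (ha : E v a = 0) (n : ℕ) :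
    E v (a ^ n) = 0 := by
  rw [E_apply] at *
  rw [Derivation.leibniz_pow, ha]
  simp

theorem natDegree_aeval_le {G : MvPolynomial σ K} {e D : ℕ} (hG : G.IsHomogeneous e)
    (ψ : σ → Polynomial K) (hψ : ∀ i, (ψ i).natDegree ≤ D) :
    (aeval ψ G).natDegree ≤ e * D := by
  rw [aeval_def, eval₂_eq]
  apply Polynomial.natDegree_sum_le_of_forall_le
  intro s hs
  have h1 : s.degree = e := by
    have := hG (mem_support_iff.mp hs)
    rw [Finsupp.degree_eq_weight_one]
    exact this
  refine le_trans Polynomial.natDegree_mul_le ?_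
  have h2 : ((algebraMap K (Polynomial K)) (coeff s G)).natDegree = 0 :=
    Polynomial.natDegree_C _
  rw [h2, zero_add]
  refine le_trans (Polynomial.natDegree_prod_le _ _) ?_
  rw [← h1, Finsupp.degree_apply, Finset.sum_mul]
  refine Finset.sum_le_sum fun i _ => ?_
  refine le_trans Polynomial.natDegree_pow_le ?_
  exact Nat.mul_le_mul_left _ (hψ i)

variable [CharZero K]

/-- Restriction of a form to a curve with a point of highest order at `v`. -/
theorem restrict_top {A : Type*} [CommRing A] [Algebra K A] {d N : ℕ} (hNd : N ≤ d)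
    {F : MvPolynomial σ K} (hF : F.IsHomogeneous d) {v : σ → K} (hE : (E v ^ (N + 1)) F = 0)
    (a τ : A) (ψ : σ → A) :
    ∃ R : A, aeval (fun i => τ * ψ i + a * algebraMap K A (v i)) F =
      τ ^ (d - N) * (algebraMap K A ((N.factorial : K)⁻¹) * aeval ψ ((E v ^ N) F) * a ^ N +
        τ * R) := by
  have hN : ∀ k, N + 1 ≤ k → (E v ^ k) F = 0 := by
    intro k hk
    obtain ⟨j, rfl⟩ := Nat.exists_eq_add_of_le hk
    rw [add_comm, pow_add, Module.End.mul_apply, hE, map_zero]
  rw [taylor_eval (fun i => τ * ψ i) v a F (N + 1) hN, Finset.sum_range_succ]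
  have hk' : ∀ k ≤ N, ((E v ^ k) F).IsHomogeneous (d - k) := fun k hk =>
    Epow_hom v k (by rwa [Nat.sub_add_cancel (by omega)])
  have h1 : τ ^ (d - N + 1) ∣ ∑ k ∈ Finset.range N, algebraMap K A ((k.factorial : K)⁻¹) *
      aeval (fun i => τ * ψ i) ((E v ^ k) F) * a ^ k := by
    refine Finset.dvd_sum fun k hk => ?_
    rw [Finset.mem_range] at hk
    rw [aeval_mul_hom τ ψ (hk' k hk.le)]
    have h2 : τ ^ (d - N + 1) ∣ τ ^ (d - k) := pow_dvd_pow _ (by omega)
    exact Dvd.dvd.mul_right (Dvd.dvd.mul_left (Dvd.dvd.mul_right h2 _) _) _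
  obtain ⟨R, hR⟩ := h1
  refine ⟨R, ?_⟩
  rw [hR, aeval_mul_hom τ ψ (hk' N le_rfl), pow_succ]
  ring

end general

section curve

variable {K : Type*} [Field K] [CharZero K]

/-- The forms `d_j X - c_j`. -/
noncomputable def lam (c d : Fin 5 → K) (j : Fin 5) : Polynomial K :=
  Polynomial.C (d j) * Polynomial.X - Polynomial.C (c j)

theorem lam_natDegree (c d : Fin 5 → K) (j : Fin 5) : (lam c d j).natDegree ≤ 1 := by
  unfold lam
  refine le_trans (Polynomial.natDegree_sub_le _ _) ?_
  rw [Polynomial.natDegree_C, max_le_iff]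
  exact ⟨by compute_degree, Nat.zero_le _⟩

/-- The rational normal curve through `p 0, …, p 6`. -/
noncomputable def rnc (c d : Fin 5 → K) (p : Fin 5 → Fin 5 → K) (k : Fin 5) : Polynomial K :=
  ∑ i, Polynomial.C (c i * d i * p i k) * ∏ j ∈ Finset.univ.erase i, lam c d j

/-- The residual part at the `l`-th point. -/
noncomputable def rncr (c d : Fin 5 → K) (p : Fin 5 → Fin 5 → K) (l k : Fin 5) : Polynomial K :=
  ∑ i ∈ Finset.univ.erase l, Polynomial.C (c i * d i * p i k) *
    ∏ j ∈ (Finset.univ.erase i).erase l, lam c d j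

theorem rnc_eq (c d : Fin 5 → K) (p : Fin 5 → Fin 5 → K) (l k : Fin 5) :
    rnc c d p k = lam c d l * rncr c d p l k +
      (Polynomial.C (c l * d l) * ∏ j ∈ Finset.univ.erase l, lam c d j) *
        algebraMap K (Polynomial K) (p l k) := by
  rw [rnc, ← Finset.sum_erase_add _ _ (Finset.mem_univ l), rncr, Finset.mul_sum]
  congr 1
  · refine Finset.sum_congr rfl fun i hi => ?_
    have hil : i ≠ l := Finset.ne_of_mem_erase hi
    have h1 : l ∈ Finset.univ.erase i := Finset.mem_erase.mpr ⟨hil.symm, Finset.mem_univ _⟩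
    rw [← Finset.mul_prod_erase _ _ h1]
    ring
  · have h2 : algebraMap K (Polynomial K) (p l k) = Polynomial.C (p l k) := rfl
    rw [h2, Polynomial.C_mul]
    ring


theorem lam_ne (c d : Fin 5 → K) (j : Fin 5) (hd : d j ≠ 0) : lam c d j ≠ 0 := by
  intro h
  have := congrArg (fun q : Polynomial K => q.coeff 1) h
  simp [lam] at this
  exact hd this

theorem lam_natDegree_eq (c d : Fin 5 → K) (j : Fin 5) (hd : d j ≠ 0) :
    (lam c d j).natDegree = 1 := by
  refine le_antisymm (lam_natDegree c d j) ?_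
  apply Polynomial.le_natDegree_of_ne_zero
  simp [lam, hd]

theorem lam_coprime (c d : Fin 5 → K) (i j : Fin 5) (h : c i * d j - c j * d i ≠ 0) :
    IsCoprime (lam c d i) (lam c d j) := by
  refine ⟨Polynomial.C (- d j * (c i * d j - c j * d i)⁻¹), Polynomial.C (d i * (c i * d j - c j * d i)⁻¹), ?_⟩
  have h1 : Polynomial.C (c i * d j - c j * d i) * Polynomial.C ((c i * d j - c j * d i)⁻¹) = 1 := by
    rw [← Polynomial.C_mul, mul_inv_cancel₀ h, Polynomial.C_1]
  rw [← h1]
  simp only [lam, Polynomial.C_mul, Polynomial.C_sub, Polynomial.C_neg]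
  ring

theorem lam_coprime_X (c d : Fin 5 → K) (i : Fin 5) (h : c i ≠ 0) :
    IsCoprime (lam c d i) Polynomial.X := by
  refine ⟨Polynomial.C (- (c i)⁻¹), Polynomial.C (d i * (c i)⁻¹), ?_⟩
  have h1 : Polynomial.C (c i) * Polynomial.C ((c i)⁻¹) = 1 := by
    rw [← Polynomial.C_mul, mul_inv_cancel₀ h, Polynomial.C_1]
  rw [← h1]
  simp only [lam, Polynomial.C_mul, Polynomial.C_neg]
  ring

end curve

end Pool.Agent.H732R3.FI
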