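import Pool.Agent.H732R3.FI4

set_option autoImplicit false

/-!
# A form of degree 38 with points of multiplicity 22 and a point of multiplicity 21 on a rational
normal quartic curve contains the curve
-/

open MvPolynomial

namespace Pool.Agent.H732R3.FI

variable {K : Type*} [Field K] [CharZero K]

theorem rnc_natDegree (c d : Fin 5 → K) (p : Fin 5 → Fin 5 → K) (k : Fin 5) :
    (rnc c d p k).natDegree ≤ 4 := by
  unfold rnc
  apply Polynomial.natDegree_sum_le_of_forall_le
  intro i _
  refine le_trans (Polynomial.natDegree_C_mul_le _ _) ?_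
  refine le_trans (Polynomial.natDegree_prod_le _ _) ?_
  refine le_trans (Finset.sum_le_card_nsmul _ _ 1 fun j _ => lam_natDegree c d j) ?_
  rw [Finset.card_erase_of_mem (Finset.mem_univ _)]
  simp

theorem rnc_coeff_four (c d : Fin 5 → K) (p : Fin 5 → Fin 5 → K) (k : Fin 5) :
    (rnc c d p k).coeff 4 = (∏ j, d j) * ∑ i, c i * p i k := by
  unfold rnc
  rw [Polynomial.finsetSum_coeff, Finset.mul_sum]
  refine Finset.sum_congr rfl fun i _ => ?_
  rw [Polynomial.coeff_C_mul]
  have h1 : (∏ j ∈ Finset.univ.erase i, lam c d j).coeff 4 = ∏ j ∈ Finset.univ.erase i, d j := by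
    have h2 := Polynomial.coeff_prod_of_natDegree_le (Finset.univ.erase i) (fun j => lam c d j) 1
      (fun j _ => lam_natDegree c d j)
    rw [Finset.card_erase_of_mem (Finset.mem_univ _)] at h2
    simp only [Finset.card_univ, Fintype.card_fin, mul_one] at h2
    rw [show (4 : ℕ) = 5 - 1 from rfl, h2]
    refine Finset.prod_congr rfl fun j _ => ?_
    simp [lam]
  rw [h1, ← Finset.mul_prod_erase _ d (Finset.mem_univ i)]
  ring

theorem rnc_coeff_zero (c d : Fin 5 → K) (p : Fin 5 → Fin 5 → K) (k : Fin 5) :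
    (rnc c d p k).coeff 0 = (- ∏ j, (- c j)) * ∑ i, d i * p i k := by
  unfold rnc
  rw [Polynomial.coeff_zero_eq_eval_zero, Polynomial.eval_finsetSum, Finset.mul_sum]
  refine Finset.sum_congr rfl fun i _ => ?_
  rw [Polynomial.eval_mul, Polynomial.eval_C, Polynomial.eval_prod]
  have h1 : ∏ j ∈ Finset.univ.erase i, (lam c d j).eval 0 = ∏ j ∈ Finset.univ.erase i, (- c j) := by
    refine Finset.prod_congr rfl fun j _ => ?_
    simp [lam]
  rw [h1, ← Finset.mul_prod_erase _ (fun j => - c j) (Finset.mem_univ i)]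
  ring

/-- The degree bound coming from the point at infinity. -/
theorem degree_bound (c d : Fin 5 → K) (p : Fin 5 → Fin 5 → K) (p5 : Fin 5 → K) (Δ : K)
    (h5 : ∀ k, ∑ i, c i * p i k = Δ * p5 k) (F : MvPolynomial (Fin 5) K)
    (hF : F.IsHomogeneous 38) (hE5 : (E p5 ^ 17) F = 0) :
    (aeval (rnc c d p) F).natDegree ≤ 130 := by
  set a : Polynomial K := Polynomial.C ((∏ j, d j) * Δ) * Polynomial.X ^ 4 with ha
  set ψ : Fin 5 → Polynomial K := fun k => rnc c d p k - a * algebraMap K (Polynomial K) (p5 k)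
    with hψ
  have hψd : ∀ k, (ψ k).natDegree ≤ 3 := by
    intro k
    rw [Polynomial.natDegree_le_iff_coeff_eq_zero]
    intro N hN
    have h1 : a * algebraMap K (Polynomial K) (p5 k) =
        Polynomial.C ((∏ j, d j) * Δ * p5 k) * Polynomial.X ^ 4 := by
      have h2 : algebraMap K (Polynomial K) (p5 k) = Polynomial.C (p5 k) := rfl
      rw [ha, h2, Polynomial.C_mul, Polynomial.C_mul, Polynomial.C_mul]
      ring
    rw [hψ]
    simp only
    rw [h1, Polynomial.coeff_sub, Polynomial.coeff_C_mul_X_pow]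
    by_cases h4 : N = 4
    · subst h4
      rw [if_pos rfl, rnc_coeff_four, h5]
      ring
    · rw [if_neg h4, sub_zero]
      exact Polynomial.coeff_eq_zero_of_natDegree_lt
        (lt_of_le_of_lt (rnc_natDegree c d p k) (by omega))
  have h1 : rnc c d p = fun k => ψ k + a * algebraMap K (Polynomial K) (p5 k) := by
    funext k
    rw [hψ]
    ring
  have hN : ∀ k, 17 ≤ k → (E p5 ^ k) F = 0 := by
    intro k hk
    obtain ⟨j, rfl⟩ := Nat.exists_eq_add_of_le hk
    rw [add_comm, pow_add, Module.End.mul_apply, hE5, map_zero]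
  rw [h1, taylor_eval ψ p5 a F 17 hN]
  apply Polynomial.natDegree_sum_le_of_forall_le
  intro k hk
  rw [Finset.mem_range] at hk
  have hk' : ((E p5 ^ k) F).IsHomogeneous (38 - k) :=
    Epow_hom p5 k (by rwa [Nat.sub_add_cancel (by omega)])
  have h2 := natDegree_aeval_le hk' ψ hψd
  have h3 : (a ^ k).natDegree ≤ k * 4 := by
    refine le_trans Polynomial.natDegree_pow_le (Nat.mul_le_mul_left _ ?_)
    rw [ha]
    compute_degree
  have h4 : (algebraMap K (Polynomial K) ((k.factorial : K)⁻¹)).natDegree = 0 :=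
    Polynomial.natDegree_C _
  refine le_trans Polynomial.natDegree_mul_le ?_
  have h5' := Polynomial.natDegree_mul_le (p := algebraMap K (Polynomial K) ((k.factorial : K)⁻¹))
    (q := aeval ψ ((E p5 ^ k) F))
  omega

theorem no_ext (c d : Fin 5 → K) (p : Fin 5 → Fin 5 → K) (p5 p6 : Fin 5 → K) (Δ : K)
    (hc : ∀ i, c i ≠ 0) (hd : ∀ i, d i ≠ 0) (hcd : ∀ i j, i ≠ j → c i * d j - c j * d i ≠ 0)
    (h5 : ∀ k, ∑ i, c i * p i k = Δ * p5 k) (h6 : ∀ k, ∑ i, d i * p i k = Δ * p6 k)
    (F G : MvPolynomial (Fin 5) K) (hF : F.IsHomogeneous 38)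
    (hE0 : (E (p 0) ^ 17) F = G) (hG : E (p 0) G = 0) (hEl : ∀ l, l ≠ 0 → (E (p l) ^ 17) F = 0)
    (hE5 : (E p5 ^ 17) F = 0) (hE6 : (E p6 ^ 17) F = 0) :
    eval (fun k => (rncr c d p 0 k).eval (c 0 / d 0)) G = 0 := by
  have hdeg := degree_bound c d p p5 Δ h5 F hF hE5
  -- divisibility at the points
  have hdl : ∀ l, l ≠ 0 → lam c d l ^ 22 ∣ aeval (rnc c d p) F := by
    intro l hl
    have h1 : rnc c d p = fun k => lam c d l * rncr c d p l k +
      (Polynomial.C (c l * d l) * ∏ j ∈ Finset.univ.erase l, lam c d j) *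
        algebraMap K (Polynomial K) (p l k) := by
      funext k
      exact rnc_eq c d p l k
    rw [h1]
    exact dvd_of_E (by norm_num) hF (hEl l hl) _ _ _
  have hdX : (Polynomial.X : Polynomial K) ^ 22 ∣ aeval (rnc c d p) F := by
    have h1 : rnc c d p = fun k => Polynomial.X * (rnc c d p k).divX +
        Polynomial.C ((- ∏ j, (- c j)) * Δ) * algebraMap K (Polynomial K) (p6 k) := by
      funext k
      conv_lhs => rw [← Polynomial.divX_mul_X_add (rnc c d p k)]
      rw [rnc_coeff_zero, h6]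
      have h2 : algebraMap K (Polynomial K) (p6 k) = Polynomial.C (p6 k) := rfl
      rw [h2, ← Polynomial.C_mul, mul_comm Polynomial.X]
      congr 2
      ring
    rw [h1]
    exact dvd_of_E (by norm_num) hF hE6 _ _ _
  -- the expansion at the zeroth point
  obtain ⟨R, hR⟩ := restrict_top (A := Polynomial K) (N := 17) (d := 38) (by norm_num) hF
    (v := p 0) (by rw [pow_succ', Module.End.mul_apply, hE0, hG])
    (Polynomial.C (c 0 * d 0) * ∏ j ∈ Finset.univ.erase 0, lam c d j) (lam c d 0)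
    (rncr c d p 0)
  have h1 : rnc c d p = fun k => lam c d 0 * rncr c d p 0 k +
      (Polynomial.C (c 0 * d 0) * ∏ j ∈ Finset.univ.erase 0, lam c d j) *
        algebraMap K (Polynomial K) (p 0 k) := by
    funext k
    exact rnc_eq c d p 0 k
  rw [← h1, hE0] at hR
  have hd0 : lam c d 0 ^ 21 ∣ aeval (rnc c d p) F := ⟨_, hR⟩
  -- the form vanishes on the curve
  have hf0 : aeval (rnc c d p) F = 0 := by
    by_contra hne
    have hco : ∀ i j, i ≠ j → ∀ m n, IsCoprime (lam c d i ^ m) (lam c d j ^ n) := fun i j hij m n =>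
      (lam_coprime c d i j (hcd i j hij)).pow
    have hcX : ∀ i m, IsCoprime (lam c d i ^ m) ((Polynomial.X : Polynomial K) ^ 22) := fun i m =>
      (lam_coprime_X c d i (hc i)).pow
    have e1 := (hco 0 1 (by decide) 21 22).mul_dvd hd0 (hdl 1 (by decide))
    have e2 := ((hco 0 2 (by decide) 21 22).mul_left (hco 1 2 (by decide) 22 22)).mul_dvd e1
      (hdl 2 (by decide))
    have e3 := (((hco 0 3 (by decide) 21 22).mul_left (hco 1 3 (by decide) 22 22)).mul_left
      (hco 2 3 (by decide) 22 22)).mul_dvd e2 (hdl 3 (by decide))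
    have e4 := ((((hco 0 4 (by decide) 21 22).mul_left (hco 1 4 (by decide) 22 22)).mul_left
      (hco 2 4 (by decide) 22 22)).mul_left (hco 3 4 (by decide) 22 22)).mul_dvd e3
      (hdl 4 (by decide))
    have e5 := (((((hcX 0 21).mul_left (hcX 1 22)).mul_left (hcX 2 22)).mul_left
      (hcX 3 22)).mul_left (hcX 4 22)).mul_dvd e4 hdX
    have e6 := Polynomial.natDegree_le_of_dvd e5 hne
    have hne' : ∀ i m, lam c d i ^ m ≠ 0 := fun i m => pow_ne_zero _ (lam_ne c d i (hd i))
    have hnd : ∀ i m, (lam c d i ^ m).natDegree = m := fun i m => by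
      rw [Polynomial.natDegree_pow, lam_natDegree_eq c d i (hd i), mul_one]
    have hX : ((Polynomial.X : Polynomial K) ^ 22) ≠ 0 := pow_ne_zero _ Polynomial.X_ne_zero
    rw [Polynomial.natDegree_mul (mul_ne_zero (mul_ne_zero (mul_ne_zero (mul_ne_zero (hne' 0 21)
        (hne' 1 22)) (hne' 2 22)) (hne' 3 22)) (hne' 4 22)) hX,
      Polynomial.natDegree_mul (mul_ne_zero (mul_ne_zero (mul_ne_zero (hne' 0 21)
        (hne' 1 22)) (hne' 2 22)) (hne' 3 22)) (hne' 4 22),
      Polynomial.natDegree_mul (mul_ne_zero (mul_ne_zero (hne' 0 21) (hne' 1 22)) (hne' 2 22))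
        (hne' 3 22),
      Polynomial.natDegree_mul (mul_ne_zero (hne' 0 21) (hne' 1 22)) (hne' 2 22),
      Polynomial.natDegree_mul (hne' 0 21) (hne' 1 22), hnd, hnd, hnd, hnd, hnd,
      Polynomial.natDegree_X_pow] at e6
    omega
  rw [hf0] at hR
  have h2 : lam c d 0 ^ (38 - 17) ≠ 0 := pow_ne_zero _ (lam_ne c d 0 (hd 0))
  have h3 := (mul_eq_zero.mp hR.symm).resolve_left h2
  have h4 := congrArg (Polynomial.eval (c 0 / d 0)) h3
  have h5' : (lam c d 0).eval (c 0 / d 0) = 0 := by
    simp only [lam, Polynomial.eval_sub, Polynomial.eval_mul, Polynomial.eval_C, Polynomial.eval_X]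
    rw [mul_div_cancel₀ _ (hd 0), sub_self]
  rw [Polynomial.eval_add, Polynomial.eval_mul (p := lam c d 0), h5', zero_mul, add_zero,
    Polynomial.eval_zero, Polynomial.eval_mul, Polynomial.eval_mul, Polynomial.eval_pow] at h4
  have h6' : (algebraMap K (Polynomial K) ((Nat.factorial 17 : K)⁻¹)).eval (c 0 / d 0) ≠ 0 := by
    have : algebraMap K (Polynomial K) ((Nat.factorial 17 : K)⁻¹) =
      Polynomial.C ((Nat.factorial 17 : K)⁻¹) := rfl
    rw [this, Polynomial.eval_C]
    exact inv_ne_zero (Nat.cast_ne_zero.mpr (Nat.factorial_ne_zero 17))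
  have h7 : (Polynomial.C (c 0 * d 0) * ∏ j ∈ Finset.univ.erase 0, lam c d j).eval (c 0 / d 0) ≠ 0 := by
    rw [Polynomial.eval_mul, Polynomial.eval_C, Polynomial.eval_prod]
    refine mul_ne_zero (mul_ne_zero (hc 0) (hd 0)) ?_
    rw [Finset.prod_ne_zero_iff]
    intro j hj
    have hj0 : j ≠ 0 := Finset.ne_of_mem_erase hj
    simp only [lam, Polynomial.eval_sub, Polynomial.eval_mul, Polynomial.eval_C, Polynomial.eval_X]
    have h8 := hcd 0 j hj0.symm
    intro h9
    apply h8
    have h10 := hd 0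
    field_simp at h9
    linear_combination h9
  have h8 := (mul_eq_zero.mp ((mul_eq_zero.mp h4).resolve_right (pow_ne_zero _ h7))).resolve_left h6'
  have h9 : (aeval (rncr c d p 0) G).eval (c 0 / d 0) =
      eval (fun k => (rncr c d p 0 k).eval (c 0 / d 0)) G := by
    have h10 : (Polynomial.aeval (c 0 / d 0) : Polynomial K →ₐ[K] K) (aeval (rncr c d p 0) G) =
        aeval (fun k => (Polynomial.aeval (c 0 / d 0) : Polynomial K →ₐ[K] K) (rncr c d p 0 k)) G := by
      rw [MvPolynomial.comp_aeval_apply]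
    rw [Polynomial.coe_aeval_eq_eval] at h10
    rw [h10, MvPolynomial.aeval_eq_eval]
  rw [← h9, h8]

end Pool.Agent.H732R3.FI
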