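import Pool.Agent.H732R3.FI5

set_option autoImplicit false

/-!
# Nine points of general position in projective four-space
-/

open MvPolynomial

namespace Pool.Agent.H732R3.FI

section coords

variable {R : Type*} [CommRing R]

/-- The matrix whose columns are the first five points. -/
def Bm (p : Fin 9 → Fin 5 → R) : Matrix (Fin 5) (Fin 5) R :=
  Matrix.of fun k i => p (Fin.castLE (by norm_num) i) k

/-- The coordinates of the `l`-th point with respect to the first five, times the determinant. -/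
def co (p : Fin 9 → Fin 5 → R) (l : Fin 9) : Fin 5 → R := (Bm p).adjugate.mulVec (p l)

/-- The tangent condition. -/
def Qc (c d e : Fin 5 → R) : R :=
  e 2 * c 1 * d 1 * (c 0 * d 2 - c 2 * d 0) - e 1 * c 2 * d 2 * (c 0 * d 1 - c 1 * d 0)

/-- The product of the conditions for the rational normal curve. -/
def Rc (c d e g : Fin 5 → R) : R :=
  (∏ i, c i) * (∏ i, d i) * (∏ i, ∏ j ∈ Finset.univ.erase i, (c i * d j - c j * d i)) *
    Qc c d e * Qc c d g

/-- The product of the maximal minors. -/
def Lc (p : Fin 9 → Fin 5 → R) : R :=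
  ∏ f ∈ Finset.univ.filter (fun f : Fin 5 → Fin 9 => Function.Injective f),
    (Matrix.of fun a b => p (f a) b : Matrix (Fin 5) (Fin 5) R).det

/-- The general position condition. -/
def Gc (p : Fin 9 → Fin 5 → R) : R := Lc p * Rc (co p 5) (co p 6) (co p 7) (co p 8)

variable {S : Type*} [CommRing S] (φ : R →+* S)

theorem map_Bm (p : Fin 9 → Fin 5 → R) : φ.mapMatrix (Bm p) = Bm fun l k => φ (p l k) := rfl

theorem map_co (p : Fin 9 → Fin 5 → R) (l : Fin 9) (i : Fin 5) :
    φ (co p l i) = co (fun l k => φ (p l k)) l i := by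
  unfold co
  rw [← map_Bm, ← RingHom.map_adjugate]
  simp only [Matrix.mulVec, dotProduct, map_sum, map_mul]
  rfl

theorem map_Lc (p : Fin 9 → Fin 5 → R) : φ (Lc p) = Lc fun l k => φ (p l k) := by
  rw [Lc, Lc, map_prod]
  refine Finset.prod_congr rfl fun f _ => ?_
  rw [RingHom.map_det]
  congr 1

theorem map_Rc (c d e g : Fin 5 → R) : φ (Rc c d e g) =
    Rc (fun i => φ (c i)) (fun i => φ (d i)) (fun i => φ (e i)) (fun i => φ (g i)) := by
  unfold Rc Qc
  simp only [map_mul, map_prod, map_sub]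

theorem map_Gc (p : Fin 9 → Fin 5 → R) : φ (Gc p) = Gc fun l k => φ (p l k) := by
  rw [Gc, Gc, map_mul, map_Lc, map_Rc]
  simp only [map_co]

end coords

theorem Gc_ne_zero (K : Type*) [Field K] [CharZero K] :
    Gc (fun (l : Fin 9) (k : Fin 5) => (X (l, k) : MvPolynomial (Fin 9 × Fin 5) K)) ≠ 0 := by
  unfold Gc
  refine mul_ne_zero ?_ ?_
  · unfold Lc
    rw [Finset.prod_ne_zero_iff]
    intro f hf h0
    rw [Finset.mem_filter] at hf
    have h1 := congrArg (eval (fun lk : Fin 9 × Fin 5 => ((lk.1 : ℕ) : K) ^ (lk.2 : ℕ))) h0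
    rw [RingHom.map_det, map_zero] at h1
    have h2 : (eval (fun lk : Fin 9 × Fin 5 => ((lk.1 : ℕ) : K) ^ (lk.2 : ℕ))).mapMatrix
        (Matrix.of fun a b => (X (f a, b) : MvPolynomial (Fin 9 × Fin 5) K)) =
        Matrix.vandermonde fun a => (((f a : Fin 9) : ℕ) : K) := by
      ext a b
      simp [Matrix.vandermonde]
    rw [h2] at h1
    refine Matrix.det_vandermonde_ne_zero_iff.mpr ?_ h1
    intro a b hab
    apply hf.2
    apply Fin.ext
    have hab' : (((f a : Fin 9) : ℕ) : K) = (((f b : Fin 9) : ℕ) : K) := hab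
    exact_mod_cast hab'
  · intro h0
    set q : Fin 9 → Fin 5 → K := fun l k =>
      if (l : ℕ) < 5 then (if (l : ℕ) = (k : ℕ) then 1 else 0) else
        if (l : ℕ) = 6 then ((k : ℕ) : K) + 1 else 1 with hq
    have h1 := congrArg (eval (fun lk : Fin 9 × Fin 5 => q lk.1 lk.2)) h0
    have hB : Bm q = 1 := by
      ext k i
      rw [Bm, Matrix.of_apply, hq]
      simp only [Fin.val_castLE]
      rw [if_pos i.isLt, Matrix.one_apply]
      by_cases h : k = i
      · subst h; simp
      · rw [if_neg h, if_neg]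
        intro h'
        exact h (Fin.ext h'.symm)
    have hco : ∀ l, co q l = q l := by
      intro l
      rw [co, hB, Matrix.adjugate_one, Matrix.one_mulVec]
    have h2 : ∀ l i, eval (fun lk : Fin 9 × Fin 5 => q lk.1 lk.2)
        (co (fun (l : Fin 9) (k : Fin 5) => (X (l, k) : MvPolynomial (Fin 9 × Fin 5) K)) l i) =
        q l i := by
      intro l i
      rw [map_co]
      simp only [eval_X]
      rw [show (fun l k => q l k) = q from rfl, hco]
    unfold Rc Qc at h1
    simp only [map_mul, map_prod, map_sub, h2, map_zero] at h1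
    have hq5 : ∀ k, q 5 k = 1 := fun k => by simp [hq]
    have hq6 : ∀ k, q 6 k = ((k : ℕ) : K) + 1 := fun k => by simp [hq]
    have hq7 : ∀ k, q 7 k = 1 := fun k => by simp [hq]
    have hq8 : ∀ k, q 8 k = 1 := fun k => by simp [hq]
    simp only [hq5, hq6, hq7, hq8] at h1
    simp only [Finset.prod_const_one, one_mul] at h1
    rw [mul_eq_zero, mul_eq_zero, mul_eq_zero] at h1
    rcases h1 with ((h1 | h1) | h1) | h1
    · rw [Finset.prod_eq_zero_iff] at h1
      obtain ⟨i, -, hi⟩ := h1
      have : ((i : ℕ) : K) + 1 = (((i : ℕ) + 1 : ℕ) : K) := by push_cast; ring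
      rw [this] at hi
      exact absurd (Nat.cast_eq_zero.mp hi) (by omega)
    · rw [Finset.prod_eq_zero_iff] at h1
      obtain ⟨i, -, hi⟩ := h1
      rw [Finset.prod_eq_zero_iff] at hi
      obtain ⟨j, hj, hij⟩ := hi
      have hji : j ≠ i := Finset.ne_of_mem_erase hj
      apply hji
      apply Fin.ext
      have h3 : ((j : ℕ) : K) = ((i : ℕ) : K) := by linear_combination hij
      exact_mod_cast h3
    · norm_num at h1
    · norm_num at h1

section main

variable {K : Type*} [Field K] [CharZero K]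

theorem planes (p : Fin 9 → Fin 5 → K) (hL : Lc p ≠ 0) (f : Fin 5 → Fin 9)
    (hf : Function.Injective f) :
    ∃ c : Fin 5 → K, ∑ k, c k * p (f 0) k ≠ 0 ∧ ∀ a, a ≠ 0 → ∑ k, c k * p (f a) k = 0 := by
  unfold Lc at hL
  rw [Finset.prod_ne_zero_iff] at hL
  have h1 := hL f (Finset.mem_filter.mpr ⟨Finset.mem_univ _, hf⟩)
  set M : Matrix (Fin 5) (Fin 5) K := Matrix.of fun a b => p (f a) b with hM
  have h2 : ∀ a, ∑ k, M.adjugate k 0 * p (f a) k = if a = 0 then M.det else 0 := by
    intro a
    have h3 := congrFun (congrFun (Matrix.mul_adjugate M) a) 0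
    rw [Matrix.mul_apply, Matrix.smul_apply, Matrix.one_apply] at h3
    rw [show ∑ k, M.adjugate k 0 * p (f a) k = ∑ k, M a k * M.adjugate k 0 from
      Finset.sum_congr rfl fun k _ => by rw [hM, Matrix.of_apply]; ring, h3]
    simp
  refine ⟨fun k => M.adjugate k 0, ?_, ?_⟩
  · rw [h2, if_pos rfl]; exact h1
  · intro a ha
    rw [h2, if_neg ha]

theorem H_main (p : Fin 9 → Fin 5 → K) (hL : Lc p ≠ 0) (i j : Fin 9) (_hij : i ≠ j)
    (h : ↥(homogeneousSubmodule (Fin 5) K 4)) :
    ∃ G : ↥(homogeneousSubmodule (Fin 5) K (4 + 17)), Dres (p i) 17 4 G = h ∧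
        ∀ l, l ≠ i → l ≠ j → Dres (p l) 17 4 G = 0 := by
  have hinj1 : Function.Injective (Fin.cons i (fun a : Fin 4 => i.succAbove (Fin.castAdd 4 a)) :
      Fin 5 → Fin 9) := by
    rw [Fin.cons_injective_iff]
    refine ⟨?_, ?_⟩
    · rintro ⟨a, ha⟩
      exact Fin.succAbove_ne i _ ha
    · exact Fin.succAbove_right_injective.comp (Fin.castAdd_injective 4 4)
  have hinj2 : Function.Injective (Fin.cons i (fun a : Fin 4 => i.succAbove (Fin.natAdd 4 a)) :
      Fin 5 → Fin 9) := by
    rw [Fin.cons_injective_iff]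
    refine ⟨?_, ?_⟩
    · rintro ⟨a, ha⟩
      exact Fin.succAbove_ne i _ ha
    · exact Fin.succAbove_right_injective.comp (Fin.natAdd_injective 4 4)
  obtain ⟨c, hc, hc0⟩ := planes p hL _ hinj1
  obtain ⟨c', hc', hc0'⟩ := planes p hL _ hinj2
  rw [Fin.cons_zero] at hc hc'
  set t := ∑ k, c k * p i k with ht
  obtain ⟨G, hG, hG'⟩ := H_of_planes p 17 4 (by norm_num) i c c' (fun k => c k / t)
    (by
      have : ∑ k, c k / t * p i k = (∑ k, c k * p i k) / t := by
        rw [Finset.sum_div]
        refine Finset.sum_congr rfl fun k _ => by ring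
      rw [this, ← ht, div_self hc]) hc hc'
    (by
      intro l hl
      obtain ⟨m, rfl⟩ := Fin.exists_succAbove_eq hl
      induction m using Fin.addCases (m := 4) (n := 4) with
      | left a =>
        left
        have := hc0 a.succ (Fin.succ_ne_zero a)
        rwa [Fin.cons_succ] at this
      | right a =>
        right
        have := hc0' a.succ (Fin.succ_ne_zero a)
        rwa [Fin.cons_succ] at this) h
  exact ⟨G, hG, fun l hl _ => hG' l hl⟩

end main

end Pool.Agent.H732R3.FI
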