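import Pool.Agent.H732R3.FI6

set_option autoImplicit false

/-!
# The extra relation
-/

open MvPolynomial

namespace Pool.Agent.H732R3.FI

variable {K : Type*} [Field K] [CharZero K]

theorem co_five (p : Fin 9 → Fin 5 → K) (l : Fin 9) (k : Fin 5) :
    ∑ i : Fin 5, co p l i * p (Fin.castLE (by norm_num) i) k = (Bm p).det * p l k := by
  have h1 := congrFun (congrArg (fun M : Matrix (Fin 5) (Fin 5) K => M.mulVec (p l))
    (Matrix.mul_adjugate (Bm p))) k
  rw [← Matrix.mulVec_mulVec, Matrix.smul_mulVec, Matrix.one_mulVec, Pi.smul_apply,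
    smul_eq_mul] at h1
  rw [← h1]
  simp only [Matrix.mulVec, dotProduct]
  refine Finset.sum_congr rfl fun i _ => ?_
  rw [mul_comm]
  rfl

theorem xi_basis (p : Fin 9 → Fin 5 → K) (i j : Fin 5) :
    ∑ k, (Bm p).adjugate i k * p (Fin.castLE (by norm_num) j) k =
      if i = j then (Bm p).det else 0 := by
  have h1 := congrFun (congrFun (Matrix.adjugate_mul (Bm p)) i) j
  rw [Matrix.mul_apply, Matrix.smul_apply, Matrix.one_apply] at h1
  rw [show ∑ k, (Bm p).adjugate i k * p (Fin.castLE (by norm_num) j) k =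
    ∑ k, (Bm p).adjugate i k * Bm p k j from rfl, h1]
  simp

/-- The value of a combination of two coordinate functions. -/
theorem comb (p : Fin 9 → Fin 5 → K) (x y : K) (i j : Fin 5) (v : Fin 5 → K) :
    ∑ k, (x * (Bm p).adjugate i k - y * (Bm p).adjugate j k) * v k =
      x * (∑ k, (Bm p).adjugate i k * v k) - y * ∑ k, (Bm p).adjugate j k * v k := by
  rw [Finset.mul_sum, Finset.mul_sum, ← Finset.sum_sub_distrib]
  refine Finset.sum_congr rfl fun k _ => by ring

theorem main_bound (p : Fin 9 → Fin 5 → K) (hp : Gc p ≠ 0) :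
    601 ≤ Module.finrank K (LinearMap.ker (Psi p 17 4)) := by
  have hL : Lc p ≠ 0 := left_ne_zero_of_mul hp
  have hR : Rc (co p 5) (co p 6) (co p 7) (co p 8) ≠ 0 := right_ne_zero_of_mul hp
  set Δ := (Bm p).det with hΔd
  have hΔ : Δ ≠ 0 := by
    have h1 := hL
    unfold Lc at h1
    rw [Finset.prod_ne_zero_iff] at h1
    have h2 := h1 (Fin.castLE (by norm_num)) (Finset.mem_filter.mpr ⟨Finset.mem_univ _,
      Fin.castLE_injective (by norm_num)⟩)
    rw [← Matrix.det_transpose] at h2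
    exact h2
  set c := co p 5 with hc5
  set d := co p 6 with hd6
  set e := co p 7 with he7
  set g := co p 8 with hg8
  unfold Rc at hR
  have hQg : Qc c d g ≠ 0 := right_ne_zero_of_mul hR
  have hR1 := left_ne_zero_of_mul hR
  have hQe : Qc c d e ≠ 0 := right_ne_zero_of_mul hR1
  have hR2 := left_ne_zero_of_mul hR1
  have hcd : ∀ i j, i ≠ j → c i * d j - c j * d i ≠ 0 := by
    have h1 := right_ne_zero_of_mul hR2
    rw [Finset.prod_ne_zero_iff] at h1
    intro i j hij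
    have h2 := h1 i (Finset.mem_univ _)
    rw [Finset.prod_ne_zero_iff] at h2
    exact h2 j (Finset.mem_erase.mpr ⟨hij.symm, Finset.mem_univ _⟩)
  have hR3 := left_ne_zero_of_mul hR2
  have hd : ∀ i, d i ≠ 0 := fun i =>
    (Finset.prod_ne_zero_iff.mp (right_ne_zero_of_mul hR3)) i (Finset.mem_univ _)
  have hc : ∀ i, c i ≠ 0 := fun i =>
    (Finset.prod_ne_zero_iff.mp (left_ne_zero_of_mul hR3)) i (Finset.mem_univ _)
  set ξ := (Bm p).adjugate with hξ
  -- the linear forms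
  set h5 : Fin 5 → K := fun k => c 4 * ξ 3 k - c 3 * ξ 4 k with hh5
  set h6 : Fin 5 → K := fun k => d 2 * ξ 1 k - d 1 * ξ 2 k with hh6
  set h7 : Fin 5 → K := fun k => e 2 * ξ 1 k - e 1 * ξ 2 k with hh7
  set h8 : Fin 5 → K := fun k => g 2 * ξ 1 k - g 1 * ξ 2 k with hh8
  have hb : ∀ i j : Fin 5, ∑ k, ξ i k * p (Fin.castLE (by norm_num) j) k = if i = j then Δ else 0 :=
    fun i j => xi_basis p i j
  have v5 : ∀ v : Fin 5 → K, ∑ k, h5 k * v k = c 4 * (∑ k, ξ 3 k * v k) - c 3 * ∑ k, ξ 4 k * v k :=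
    fun v => comb p _ _ _ _ v
  have v6 : ∀ v : Fin 5 → K, ∑ k, h6 k * v k = d 2 * (∑ k, ξ 1 k * v k) - d 1 * ∑ k, ξ 2 k * v k :=
    fun v => comb p _ _ _ _ v
  have v7 : ∀ v : Fin 5 → K, ∑ k, h7 k * v k = e 2 * (∑ k, ξ 1 k * v k) - e 1 * ∑ k, ξ 2 k * v k :=
    fun v => comb p _ _ _ _ v
  have v8 : ∀ v : Fin 5 → K, ∑ k, h8 k * v k = g 2 * (∑ k, ξ 1 k * v k) - g 1 * ∑ k, ξ 2 k * v k :=
    fun v => comb p _ _ _ _ v
  have x5 : ∀ i, ∑ k, ξ i k * p 5 k = c i := fun i => rfl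
  have x6 : ∀ i, ∑ k, ξ i k * p 6 k = d i := fun i => rfl
  have x7 : ∀ i, ∑ k, ξ i k * p 7 k = e i := fun i => rfl
  have x8 : ∀ i, ∑ k, ξ i k * p 8 k = g i := fun i => rfl
  have b0 : ∀ i : Fin 5, ∑ k, ξ i k * p 0 k = if i = 0 then Δ else 0 := fun i => hb i 0
  have b1 : ∀ i : Fin 5, ∑ k, ξ i k * p 1 k = if i = 1 then Δ else 0 := fun i => hb i 1
  have b2 : ∀ i : Fin 5, ∑ k, ξ i k * p 2 k = if i = 2 then Δ else 0 := fun i => hb i 2
  have b3 : ∀ i : Fin 5, ∑ k, ξ i k * p 3 k = if i = 3 then Δ else 0 := fun i => hb i 3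
  have b4 : ∀ i : Fin 5, ∑ k, ξ i k * p 4 k = if i = 4 then Δ else 0 := fun i => hb i 4
  set G : MvPolynomial (Fin 5) K := lf h5 ^ 5 * lf h6 ^ 5 * lf h7 ^ 5 * lf h8 ^ 5 * lf (ξ 1) with hG
  have ph5 := (lf_hom h5).pow 5
  have ph6 := (lf_hom h6).pow 5
  have ph7 := (lf_hom h7).pow 5
  have ph8 := (lf_hom h8).pow 5
  have phy := lf_hom (ξ 1)
  have hGh : G.IsHomogeneous 21 := ((((ph5.mul ph6).mul ph7).mul ph8).mul phy)
  have hEG0 : E (p 0) G = 0 := by
    have z5 : E (p 0) (lf h5) = 0 := by rw [E_lf, v5, b0, b0]; simp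
    have z6 : E (p 0) (lf h6) = 0 := by rw [E_lf, v6, b0, b0]; simp
    have z7 : E (p 0) (lf h7) = 0 := by rw [E_lf, v7, b0, b0]; simp
    have z8 : E (p 0) (lf h8) = 0 := by rw [E_lf, v8, b0, b0]; simp
    have zy : E (p 0) (lf (ξ 1)) = 0 := by rw [E_lf, b0]; simp
    exact E_mul_zero (E_mul_zero (E_mul_zero (E_mul_zero (E_pow_zero z5 5) (E_pow_zero z6 5))
      (E_pow_zero z7 5)) (E_pow_zero z8 5)) zy
  have hEG : ∀ l, l ≠ 0 → (E (p l) ^ 17) G = 0 := by
    have f5 : ∀ l, ∑ k, h5 k * p l k = 0 → (E (p l) ^ 17) G = 0 := by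
      intro l hl
      have : G = lf h5 ^ 5 * (lf h6 ^ 5 * lf h7 ^ 5 * lf h8 ^ 5 * lf (ξ 1)) := by rw [hG]; ring
      rw [this]
      exact E_zero_of_lf hl 5 17 16 (by norm_num) (((ph6.mul ph7).mul ph8).mul phy)
    have f6 : ∀ l, ∑ k, h6 k * p l k = 0 → (E (p l) ^ 17) G = 0 := by
      intro l hl
      have : G = lf h6 ^ 5 * (lf h5 ^ 5 * lf h7 ^ 5 * lf h8 ^ 5 * lf (ξ 1)) := by rw [hG]; ring
      rw [this]
      exact E_zero_of_lf hl 5 17 16 (by norm_num) (((ph5.mul ph7).mul ph8).mul phy)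
    have f7 : ∀ l, ∑ k, h7 k * p l k = 0 → (E (p l) ^ 17) G = 0 := by
      intro l hl
      have : G = lf h7 ^ 5 * (lf h5 ^ 5 * lf h6 ^ 5 * lf h8 ^ 5 * lf (ξ 1)) := by rw [hG]; ring
      rw [this]
      exact E_zero_of_lf hl 5 17 16 (by norm_num) (((ph5.mul ph6).mul ph8).mul phy)
    have f8 : ∀ l, ∑ k, h8 k * p l k = 0 → (E (p l) ^ 17) G = 0 := by
      intro l hl
      have : G = lf h8 ^ 5 * (lf h5 ^ 5 * lf h6 ^ 5 * lf h7 ^ 5 * lf (ξ 1)) := by rw [hG]; ring
      rw [this]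
      exact E_zero_of_lf hl 5 17 16 (by norm_num) (((ph5.mul ph6).mul ph7).mul phy)
    intro l hl
    have hcases : ∀ l : Fin 9, l ≠ 0 → l = 1 ∨ l = 2 ∨ l = 3 ∨ l = 4 ∨ l = 5 ∨ l = 6 ∨ l = 7 ∨
        l = 8 := by decide
    rcases hcases l hl with h | h | h | h | h | h | h | h <;> rw [h]
    · exact f5 1 (by rw [v5, b1, b1]; simp)
    · exact f5 2 (by rw [v5, b2, b2]; simp)
    · exact f6 3 (by rw [v6, b3, b3]; simp)
    · exact f6 4 (by rw [v6, b4, b4]; simp)
    · exact f5 5 (by rw [v5, x5, x5]; ring)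
    · exact f6 6 (by rw [v6, x6, x6]; ring)
    · exact f7 7 (by rw [v7, x7, x7]; ring)
    · exact f8 8 (by rw [v8, x8, x8]; ring)
  -- the tangent vector
  set pb : Fin 5 → Fin 5 → K := fun i => p (Fin.castLE (by norm_num) i) with hpb
  set u : K := c 0 / d 0 with hu
  set L : Fin 5 → K := fun j => d j * u - c j with hLdef
  have hLne : ∀ j, j ≠ 0 → L j ≠ 0 := by
    intro j hj h9
    apply hcd 0 j hj.symm
    have h10 := hd 0
    rw [hLdef, hu] at h9
    simp only at h9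
    field_simp at h9
    linear_combination h9
  set T : Fin 5 → K := fun i => c i * d i * ∏ j ∈ (Finset.univ.erase i).erase 0, L j with hT
  set τ : Fin 5 → K := fun k => (rncr c d pb 0 k).eval u with hτ
  have hτv : ∀ k, τ k = ∑ i ∈ Finset.univ.erase 0, T i * pb i k := by
    intro k
    rw [hτ]
    simp only [rncr]
    rw [Polynomial.eval_finsetSum]
    refine Finset.sum_congr rfl fun i _ => ?_
    rw [Polynomial.eval_mul, Polynomial.eval_C, Polynomial.eval_prod, hT]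
    simp only
    have : ∏ j ∈ (Finset.univ.erase i).erase 0, (lam c d j).eval u =
        ∏ j ∈ (Finset.univ.erase i).erase 0, L j := by
      refine Finset.prod_congr rfl fun j _ => ?_
      simp [lam, hLdef]
    rw [this]
    ring
  have hξτ : ∀ i, i ≠ 0 → ∑ k, ξ i k * τ k = Δ * T i := by
    intro i hi
    simp only [hτv, Finset.mul_sum]
    rw [Finset.sum_comm]
    have h1 : ∀ i' ∈ Finset.univ.erase (0 : Fin 5), ∑ k, ξ i k * (T i' * pb i' k) =
        T i' * if i = i' then Δ else 0 := by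
      intro i' _
      rw [← hb i i', Finset.mul_sum]
      refine Finset.sum_congr rfl fun k _ => by rw [hpb]; ring
    rw [Finset.sum_congr rfl h1, Finset.sum_eq_single i]
    · rw [if_pos rfl]; ring
    · intro i' _ hi'
      rw [if_neg (Ne.symm hi'), mul_zero]
    · intro h2
      exact absurd (Finset.mem_erase.mpr ⟨hi, Finset.mem_univ _⟩) h2
  have T1 : T 1 = c 1 * d 1 * (L 2 * L 3 * L 4) := by
    rw [hT]
    simp only
    rw [show (Finset.univ.erase (1 : Fin 5)).erase 0 = {2, 3, 4} from by decide,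
      Finset.prod_insert (by decide), Finset.prod_insert (by decide), Finset.prod_singleton]
    ring
  have T2 : T 2 = c 2 * d 2 * (L 1 * L 3 * L 4) := by
    rw [hT]
    simp only
    rw [show (Finset.univ.erase (2 : Fin 5)).erase 0 = {1, 3, 4} from by decide,
      Finset.prod_insert (by decide), Finset.prod_insert (by decide), Finset.prod_singleton]
    ring
  have T3 : T 3 = c 3 * d 3 * (L 1 * L 2 * L 4) := by
    rw [hT]
    simp only
    rw [show (Finset.univ.erase (3 : Fin 5)).erase 0 = {1, 2, 4} from by decide,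
      Finset.prod_insert (by decide), Finset.prod_insert (by decide), Finset.prod_singleton]
    ring
  have T4 : T 4 = c 4 * d 4 * (L 1 * L 2 * L 3) := by
    rw [hT]
    simp only
    rw [show (Finset.univ.erase (4 : Fin 5)).erase 0 = {1, 2, 3} from by decide,
      Finset.prod_insert (by decide), Finset.prod_insert (by decide), Finset.prod_singleton]
    ring
  have hu0 : u ≠ 0 := div_ne_zero (hc 0) (hd 0)
  have hdu : d 0 * u = c 0 := by rw [hu]; field_simp [hd 0]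
  have L1 := hLne 1 (by decide)
  have L2 := hLne 2 (by decide)
  have L3 := hLne 3 (by decide)
  have L4 := hLne 4 (by decide)
  have n5 : ∑ k, h5 k * τ k ≠ 0 := by
    rw [v5, hξτ 3 (by decide), hξτ 4 (by decide), T3, T4]
    have : c 4 * (Δ * (c 3 * d 3 * (L 1 * L 2 * L 4))) - c 3 * (Δ * (c 4 * d 4 * (L 1 * L 2 * L 3)))
        = Δ * c 3 * c 4 * L 1 * L 2 * (c 3 * d 4 - c 4 * d 3) := by
      rw [hLdef]; ring
    rw [this]
    exact mul_ne_zero (mul_ne_zero (mul_ne_zero (mul_ne_zero (mul_ne_zero hΔ (hc 3)) (hc 4)) L1) L2)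
      (hcd 3 4 (by decide))
  have n6 : ∑ k, h6 k * τ k ≠ 0 := by
    rw [v6, hξτ 1 (by decide), hξτ 2 (by decide), T1, T2]
    have : d 2 * (Δ * (c 1 * d 1 * (L 2 * L 3 * L 4))) - d 1 * (Δ * (c 2 * d 2 * (L 1 * L 3 * L 4)))
        = Δ * d 1 * d 2 * L 3 * L 4 * u * (c 1 * d 2 - c 2 * d 1) := by
      rw [hLdef]; ring
    rw [this]
    exact mul_ne_zero (mul_ne_zero (mul_ne_zero (mul_ne_zero (mul_ne_zero (mul_ne_zero hΔ (hd 1))
      (hd 2)) L3) L4) hu0) (hcd 1 2 (by decide))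
  have hQ : ∀ e : Fin 5 → K, Qc c d e ≠ 0 → e 2 * (Δ * T 1) - e 1 * (Δ * T 2) ≠ 0 := by
    intro e hQe
    rw [T1, T2]
    have : d 0 * (e 2 * (Δ * (c 1 * d 1 * (L 2 * L 3 * L 4))) -
        e 1 * (Δ * (c 2 * d 2 * (L 1 * L 3 * L 4)))) = Δ * L 3 * L 4 * Qc c d e := by
      rw [Qc, ← hdu, hLdef]
      simp only
      have h1 : d 0 * c 1 * d 2 = d 0 * c 1 * d 2 := rfl
      have e1 : d 0 * u * d 2 - c 2 * d 0 = d 0 * (d 2 * u - c 2) := by ring
      have e2 : d 0 * u * d 1 - c 1 * d 0 = d 0 * (d 1 * u - c 1) := by ring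
      rw [e1, e2]
      ring
    intro h0
    rw [h0, mul_zero] at this
    exact mul_ne_zero (mul_ne_zero (mul_ne_zero hΔ L3) L4) hQe this.symm
  have n7 : ∑ k, h7 k * τ k ≠ 0 := by
    rw [v7, hξτ 1 (by decide), hξτ 2 (by decide)]
    exact hQ e hQe
  have n8 : ∑ k, h8 k * τ k ≠ 0 := by
    rw [v8, hξτ 1 (by decide), hξτ 2 (by decide)]
    exact hQ g hQg
  have ny : ∑ k, ξ 1 k * τ k ≠ 0 := by
    rw [hξτ 1 (by decide), T1]
    exact mul_ne_zero hΔ (mul_ne_zero (mul_ne_zero (hc 1) (hd 1)) (mul_ne_zero (mul_ne_zero L2 L3) L4))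
  have hGτ : eval τ G ≠ 0 := by
    rw [hG]
    simp only [map_mul, map_pow, eval_lf]
    exact mul_ne_zero (mul_ne_zero (mul_ne_zero (mul_ne_zero (pow_ne_zero _ n5) (pow_ne_zero _ n6))
      (pow_ne_zero _ n7)) (pow_ne_zero _ n8)) ny
  -- the compatible family which does not come from a form
  set w : Fin 9 → ↥(homogeneousSubmodule (Fin 5) K (4 + 17)) := Pi.single 0 ⟨G, hGh⟩ with hw
  have hw0 : w 0 = ⟨G, hGh⟩ := by rw [hw, Pi.single_eq_same]
  have hwl : ∀ l, l ≠ 0 → w l = 0 := fun l hl => by rw [hw, Pi.single_eq_of_ne hl]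
  have hK : Kap p 17 4 w = 0 := by
    funext q
    obtain ⟨⟨i, j⟩, hij⟩ := q
    simp only at hij
    rw [Kap_apply]
    simp only
    have hj : j ≠ 0 := fun h => by subst h; exact absurd hij (Fin.not_lt_zero i)
    rw [hwl j hj, map_zero, zero_sub, Pi.zero_apply, neg_eq_zero]
    by_cases hi : i = 0
    · subst hi
      rw [hw0]
      have hz := hEG j hj
      apply Subtype.ext
      rw [Dres_coe, Submodule.coe_zero]
      generalize (E (p j) ^ 17) = Z at hz ⊢
      exact hz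
    · rw [hwl i hi, map_zero]
  have hnr : w ∉ LinearMap.range (Psi p 17 4) := by
    rintro ⟨F, hF⟩
    apply hGτ
    have hFl : ∀ l, (E (p l) ^ 17) F.1 = (w l : MvPolynomial (Fin 5) K) := by
      intro l
      rw [← hF, Psi_coe]
    have hFl0 : ∀ l, l ≠ 0 → (E (p l) ^ 17) F.1 = 0 := by
      intro l hl
      rw [hFl, hwl l hl, Submodule.coe_zero]
    have hF0 : (E (p 0) ^ 17) F.1 = G := by
      rw [hFl, hw0]
    have hpb0 : pb 0 = p 0 := rfl
    have hF38 : (F.1).IsHomogeneous 38 := F.2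
    have hpbl : ∀ l, l ≠ 0 → (E (pb l) ^ 17) F.1 = 0 := by
      intro l hl
      have hl' : (Fin.castLE (by norm_num) l : Fin 9) ≠ 0 := by
        intro h
        apply hl
        apply Fin.ext
        have := congrArg Fin.val h
        simpa using this
      have e : pb l = p (Fin.castLE (by norm_num) l) := rfl
      rw [e]
      exact hFl0 _ hl'
    exact no_ext c d pb (p 5) (p 6) Δ hc hd hcd (fun k => co_five p 5 k) (fun k => co_five p 6 k)
      F.1 G hF38 (by rw [hpb0]; exact hF0) (by rw [hpb0]; exact hEG0) hpbl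
      (hFl0 5 (by decide)) (hFl0 6 (by decide))
  have hcount := count p 17 4 (H_main p hL) w hK hnr
  have hcard : Fintype.card {q : Fin 9 × Fin 9 // q.1 < q.2} = 36 := by decide
  rw [hcard, finrank_hom, finrank_hom, finrank_hom] at hcount
  have e1 : (4 + (4 + 17 + 17)).choose 4 = 111930 := by norm_num [Nat.choose]
  have e2 : (4 + 4).choose 4 = 70 := by norm_num [Nat.choose]
  have e3 : (4 + (4 + 17)).choose 4 = 12650 := by norm_num [Nat.choose]
  rw [e1, e2, e3] at hcount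
  omega

end Pool.Agent.H732R3.FI
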