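import Pool.Agent.H732R3.ExactE

/-!
Exact clusters with many primes in each cluster.
-/

namespace Pool.Agent.H732R3.Haus

open Finset Pool.Agent.H461R2.PD Pool.Agent.H602R3.Tup Pool.Agent.H732R3.ExactE

/-- the density Hales-Jewett theorem with cardinalities and density one eighth -/
theorem dhj_eighth (k : ℕ) : ∃ n : ℕ, ∀ A : Finset (Fin n → Fin (k + 1)),
    (k + 1) ^ n ≤ 8 * A.card → ∃ L : Combinatorics.Line (Fin (k + 1)) (Fin n), ∀ i, L i ∈ A := by
  classical
  obtain ⟨n, hn⟩ := Pool.Agent.Helper903.DHJ.ldhj (Fin (k + 1)) (1 / 8) (by norm_num)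
  refine ⟨n, fun A hA => ?_⟩
  obtain ⟨L, hL⟩ := hn (A : Set (Fin n → Fin (k + 1))) (by
    have h1 : Pool.Agent.Helper903.DHJ.dens (A : Set (Fin n → Fin (k + 1))) =
        (A.card : ℝ) / ((k : ℝ) + 1) ^ n := by
      unfold Pool.Agent.Helper903.DHJ.dens Pool.Agent.Helper903.DHJ.avg
      congr 1
      · unfold Pool.Agent.Helper903.DHJ.ind
        simp [Set.indicator_apply, Finset.sum_ite_mem]
      · simp
    rw [h1, div_le_div_iff₀ (by norm_num) (by positivity)]
    have h2 : (((k + 1) ^ n : ℕ) : ℝ) ≤ ((8 * A.card : ℕ) : ℝ) := by exact_mod_cast hA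
    push_cast at h2
    linarith)
  exact ⟨L, fun i => by exact_mod_cast hL i⟩

/-- exact clusters, with the positions of all elements -/
theorem clustersH (hQ : Quarter) (T : ℕ) : ∃ Q : ℕ, 1 ≤ Q ∧ ∀ (pos : Fin T → ℤ) (R : ℕ),
    ∃ (P : Finset ℤ) (S : Finset (Fin T)) (h : Fin T → ℤ), T ≤ 4 * S.card ∧
      Function.Injective h ∧ (∀ g, (Q : ℤ) * pos g ≤ h g ∧ h g < Q * pos g + Q) ∧
      (∀ g ∈ S, h g ∈ P) ∧ (∀ y ∈ P, ∃ g, (Q : ℤ) * pos g ≤ y ∧ y < Q * pos g + Q) ∧
      {n : ℕ | Exact P R n}.Infinite := by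
  classical
  obtain ⟨K, hK, hq⟩ := hQ T
  set W : ℕ := (T * K).factorial with hW
  have hWpos : 0 < W := Nat.factorial_pos _
  set Q : ℕ := W * (T * K + 1) with hQdef
  have hQpos : 0 < Q := by positivity
  refine ⟨Q, hQpos, fun pos R => ?_⟩
  set idx : Fin T × Fin K → ℕ := fun x => (finProdFinEquiv x : ℕ) with hidx
  have hidxlt : ∀ x, idx x < T * K := fun x => (finProdFinEquiv x).2
  have hoff : ∀ x, W * idx x < Q := by
    intro x
    rw [hQdef]
    exact Nat.mul_lt_mul_of_pos_left (by have := hidxlt x; omega) hWpos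
  set b : Fin T → Fin K → ℤ := fun g i => (Q : ℤ) * pos g + (W * idx (g, i) : ℕ) with hb
  have hmod : ∀ g i, b g i % Q = (W * idx (g, i) : ℕ) := by
    intro g i
    rw [hb]
    simp only
    rw [add_comm, Int.add_mul_emod_self_left]
    exact Int.emod_eq_of_lt (by positivity) (by exact_mod_cast hoff (g, i))
  have hbinj : ∀ g i g' i', b g i = b g' i' → (g, i) = (g', i') := by
    intro g i g' i' h
    have h1 : (W * idx (g, i) : ℕ) = W * idx (g', i') := by
      have h2 := hmod g i
      rw [h, hmod g' i'] at h2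
      exact_mod_cast h2.symm
    have h3 : idx (g, i) = idx (g', i') := Nat.eq_of_mul_eq_mul_left hWpos h1
    exact finProdFinEquiv.injective (Fin.ext h3)
  have hcell : ∀ g i, (Q : ℤ) * pos g ≤ b g i ∧ b g i < Q * pos g + Q := by
    intro g i
    rw [hb]
    simp only
    have h2 : ((W * idx (g, i) : ℕ) : ℤ) < Q := by exact_mod_cast hoff (g, i)
    have : (0 : ℤ) ≤ ((W * idx (g, i) : ℕ) : ℤ) := by positivity
    exact ⟨by linarith, by linarith⟩
  obtain ⟨P, S, c, hP, hS, hc, hE⟩ := exact_R hq b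
    (fun x y h => hbinj _ _ _ _ h)
    (by
      intro p hp
      rcases Nat.lt_or_ge (T * K) p with h | h
      · exact exists_shift_int hp h b
      · refine ⟨1, fun g i hd => ?_⟩
        have hpW : (p : ℤ) ∣ (W : ℤ) := by exact_mod_cast (Nat.dvd_factorial hp.pos h)
        have hpb : (p : ℤ) ∣ b g i := by
          rw [hb]
          simp only
          push_cast
          rw [hQdef]
          push_cast
          apply dvd_add
          · exact Dvd.dvd.mul_right (Dvd.dvd.mul_right hpW _) _
          · exact Dvd.dvd.mul_right hpW _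
        exact (Nat.prime_iff_prime_int.1 hp).not_isUnit
          (isUnit_of_dvd_one ((dvd_add_left hpb).1 hd))) R
  refine ⟨P, S, fun g => b g (c g), hS, ?_, fun g => hcell g (c g), hc, ?_, hE⟩
  · intro g g' h
    exact congrArg Prod.fst (hbinj _ _ _ _ h)
  · intro y hy
    obtain ⟨x, -, hx⟩ := mem_image.1 (hP hy)
    exact ⟨x.1, by rw [← hx]; exact hcell x.1 x.2⟩

/-- exact clusters indexed by a finite type, with at least `m` elements in an eighth of them -/
theorem clustersM (hQ : Quarter) (W m : ℕ) (hm : 1 ≤ m) : ∃ Q : ℕ, 1 ≤ Q ∧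
    ∀ (pos : Fin W → ℤ) (R : ℕ), ∃ (P : Finset ℤ) (A : Finset (Fin W)), W ≤ 8 * A.card ∧
      (∀ g ∈ A, m ≤ (P.filter (fun y => (Q : ℤ) * pos g ≤ y ∧ y < Q * pos g + Q)).card) ∧
      (∀ y ∈ P, ∃ g, (Q : ℤ) * pos g ≤ y ∧ y < Q * pos g + Q) ∧
      {n : ℕ | Exact P R n}.Infinite := by
  classical
  obtain ⟨Q, hQ1, hcl⟩ := clustersH hQ (W * (8 * m))
  refine ⟨Q, hQ1, fun pos R => ?_⟩
  let e : Fin W × Fin (8 * m) ≃ Fin (W * (8 * m)) := finProdFinEquiv
  obtain ⟨P, S, h, hS, hinj, hpos, hSP, hPc, hE⟩ := hcl (fun g => pos (e.symm g).1) R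
  set F : Fin W → Finset (Fin (W * (8 * m))) := fun w => S.filter (fun g => (e.symm g).1 = w) with hF
  set A : Finset (Fin W) := univ.filter (fun w => m ≤ (F w).card) with hA
  refine ⟨P, A, ?_, ?_, ?_, hE⟩
  · have h1 : S.card = ∑ w, (F w).card := by
      rw [card_eq_sum_card_fiberwise (f := fun g => (e.symm g).1) (t := univ) (fun _ _ => by simp)]
    have h2 : ∀ w, (F w).card ≤ 8 * m := by
      intro w
      have h3 : (F w).card ≤ (univ : Finset (Fin (8 * m))).card := by
        apply card_le_card_of_injOn (fun g => (e.symm g).2) (fun _ _ => by simp)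
        intro g hg g' hg' hgg
        have e1 := (mem_filter.1 hg).2
        have e2 := (mem_filter.1 hg').2
        apply e.symm.injective
        exact Prod.ext (e1.trans e2.symm) hgg
      simpa using h3
    have h3 : S.card ≤ A.card * (8 * m) + W * m := by
      rw [h1]
      calc ∑ w, (F w).card ≤ ∑ w, ((if w ∈ A then 8 * m else 0) + m) := by
            apply sum_le_sum
            intro w _
            by_cases hw : w ∈ A
            · rw [if_pos hw]
              have := h2 w
              omega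
            · rw [if_neg hw]
              have : ¬ m ≤ (F w).card := fun h => hw (mem_filter.2 ⟨mem_univ _, h⟩)
              omega
        _ = A.card * (8 * m) + W * m := by
            rw [sum_add_distrib, sum_const, ← sum_filter, sum_const]
            simp
    have h4 : W * (8 * m) ≤ 4 * (A.card * (8 * m) + W * m) := hS.trans (by omega)
    have h5 : W * (4 * m) ≤ (8 * A.card) * (4 * m) := by nlinarith
    exact Nat.le_of_mul_le_mul_right h5 (by omega)
  · intro w hw
    refine (mem_filter.1 hw).2.trans ?_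
    apply card_le_card_of_injOn h
    · intro g hg
      have hg' := mem_filter.1 hg
      rw [mem_coe, mem_filter]
      refine ⟨hSP g hg'.1, ?_⟩
      have := hpos g
      simp only [hg'.2] at this
      exact this
    · exact hinj.injOn
  · intro y hy
    obtain ⟨g, hg⟩ := hPc y hy
    exact ⟨_, hg⟩

end Pool.Agent.H732R3.Haus
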