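import Pool.Agent.H732R3.HausQ
import Pool.Agent.H732R3.HausB

/-!
The primes of long intervals follow every finite pattern up to a bounded error.
-/

namespace Pool.Agent.H732R3.HausQ

open Finset Pool.Agent.H461R2.PD Pool.Agent.H602R3.Tup Pool.Agent.H732R3.ExactE Pool.Agent.H732R3.Haus

def StQ (q : ℕ) (r : ℤ) (m k : ℕ) : Prop :=
  ∃ C : ℕ, ∀ (v : Fin k → ℤ) (R : ℕ), ∃ H : Finset ℤ, Near C m v H ∧ {n : ℕ | EQ q r H R n}.Infinite

theorem merge {q : ℕ} {r : ℤ} {m k C0 G : ℕ} (h : ∀ (v : Fin k → ℤ) (R : ℕ), ∃ H : Finset ℤ, Near C0 m v H ∧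
    {n : ℕ | EQ q r H R n}.Infinite) (v : Fin (k + 1) → ℤ) (R : ℕ) {i i' : Fin (k + 1)}
    (hne : i ≠ i') (hG : |v i - v i'| ≤ G) :
    ∃ H : Finset ℤ, Near (C0 + G) m v H ∧ {n : ℕ | EQ q r H R n}.Infinite := by
  obtain ⟨H, ⟨h1, h2⟩, h3⟩ := h (fun x => v (i'.succAbove x)) R
  refine ⟨H, ⟨fun x => ?_, fun y hy => ?_⟩, h3⟩
  · by_cases hx : x = i'
    · subst hx
      obtain ⟨z, hz⟩ := Fin.exists_succAbove_eq hne
      refine (h1 z).trans (card_le_card ?_)
      intro y hy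
      rw [mem_filter] at hy ⊢
      refine ⟨hy.1, ?_⟩
      have h4 := hy.2
      simp only [hz] at h4
      push_cast
      calc |y - v x| = |(y - v i) + (v i - v x)| := by ring_nf
        _ ≤ |y - v i| + |v i - v x| := abs_add_le _ _
        _ ≤ C0 + G := by linarith
    · obtain ⟨z, hz⟩ := Fin.exists_succAbove_eq hx
      refine (h1 z).trans (card_le_card ?_)
      intro y hy
      rw [mem_filter] at hy ⊢
      refine ⟨hy.1, ?_⟩
      have h4 := hy.2
      simp only [hz] at h4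
      push_cast
      have : (0 : ℤ) ≤ G := by positivity
      linarith
  · obtain ⟨z, hz⟩ := h2 y hy
    refine ⟨_, hz.trans ?_⟩
    push_cast
    have : (0 : ℤ) ≤ G := by positivity
    linarith

theorem step (hQ : Quarter) {q : ℕ} {r : ℤ} (hq1 : 1 ≤ q) (hr : IsCoprime r (q : ℤ)) (m k : ℕ)
    (hm : 1 ≤ m) (hk : k = 0 ∨ StQ q r m k) : StQ q r m (k + 1) := by
  classical
  obtain ⟨C0, hC0⟩ : ∃ C0 : ℕ, k = 0 ∨ ∀ (v : Fin k → ℤ) (R : ℕ), ∃ H : Finset ℤ, Near C0 m v H ∧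
      {n : ℕ | EQ q r H R n}.Infinite := by
    rcases hk with h | ⟨C, hC⟩
    · exact ⟨0, Or.inl h⟩
    · exact ⟨C, Or.inr hC⟩
  by_contra hcon
  have hcon' : ∀ C : ℕ, ∃ (v : Fin (k + 1) → ℤ) (R : ℕ), ∀ H : Finset ℤ, Near C m v H →
      ¬ {n : ℕ | EQ q r H R n}.Infinite := by
    intro C
    by_contra h
    apply hcon
    refine ⟨C, fun v R => ?_⟩
    by_contra h2
    apply h
    exact ⟨v, R, fun H hH hI => h2 ⟨H, hH, hI⟩⟩
  choose vB RB hB using hcon'
  have hsep : ∀ G : ℕ, ∀ i i' : Fin (k + 1), i ≠ i' →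
      (G : ℤ) < |vB (C0 + G) i - vB (C0 + G) i'| := by
    intro G i i' hne
    by_contra h
    rcases hC0 with h0 | h0
    · subst h0
      exact hne (Fin.ext (by omega))
    · obtain ⟨H, hH, hI⟩ := merge h0 (vB (C0 + G)) (RB (C0 + G)) hne (not_lt.1 h)
      exact hB _ H hH hI
  obtain ⟨n, hn⟩ := dhj_eighth k
  obtain ⟨Q, hQ1, hcl⟩ := clustersM hQ ((k + 1) ^ n) m hm
  have hQ0 : (0 : ℤ) < Q := by exact_mod_cast hQ1
  obtain ⟨nrm, hnrm⟩ : ∃ nrm : (Fin (k + 1) → ℤ) → ℕ, nrm = fun v => ∑ i, (v i).natAbs := ⟨_, rfl⟩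
  have hnrm1 : ∀ (v : Fin (k + 1) → ℤ) i, |v i| ≤ nrm v := by
    intro v i
    have h1 : (v i).natAbs ≤ ∑ i, (v i).natAbs :=
      single_le_sum (f := fun i => (v i).natAbs) (fun _ _ => Nat.zero_le _) (mem_univ i)
    rw [Int.abs_eq_natAbs, hnrm]
    exact_mod_cast h1
  obtain ⟨G, hG0, hGs⟩ : ∃ G : ℕ → ℕ, G 0 = Q ∧
      ∀ j, G (j + 1) = G j + 2 * nrm (vB (C0 + G j)) + RB (C0 + G j) :=
    ⟨fun j => Nat.rec Q (fun _ g => g + 2 * nrm (vB (C0 + g)) + RB (C0 + g)) j, rfl, fun _ => rfl⟩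
  obtain ⟨v, hv⟩ : ∃ v : ℕ → Fin (k + 1) → ℤ, v = fun j => vB (C0 + G j) := ⟨_, rfl⟩
  obtain ⟨R, hR⟩ : ∃ R : ℕ → ℕ, R = fun j => RB (C0 + G j) := ⟨_, rfl⟩
  have hGsum : ∀ j, G j = Q + ∑ i ∈ range j, (2 * nrm (v i) + R i) := by
    intro j
    induction j with
    | zero => simp [hG0]
    | succ j ih =>
      rw [hGs, sum_range_succ, hv, hR]
      rw [hv, hR] at ih
      simp only at ih ⊢
      omega
  have hvsep : ∀ j, ∀ i i' : Fin (k + 1), i ≠ i' → (G j : ℤ) < |v j i - v j i'| := by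
    intro j i i' hne
    rw [hv]
    exact hsep (G j) i i' hne
  obtain ⟨N, hN⟩ : ∃ N : ℕ → ℕ, N = fun j => ∑ i ∈ range j, nrm (v i) := ⟨_, rfl⟩
  have hGN : ∀ j, G j = Q + 2 * N j + ∑ i ∈ range j, R i := by
    intro j
    rw [hGsum, hN, sum_add_distrib, ← mul_sum]
    ring
  -- words
  obtain ⟨X, hX⟩ : ∃ X : (Fin n → Fin (k + 1)) → ℕ → ℤ,
    X = fun w j => if hj : j < n then v j (w ⟨j, hj⟩) else 0 := ⟨_, rfl⟩
  have hX1 : ∀ w (j : ℕ) (hj : j < n), X w j = v j (w ⟨j, hj⟩) := by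
    intro w j hj
    rw [hX]
    simp only [dif_pos hj]
  have hXb : ∀ w (j : ℕ), |X w j| ≤ nrm (v j) := by
    intro w j
    by_cases hj : j < n
    · rw [hX1 w j hj]; exact hnrm1 _ _
    · rw [hX]; simp only [dif_neg hj, abs_zero]; positivity
  have hXs : ∀ w (S : Finset ℕ) (j : ℕ), S ⊆ range j → |∑ i ∈ S, X w i| ≤ N j := by
    intro w S j hS
    calc |∑ i ∈ S, X w i| ≤ ∑ i ∈ S, |X w i| := abs_sum_le_sum_abs _ _
      _ ≤ ∑ i ∈ S, (nrm (v i) : ℤ) := sum_le_sum fun i _ => hXb w i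
      _ ≤ ∑ i ∈ range j, (nrm (v i) : ℤ) :=
          sum_le_sum_of_subset_of_nonneg hS fun _ _ _ => by positivity
      _ = N j := by rw [hN]; push_cast; rfl
  obtain ⟨s, hs⟩ : ∃ s : (Fin n → Fin (k + 1)) → ℤ, s = fun w => ∑ j ∈ range n, X w j := ⟨_, rfl⟩
  let e : (Fin n → Fin (k + 1)) ≃ Fin ((k + 1) ^ n) := finFunctionFinEquiv
  obtain ⟨P, A, hA, hAm, hPc, hE⟩ := hcl q r hq1 hr (fun g => s (e.symm g) / Q) (G n)
  obtain ⟨L, hL⟩ := hn (A.map e.symm.toEmbedding) (by rw [card_map]; exact hA)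
  have hLS : ∀ i, e (L i) ∈ A := by
    intro i
    have := hL i
    rw [mem_map] at this
    obtain ⟨g, hg, hgi⟩ := this
    have h2 : e (L i) = g := by
      rw [← hgi]
      simp
    rw [h2]; exact hg
  have hclose : ∀ w (y : ℤ), (Q : ℤ) * (s w / Q) ≤ y ∧ y < Q * (s w / Q) + Q → |y - s w| ≤ Q := by
    intro w y h1
    have h2 := Int.emod_add_mul_ediv (s w) Q
    have h3 := Int.emod_nonneg (s w) hQ0.ne'
    have h4 := Int.emod_lt_of_pos (s w) hQ0
    rw [abs_le]
    constructor <;> linarith [h1.1, h1.2]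
  set J : Finset (Fin n) := univ.filter (fun j => L.idxFun j = none) with hJ
  have hJne : J.Nonempty := by
    obtain ⟨j, hj⟩ := L.proper
    exact ⟨j, by simp [hJ, hj]⟩
  obtain ⟨jf, hjf1, hjf2⟩ : ∃ jf : Fin n, L.idxFun jf = none ∧
      ∀ j : Fin n, jf < j → ∃ y, L.idxFun j = some y := by
    refine ⟨J.max' hJne, (mem_filter.1 (J.max'_mem hJne)).2, fun j hj => ?_⟩
    apply Option.ne_none_iff_exists'.1
    intro h
    have : j ≤ J.max' hJne := J.le_max' j (by simp [hJ, h])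
    exact absurd hj (not_lt.2 this)
  obtain ⟨js, hjs⟩ := jf
  have hact : ∀ i, L i ⟨js, hjs⟩ = i := fun i => Combinatorics.Line.apply_none _ _ _ hjf1
  have hfix : ∀ (j : ℕ) (hj : j < n), js < j → ∀ i, L i ⟨j, hj⟩ = L 0 ⟨j, hj⟩ := by
    intro j hj hlt i
    obtain ⟨y, hy⟩ := hjf2 ⟨j, hj⟩ hlt
    rw [Combinatorics.Line.apply_some hy, Combinatorics.Line.apply_some hy]
  set U := X (L 0) with hU
  set t : ℤ := ∑ j ∈ Ico (js + 1) n, U j with ht
  let agree : (Fin n → Fin (k + 1)) → Prop := fun w =>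
    ∀ (j : ℕ) (hj : j < n), js < j → w ⟨j, hj⟩ = L 0 ⟨j, hj⟩
  have hB1 : ∀ w, agree w → |s w - t - v js (w ⟨js, hjs⟩)| ≤ N js := by
    intro w hw
    have h1 : s w = ∑ j ∈ range js, X w j + X w js + ∑ j ∈ Ico (js + 1) n, X w j := by
      rw [hs, ← sum_range_succ]
      exact (sum_range_add_sum_Ico _ (by omega)).symm
    have h2 : ∑ j ∈ Ico (js + 1) n, X w j = t := by
      rw [ht]
      apply sum_congr rfl
      intro j hj
      have h3 := mem_Ico.1 hj
      rw [hU, hX1 w j h3.2, hX1 _ j h3.2, hw j h3.2 (by omega)]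
    rw [h1, h2, hX1 w js hjs]
    have h3 := hXs w (range js) js (Subset.refl _)
    calc |∑ j ∈ range js, X w j + v js (w ⟨js, hjs⟩) + t - t - v js (w ⟨js, hjs⟩)|
        = |∑ j ∈ range js, X w j| := by ring_nf
      _ ≤ N js := h3
  have hB2 : ∀ w, ¬ agree w → ((R js + Q : ℕ) : ℤ) < |s w - t| := by
    intro w hw
    let D : Finset ℕ := (range n).filter (fun j => ∃ hj : j < n, js < j ∧ w ⟨j, hj⟩ ≠ L 0 ⟨j, hj⟩)
    have hDne : D.Nonempty := by
      by_contra h
      apply hw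
      intro j hj hlt
      by_contra h2
      apply h
      exact ⟨j, mem_filter.2 ⟨mem_range.2 hj, hj, hlt, h2⟩⟩
    obtain ⟨j', hj'1, hj'2⟩ : ∃ j' ∈ D, ∀ j ∈ D, j ≤ j' :=
      ⟨D.max' hDne, D.max'_mem hDne, fun j hj => D.le_max' j hj⟩
    obtain ⟨-, hj'n, hj's, hj'ne⟩ := mem_filter.1 hj'1
    have h1 : s w = ∑ j ∈ range j', X w j + X w j' + ∑ j ∈ Ico (j' + 1) n, X w j := by
      rw [hs, ← sum_range_succ]
      exact (sum_range_add_sum_Ico _ (by omega)).symm
    have h2 : t = ∑ j ∈ Ico (js + 1) j', U j + U j' + ∑ j ∈ Ico (j' + 1) n, U j := by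
      rw [ht, ← sum_Ico_succ_top (by omega)]
      exact (sum_Ico_consecutive _ (by omega) (by omega)).symm
    have h3 : ∑ j ∈ Ico (j' + 1) n, X w j = ∑ j ∈ Ico (j' + 1) n, U j := by
      apply sum_congr rfl
      intro j hj
      have h4 := mem_Ico.1 hj
      rw [hU, hX1 w j h4.2, hX1 _ j h4.2]
      congr 1
      by_contra h5
      have h6 := hj'2 j (mem_filter.2 ⟨mem_range.2 h4.2, h4.2, by omega, h5⟩)
      omega
    have h4 := hXs w (range j') j' (Subset.refl _)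
    have h5 := hXs (L 0) (Ico (js + 1) j') j' (fun x hx => mem_range.2 (mem_Ico.1 hx).2)
    rw [← hU] at h5
    have h6 : (G j' : ℤ) < |X w j' - U j'| := by
      rw [hU, hX1 w j' hj'n, hX1 _ j' hj'n]
      exact hvsep j' _ _ hj'ne
    have h7 : Q + 2 * N j' + R js ≤ G j' := by
      rw [hGN]
      have : R js ≤ ∑ i ∈ range j', R i :=
        single_le_sum (f := R) (fun _ _ => Nat.zero_le _) (mem_range.2 hj's)
      omega
    have h8 : X w j' - U j' = (s w - t) - (∑ j ∈ range j', X w j) + ∑ j ∈ Ico (js + 1) j', U j := by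
      rw [h1, h2, h3]; ring
    have h9 : |X w j' - U j'| ≤ |s w - t| + N j' + N j' := by
      rw [h8]
      calc |(s w - t) - (∑ j ∈ range j', X w j) + ∑ j ∈ Ico (js + 1) j', U j|
          ≤ |(s w - t) - (∑ j ∈ range j', X w j)| + |∑ j ∈ Ico (js + 1) j', U j| := abs_add_le _ _
        _ ≤ (|s w - t| + |∑ j ∈ range j', X w j|) + |∑ j ∈ Ico (js + 1) j', U j| := by
            gcongr
            exact abs_sub _ _
        _ ≤ _ := by linarith
    have h10 : ((Q + 2 * N j' + R js : ℕ) : ℤ) ≤ G j' := by exact_mod_cast h7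
    push_cast at h10 ⊢
    linarith
  have htb : |t| + R js ≤ G n := by
    have h1 := hXs (L 0) (Ico (js + 1) n) n (fun x hx => mem_range.2 (mem_Ico.1 hx).2)
    have h2 : Q + 2 * N n + R js ≤ G n := by
      rw [hGN]
      have : R js ≤ ∑ i ∈ range n, R i :=
        single_le_sum (f := R) (fun _ _ => Nat.zero_le _) (mem_range.2 hjs)
      omega
    have h3 : ((Q + 2 * N n + R js : ℕ) : ℤ) ≤ G n := by exact_mod_cast h2
    push_cast at h3
    have h4 : |t| ≤ N n := h1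
    have h5 : (0 : ℤ) ≤ N n := by positivity
    linarith
  have hNG : ((Q + N js : ℕ) : ℤ) ≤ ((C0 + G js : ℕ) : ℤ) := by
    have := hGN js
    exact_mod_cast (by omega : Q + N js ≤ C0 + G js)
  set inc : (Fin n → Fin (k + 1)) → ℤ → Prop := fun w y =>
    (Q : ℤ) * (s w / Q) ≤ y ∧ y < Q * (s w / Q) + Q with hinc
  set H : Finset ℤ := (P.filter (fun y => ∃ w, agree w ∧ inc w y)).image (fun y => y - t) with hH
  have hnear : ∀ w y, agree w → inc w y → |y - t - v js (w ⟨js, hjs⟩)| ≤ ((C0 + G js : ℕ) : ℤ) := by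
    intro w y hw hy
    have h1 := hB1 w hw
    have h2 := hclose w y hy
    refine le_trans ?_ hNG
    push_cast
    calc |y - t - v js (w ⟨js, hjs⟩)| = |(y - s w) + (s w - t - v js (w ⟨js, hjs⟩))| := by ring_nf
      _ ≤ |y - s w| + |s w - t - v js (w ⟨js, hjs⟩)| := abs_add_le _ _
      _ ≤ Q + N js := by linarith
  have hHnear : Near (C0 + G js) m (v js) H := by
    constructor
    · intro i
      have h1 := hAm (e (L i)) (hLS i)
      rw [Equiv.symm_apply_apply] at h1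
      refine h1.trans ?_
      apply card_le_card_of_injOn (fun y => y - t)
      · intro y hy
        rw [mem_coe, mem_filter] at hy
        have hag : agree (L i) := fun j hj hlt => hfix j hj hlt i
        rw [mem_coe, mem_filter]
        refine ⟨mem_image.2 ⟨y, mem_filter.2 ⟨hy.1, L i, hag, hy.2⟩, rfl⟩, ?_⟩
        have h2 := hnear (L i) y hag hy.2
        rw [hact i] at h2
        exact h2
      · intro a _ b _ h
        simp only at h
        linarith
    · intro h hh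
      obtain ⟨y, hy, rfl⟩ := mem_image.1 hh
      obtain ⟨-, w, hw, hyw⟩ := mem_filter.1 hy
      exact ⟨_, hnear w y hw hyw⟩
  have hHE : {x : ℕ | EQ q r H (R js) x}.Infinite := by
    have hqz : (0 : ℤ) < q := by exact_mod_cast hq1
    have h1 : {x : ℕ | EQ q r P (G n) x ∧ q * t.natAbs ≤ x}.Infinite := by
      intro hfin
      apply hE
      refine (hfin.union (Set.finite_Iio (q * t.natAbs))).subset ?_
      intro x hx
      by_cases h : q * t.natAbs ≤ x
      · exact Or.inl ⟨hx, h⟩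
      · exact Or.inr (not_le.1 h)
    have hpos : ∀ x : ℕ, q * t.natAbs ≤ x → ((((x : ℤ) + q * t).toNat : ℕ) : ℤ) = x + q * t := by
      intro x hx
      apply Int.toNat_of_nonneg
      have h2 : ((q * t.natAbs : ℕ) : ℤ) ≤ x := by exact_mod_cast hx
      have h3 : |t| = (t.natAbs : ℤ) := Int.abs_eq_natAbs t
      have h4 := mul_le_mul_of_nonneg_left (neg_abs_le t) hqz.le
      push_cast at h2
      have h5 : (q : ℤ) * -|t| = -(q * |t|) := by ring
      rw [h5] at h4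
      linarith
    have hinj2 : Set.InjOn (fun x : ℕ => ((x : ℤ) + q * t).toNat)
        {x : ℕ | EQ q r P (G n) x ∧ q * t.natAbs ≤ x} := by
      intro x hx x' hx' hxx
      have e1 := hpos x hx.2
      have e2 := hpos x' hx'.2
      simp only at hxx
      rw [hxx, e2] at e1
      have : (x' : ℤ) = x := by linarith
      exact_mod_cast this.symm
    refine (h1.image hinj2).mono ?_
    rintro _ ⟨x, ⟨hx, hxt⟩, rfl⟩
    refine ⟨?_, fun y hy => ?_⟩
    · simp only
      rw [hpos x hxt]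
      refine Int.ModEq.trans ?_ hx.1
      exact (Int.modEq_iff_dvd.2 (by
        have : (x : ℤ) - (x + q * t) = q * (-t) := by ring
        rw [this]; exact Dvd.intro _ rfl))
    simp only
    rw [hpos x hxt]
    have h2 : |q * t + y| ≤ (q : ℤ) * (G n : ℤ) := by
      calc |q * t + y| ≤ |q * t| + |y| := abs_add_le _ _
        _ = q * |t| + |y| := by rw [abs_mul, abs_of_pos hqz]
        _ ≤ q * |t| + q * R js := by linarith
        _ = q * (|t| + R js) := by ring
        _ ≤ q * G n := mul_le_mul_of_nonneg_left htb hqz.le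
    have h3 := hx.2 (q * t + y) h2
    rw [← add_assoc] at h3
    rw [h3]
    constructor
    · rintro ⟨z, h4, hzy⟩
      have hyz : y = q * (z - t) := by linarith
      have hzt : |z - t| ≤ R js := by
        rw [hyz, abs_mul, abs_of_pos hqz] at hy
        exact le_of_mul_le_mul_left hy hqz
      obtain ⟨g, hg⟩ := hPc _ h4
      set w := e.symm g with hw
      have hag : agree w := by
        by_contra hna
        have h5 := hB2 w hna
        have h6 := hclose w z hg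
        have h7 : |s w - t| ≤ Q + |z - t| := by
          calc |s w - t| = |-(z - s w) + (z - t)| := by ring_nf
            _ ≤ |-(z - s w)| + |z - t| := abs_add_le _ _
            _ = |z - s w| + |z - t| := by rw [abs_neg]
            _ ≤ Q + |z - t| := by linarith
        push_cast at h5
        linarith
      exact ⟨z - t, mem_image.2 ⟨z, mem_filter.2 ⟨h4, w, hag, hg⟩, rfl⟩, hyz⟩
    · rintro ⟨h, h4, hhy⟩
      obtain ⟨z, hz, hzy⟩ := mem_image.1 h4
      exact ⟨z, (mem_filter.1 hz).1, by rw [hhy, ← hzy]; ring⟩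
  have hfin := hB (C0 + G js) H (by
    have h1 : vB (C0 + G js) = v js := by rw [hv]
    rw [h1]; exact hHnear)
  apply hfin
  have h1 : RB (C0 + G js) = R js := by rw [hR]
  rw [h1]; exact hHE

theorem st (hQ : Quarter) {q : ℕ} {r : ℤ} (hq1 : 1 ≤ q) (hr : IsCoprime r (q : ℤ)) (m : ℕ)
    (hm : 1 ≤ m) : ∀ k, StQ q r m (k + 1)
  | 0 => step hQ hq1 hr m 0 hm (Or.inl rfl)
  | k + 1 => step hQ hq1 hr m (k + 1) hm (Or.inr (st hQ hq1 hr m hm k))

/-- Up to a bounded error the primes of arbitrarily long intervals follow every finite pattern, and all of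
them lie in the given residue class. -/
theorem hausdorff (hQ : Quarter) (k m q : ℕ) (r : ℤ) (hq1 : 1 ≤ q) (hr : IsCoprime r (q : ℤ)) :
    ∃ C : ℕ, ∀ V : Finset ℤ, V.Nonempty → V.card ≤ k →
    ∃ H : Finset ℤ, (∀ x ∈ V, m ≤ (H.filter (fun h => |h - x| ≤ C)).card) ∧
      (∀ h ∈ H, ∃ x ∈ V, |h - x| ≤ C) ∧
      ∀ R : ℕ, {n : ℕ | (∀ y : ℤ, |y| ≤ R → ((∃ p : ℕ, p.Prime ∧ (p : ℤ) = n + y) ↔ y ∈ H)) ∧
        ∀ h ∈ H, (n : ℤ) + h ≡ r [ZMOD q]}.Infinite := by
  classical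
  have hqz : (0 : ℤ) < q := by exact_mod_cast hq1
  obtain ⟨C, hC⟩ := st hQ hq1 hr (m + 1) (by omega) k
  refine ⟨q * C + q, fun V hVne hVk => ?_⟩
  obtain ⟨x0, hx0⟩ := hVne
  -- enumeration of V
  obtain ⟨v, hv⟩ : ∃ v : Fin (k + 1) → ℤ, ∀ x, x ∈ V ↔ ∃ i, v i = x := by
    let ev : V ≃ Fin V.card := V.equivFin
    refine ⟨fun i => if h : (i : ℕ) < V.card then (ev.symm ⟨i, h⟩ : ℤ) else x0, fun x => ?_⟩
    constructor
    · intro hx
      refine ⟨⟨(ev ⟨x, hx⟩ : ℕ), by have := (ev ⟨x, hx⟩).2; omega⟩, ?_⟩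
      have h1 : ((ev ⟨x, hx⟩ : Fin V.card) : ℕ) < V.card := (ev ⟨x, hx⟩).2
      simp only [dif_pos h1]
      simp
    · rintro ⟨i, rfl⟩
      simp only
      split_ifs with h
      · exact (ev.symm ⟨i, h⟩).2
      · exact hx0
  choose H hH1 hH2 using hC (fun i => v i / q)
  have hscale : ∀ (i : Fin (k + 1)) (h : ℤ), |h - v i / q| ≤ C → |q * h - v i| ≤ ((q * C + q : ℕ) : ℤ) := by
    intro i h hh
    have h1 := Int.emod_add_mul_ediv (v i) q
    have h2 := Int.emod_nonneg (v i) hqz.ne'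
    have h3 := Int.emod_lt_of_pos (v i) hqz
    have h4 : q * h - v i = q * (h - v i / q) - v i % q := by linarith
    rw [h4]
    push_cast
    calc |q * (h - v i / q) - v i % q| ≤ |q * (h - v i / q)| + |v i % q| := abs_sub _ _
      _ = q * |h - v i / q| + v i % q := by rw [abs_mul, abs_of_pos hqz, abs_of_nonneg h2]
      _ ≤ q * C + q := by
          have := mul_le_mul_of_nonneg_left hh hqz.le
          linarith
  set B : Finset ℤ := univ.biUnion (fun i => Icc (v i / q - C) (v i / q + C)) with hB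
  have hHB : ∀ R, H R ∈ B.powerset := by
    intro R
    rw [mem_powerset]
    intro h hh
    obtain ⟨i, hi⟩ := (hH1 R).2 h hh
    rw [hB, mem_biUnion]
    refine ⟨i, mem_univ _, ?_⟩
    rw [mem_Icc]
    have := abs_le.1 hi
    constructor <;> linarith [this.1, this.2]
  let f : ℕ → {P // P ∈ B.powerset} := fun R => ⟨H R, hHB R⟩
  obtain ⟨y, hy⟩ := Finite.exists_infinite_fiber f
  have hy' : (f ⁻¹' {y}).Infinite := Set.infinite_coe_iff.1 hy
  obtain ⟨R0, hR0⟩ := hy'.nonempty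
  refine ⟨(H R0).image (fun h => (q : ℤ) * h), fun x hx => ?_, fun h hh => ?_, fun R => ?_⟩
  · obtain ⟨i, rfl⟩ := (hv x).1 hx
    refine (Nat.le_succ m).trans (((hH1 R0).1 i).trans ?_)
    apply card_le_card_of_injOn (fun h => (q : ℤ) * h)
    · intro h hh
      rw [mem_coe, mem_filter] at hh
      rw [mem_coe, mem_filter]
      exact ⟨mem_image.2 ⟨h, hh.1, rfl⟩, hscale i h hh.2⟩
    · intro a _ b _ hab
      exact mul_left_cancel₀ hqz.ne' hab
  · obtain ⟨h', hh', rfl⟩ := mem_image.1 hh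
    obtain ⟨i, hi⟩ := (hH1 R0).2 h' hh'
    exact ⟨v i, (hv _).2 ⟨i, rfl⟩, hscale i h' hi⟩
  · obtain ⟨R', hR', hlt⟩ := hy'.exists_gt R
    have h1 : f R' = f R0 := by rw [hR', hR0]
    have h2 : H R' = H R0 := congrArg (fun z => z.1) h1
    have h3 := hH2 R'
    rw [h2] at h3
    refine h3.mono fun n hn => ?_
    have hn' := EQ.anti hlt.le hn
    refine ⟨fun y hy => ?_, fun h hh => ?_⟩
    · rw [hn'.2 y (hy.trans (le_mul_of_one_le_left (by positivity) (by exact_mod_cast hq1)))]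
      constructor
      · rintro ⟨h, hh, rfl⟩; exact mem_image.2 ⟨h, hh, rfl⟩
      · intro h4
        obtain ⟨h, hh, rfl⟩ := mem_image.1 h4
        exact ⟨h, hh, rfl⟩
    · obtain ⟨h', hh', rfl⟩ := mem_image.1 hh
      refine Int.ModEq.trans ?_ hn'.1
      exact (Int.modEq_iff_dvd.2 (by
        have : (n : ℤ) - (n + q * h') = q * (-h') := by ring
        rw [this]; exact Dvd.intro _ rfl))

end Pool.Agent.H732R3.HausQ
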