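import Pool.Agent.H732R3.HausA

/-!
Exact clusters in a residue class: all primes of the window are congruent to `r` modulo `q`.
-/

namespace Pool.Agent.H732R3.HausQ

open Finset Pool.Agent.H461R2.PD Pool.Agent.H602R3.Tup Pool.Agent.H732R3.ExactE
  Pool.Agent.H732R3.Haus

/-- `n ≡ r` modulo `q` and within distance `q R` of `n` the primes are exactly the `n + q h`, `h ∈ H` -/
def EQ (q : ℕ) (r : ℤ) (H : Finset ℤ) (R : ℕ) (n : ℕ) : Prop :=
  (n : ℤ) ≡ r [ZMOD q] ∧
    ∀ y : ℤ, |y| ≤ (q : ℤ) * R → ((∃ p : ℕ, p.Prime ∧ (p : ℤ) = n + y) ↔ ∃ h ∈ H, y = q * h)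

theorem EQ.anti {q : ℕ} {r : ℤ} {P : Finset ℤ} {R R' n : ℕ} (h : R ≤ R') (hE : EQ q r P R' n) :
    EQ q r P R n :=
  ⟨hE.1, fun y hy => hE.2 y (hy.trans (by
    have : (R : ℤ) ≤ R' := by exact_mod_cast h
    exact mul_le_mul_of_nonneg_left this (by positivity)))⟩

theorem exact_Q {T K : ℕ} (hq : ∀ (a b : Fin T → Fin K → ℤ), (∀ g i, 0 < a g i) →
    Function.Injective (fun x : Fin T × Fin K => (a x.1 x.2, b x.1 x.2)) →
    (∀ p : ℕ, p.Prime → ∃ n : ℤ, ∀ g i, ¬ ((p : ℤ) ∣ a g i * n + b g i)) →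
    ∃ (S : Finset (Fin T)) (c : Fin T → Fin K), T ≤ 4 * S.card ∧
      {n : ℕ | ∀ g ∈ S, 0 < a g (c g) * (n : ℤ) + b g (c g) ∧
        Prime (a g (c g) * (n : ℤ) + b g (c g))}.Infinite)
    (q : ℕ) (r : ℤ) (hq1 : 1 ≤ q) (hr : IsCoprime r (q : ℤ))
    (off : Fin T → Fin K → ℤ) (hinj : Function.Injective (fun x : Fin T × Fin K => off x.1 x.2))
    (hadm : ∀ p : ℕ, p.Prime → ∃ m : ℤ, ∀ g i, ¬ ((p : ℤ) ∣ m + off g i)) (R : ℕ) :
    ∃ (P : Finset ℤ) (S : Finset (Fin T)) (c : Fin T → Fin K), P ⊆ Off off ∧ T ≤ 4 * S.card ∧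
      (∀ g ∈ S, off g (c g) ∈ P) ∧ {n : ℕ | EQ q r P R n}.Infinite := by
  classical
  have hqz : (0 : ℤ) < q := by exact_mod_cast hq1
  have hOff : ∀ g i, off g i ∈ Off off := fun g i => mem_image.2 ⟨(g, i), mem_univ _, rfl⟩
  set qR : ℕ := q * R with hqR
  set X : ℕ := qR + q * (∑ y ∈ Off off, y.natAbs) + q with hX
  have hXoff : ∀ y ∈ Off off, |(q : ℤ) * y| + qR ≤ X := by
    intro y hy
    have h1 : y.natAbs ≤ ∑ y ∈ Off off, y.natAbs :=
      single_le_sum (f := fun y : ℤ => y.natAbs) (fun _ _ => Nat.zero_le _) hy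
    have h2 : q * y.natAbs ≤ q * ∑ y ∈ Off off, y.natAbs := Nat.mul_le_mul_left _ h1
    rw [abs_mul, Int.abs_eq_natAbs y, hX, abs_of_pos hqz]
    have : ((q * y.natAbs : ℕ) : ℤ) ≤ ((q * ∑ y ∈ Off off, y.natAbs : ℕ) : ℤ) := by
      exact_mod_cast h2
    push_cast at this ⊢
    linarith
  have hpinf : {p : ℕ | p.Prime ∧ X < p}.Infinite := by
    rw [Set.infinite_iff_exists_gt]
    intro N
    obtain ⟨p, hp1, hp2⟩ := Nat.exists_infinite_primes (N + X + 1)
    exact ⟨p, ⟨hp2, by omega⟩, by omega⟩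
  let emb := Set.Infinite.natEmbedding _ hpinf
  let pr : ℤ → ℕ := fun y => (emb ((y + qR).toNat)).1
  have hpr : ∀ y, (pr y).Prime ∧ X < pr y := fun y => (emb ((y + qR).toNat)).2
  set O : Finset ℤ := (Off off).image (fun h => (q : ℤ) * h) with hO
  set B : Finset ℤ := (Icc (-(qR : ℤ)) qR).filter (fun y => y ∉ O) with hB
  have hprinj : ∀ y ∈ B, ∀ y' ∈ B, pr y = pr y' → y = y' := by
    intro y hy y' hy' h
    have h1 := emb.injective (Subtype.ext h)
    have h2 := mem_Icc.1 (mem_filter.1 hy).1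
    have h3 := mem_Icc.1 (mem_filter.1 hy').1
    have h4 : ((y + qR).toNat : ℤ) = ((y' + qR).toNat : ℤ) := by exact_mod_cast h1
    rw [Int.toNat_of_nonneg (by linarith [h2.1]), Int.toNat_of_nonneg (by linarith [h3.1])] at h4
    linarith
  set q' : ℕ := ∏ y ∈ B, pr y with hq'
  have hq'0 : 0 < q' := prod_pos fun y _ => (hpr y).1.pos
  have hpair : Set.Pairwise (B : Set ℤ) (Function.onFun Nat.Coprime pr) := by
    intro y hy y' hy' hne
    exact (Nat.coprime_primes (hpr y).1 (hpr y').1).2 fun h => hne (hprinj y hy y' hy' h)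
  obtain ⟨ν0, hν0⟩ := Nat.chineseRemainderOfFinset (fun y : ℤ => ((-y) % pr y).toNat) pr B
    (fun y _ => (hpr y).1.ne_zero) hpair
  have hqq' : Nat.Coprime q' q := by
    rw [hq']
    apply Nat.Coprime.prod_left
    intro y _
    rw [Nat.Prime.coprime_iff_not_dvd (hpr y).1]
    intro hd
    have h1 := Nat.le_of_dvd hq1 hd
    have h2 := (hpr y).2
    omega
  obtain ⟨ν, hν1, hν2⟩ := Nat.chineseRemainder hqq' ν0 (r % q).toNat
  have hνr : (ν : ℤ) ≡ r [ZMOD q] := by
    have h1 : ((ν : ℕ) : ℤ) ≡ ((r % q).toNat : ℤ) [ZMOD q] := (Int.natCast_modEq_iff).2 hν2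
    rw [Int.toNat_of_nonneg (Int.emod_nonneg _ hqz.ne')] at h1
    exact h1.trans (Int.mod_modEq r q)
  have hνd : ∀ y ∈ B, (pr y : ℤ) ∣ (ν : ℤ) + y := by
    intro y hy
    have h0 : (pr y : ℤ) ∣ (ν0 : ℤ) - ν := by
      have h1 : (pr y : ℤ) ∣ (q' : ℤ) := by
        rw [hq']
        exact_mod_cast Finset.dvd_prod_of_mem pr hy
      exact h1.trans (Nat.modEq_iff_dvd.1 hν1)
    have h1 := hν0 y hy
    have h2 : (pr y : ℤ) ∣ (((-y) % pr y).toNat : ℤ) - (ν0 : ℤ) := Nat.modEq_iff_dvd.1 h1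
    rw [Int.toNat_of_nonneg (Int.emod_nonneg _ (by exact_mod_cast (hpr y).1.ne_zero))] at h2
    have h3 : (pr y : ℤ) ∣ (-y) - (-y) % pr y := Int.dvd_self_sub_emod
    have h4 := dvd_add (dvd_add h2 h3) h0
    have h5 : ((-y) % (pr y : ℤ) - (ν0 : ℤ)) + ((-y) - (-y) % pr y) + ((ν0 : ℤ) - ν) =
        -((ν : ℤ) + y) := by ring
    rw [h5] at h4
    exact (dvd_neg).1 h4
  obtain ⟨S, c, hS, hinf⟩ := hq (fun _ _ => (q' : ℤ) * q) (fun g i => ν + q * off g i)
    (fun _ _ => by
      have : (0 : ℤ) < q' := by exact_mod_cast hq'0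
      positivity)
    (by
      intro x y hxy
      simp only [Prod.mk.injEq, true_and, add_right_inj] at hxy
      exact hinj (mul_left_cancel₀ hqz.ne' hxy))
    (by
      intro p hp
      have hpp := Nat.prime_iff_prime_int.1 hp
      by_cases hpB : ∃ y ∈ B, pr y = p
      · obtain ⟨y, hy, rfl⟩ := hpB
        refine ⟨0, fun g i hd => ?_⟩
        rw [mul_zero, zero_add] at hd
        have h1 := dvd_sub hd (hνd y hy)
        have h2 : (ν : ℤ) + q * off g i - (ν + y) = q * off g i - y := by ring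
        rw [h2] at h1
        have h3 := hXoff _ (hOff g i)
        have h4 := mem_Icc.1 (mem_filter.1 hy).1
        have h5 : |q * off g i - y| < pr y := by
          have h6 : (X : ℤ) < pr y := by exact_mod_cast (hpr y).2
          have h7 : |y| ≤ qR := abs_le.2 h4
          calc |q * off g i - y| ≤ |q * off g i| + |y| := abs_sub _ _
            _ < pr y := by linarith
        have h8 : q * off g i - y = 0 := Int.eq_zero_of_abs_lt_dvd h1 h5
        have h9 : y = q * off g i := by linarith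
        exact (mem_filter.1 hy).2 (mem_image.2 ⟨_, hOff g i, h9.symm⟩)
      · have hpq : ¬ (p : ℤ) ∣ (q' : ℤ) := by
          intro hd
          rw [hq'] at hd
          push_cast at hd
          obtain ⟨y, hy, hdy⟩ := (Prime.dvd_finsetProd_iff hpp _).1 hd
          exact hpB ⟨y, hy, ((Nat.prime_dvd_prime_iff_eq hp (hpr y).1).1 (by exact_mod_cast hdy)).symm⟩
        by_cases hpq2 : (p : ℤ) ∣ (q : ℤ)
        · refine ⟨0, fun g i hd => ?_⟩
          rw [mul_zero, zero_add] at hd
          have h1 : (p : ℤ) ∣ ν := (dvd_add_left (Dvd.dvd.mul_right hpq2 _)).1 hd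
          have h2 : (p : ℤ) ∣ r - ν := hpq2.trans hνr.dvd
          have h3 : (p : ℤ) ∣ r := by
            have := dvd_add h2 h1
            simpa using this
          obtain ⟨a, b, hab⟩ := hr
          have h4 : (p : ℤ) ∣ 1 := by
            rw [← hab]
            exact dvd_add (Dvd.dvd.mul_left h3 _) (Dvd.dvd.mul_left hpq2 _)
          exact hpp.not_isUnit (isUnit_of_dvd_one h4)
        · have hcop : IsCoprime (q' : ℤ) (p : ℤ) := by
            rw [isCoprime_comm]
            exact (Prime.coprime_iff_not_dvd hpp).2 hpq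
          have hcop2 : IsCoprime (q : ℤ) (p : ℤ) := by
            rw [isCoprime_comm]
            exact (Prime.coprime_iff_not_dvd hpp).2 hpq2
          obtain ⟨u, w, huw⟩ := hcop
          obtain ⟨u2, w2, huw2⟩ := hcop2
          obtain ⟨m0, hm0⟩ := hadm p hp
          refine ⟨u * (m0 - u2 * ν), fun g i hd => ?_⟩
          have e1 : (q' : ℤ) * q * (u * (m0 - u2 * ν)) + (ν + q * off g i) =
              q * (m0 + off g i) + (w2 * ν - q * w * (m0 - u2 * ν)) * p := by
            have k1 : u * (q' : ℤ) = 1 - w * p := by linarith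
            have k2 : u2 * (q : ℤ) = 1 - w2 * p := by linarith
            calc (q' : ℤ) * q * (u * (m0 - u2 * ν)) + (ν + q * off g i)
                = (u * q') * (q * m0 - (u2 * q) * ν) + (ν + q * off g i) := by ring
              _ = (1 - w * p) * (q * m0 - (1 - w2 * p) * ν) + (ν + q * off g i) := by rw [k1, k2]
              _ = (q * m0 - (1 - w2 * p) * ν) - w * p * (q * m0 - (1 - w2 * p) * ν)
                    + (ν + q * off g i) := by ring
              _ = (q * m0 - (1 - w2 * p) * ν) - w * p * (q * m0 - (u2 * q) * ν)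
                    + (ν + q * off g i) := by rw [k2]
              _ = _ := by ring
          rw [e1] at hd
          have h1 := (dvd_add_left (Dvd.intro_left _ rfl)).1 hd
          rcases hpp.dvd_or_dvd h1 with h2 | h2
          · exact hpq2 h2
          · exact hm0 g i h2)
  -- large elements
  set big : ℕ := qR + ∑ y ∈ B, pr y with hbig
  set A : Set ℕ := {m : ℕ | (∀ g ∈ S, 0 < (q' : ℤ) * q * m + (ν + q * off g (c g)) ∧
      Prime ((q' : ℤ) * q * m + (ν + q * off g (c g)))) ∧ big < m} with hA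
  have hAinf : A.Infinite := by
    have h1 : {m : ℕ | ∀ g ∈ S, 0 < (q' : ℤ) * q * m + (ν + q * off g (c g)) ∧
      Prime ((q' : ℤ) * q * m + (ν + q * off g (c g)))} ⊆ A ∪ Set.Iic big := by
      intro m hm
      by_cases h : big < m
      · exact Or.inl ⟨hm, h⟩
      · exact Or.inr (not_lt.1 h)
    intro hfin
    exact hinf ((hfin.union (Set.finite_Iic big)).subset h1)
  let PP : ℕ → Finset ℤ := fun m => (Off off).filter
    (fun h => ∃ p : ℕ, p.Prime ∧ (p : ℤ) = ((q' * q * m + ν : ℕ) : ℤ) + q * h)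
  obtain ⟨P, hPsub, hPinf⟩ : ∃ P ∈ (Off off).powerset, {m ∈ A | PP m = P}.Infinite := by
    by_contra hcon
    push Not at hcon
    apply hAinf
    have h1 : A ⊆ ⋃ P ∈ (Off off).powerset, {m ∈ A | PP m = P} := by
      intro m hm
      exact Set.mem_iUnion₂.2 ⟨PP m, mem_powerset.2 (filter_subset _ _), hm, rfl⟩
    exact (Set.Finite.biUnion (Finset.finite_toSet _) (fun P hP => hcon P hP)).subset h1
  refine ⟨P, S, c, mem_powerset.1 hPsub, hS, ?_, ?_⟩
  · intro g hg
    obtain ⟨m, ⟨hm1, _⟩, hm2⟩ := hPinf.nonempty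
    rw [← hm2]
    refine mem_filter.2 ⟨hOff g (c g), ?_⟩
    obtain ⟨h1, h2⟩ := hm1 g hg
    refine ⟨((q' : ℤ) * q * m + (ν + q * off g (c g))).toNat, ?_, ?_⟩
    · rw [Nat.prime_iff_prime_int, Int.toNat_of_nonneg h1.le]
      exact h2
    · rw [Int.toNat_of_nonneg h1.le]
      push_cast
      ring
  · have hinj2 : Set.InjOn (fun m : ℕ => q' * q * m + ν) {m ∈ A | PP m = P} := by
      intro m _ m' _ h
      simp only [add_left_inj] at h
      exact Nat.eq_of_mul_eq_mul_left (by positivity) h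
    refine (hPinf.image hinj2).mono ?_
    rintro _ ⟨m, ⟨⟨_, hmb⟩, hmP⟩, rfl⟩
    refine ⟨?_, ?_⟩
    · have h1 : ((q' * q * m + ν : ℕ) : ℤ) = ν + q * (q' * m) := by push_cast; ring
      rw [h1]
      refine Int.ModEq.trans ?_ hνr
      exact (Int.modEq_iff_dvd.2 (by
        have : (ν : ℤ) - (ν + q * (q' * m)) = q * (-(q' * m)) := by ring
        rw [this]; exact Dvd.intro _ rfl))
    intro y hy
    by_cases hyO : y ∈ O
    · obtain ⟨h, hh, rfl⟩ := mem_image.1 hyO
      rw [← hmP]
      constructor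
      · intro h'; exact ⟨h, mem_filter.2 ⟨hh, h'⟩, rfl⟩
      · rintro ⟨h', hh', he⟩
        have : h = h' := mul_left_cancel₀ hqz.ne' he
        subst this
        exact (mem_filter.1 hh').2
    · have hyB : y ∈ B := mem_filter.2 ⟨mem_Icc.2 (abs_le.1 (by rw [hqR]; push_cast; exact hy)), hyO⟩
      constructor
      · rintro ⟨p, hp, hpe⟩
        exfalso
        have h1 : (pr y : ℤ) ∣ p := by
          rw [hpe]
          have h2 : (pr y : ℤ) ∣ (q' : ℤ) * (q * m) := by
            apply Dvd.dvd.mul_right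
            rw [hq']
            exact_mod_cast Finset.dvd_prod_of_mem pr hyB
          have h3 := dvd_add h2 (hνd y hyB)
          have h4 : ((q' * q * m + ν : ℕ) : ℤ) + y = (q' : ℤ) * (q * m) + (ν + y) := by
            push_cast; ring
          rw [h4]; exact h3
        have h5 : pr y = p := (Nat.prime_dvd_prime_iff_eq (hpr y).1 hp).1 (by exact_mod_cast h1)
        have h6 : pr y ≤ ∑ y ∈ B, pr y :=
          single_le_sum (f := pr) (fun _ _ => Nat.zero_le _) hyB
        have h7 : (p : ℤ) ≤ big - qR := by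
          rw [← h5, hbig]; push_cast
          have : (pr y : ℤ) ≤ ∑ y ∈ B, (pr y : ℤ) := by exact_mod_cast h6
          linarith
        have h8 : (m : ℤ) ≤ q' * q * m := by
          have : 1 ≤ q' * q := Nat.mul_pos hq'0 hq1
          have h9 : m ≤ q' * q * m := Nat.le_mul_of_pos_left m this
          exact_mod_cast h9
        have h9 : (big : ℤ) < m := by exact_mod_cast hmb
        have h10 := (mem_Icc.1 (mem_filter.1 hyB).1).1
        rw [hpe] at h7
        push_cast at h7
        have h11 : (0 : ℤ) ≤ ν := by positivity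
        linarith
      · rintro ⟨h, hh, rfl⟩
        exact absurd (mem_image.2 ⟨h, mem_powerset.1 hPsub hh, rfl⟩) hyO

/-- exact clusters, with the positions of all elements -/
theorem clustersH (hQ : Quarter) (T : ℕ) : ∃ Q : ℕ, 1 ≤ Q ∧ ∀ (q : ℕ) (r : ℤ), 1 ≤ q →
    IsCoprime r (q : ℤ) → ∀ (pos : Fin T → ℤ) (R : ℕ),
    ∃ (P : Finset ℤ) (S : Finset (Fin T)) (h : Fin T → ℤ), T ≤ 4 * S.card ∧
      Function.Injective h ∧ (∀ g, (Q : ℤ) * pos g ≤ h g ∧ h g < Q * pos g + Q) ∧
      (∀ g ∈ S, h g ∈ P) ∧ (∀ y ∈ P, ∃ g, (Q : ℤ) * pos g ≤ y ∧ y < Q * pos g + Q) ∧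
      {n : ℕ | EQ q r P R n}.Infinite := by
  classical
  obtain ⟨K, hK, hq⟩ := hQ T
  set W : ℕ := (T * K).factorial with hW
  have hWpos : 0 < W := Nat.factorial_pos _
  set Q : ℕ := W * (T * K + 1) with hQdef
  have hQpos : 0 < Q := by positivity
  refine ⟨Q, hQpos, fun q r hq1 hr pos R => ?_⟩
  set idx : Fin T × Fin K → ℕ := fun x => (finProdFinEquiv x : ℕ) with hidx
  have hidxlt : ∀ x, idx x < T * K := fun x => (finProdFinEquiv x).2
  have hoff : ∀ x, W * idx x < Q := by
    intro x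
    rw [hQdef]
    exact Nat.mul_lt_mul_of_pos_left (by have := hidxlt x; omega) hWpos
  set b : Fin T → Fin K → ℤ := fun g i => (Q : ℤ) * pos g + (W * idx (g, i) : ℕ) with hb
  have hmod : ∀ g i, b g i % Q = (W * idx (g, i) : ℕ) := by
    intro g i
    rw [hb]
    simp only
    rw [add_comm, Int.add_mul_emod_self_left]
    exact Int.emod_eq_of_lt (by positivity) (by exact_mod_cast hoff (g, i))
  have hbinj : ∀ g i g' i', b g i = b g' i' → (g, i) = (g', i') := by
    intro g i g' i' h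
    have h1 : (W * idx (g, i) : ℕ) = W * idx (g', i') := by
      have h2 := hmod g i
      rw [h, hmod g' i'] at h2
      exact_mod_cast h2.symm
    have h3 : idx (g, i) = idx (g', i') := Nat.eq_of_mul_eq_mul_left hWpos h1
    exact finProdFinEquiv.injective (Fin.ext h3)
  have hcell : ∀ g i, (Q : ℤ) * pos g ≤ b g i ∧ b g i < Q * pos g + Q := by
    intro g i
    rw [hb]
    simp only
    have h2 : ((W * idx (g, i) : ℕ) : ℤ) < Q := by exact_mod_cast hoff (g, i)
    have : (0 : ℤ) ≤ ((W * idx (g, i) : ℕ) : ℤ) := by positivity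
    exact ⟨by linarith, by linarith⟩
  obtain ⟨P, S, c, hP, hS, hc, hE⟩ := exact_Q hq q r hq1 hr b
    (fun x y h => hbinj _ _ _ _ h)
    (by
      intro p hp
      rcases Nat.lt_or_ge (T * K) p with h | h
      · exact exists_shift_int hp h b
      · refine ⟨1, fun g i hd => ?_⟩
        have hpW : (p : ℤ) ∣ (W : ℤ) := by exact_mod_cast (Nat.dvd_factorial hp.pos h)
        have hpb : (p : ℤ) ∣ b g i := by
          rw [hb]
          simp only
          push_cast
          rw [hQdef]
          push_cast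
          apply dvd_add
          · exact Dvd.dvd.mul_right (Dvd.dvd.mul_right hpW _) _
          · exact Dvd.dvd.mul_right hpW _
        exact (Nat.prime_iff_prime_int.1 hp).not_isUnit
          (isUnit_of_dvd_one ((dvd_add_left hpb).1 hd))) R
  refine ⟨P, S, fun g => b g (c g), hS, ?_, fun g => hcell g (c g), hc, ?_, hE⟩
  · intro g g' h
    exact congrArg Prod.fst (hbinj _ _ _ _ h)
  · intro y hy
    obtain ⟨x, -, hx⟩ := mem_image.1 (hP hy)
    exact ⟨x.1, by rw [← hx]; exact hcell x.1 x.2⟩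

/-- exact clusters indexed by a finite type, with at least `m` elements in an eighth of them -/
theorem clustersM (hQ : Quarter) (W m : ℕ) (hm : 1 ≤ m) : ∃ Q : ℕ, 1 ≤ Q ∧ ∀ (q : ℕ) (r : ℤ),
    1 ≤ q → IsCoprime r (q : ℤ) →
    ∀ (pos : Fin W → ℤ) (R : ℕ), ∃ (P : Finset ℤ) (A : Finset (Fin W)), W ≤ 8 * A.card ∧
      (∀ g ∈ A, m ≤ (P.filter (fun y => (Q : ℤ) * pos g ≤ y ∧ y < Q * pos g + Q)).card) ∧
      (∀ y ∈ P, ∃ g, (Q : ℤ) * pos g ≤ y ∧ y < Q * pos g + Q) ∧
      {n : ℕ | EQ q r P R n}.Infinite := by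
  classical
  obtain ⟨Q, hQ1, hcl⟩ := clustersH hQ (W * (8 * m))
  refine ⟨Q, hQ1, fun q r hq1 hr pos R => ?_⟩
  let e : Fin W × Fin (8 * m) ≃ Fin (W * (8 * m)) := finProdFinEquiv
  obtain ⟨P, S, h, hS, hinj, hpos, hSP, hPc, hE⟩ := hcl q r hq1 hr (fun g => pos (e.symm g).1) R
  set F : Fin W → Finset (Fin (W * (8 * m))) := fun w => S.filter (fun g => (e.symm g).1 = w) with hF
  set A : Finset (Fin W) := univ.filter (fun w => m ≤ (F w).card) with hA
  refine ⟨P, A, ?_, ?_, ?_, hE⟩
  · have h1 : S.card = ∑ w, (F w).card := by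
      rw [card_eq_sum_card_fiberwise (f := fun g => (e.symm g).1) (t := univ) (fun _ _ => by simp)]
    have h2 : ∀ w, (F w).card ≤ 8 * m := by
      intro w
      have h3 : (F w).card ≤ (univ : Finset (Fin (8 * m))).card := by
        apply card_le_card_of_injOn (fun g => (e.symm g).2) (fun _ _ => by simp)
        intro g hg g' hg' hgg
        have e1 := (mem_filter.1 hg).2
        have e2 := (mem_filter.1 hg').2
        apply e.symm.injective
        exact Prod.ext (e1.trans e2.symm) hgg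
      simpa using h3
    have h3 : S.card ≤ A.card * (8 * m) + W * m := by
      rw [h1]
      calc ∑ w, (F w).card ≤ ∑ w, ((if w ∈ A then 8 * m else 0) + m) := by
            apply sum_le_sum
            intro w _
            by_cases hw : w ∈ A
            · rw [if_pos hw]
              have := h2 w
              omega
            · rw [if_neg hw]
              have : ¬ m ≤ (F w).card := fun h => hw (mem_filter.2 ⟨mem_univ _, h⟩)
              omega
        _ = A.card * (8 * m) + W * m := by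
            rw [sum_add_distrib, sum_const, ← sum_filter, sum_const]
            simp
    have h4 : W * (8 * m) ≤ 4 * (A.card * (8 * m) + W * m) := hS.trans (by omega)
    have h5 : W * (4 * m) ≤ (8 * A.card) * (4 * m) := by nlinarith
    exact Nat.le_of_mul_le_mul_right h5 (by omega)
  · intro w hw
    refine (mem_filter.1 hw).2.trans ?_
    apply card_le_card_of_injOn h
    · intro g hg
      have hg' := mem_filter.1 hg
      rw [mem_coe, mem_filter]
      refine ⟨hSP g hg'.1, ?_⟩
      have := hpos g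
      simp only [hg'.2] at this
      exact this
    · exact hinj.injOn
  · intro y hy
    obtain ⟨g, hg⟩ := hPc y hy
    exact ⟨_, hg⟩

end Pool.Agent.H732R3.HausQ
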