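import Pool.Agent.H732R3.DickS

/-!
Bounded gaps between the `a` for which `(a, d)` has the property of infinitely many primes `q` with
`a + q d` prime, for one of few `d`.
-/

namespace Pool.Agent.H732R3.PairA

open Finset Pool.Agent.H732R3.BigQ Pool.Agent.H732R3.DickS

/-- initial products -/
def DD (d : Fin 4 → ℕ) (j : ℕ) : ℕ := ∏ l : Fin 4, if l.1 < j then d l else 1

theorem DD_pos (d : Fin 4 → ℕ) (hd : ∀ i, 1 ≤ d i) (j : ℕ) : 0 < DD d j := by
  unfold DD
  apply Finset.prod_pos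
  intro l _
  split_ifs
  · exact hd l
  · exact one_pos

theorem DD_mul (d : Fin 4 → ℕ) (i j : Fin 4) (hij : i ≤ j) :
    DD d (j.1 + 1) = DD d i.1 * ∏ l ∈ Icc i j, d l := by
  classical
  have h1 : ∏ l ∈ Icc i j, d l = ∏ l : Fin 4, if l ∈ Icc i j then d l else 1 := by
    rw [Finset.prod_ite_mem, Finset.univ_inter]
  rw [h1]
  unfold DD
  rw [← Finset.prod_mul_distrib]
  apply Finset.prod_congr rfl
  intro l _
  have hij' : i.1 ≤ j.1 := hij
  by_cases h2 : l ∈ Icc i j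
  · have h3 := Finset.mem_Icc.1 h2
    have h4 : i.1 ≤ l.1 := h3.1
    have h5 : l.1 ≤ j.1 := h3.2
    rw [if_pos h2, if_neg (show ¬ l.1 < i.1 by omega), if_pos (show l.1 < j.1 + 1 by omega), one_mul]
  · rw [if_neg h2, mul_one]
    by_cases h3 : l.1 < i.1
    · rw [if_pos h3, if_pos (show l.1 < j.1 + 1 by omega)]
    · rw [if_neg h3]
      have h4 : ¬ l.1 < j.1 + 1 := by
        intro h5
        apply h2
        rw [Finset.mem_Icc]
        exact ⟨not_lt.1 h3, Nat.lt_succ_iff.1 h5⟩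
      rw [if_neg h4]

theorem DD_dvd (d : Fin 4 → ℕ) {j j' : ℕ} (h : j ≤ j') : DD d j ∣ DD d j' := by
  unfold DD
  apply Finset.prod_dvd_prod_of_dvd
  intro l _
  by_cases h1 : l.1 < j
  · rw [if_pos h1, if_pos (by omega)]
  · rw [if_neg h1]
    exact one_dvd _

theorem chain (hQ : QuarterB) (d : Fin 4 → ℕ) (hd : ∀ i, 1 ≤ d i) : ∃ C : ℕ, ∀ A : ℤ,
    ∃ i j : Fin 4, i ≤ j ∧ ∃ a : ℤ, |a - A| ≤ C ∧
      Big {q : ℕ | q.Prime ∧ ∃ p : ℕ, p.Prime ∧ (a + q * ((∏ l ∈ Icc i j, d l : ℕ) : ℤ) : ℤ) = p} := by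
  classical
  obtain ⟨K, hK, hQ5⟩ := hQ 5
  by_contra hcon
  push Not at hcon
  choose AB hAB using hcon
  obtain ⟨N, hN⟩ : ∃ N : ℕ, N = 5 * K := ⟨_, rfl⟩
  have hN0 : 0 < N := by omega
  have hNz : (0 : ℤ) < N := by exact_mod_cast hN0
  obtain ⟨Λ, hΛ⟩ : ∃ Λ : ℕ, Λ = N.factorial := ⟨_, rfl⟩
  have hΛ0 : 0 < Λ := by rw [hΛ]; exact Nat.factorial_pos _
  obtain ⟨P, hP⟩ : ∃ P : ℕ, P = Λ * DD d 5 := ⟨_, rfl⟩
  have hP0 : 0 < P := by rw [hP]; exact Nat.mul_pos hΛ0 (DD_pos d hd 5)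
  have hPz : (0 : ℤ) < P := by exact_mod_cast hP0
  obtain ⟨W, hW⟩ : ∃ W : ℕ, W = P * (N + 2) := ⟨_, rfl⟩
  obtain ⟨β, hβ0, hβs⟩ : ∃ β : ℕ → ℕ, β 0 = W ∧
      ∀ j, β (j + 1) = β j + (AB (W + DD d 5 * β j)).natAbs + W :=
    ⟨fun m => Nat.rec W (fun _ e => e + (AB (W + DD d 5 * e)).natAbs + W) m, rfl, fun _ => rfl⟩
  have hβm : Monotone β := monotone_nat_of_le_succ fun j => by rw [hβs]; omega
  obtain ⟨A', hA0, hAs⟩ : ∃ A' : ℕ → ℤ, A' 0 = 0 ∧ ∀ j, A' (j + 1) = AB (W + DD d 5 * β j) :=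
    ⟨fun m => Nat.casesOn m 0 (fun j => AB (W + DD d 5 * β j)), rfl, fun _ => rfl⟩
  have hAβ : ∀ j, (A' j).natAbs + W ≤ β j := by
    intro j
    cases j with
    | zero => rw [hA0, hβ0]; simp
    | succ j => rw [hAs, hβs]; omega
  obtain ⟨u, hu⟩ : ∃ u : Fin 5 → Fin K → ℤ,
    u = fun (g : Fin 5) (s : Fin K) =>
      (N : ℤ) * ((A' g.1 / P) / N) + (((finProdFinEquiv (g, s) : Fin (5 * K)) : ℕ) : ℤ) := ⟨_, rfl⟩
  obtain ⟨b, hb⟩ : ∃ b : Fin 5 → Fin K → ℤ,
    b = fun (g : Fin 5) (s : Fin K) => 1 + (P : ℤ) * u g s := ⟨_, rfl⟩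
  have hidx : ∀ (g : Fin 5) (s : Fin K), (((finProdFinEquiv (g, s) : Fin (5 * K)) : ℕ) : ℤ) < N := by
    intro g s
    have h1 := (finProdFinEquiv (g, s) : Fin (5 * K)).2
    have h2 : ((finProdFinEquiv (g, s) : Fin (5 * K)) : ℕ) < N := h1.trans_eq hN.symm
    exact_mod_cast h2
  have hbA : ∀ (g : Fin 5) (s : Fin K), |b g s - A' g.1| ≤ W := by
    intro g s
    have h1 := Int.mul_ediv_add_emod (A' g) P
    have h2 := Int.emod_nonneg (A' g) hPz.ne'
    have h3 := Int.emod_lt_of_pos (A' g) hPz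
    have h4 := Int.mul_ediv_add_emod (A' g / P) N
    have h5 := Int.emod_nonneg (A' g / P) hNz.ne'
    have h6 := Int.emod_lt_of_pos (A' g / P) hNz
    have h7 := hidx g s
    have h8 : (0 : ℤ) ≤ (((finProdFinEquiv (g, s) : Fin (5 * K)) : ℕ) : ℤ) := by positivity
    set I : ℤ := (((finProdFinEquiv (g, s) : Fin (5 * K)) : ℕ) : ℤ) with hI
    have e1 : b g s - A' g = 1 - A' g % P + P * (I - A' g / P % N) := by
      rw [hb, hu]
      simp only
      rw [← hI]
      linear_combination h1 + (P : ℤ) * h4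
    rw [e1, hW]
    have e2 : |I - A' g / P % N| ≤ N := by rw [abs_le]; constructor <;> linarith
    have e3 : |1 - A' g % P| ≤ P + 1 := by rw [abs_le]; constructor <;> linarith
    calc |1 - A' g % P + P * (I - A' g / P % N)| ≤ |1 - A' g % P| + |P * (I - A' g / P % N)| :=
          abs_add_le _ _
      _ = |1 - A' g % P| + P * |I - A' g / P % N| := by rw [abs_mul, abs_of_pos hPz]
      _ ≤ (P + 1) + P * N := add_le_add e3 (mul_le_mul_of_nonneg_left e2 hPz.le)
      _ ≤ ((P * (N + 2) : ℕ) : ℤ) := by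
          push_cast
          have : (1 : ℤ) ≤ P := hPz
          linarith
  have hbβ : ∀ (g : Fin 5) (s : Fin K), |b g s| ≤ β g.1 := by
    intro g s
    have h1 := hbA g s
    have h2 : |b g s| ≤ |b g s - A' g| + |A' g| := by
      have := abs_add_le (b g s - A' g) (A' g)
      rwa [sub_add_cancel] at this
    have h3 : ((A' g).natAbs : ℤ) + W ≤ β g := by exact_mod_cast hAβ g
    rw [← Int.abs_eq_natAbs] at h3
    linarith
  -- the coloured Maynard-Tao theorem
  obtain ⟨S, c, hS, hBig⟩ := hQ5 (fun g _ => ((Λ * DD d g : ℕ) : ℤ)) b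
    (fun g _ => by exact_mod_cast Nat.mul_pos hΛ0 (DD_pos d hd g))
    (by
      rintro ⟨g, s⟩ ⟨g', s'⟩ h
      have h1 : b g s = b g' s' := congrArg Prod.snd h
      rw [hb] at h1
      simp only at h1
      have h2 : u g s = u g' s' := mul_left_cancel₀ hPz.ne' (add_left_cancel h1)
      have h3 : ∀ (g : Fin 5) (s : Fin K), u g s % N = (((finProdFinEquiv (g, s) : Fin (5 * K)) : ℕ) : ℤ) := by
        intro g s
        rw [hu]
        simp only
        rw [Int.mul_add_emod_self_left]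
        exact Int.emod_eq_of_lt (by positivity) (hidx g s)
      have h4 := h3 g s
      rw [h2, h3 g' s'] at h4
      have h5 : (finProdFinEquiv (g', s') : Fin (5 * K)) = finProdFinEquiv (g, s) :=
        Fin.ext (by exact_mod_cast h4)
      exact (finProdFinEquiv.injective h5).symm)
    (by
      intro p hp
      have hpp := Nat.prime_iff_prime_int.1 hp
      by_cases hpP : (p : ℤ) ∣ P
      · refine ⟨0, fun g s hdv => ?_⟩
        rw [mul_zero, zero_add, hb] at hdv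
        exact hpp.not_isUnit (isUnit_of_dvd_one ((dvd_add_left (Dvd.dvd.mul_right hpP _)).1 hdv))
      · have hlt : N < p := by
          by_contra hle
          apply hpP
          rw [hP, hΛ]
          exact_mod_cast (Nat.dvd_factorial hp.pos (not_lt.1 hle)).mul_right _
        obtain ⟨m, hm⟩ := exists_avoid (ι := Fin 5 × Fin K) hp (by
          rw [Fintype.card_prod, Fintype.card_fin, Fintype.card_fin, ← hN]
          exact hlt) (fun t => ((Λ * DD d t.1 : ℕ) : ℤ)) (fun t => b t.1 t.2) (fun t h => by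
            exfalso
            apply hpP
            refine h.trans ?_
            rw [hP]
            exact_mod_cast Nat.mul_dvd_mul_left Λ (DD_dvd d (by have := t.1.2; omega)))
        exact ⟨m, fun g s => hm (g, s)⟩)
  have hS2 : 1 < S.card := by omega
  obtain ⟨x, hx, y, hy, hxy⟩ := Finset.one_lt_card.1 hS2
  obtain ⟨g, hg, g', hg', hlt⟩ : ∃ g ∈ S, ∃ g' ∈ S, g < g' := by
    rcases lt_or_gt_of_ne hxy with h | h
    · exact ⟨x, hx, y, hy, h⟩
    · exact ⟨y, hy, x, hx, h⟩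
  have hlt' : g.1 < g'.1 := hlt
  have hg'5 := g'.2
  obtain ⟨i, hi⟩ : ∃ i : Fin 4, i.1 = g.1 := ⟨⟨g.1, by omega⟩, rfl⟩
  obtain ⟨j, hj⟩ : ∃ j : Fin 4, j.1 + 1 = g'.1 := ⟨⟨g'.1 - 1, by omega⟩, by simp only; omega⟩
  have hij : i ≤ j := by
    rw [Fin.le_def]
    omega
  set R : ℕ := ∏ l ∈ Icc i j, d l with hR
  have hDR : DD d g' = DD d g * R := by
    have := DD_mul d i j hij
    rwa [hj, hi] at this
  have hR5 : R ≤ DD d 5 := by
    have h1 : DD d g' ∣ DD d 5 := DD_dvd d (by omega)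
    exact Nat.le_of_dvd (DD_pos d hd 5) ((Dvd.intro_left _ hDR.symm).trans h1)
  refine hAB (W + DD d 5 * β j) i j hij (b g' (c g') - R * b g (c g)) ?_ ?_
  · have h1 : A' g' = AB (W + DD d 5 * β j) := by rw [← hj, hAs]
    rw [← h1]
    have h2 := hbA g' (c g')
    have h3 := hbβ g (c g)
    have h4 : β g ≤ β j := hβm (by omega)
    calc |b g' (c g') - R * b g (c g) - A' g'| = |(b g' (c g') - A' g') - R * b g (c g)| := by
          congr 1; ring
      _ ≤ |b g' (c g') - A' g'| + |R * b g (c g)| := abs_sub _ _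
      _ = |b g' (c g') - A' g'| + R * |b g (c g)| := by rw [abs_mul, Nat.abs_cast]
      _ ≤ W + (DD d 5 : ℤ) * (β j : ℤ) := by
          apply add_le_add h2
          apply mul_le_mul (by exact_mod_cast hR5) (h3.trans (by exact_mod_cast h4)) (abs_nonneg _)
            (by positivity)
      _ = ((W + DD d 5 * β j : ℕ) : ℤ) := by push_cast; ring
  · refine Big.affine hBig (Λ * DD d g) (b g (c g)) (Nat.mul_pos hΛ0 (DD_pos d hd g))
      (fun m => (((Λ * DD d g : ℕ) : ℤ) * m + b g (c g)).toNat) ?_ ?_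
    · intro m hm
      exact Int.toNat_of_nonneg (hm g hg).1.le
    · intro m hm
      obtain ⟨h1, h2⟩ := hm g hg
      obtain ⟨h3, h4⟩ := hm g' hg'
      have h5 : (((((Λ * DD d g : ℕ) : ℤ) * m + b g (c g)).toNat : ℕ) : ℤ) =
        ((Λ * DD d g : ℕ) : ℤ) * m + b g (c g) := Int.toNat_of_nonneg h1.le
      refine ⟨?_, (((Λ * DD d g' : ℕ) : ℤ) * m + b g' (c g')).toNat, ?_, ?_⟩
      · rw [Nat.prime_iff_prime_int, h5]
        exact h2
      · rw [Nat.prime_iff_prime_int, Int.toNat_of_nonneg h3.le]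
        exact h4
      · have e3 : ((Λ * DD d g' : ℕ) : ℤ) = ((Λ * DD d g : ℕ) : ℤ) * (R : ℤ) := by
          rw [hDR]
          push_cast
          ring
        rw [← hR, h5, Int.toNat_of_nonneg h3.le, e3]
        ring

end Pool.Agent.H732R3.PairA
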