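import Pool.Agent.H732R3.DickS

/-!
Lines `a p - b q = c` with infinitely many prime points near every position, for one of the ratios of five
given slopes.
-/

namespace Pool.Agent.H732R3.PairB

open Finset Pool.Agent.H732R3.BigQ Pool.Agent.H732R3.DickS

theorem slopes (hQ : QuarterB) (m : Fin 5 → ℕ) (hm : ∀ i, 1 ≤ m i) : ∃ C : ℕ, ∀ B : ℤ,
    ∃ i j : Fin 5, i < j ∧ ∃ (a b : ℕ) (c : ℤ), 1 ≤ a ∧ 1 ≤ b ∧ a * m j = b * m i ∧ c ≠ 0 ∧
      IsCoprime (a : ℤ) b ∧ IsCoprime (a : ℤ) c ∧ IsCoprime (b : ℤ) c ∧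
      ¬ (Odd a ∧ Odd b ∧ Odd c) ∧ |c - a * B| ≤ C ∧
      Big {q : ℕ | q.Prime ∧ ∃ p : ℕ, p.Prime ∧ (a : ℤ) * p - b * q = c} := by
  classical
  obtain ⟨K, hK, hQ5⟩ := hQ 5
  by_contra hcon
  have hcon' : ∀ C : ℕ, ∃ B : ℤ, ∀ i j : Fin 5, i < j → ∀ (a b : ℕ) (c : ℤ), 1 ≤ a → 1 ≤ b →
      a * m j = b * m i → c ≠ 0 → IsCoprime (a : ℤ) b → IsCoprime (a : ℤ) c → IsCoprime (b : ℤ) c →
      ¬ (Odd a ∧ Odd b ∧ Odd c) → |c - a * B| ≤ C →
      ¬ Big {q : ℕ | q.Prime ∧ ∃ p : ℕ, p.Prime ∧ (a : ℤ) * p - b * q = c} := by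
    intro C
    by_contra h
    apply hcon
    refine ⟨C, fun B => ?_⟩
    by_contra h2
    apply h
    exact ⟨B, fun i j hij a b c h3 h4 h5 h6 h7 h8 h9 h10 h11 h12 =>
      h2 ⟨i, j, hij, a, b, c, h3, h4, h5, h6, h7, h8, h9, h10, h11, h12⟩⟩
  choose AB hAB using hcon'
  obtain ⟨M, hM⟩ : ∃ M : ℕ, M = ∏ g, m g := ⟨_, rfl⟩
  have hM0 : 0 < M := by rw [hM]; exact Finset.prod_pos fun g _ => hm g
  have hmM : ∀ g, m g ∣ M := fun g => by rw [hM]; exact Finset.dvd_prod_of_mem m (mem_univ g)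
  obtain ⟨N, hN⟩ : ∃ N : ℕ, N = 5 * K := ⟨_, rfl⟩
  have hN0 : 0 < N := by omega
  have hNz : (0 : ℤ) < N := by exact_mod_cast hN0
  obtain ⟨Λ, hΛ⟩ : ∃ Λ : ℕ, Λ = N.factorial := ⟨_, rfl⟩
  have hΛ0 : 0 < Λ := by rw [hΛ]; exact Nat.factorial_pos _
  obtain ⟨P, hP⟩ : ∃ P : ℕ, P = Λ * M := ⟨_, rfl⟩
  have hP0 : 0 < P := by rw [hP]; exact Nat.mul_pos hΛ0 hM0
  have hPz : (0 : ℤ) < P := by exact_mod_cast hP0
  obtain ⟨W, hW⟩ : ∃ W : ℕ, W = P * (N + 2) := ⟨_, rfl⟩
  obtain ⟨β, hβ0, hβs⟩ : ∃ β : ℕ → ℕ, β 0 = W ∧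
      ∀ j, β (j + 1) = β j + (AB (M * W + M * β j)).natAbs + W :=
    ⟨fun m => Nat.rec W (fun _ e => e + (AB (M * W + M * e)).natAbs + W) m, rfl, fun _ => rfl⟩
  have hβm : Monotone β := monotone_nat_of_le_succ fun j => by rw [hβs]; omega
  obtain ⟨A', hA0, hAs⟩ : ∃ A' : ℕ → ℤ, A' 0 = 0 ∧ ∀ j, A' (j + 1) = AB (M * W + M * β j) :=
    ⟨fun m => Nat.casesOn m 0 (fun j => AB (M * W + M * β j)), rfl, fun _ => rfl⟩
  have hAβ : ∀ j, (A' j).natAbs + W ≤ β j := by
    intro j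
    cases j with
    | zero => rw [hA0, hβ0]; simp
    | succ j => rw [hAs, hβs]; omega
  obtain ⟨u, hu⟩ : ∃ u : Fin 5 → Fin K → ℤ,
    u = fun (g : Fin 5) (s : Fin K) =>
      (N : ℤ) * ((A' g.1 / P) / N) + (((finProdFinEquiv (g, s) : Fin (5 * K)) : ℕ) : ℤ) := ⟨_, rfl⟩
  obtain ⟨b, hb⟩ : ∃ b : Fin 5 → Fin K → ℤ,
    b = fun (g : Fin 5) (s : Fin K) => 1 + (P : ℤ) * u g s := ⟨_, rfl⟩
  have hidx : ∀ (g : Fin 5) (s : Fin K), (((finProdFinEquiv (g, s) : Fin (5 * K)) : ℕ) : ℤ) < N := by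
    intro g s
    have h1 := (finProdFinEquiv (g, s) : Fin (5 * K)).2
    have h2 : ((finProdFinEquiv (g, s) : Fin (5 * K)) : ℕ) < N := h1.trans_eq hN.symm
    exact_mod_cast h2
  have hbA : ∀ (g : Fin 5) (s : Fin K), |b g s - A' g.1| ≤ W := by
    intro g s
    have h1 := Int.mul_ediv_add_emod (A' g) P
    have h2 := Int.emod_nonneg (A' g) hPz.ne'
    have h3 := Int.emod_lt_of_pos (A' g) hPz
    have h4 := Int.mul_ediv_add_emod (A' g / P) N
    have h5 := Int.emod_nonneg (A' g / P) hNz.ne'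
    have h6 := Int.emod_lt_of_pos (A' g / P) hNz
    have h7 := hidx g s
    have h8 : (0 : ℤ) ≤ (((finProdFinEquiv (g, s) : Fin (5 * K)) : ℕ) : ℤ) := by positivity
    set I : ℤ := (((finProdFinEquiv (g, s) : Fin (5 * K)) : ℕ) : ℤ) with hI
    have e1 : b g s - A' g = 1 - A' g % P + P * (I - A' g / P % N) := by
      rw [hb, hu]
      simp only
      rw [← hI]
      linear_combination h1 + (P : ℤ) * h4
    rw [e1, hW]
    have e2 : |I - A' g / P % N| ≤ N := by rw [abs_le]; constructor <;> linarith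
    have e3 : |1 - A' g % P| ≤ P + 1 := by rw [abs_le]; constructor <;> linarith
    calc |1 - A' g % P + P * (I - A' g / P % N)| ≤ |1 - A' g % P| + |P * (I - A' g / P % N)| :=
          abs_add_le _ _
      _ = |1 - A' g % P| + P * |I - A' g / P % N| := by rw [abs_mul, abs_of_pos hPz]
      _ ≤ (P + 1) + P * N := add_le_add e3 (mul_le_mul_of_nonneg_left e2 hPz.le)
      _ ≤ ((P * (N + 2) : ℕ) : ℤ) := by
          push_cast
          have : (1 : ℤ) ≤ P := hPz
          linarith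
  have hbβ : ∀ (g : Fin 5) (s : Fin K), |b g s| ≤ β g.1 := by
    intro g s
    have h1 := hbA g s
    have h2 : |b g s| ≤ |b g s - A' g| + |A' g| := by
      have := abs_add_le (b g s - A' g) (A' g)
      rwa [sub_add_cancel] at this
    have h3 : ((A' g).natAbs : ℤ) + W ≤ β g := by exact_mod_cast hAβ g
    rw [← Int.abs_eq_natAbs] at h3
    linarith
  have hbinj : ∀ (g : Fin 5) (s : Fin K) (g' : Fin 5) (s' : Fin K), b g s = b g' s' →
      g = g' ∧ s = s' := by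
    intro g s g' s' h1
    rw [hb] at h1
    simp only at h1
    have h2 : u g s = u g' s' := mul_left_cancel₀ hPz.ne' (add_left_cancel h1)
    have h3 : ∀ (g : Fin 5) (s : Fin K), u g s % N = (((finProdFinEquiv (g, s) : Fin (5 * K)) : ℕ) : ℤ) := by
      intro g s
      rw [hu]
      simp only
      rw [Int.mul_add_emod_self_left]
      exact Int.emod_eq_of_lt (by positivity) (hidx g s)
    have h4 := h3 g s
    rw [h2, h3 g' s'] at h4
    have h5 : (finProdFinEquiv (g', s') : Fin (5 * K)) = finProdFinEquiv (g, s) :=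
      Fin.ext (by exact_mod_cast h4)
    have h6 := finProdFinEquiv.injective h5
    exact ⟨(congrArg Prod.fst h6).symm, (congrArg Prod.snd h6).symm⟩
  -- the coloured Maynard-Tao theorem
  obtain ⟨S, c, hS, hBig⟩ := hQ5 (fun g _ => ((Λ * m g : ℕ) : ℤ)) b
    (fun g _ => by exact_mod_cast Nat.mul_pos hΛ0 (hm g))
    (by
      rintro ⟨g, s⟩ ⟨g', s'⟩ h
      obtain ⟨h1, h2⟩ := hbinj g s g' s' (congrArg Prod.snd h)
      rw [h1, h2])
    (by
      intro p hp
      have hpp := Nat.prime_iff_prime_int.1 hp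
      by_cases hpP : (p : ℤ) ∣ P
      · refine ⟨0, fun g s hdv => ?_⟩
        rw [mul_zero, zero_add, hb] at hdv
        exact hpp.not_isUnit (isUnit_of_dvd_one ((dvd_add_left (Dvd.dvd.mul_right hpP _)).1 hdv))
      · have hlt : N < p := by
          by_contra hle
          apply hpP
          rw [hP, hΛ]
          exact_mod_cast (Nat.dvd_factorial hp.pos (not_lt.1 hle)).mul_right _
        obtain ⟨y, hy⟩ := exists_avoid (ι := Fin 5 × Fin K) hp (by
          rw [Fintype.card_prod, Fintype.card_fin, Fintype.card_fin, ← hN]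
          exact hlt) (fun t => ((Λ * m t.1 : ℕ) : ℤ)) (fun t => b t.1 t.2) (fun t h => by
            exfalso
            apply hpP
            refine h.trans ?_
            rw [hP]
            exact_mod_cast Nat.mul_dvd_mul_left Λ (hmM t.1))
        exact ⟨y, fun g s => hy (g, s)⟩)
  have hS2 : 1 < S.card := by omega
  obtain ⟨x, hx, y, hy, hxy⟩ := Finset.one_lt_card.1 hS2
  obtain ⟨g, hg, g', hg', hlt⟩ : ∃ g ∈ S, ∃ g' ∈ S, g < g' := by
    rcases lt_or_gt_of_ne hxy with h | h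
    · exact ⟨x, hx, y, hy, h⟩
    · exact ⟨y, hy, x, hx, h⟩
  have hlt' : g.1 < g'.1 := hlt
  obtain ⟨j, hj⟩ : ∃ j : ℕ, j + 1 = g'.1 := ⟨g'.1 - 1, by omega⟩
  -- the reduced slope
  obtain ⟨G, hG⟩ : ∃ G : ℕ, G = Nat.gcd (m g) (m g') := ⟨_, rfl⟩
  have hG0 : 0 < G := by rw [hG]; exact Nat.gcd_pos_of_pos_left _ (hm g)
  obtain ⟨a, ha⟩ : ∃ a : ℕ, m g = G * a := by rw [hG]; exact Nat.gcd_dvd_left _ _
  obtain ⟨e, he⟩ : ∃ e : ℕ, m g' = G * e := by rw [hG]; exact Nat.gcd_dvd_right _ _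
  have hae : Nat.Coprime a e := by
    have h1 : G * Nat.gcd a e = G * 1 := by
      rw [← Nat.gcd_mul_left, ← ha, ← he, mul_one, hG]
    exact Nat.eq_of_mul_eq_mul_left hG0 h1
  have ha0 : 1 ≤ a := by
    have := hm g
    rcases Nat.eq_zero_or_pos a with h | h
    · rw [h, mul_zero] at ha; omega
    · exact h
  have he0 : 1 ≤ e := by
    have := hm g'
    rcases Nat.eq_zero_or_pos e with h | h
    · rw [h, mul_zero] at he; omega
    · exact h
  have haM : a ∣ M := (Dvd.intro_left G ha.symm).trans (hmM g)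
  have heM : e ∣ M := (Dvd.intro_left G he.symm).trans (hmM g')
  have haMle : a ≤ M := Nat.le_of_dvd hM0 haM
  have heMle : e ≤ M := Nat.le_of_dvd hM0 heM
  have hMP : (M : ℤ) ∣ P := by rw [hP]; push_cast; exact Dvd.intro_left _ rfl
  have hcopb : ∀ (t : ℕ) (z : Fin 5) (s : Fin K), t ∣ M → IsCoprime (t : ℤ) (b z s) := by
    intro t z s ht
    have h1 : (t : ℤ) ∣ P := (by exact_mod_cast ht : (t : ℤ) ∣ M).trans hMP
    obtain ⟨w, hw⟩ := h1
    refine ⟨-(w * u z s), 1, ?_⟩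
    rw [hb]
    simp only
    rw [hw]
    ring
  have haeZ : IsCoprime (a : ℤ) e := Nat.isCoprime_iff_coprime.2 hae
  have hac : IsCoprime (a : ℤ) (a * b g' (c g') - e * b g (c g)) := by
    have h1 : IsCoprime (a : ℤ) (-(e * b g (c g))) := (haeZ.mul_right (hcopb a g (c g) haM)).neg_right
    have h2 := h1.add_mul_left_right (b g' (c g'))
    have h3 : -(e * b g (c g)) + a * b g' (c g') = a * b g' (c g') - e * b g (c g) := by ring
    rwa [h3] at h2
  have hec : IsCoprime (e : ℤ) (a * b g' (c g') - e * b g (c g)) := by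
    have h1 : IsCoprime (e : ℤ) (a * b g' (c g')) := haeZ.symm.mul_right (hcopb e g' (c g') heM)
    have h2 := h1.add_mul_left_right (-(b g (c g)))
    have h3 : a * b g' (c g') + e * (-(b g (c g))) = a * b g' (c g') - e * b g (c g) := by ring
    rwa [h3] at h2
  have hP2 : (2 : ℤ) ∣ P := by
    have h1 : 2 ∣ Λ := by rw [hΛ]; exact Nat.dvd_factorial (by norm_num) (by omega)
    rw [hP]
    exact_mod_cast h1.mul_right M
  have hbodd : ∀ (z : Fin 5) (s : Fin K), Odd (b z s) := by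
    intro z s
    obtain ⟨w, hw⟩ := hP2
    refine ⟨w * u z s, ?_⟩
    rw [hb]
    simp only
    rw [hw]
    ring
  have hnz : (a : ℤ) * b g' (c g') - e * b g (c g) ≠ 0 := by
    intro h0
    rw [h0] at hac hec
    have h1 : IsUnit (a : ℤ) := isCoprime_zero_right.1 hac
    have h2 : IsUnit (e : ℤ) := isCoprime_zero_right.1 hec
    have h3 : a = 1 := by
      have := Int.isUnit_iff.1 h1
      omega
    have h4 : e = 1 := by
      have := Int.isUnit_iff.1 h2
      omega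
    rw [h3, h4] at h0
    have h5 : b g' (c g') = b g (c g) := by push_cast at h0; linarith
    have h6 := (hbinj _ _ _ _ h5).1
    rw [h6] at hlt
    exact lt_irrefl _ hlt
  refine hAB (M * W + M * β j) g g' hlt a e (a * b g' (c g') - e * b g (c g)) ha0 he0 ?_ hnz haeZ hac hec
    ?_ ?_ ?_
  · rw [ha, he]; ring
  · rintro ⟨h1, h2, h3⟩
    have h4 : Odd ((a : ℤ) * b g' (c g')) := ((Int.odd_coe_nat a).2 h1).mul (hbodd _ _)
    have h5 : Odd ((e : ℤ) * b g (c g)) := ((Int.odd_coe_nat e).2 h2).mul (hbodd _ _)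
    exact (Int.not_even_iff_odd.2 h3) (h4.sub_odd h5)
  · have h1 : A' g' = AB (M * W + M * β j) := by rw [← hj, hAs]
    rw [← h1]
    have h2 := hbA g' (c g')
    have h3 := hbβ g (c g)
    have h4 : β g ≤ β j := hβm (by omega)
    calc |(a : ℤ) * b g' (c g') - e * b g (c g) - a * A' g'|
        = |a * (b g' (c g') - A' g') - e * b g (c g)| := by congr 1; ring
      _ ≤ |a * (b g' (c g') - A' g')| + |e * b g (c g)| := abs_sub _ _
      _ = a * |b g' (c g') - A' g'| + e * |b g (c g)| := by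
          rw [abs_mul, abs_mul, Nat.abs_cast, Nat.abs_cast]
      _ ≤ (M : ℤ) * W + (M : ℤ) * (β j : ℤ) := by
          apply add_le_add
          · exact mul_le_mul (by exact_mod_cast haMle) h2 (abs_nonneg _) (by positivity)
          · exact mul_le_mul (by exact_mod_cast heMle) (h3.trans (by exact_mod_cast h4)) (abs_nonneg _)
              (by positivity)
      _ = ((M * W + M * β j : ℕ) : ℤ) := by push_cast; ring
  · refine Big.affine hBig (Λ * m g) (b g (c g)) (Nat.mul_pos hΛ0 (hm g))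
      (fun n => (((Λ * m g : ℕ) : ℤ) * n + b g (c g)).toNat) ?_ ?_
    · intro n hn
      exact Int.toNat_of_nonneg (hn g hg).1.le
    · intro n hn
      obtain ⟨h1, h2⟩ := hn g hg
      obtain ⟨h3, h4⟩ := hn g' hg'
      have h5 : (((((Λ * m g : ℕ) : ℤ) * n + b g (c g)).toNat : ℕ) : ℤ) =
        ((Λ * m g : ℕ) : ℤ) * n + b g (c g) := Int.toNat_of_nonneg h1.le
      refine ⟨?_, (((Λ * m g' : ℕ) : ℤ) * n + b g' (c g')).toNat, ?_, ?_⟩
      · rw [Nat.prime_iff_prime_int, h5]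
        exact h2
      · rw [Nat.prime_iff_prime_int, Int.toNat_of_nonneg h3.le]
        exact h4
      · rw [h5, Int.toNat_of_nonneg h3.le, ha, he]
        push_cast
        ring

end Pool.Agent.H732R3.PairB
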