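import Pool.Agent.H732R3.BigQ

/-!
Quantitative forms of the bounded perturbation theorems.
-/

namespace Pool.Agent.H732R3.BigQ

open Finset Pool.Agent.H461R2.PD Pool.Agent.H602R3.Tup Pool.Agent.H732R3.Tup

/-- `N ≡ r (mod q)` and all the `N + q a i` are prime for many `N` -/
def GoodB (q : ℕ) (r : ℤ) {k : ℕ} (a : Fin k → ℤ) : Prop :=
  Big {N : ℕ | N.Prime ∧ (N : ℤ) ≡ r [ZMOD q] ∧ ∀ i, ∃ p : ℕ, p.Prime ∧ (p : ℤ) = N + q * a i}

/-- at least a quarter of `T` clusters at arbitrary positions is hit by primes -/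
theorem clustersB (hQ : QuarterB) (T : ℕ) : ∃ Q : ℕ, 1 ≤ Q ∧ ∀ (q : ℕ) (r : ℤ), 1 ≤ q →
    IsCoprime r (q : ℤ) → ∀ pos : Fin T → ℤ,
    ∃ (S : Finset (Fin T)) (h : Fin T → ℤ), T ≤ 4 * S.card ∧ Function.Injective h ∧
      (∀ g, (Q : ℤ) * pos g ≤ h g ∧ h g < Q * pos g + Q) ∧
      Big {n : ℕ | ∀ g ∈ S, 0 < (q : ℤ) * n + (r + q * h g) ∧
        Prime ((q : ℤ) * n + (r + q * h g))} := by
  obtain ⟨K, hK, hq⟩ := hQ T
  set W : ℕ := (T * K).factorial with hW
  have hWpos : 0 < W := Nat.factorial_pos _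
  set Q : ℕ := W * (T * K + 1) with hQdef
  have hQpos : 0 < Q := by positivity
  refine ⟨Q, hQpos, fun q r hq1 hqr pos => ?_⟩
  have hq0 : (0 : ℤ) < q := by exact_mod_cast hq1
  set idx : Fin T × Fin K → ℕ := fun x => (finProdFinEquiv x : ℕ) with hidx
  have hidxlt : ∀ x, idx x < T * K := fun x => (finProdFinEquiv x).2
  have hoff : ∀ x, W * idx x < Q := by
    intro x
    rw [hQdef]
    exact Nat.mul_lt_mul_of_pos_left (by have := hidxlt x; omega) hWpos
  set b : Fin T → Fin K → ℤ := fun g i => (Q : ℤ) * pos g + (W * idx (g, i) : ℕ) with hb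
  have hmod : ∀ g i, b g i % Q = (W * idx (g, i) : ℕ) := by
    intro g i
    rw [hb]
    simp only
    rw [add_comm, Int.add_mul_emod_self_left]
    exact Int.emod_eq_of_lt (by positivity) (by exact_mod_cast hoff (g, i))
  have hbinj : ∀ g i g' i', b g i = b g' i' → (g, i) = (g', i') := by
    intro g i g' i' h
    have h1 : (W * idx (g, i) : ℕ) = W * idx (g', i') := by
      have h2 := hmod g i
      rw [h, hmod g' i'] at h2
      exact_mod_cast h2.symm
    have h3 : idx (g, i) = idx (g', i') := Nat.eq_of_mul_eq_mul_left hWpos h1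
    exact finProdFinEquiv.injective (Fin.ext h3)
  obtain ⟨S, c, hS, hinf⟩ := hq (fun _ _ => (q : ℤ)) (fun g i => r + q * b g i) (fun _ _ => hq0)
    (by
      intro x y hxy
      simp only [Prod.mk.injEq, true_and, add_right_inj] at hxy
      exact hbinj _ _ _ _ (mul_left_cancel₀ hq0.ne' hxy))
    (by
      intro p hp
      have hpp := Nat.prime_iff_prime_int.1 hp
      by_cases hpq : (p : ℤ) ∣ q
      · refine ⟨0, fun g i hd => ?_⟩
        have h1 : (p : ℤ) ∣ r := by
          have h2 : (p : ℤ) ∣ (q : ℤ) * b g i := Dvd.dvd.mul_right hpq _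
          have h3 := (dvd_add_left h2).1 (by simpa using hd)
          exact h3
        exact hpp.not_isUnit (hqr.isUnit_of_dvd' h1 hpq)
      -- an integer `m` with `q m ≡ 1 (mod p)`
      have hcop : IsCoprime (q : ℤ) (p : ℤ) := by
        rw [isCoprime_comm]
        exact (Prime.coprime_iff_not_dvd hpp).2 hpq
      obtain ⟨m, w, hm⟩ := hcop
      rcases Nat.lt_or_ge (T * K) p with h | h
      · obtain ⟨n, hn⟩ := exists_shift_int hp h b
        refine ⟨n - m * r, fun g i hd => hn g i ?_⟩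
        have e1 : (q : ℤ) * (n - m * r) + (r + q * b g i) = q * (n + b g i) + (w * r) * p := by
          have : m * (q : ℤ) = 1 - w * p := by linarith
          calc (q : ℤ) * (n - m * r) + (r + q * b g i) = q * (n + b g i) + r - (m * q) * r := by ring
            _ = _ := by rw [this]; ring
        rw [e1] at hd
        have h2 : (p : ℤ) ∣ q * (n + b g i) := (dvd_add_left (Dvd.intro_left _ rfl)).1 hd
        exact (hpp.dvd_or_dvd h2).resolve_left hpq
      · refine ⟨1 - m * r, fun g i hd => ?_⟩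
        have hpW : (p : ℤ) ∣ (W : ℤ) := by exact_mod_cast (Nat.dvd_factorial hp.pos h)
        have hpb : (p : ℤ) ∣ b g i := by
          rw [hb]
          simp only
          push_cast
          rw [hQdef]
          push_cast
          apply dvd_add
          · exact Dvd.dvd.mul_right (Dvd.dvd.mul_right hpW _) _
          · exact Dvd.dvd.mul_right hpW _
        have e1 : (q : ℤ) * (1 - m * r) + (r + q * b g i) = q * (1 + b g i) + (w * r) * p := by
          have : m * (q : ℤ) = 1 - w * p := by linarith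
          calc (q : ℤ) * (1 - m * r) + (r + q * b g i) = q * (1 + b g i) + r - (m * q) * r := by ring
            _ = _ := by rw [this]; ring
        rw [e1] at hd
        have h2 : (p : ℤ) ∣ q * (1 + b g i) := (dvd_add_left (Dvd.intro_left _ rfl)).1 hd
        have h3 : (p : ℤ) ∣ 1 + b g i := (hpp.dvd_or_dvd h2).resolve_left hpq
        have h4 : (p : ℤ) ∣ 1 := (dvd_add_left hpb).1 h3
        exact hpp.not_isUnit (isUnit_of_dvd_one h4))
  refine ⟨S, fun g => b g (c g), hS, ?_, ?_, ?_⟩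
  · intro g g' h
    exact congrArg Prod.fst (hbinj _ _ _ _ h)
  · intro g
    rw [hb]
    simp only
    have := hoff (g, c g)
    have h2 : ((W * idx (g, c g) : ℕ) : ℤ) < Q := by exact_mod_cast this
    exact ⟨by have : (0 : ℤ) ≤ ((W * idx (g, c g) : ℕ) : ℤ) := by positivity
              linarith, by linarith⟩
  · exact hinf

/-- differences of simultaneously hit shifts are good -/
theorem good_of_memB {T k : ℕ} {q : ℕ} {r : ℤ} (hq : 1 ≤ q) {S : Finset (Fin T)} {h : Fin T → ℤ}
    (hinf : Big {n : ℕ | ∀ g ∈ S, 0 < (q : ℤ) * n + (r + q * h g) ∧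
      Prime ((q : ℤ) * n + (r + q * h g))})
    (g0 : Fin T) (hg0 : g0 ∈ S) (g : Fin k → Fin T) (hg : ∀ i, g i ∈ S) :
    GoodB q r (fun i => h (g i) - h g0) := by
  have hq0 : (0 : ℤ) < q := by exact_mod_cast hq
  refine hinf.affine q (r + q * h g0) hq (fun n => ((q : ℤ) * n + (r + q * h g0)).toNat)
    (fun n hn => Int.toNat_of_nonneg (hn g0 hg0).1.le) ?_
  rintro n hn
  have key : ∀ g ∈ S, (((q : ℤ) * n + (r + q * h g)).toNat).Prime ∧
      ((((q : ℤ) * n + (r + q * h g)).toNat : ℕ) : ℤ) = (q : ℤ) * n + (r + q * h g) := by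
    intro g hg
    obtain ⟨h1, h2⟩ := hn g hg
    have h3 : ((((q : ℤ) * n + (r + q * h g)).toNat : ℕ) : ℤ) = (q : ℤ) * n + (r + q * h g) :=
      Int.toNat_of_nonneg h1.le
    refine ⟨?_, h3⟩
    rw [Nat.prime_iff_prime_int, h3]
    exact h2
  refine ⟨(key g0 hg0).1, ?_, fun i => ⟨((q : ℤ) * n + (r + q * h (g i))).toNat,
    (key _ (hg i)).1, ?_⟩⟩
  · rw [(key _ hg0).2]
    have e : (q : ℤ) * n + (r + q * h g0) = r + q * (n + h g0) := by ring
    rw [e]
    exact Int.ModEq.symm (Int.modEq_iff_add_fac.2 ⟨_, rfl⟩)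
  · show ((((q : ℤ) * n + (r + q * h (g i))).toNat : ℕ) : ℤ) =
      ((((q : ℤ) * n + (r + q * h g0)).toNat : ℕ) : ℤ) + q * (h (g i) - h g0)
    rw [(key _ (hg i)).2, (key _ hg0).2]
    ring

/-- sums over the moving coordinates are bounded distance away from a good tuple -/
theorem ipstarB (hQ : QuarterB) (k : ℕ) : ∃ n C : ℕ, ∀ (q : ℕ) (r : ℤ), 1 ≤ q →
    IsCoprime r (q : ℤ) → ∀ v : Fin n → Fin k → ℤ, ∃ J : Finset (Fin n), J.Nonempty ∧
    ∃ a : Fin k → ℤ, Function.Injective a ∧ (∀ i, a i ≠ 0) ∧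
      (∀ i, |a i - ∑ j ∈ J, v j i| ≤ C) ∧ GoodB q r a := by
  classical
  obtain ⟨n, hn⟩ := dhj_quarter k
  obtain ⟨Q, hQ1, hcl⟩ := clustersB hQ ((k + 1) ^ n)
  refine ⟨n, 2 * Q, fun q r hq hqr v => ?_⟩
  have hQ0 : (0 : ℤ) < Q := by exact_mod_cast hQ1
  set e : (Fin n → Fin (k + 1)) ≃ Fin ((k + 1) ^ n) := finFunctionFinEquiv with he
  set V : Fin n → Fin (k + 1) → ℤ := fun j => Fin.cons 0 (v j) with hV
  set s : (Fin n → Fin (k + 1)) → ℤ := fun w => ∑ j, V j (w j) with hs
  obtain ⟨S, h, hS, hinj, hpos, hinf⟩ := hcl q r hq hqr (fun g => s (e.symm g) / Q)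
  obtain ⟨L, hL⟩ := hn (S.map e.symm.toEmbedding) (by rw [card_map]; exact hS)
  have hLS : ∀ i, e (L i) ∈ S := by
    intro i
    have := hL i
    rw [mem_map] at this
    obtain ⟨g, hg, hgi⟩ := this
    have h2 : e (L i) = g := by
      rw [← hgi]
      simp
    rw [h2]; exact hg
  have hclose : ∀ w, |h (e w) - s w| ≤ Q := by
    intro w
    have h1 := hpos (e w)
    rw [Equiv.symm_apply_apply] at h1
    have h2 := Int.emod_add_mul_ediv (s w) Q
    have h3 := Int.emod_nonneg (s w) hQ0.ne'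
    have h4 := Int.emod_lt_of_pos (s w) hQ0
    rw [abs_le]
    constructor <;> linarith [h1.1, h1.2]
  set J : Finset (Fin n) := univ.filter (fun j => L.idxFun j = none) with hJ
  have hJne : J.Nonempty := by
    obtain ⟨j, hj⟩ := L.proper
    exact ⟨j, by simp [hJ, hj]⟩
  have hdiff : ∀ i : Fin k, s (L i.succ) - s (L 0) = ∑ j ∈ J, v j i := by
    intro i
    rw [hs]
    simp only
    rw [← sum_sub_distrib, hJ, sum_filter]
    refine sum_congr rfl fun j _ => ?_
    by_cases hj : L.idxFun j = none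
    · rw [if_pos hj, Combinatorics.Line.apply_none _ _ _ hj, Combinatorics.Line.apply_none _ _ _ hj]
      simp [hV]
    · rw [if_neg hj]
      obtain ⟨y, hy⟩ := Option.ne_none_iff_exists'.1 hj
      rw [Combinatorics.Line.apply_some hy, Combinatorics.Line.apply_some hy, sub_self]
  have hLinj : Function.Injective (fun i => L i) := by
    intro i i' hii
    obtain ⟨j, hj⟩ := L.proper
    have := congrFun hii j
    simp only at this
    rw [Combinatorics.Line.apply_none _ _ _ hj, Combinatorics.Line.apply_none _ _ _ hj] at this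
    exact this
  refine ⟨J, hJne, fun i => h (e (L i.succ)) - h (e (L 0)), ?_, ?_, ?_, ?_⟩
  · intro i i' hii
    simp only [sub_left_inj] at hii
    exact Fin.succ_injective _ (hLinj (e.injective (hinj hii)))
  · intro i
    rw [sub_ne_zero]
    intro hh
    exact Fin.succ_ne_zero i (hLinj (e.injective (hinj hh)))
  · intro i
    have h1 := hclose (L i.succ)
    have h2 := hclose (L 0)
    have h3 := hdiff i
    rw [abs_le] at h1 h2 ⊢
    push_cast
    constructor <;> linarith [h1.1, h1.2, h2.1, h2.2]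
  · exact good_of_memB hq hinf (e (L 0)) (hLS 0) (fun i => e (L i.succ)) (fun i => hLS _)

/-- every vector is at a bounded distance from a good tuple -/
theorem syndeticB (hQ : QuarterB) (k : ℕ) (q : ℕ) (r : ℤ) (hq : 1 ≤ q) (hqr : IsCoprime r (q : ℤ)) :
    ∃ C : ℕ, ∀ v : Fin k → ℤ, ∃ a : Fin k → ℤ, Function.Injective a ∧ (∀ i, a i ≠ 0) ∧
      (∀ i, |a i - v i| ≤ C) ∧ GoodB q r a := by
  classical
  obtain ⟨n, C, hnC⟩ := ipstarB hQ k
  by_contra hcon
  push Not at hcon
  -- vectors far from every good tuple, of rapidly increasing isolation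
  choose w hw using hcon
  -- size of a vector
  let sz : (Fin k → ℤ) → ℕ := fun x => ∑ i, (x i).natAbs
  have hsz : ∀ (x : Fin k → ℤ) i, |x i| ≤ sz x := by
    intro x i
    have h1 : (x i).natAbs ≤ sz x := Finset.single_le_sum (f := fun i => (x i).natAbs)
      (fun _ _ => Nat.zero_le _) (mem_univ i)
    rw [Int.abs_eq_natAbs]
    exact_mod_cast h1
  -- D m is the isolation of the m-th vector
  obtain ⟨D, hD0, hDs⟩ : ∃ D : ℕ → ℕ, D 0 = C ∧ ∀ m, D (m + 1) = D m + sz (w (D m)) :=
    ⟨fun m => Nat.rec C (fun _ d => d + sz (w d)) m, rfl, fun _ => rfl⟩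
  have hsum : ∀ m, C + ∑ j ∈ range m, sz (w (D j)) ≤ D m := by
    intro m
    induction m with
    | zero => simp [hD0]
    | succ m ih => rw [sum_range_succ, hDs]; omega
  obtain ⟨J, hJ, a, hinj, hne, hcl, hg⟩ := hnC q r hq hqr (fun j => w (D j))
  set m := J.max' hJ with hm
  refine hw (D m) a hinj hne ?_ hg
  intro i
  have hmJ : m ∈ J := J.max'_mem hJ
  have h1 := hcl i
  rw [← Finset.add_sum_erase J _ hmJ] at h1
  have h2 : |∑ j ∈ J.erase m, w (D j) i| ≤ ∑ j ∈ range (m : ℕ), (sz (w (D j)) : ℤ) := by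
    refine (Finset.abs_sum_le_sum_abs _ _).trans ?_
    calc ∑ j ∈ J.erase m, |w (D j) i| ≤ ∑ j ∈ J.erase m, (sz (w (D j)) : ℤ) :=
          sum_le_sum (fun j _ => hsz _ i)
      _ = ∑ j ∈ (J.erase m).map ⟨fun j : Fin n => (j : ℕ), Fin.val_injective⟩, (sz (w (D j)) : ℤ) := by
          rw [sum_map]; rfl
      _ ≤ _ := by
          apply sum_le_sum_of_subset_of_nonneg
          · intro x hx
            rw [mem_map] at hx
            obtain ⟨j, hj, rfl⟩ := hx
            rw [mem_erase] at hj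
            rw [mem_range]
            have h3 : j < m := lt_of_le_of_ne (J.le_max' j hj.2) hj.1
            exact h3
          · intro x _ _; positivity
  have h4 : (C : ℤ) + ∑ j ∈ range (m : ℕ), (sz (w (D j)) : ℤ) ≤ ((D (m : ℕ) : ℕ) : ℤ) := by
    have h5 := hsum (m : ℕ)
    exact_mod_cast h5
  rw [abs_le] at h1 h2 ⊢
  constructor <;> linarith [h1.1, h1.2, h2.1, h2.2]

/-- In an admissible family of forms indexed by the words of a large length there is a combinatorial line
whose forms are simultaneously prime. -/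
theorem line_hitB (hQ : QuarterB) (k : ℕ) : ∃ n K : ℕ, 1 ≤ K ∧
    ∀ (α β : (Fin n → Fin (k + 1)) → Fin K → ℤ), (∀ w s, 0 < α w s) →
    (∀ w s w' s', α w s = α w' s' → β w s = β w' s' → w = w' ∧ s = s') →
    (∀ p : ℕ, p.Prime → ∃ m : ℤ, ∀ w s, ¬ ((p : ℤ) ∣ α w s * m + β w s)) →
    ∃ (L : Combinatorics.Line (Fin (k + 1)) (Fin n)) (σ : Fin (k + 1) → Fin K),
      Big {m : ℕ | ∀ i, 0 < α (L i) (σ i) * (m : ℤ) + β (L i) (σ i) ∧
        Prime (α (L i) (σ i) * (m : ℤ) + β (L i) (σ i))} := by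
  classical
  obtain ⟨n, hn⟩ := Pool.Agent.H732R3.Tup.dhj_quarter k
  obtain ⟨K, hK, hq⟩ := hQ ((k + 1) ^ n)
  refine ⟨n, K, hK, fun α β hα hinj hadm => ?_⟩
  set e : (Fin n → Fin (k + 1)) ≃ Fin ((k + 1) ^ n) := finFunctionFinEquiv with he
  obtain ⟨S, c, hS, hinf⟩ := hq (fun g s => α (e.symm g) s) (fun g s => β (e.symm g) s)
    (fun g s => hα _ _)
    (by
      rintro ⟨g, s⟩ ⟨g', s'⟩ h
      simp only [Prod.mk.injEq] at h
      obtain ⟨h1, h2⟩ := hinj _ _ _ _ h.1 h.2
      exact Prod.ext (e.symm.injective h1) h2)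
    (by
      intro p hp
      obtain ⟨m, hm⟩ := hadm p hp
      exact ⟨m, fun g s => hm _ _⟩)
  obtain ⟨L, hL⟩ := hn (S.map e.symm.toEmbedding) (by rw [card_map]; exact hS)
  have hLS : ∀ i, e (L i) ∈ S := by
    intro i
    have := hL i
    rw [mem_map] at this
    obtain ⟨g, hg, hgi⟩ := this
    have h2 : e (L i) = g := by
      rw [← hgi]
      simp
    rw [h2]; exact hg
  refine ⟨L, fun i => c (e (L i)), hinf.mono ?_⟩
  intro m hm i
  have := hm (e (L i)) (hLS i)
  simp only [Equiv.symm_apply_apply] at this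
  exact this

open Pool.Agent.H732R3.Dick in
/-- Dickson's conjecture for forms `a_i x + c` up to bounded factors. -/
theorem multiplicativeB (hQ : QuarterB) (k : ℕ) (c : ℤ) (hc : c ≠ 0) : ∃ C : ℕ, ∀ a : Fin (k + 1) → ℕ,
    (∀ i, 1 ≤ a i) → (∀ i, IsCoprime (a i : ℤ) c) → ∃ f : Fin (k + 1) → ℕ,
      (∀ i, 1 ≤ f i ∧ f i ≤ C) ∧ Function.Injective (fun i => f i * a i) ∧
      Big {x : ℕ | ∀ i, ∃ p : ℕ, p.Prime ∧ (p : ℤ) = f i * a i * x + c} := by
  classical
  obtain ⟨n, K, hK, hline⟩ := line_hitB hQ k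
  obtain ⟨l, hlc, hl⟩ := Nat.exists_infinite_primes (c.natAbs + 1)
  have hlc' : ¬ (l : ℤ) ∣ c := by
    intro h
    have h1 := Int.natAbs_dvd_natAbs.2 h
    rw [Int.natAbs_natCast] at h1
    have := Nat.le_of_dvd (Int.natAbs_pos.2 hc) h1
    omega
  have hl0 : 0 < l := hl.pos
  set e : (Fin n → Fin (k + 1)) ≃ Fin ((k + 1) ^ n) := finFunctionFinEquiv with he
  set N : ℕ := (k + 1) ^ n * K with hN
  have hNpos : 0 < N := by positivity
  set idx : (Fin n → Fin (k + 1)) → Fin K → ℕ := fun w s => (finProdFinEquiv (e w, s) : ℕ) with hidx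
  have hidxlt : ∀ w s, idx w s < N := fun w s => (finProdFinEquiv (e w, s)).2
  have hidxinj : ∀ w s w' s', idx w s = idx w' s' → w = w' ∧ s = s' := by
    intro w s w' s' h
    have h1 := finProdFinEquiv.injective (Fin.ext h)
    exact ⟨e.injective (congrArg Prod.fst h1), congrArg Prod.snd h1⟩
  by_contra hcon
  push Not at hcon
  choose b hb1 hbc hb using hcon
  obtain ⟨D, hD0, hDs⟩ : ∃ D : ℕ → ℕ, D 0 = l ^ N ∧ ∀ m, D (m + 1) = D m * ∑ i, b (D m) i :=
    ⟨fun m => Nat.rec (l ^ N) (fun _ d => d * ∑ i, b d i) m, rfl, fun _ => rfl⟩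
  have hDprod : ∀ m, l ^ N * ∏ j ∈ range m, ∑ i, b (D j) i = D m := by
    intro m
    induction m with
    | zero => simp [hD0]
    | succ m ih => rw [prod_range_succ, ← mul_assoc, ih, hDs]
  -- the product attached to a word
  let A : (Fin n → Fin (k + 1)) → ℕ := fun w => ∏ j : Fin n, b (D j) (w j)
  have hApos : ∀ w, 0 < A w := fun w => prod_pos fun j _ => hb1 _ _
  let ex : (Fin n → Fin (k + 1)) → Fin K → ℕ := fun w s =>
    (idx w s + (N - padicValNat l (A w) % N)) % N
  have hexlt : ∀ w s, ex w s < N := fun w s => Nat.mod_lt _ hNpos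
  have hval : ∀ w s, padicValNat l (l ^ ex w s * A w) % N = idx w s := by
    intro w s
    have : Fact l.Prime := ⟨hl⟩
    rw [padicValNat.mul (by positivity) (hApos w).ne', padicValNat.prime_pow]
    have h1 := Nat.mod_lt (padicValNat l (A w)) hNpos
    have h2 : (ex w s + padicValNat l (A w)) % N =
        ((idx w s + (N - padicValNat l (A w) % N)) + padicValNat l (A w) % N) % N := by
      rw [Nat.add_mod, Nat.add_mod (idx w s + (N - padicValNat l (A w) % N))]
      simp only [ex, Nat.mod_mod]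
    rw [h2]
    have h3 : idx w s + (N - padicValNat l (A w) % N) + padicValNat l (A w) % N = idx w s + N := by omega
    rw [h3, Nat.add_mod_right]
    exact Nat.mod_eq_of_lt (hidxlt w s)
  have hdist : ∀ w s w' s', l ^ ex w s * A w = l ^ ex w' s' * A w' → w = w' ∧ s = s' := by
    intro w s w' s' h
    apply hidxinj
    rw [← hval w s, ← hval w' s', h]
  obtain ⟨L, σ, hinf⟩ := hline (fun w s => ((l ^ ex w s * A w : ℕ) : ℤ)) (fun _ _ => c)
    (fun w s => by
      have := hApos w
      positivity)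
    (fun w s w' s' h _ => hdist w s w' s' (by exact_mod_cast h))
    (by
      intro p hp
      have hpp := Nat.prime_iff_prime_int.1 hp
      by_cases hpc : (p : ℤ) ∣ c
      · refine ⟨1, fun w s hd => ?_⟩
        rw [mul_one] at hd
        have h1 : (p : ℤ) ∣ ((l ^ ex w s * A w : ℕ) : ℤ) := (dvd_add_left hpc).1 hd
        push_cast at h1
        rcases hpp.dvd_or_dvd h1 with h2 | h2
        · have h3 := hpp.dvd_of_dvd_pow h2
          have h4 : p = l := (Nat.prime_dvd_prime_iff_eq hp hl).1 (by exact_mod_cast h3)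
          rw [h4] at hpc
          exact hlc' hpc
        · simp only [A] at h2
          push_cast at h2
          obtain ⟨j, _, hj⟩ := (Prime.dvd_finsetProd_iff hpp _).1 h2
          exact hpp.not_isUnit ((hbc (D j) (w j)).isUnit_of_dvd' hj hpc)
      · exact ⟨0, fun w s hd => hpc (by simpa using hd)⟩)
  -- the last moving coordinate
  set J : Finset (Fin n) := univ.filter (fun j => L.idxFun j = none) with hJ
  have hJne : J.Nonempty := by
    obtain ⟨j, hj⟩ := L.proper
    exact ⟨j, by simp [hJ, hj]⟩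
  set m := J.max' hJne with hm
  have hmJ : m ∈ J := J.max'_mem hJne
  have hLm : ∀ i, L i m = i := by
    intro i
    rw [hJ, mem_filter] at hmJ
    exact Combinatorics.Line.apply_none _ _ _ hmJ.2
  have hLgt : ∀ i j, m < j → L i j = L 0 j := by
    intro i j hj
    have h1 : L.idxFun j ≠ none := by
      intro h
      have h2 : j ∈ J := by rw [hJ, mem_filter]; exact ⟨mem_univ _, h⟩
      exact absurd (J.le_max' j h2) (not_le.2 hj)
    obtain ⟨y, hy⟩ := Option.ne_none_iff_exists'.1 h1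
    rw [Combinatorics.Line.apply_some hy, Combinatorics.Line.apply_some hy]
  -- splitting of the product
  let P : Fin (k + 1) → ℕ := fun i => ∏ j ∈ (univ.erase m).filter (· < m), b (D j) (L i j)
  set R : ℕ := ∏ j ∈ (univ.erase m).filter (fun j => ¬ j < m), b (D j) (L 0 j) with hR
  have hA : ∀ i, A (L i) = P i * b (D m) i * R := by
    intro i
    have h1 : A (L i) = b (D m) (L i m) * ∏ j ∈ univ.erase m, b (D j) (L i j) :=
      (Finset.mul_prod_erase univ _ (mem_univ m)).symm
    rw [h1, hLm, ← Finset.prod_filter_mul_prod_filter_not (univ.erase m) (· < m)]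
    have h2 : ∏ j ∈ (univ.erase m).filter (fun j => ¬ j < m), b (D j) (L i j) = R := by
      refine prod_congr rfl fun j hj => ?_
      rw [mem_filter, mem_erase] at hj
      rw [hLgt i j (lt_of_le_of_ne (not_lt.1 hj.2) (Ne.symm hj.1.1))]
    rw [h2]
    simp only [P]
    ring
  have hRpos : 0 < R := prod_pos fun j _ => hb1 _ _
  have hPpos : ∀ i, 0 < P i := fun i => prod_pos fun j _ => hb1 _ _
  have hPle : ∀ i, P i ≤ ∏ j ∈ range (m : ℕ), ∑ i, b (D j) i := by
    intro i
    have hsub : ((univ.erase m).filter (· < m)).map ⟨fun j : Fin n => (j : ℕ), Fin.val_injective⟩ ⊆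
        range (m : ℕ) := by
      intro x hx
      rw [mem_map] at hx
      obtain ⟨j, hj, rfl⟩ := hx
      rw [mem_filter] at hj
      rw [mem_range]
      exact hj.2
    calc P i ≤ ∏ j ∈ (univ.erase m).filter (· < m), ∑ i, b (D j) i :=
          prod_le_prod (fun _ _ => Nat.zero_le _) (fun j _ =>
            single_le_sum (f := fun i => b (D j) i) (fun _ _ => Nat.zero_le _) (mem_univ _))
      _ = ∏ x ∈ ((univ.erase m).filter (· < m)).map ⟨fun j : Fin n => (j : ℕ), Fin.val_injective⟩,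
            ∑ i, b (D x) i := by
          rw [prod_map]; rfl
      _ ≤ _ := by
          apply prod_le_prod_of_subset_of_one_le' hsub
          intro x _ _
          have h1 : b (D x) 0 ≤ ∑ i, b (D x) i :=
            single_le_sum (f := fun i => b (D x) i) (fun _ _ => Nat.zero_le _) (mem_univ _)
          exact (hb1 _ _).trans h1
  have hfa : ∀ i, l ^ ex (L i) (σ i) * A (L i) = (l ^ ex (L i) (σ i) * P i) * b (D m) i * R := by
    intro i
    rw [hA]; ring
  refine hb (D m) (fun i => l ^ ex (L i) (σ i) * P i) ?_ ?_ ?_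
  · intro i
    refine ⟨Nat.mul_pos (pow_pos hl0 _) (hPpos i), ?_⟩
    rw [← hDprod]
    exact Nat.mul_le_mul (Nat.pow_le_pow_right hl0 (hexlt _ _).le) (hPle i)
  · intro i i' h
    simp only at h
    have h1 : l ^ ex (L i) (σ i) * A (L i) = l ^ ex (L i') (σ i') * A (L i') := by
      rw [hfa, hfa, h]
    exact line_inj L (hdist _ _ _ _ h1).1
  · refine hinf.affine R 0 hRpos (fun x => R * x) (fun x _ => by push_cast; ring) ?_
    rintro x hx i
    obtain ⟨h1, h2⟩ := hx i
    refine ⟨(((l ^ ex (L i) (σ i) * A (L i) : ℕ) : ℤ) * (x : ℤ) + c).toNat, ?_, ?_⟩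
    · rw [Nat.prime_iff_prime_int, Int.toNat_of_nonneg h1.le]
      exact h2
    · rw [Int.toNat_of_nonneg h1.le, hfa]
      push_cast
      ring


end Pool.Agent.H732R3.BigQ
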