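import Pool.Agent.H732R3.BigQ

/-!
The coloured Maynard-Tao theorem with at least `x ^ (1 - η)` values up to `x`.
-/

namespace Pool.Agent.H732R3.BigQ

open Finset Filter Pool.Agent.H361R2 Pool.Agent.H362R2.CM

theorem big_univ : Big Set.univ := by
  intro η hη
  apply Eventually.frequently
  filter_upwards [eventually_ge_atTop (1 : ℝ)] with x hx
  have h1 : x ^ (1 - η) ≤ x := by
    calc x ^ (1 - η) ≤ x ^ (1 : ℝ) := Real.rpow_le_rpow_of_exponent_le hx (by linarith)
      _ = x := Real.rpow_one x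
  refine h1.trans ?_
  have h2 : {n : ℕ | n ∈ Set.univ ∧ (n : ℝ) ≤ x} = ((Finset.range (⌊x⌋₊ + 1) : Finset ℕ) : Set ℕ) := by
    ext n
    simp only [Set.mem_univ, true_and, Set.mem_setOf_eq, Finset.coe_range, Set.mem_Iio,
      Nat.lt_succ_iff]
    exact (Nat.le_floor_iff (by linarith)).symm
  rw [h2, Set.ncard_coe_finset, Finset.card_range]
  push_cast
  exact (Nat.lt_floor_add_one x).le

/-- **Coloured Maynard-Tao theorem** (a quarter of the classes), integer forms, many values. -/
theorem quarterB : QuarterB := by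
  intro T
  classical
  rcases Nat.eq_zero_or_pos T with hT | hT
  · subst hT
    refine ⟨1, le_rfl, ?_⟩
    intro a b _ _ _
    refine ⟨∅, fun _ => 0, by simp, ?_⟩
    simpa using big_univ
  set M : ℕ := (T + 3) / 4 - 1 with hM
  obtain ⟨K, hK2, hcore⟩ := Pool.Agent.H732R3.CMQ.core_quant T M (by omega)
  refine ⟨K, by omega, ?_⟩
  intro a b ha hinj hadm
  set e : Fin T × Fin K ≃ Fin (T * K) := finProdFinEquiv with he
  set A : Fin (T * K) → ℕ := fun i => (a (e.symm i).1 (e.symm i).2).toNat with hA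
  set B : Fin (T * K) → ℤ := fun i => b (e.symm i).1 (e.symm i).2 with hB
  have hAz : ∀ i, (A i : ℤ) = a (e.symm i).1 (e.symm i).2 := fun i =>
    Int.toNat_of_nonneg (ha _ _).le
  obtain ⟨N, b', hbz, hb1, hnp, hadm'⟩ := shift_forms A B
    (fun i => by have := ha (e.symm i).1 (e.symm i).2; rw [← hAz] at this; exact_mod_cast this)
    (by
      intro i j hij
      simp only [Prod.mk.injEq] at hij
      have h1 : a (e.symm i).1 (e.symm i).2 = a (e.symm j).1 (e.symm j).2 := by
        rw [← hAz, ← hAz, hij.1]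
      have h2 : (e.symm i) = (e.symm j) := hinj (by
        simp only [Prod.mk.injEq]
        exact ⟨h1, hij.2⟩)
      exact e.symm.injective h2)
    (by
      intro p hp
      obtain ⟨n, hn⟩ := hadm p hp
      refine ⟨n, fun i => ?_⟩
      rw [hAz]
      exact hn _ _)
  set cl : Fin (T * K) → Fin T := fun i => (e.symm i).1 with hcl
  have hcard : ∀ g, (univ.filter (fun i => cl i = g)).card = K := by
    intro g
    have h1 : (univ.filter (fun i => cl i = g)) = univ.image (fun j : Fin K => e (g, j)) := by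
      ext i
      simp only [mem_filter, mem_univ, true_and, mem_image]
      constructor
      · intro h
        refine ⟨(e.symm i).2, ?_⟩
        rw [Equiv.apply_eq_iff_eq_symm_apply]
        exact Prod.ext h.symm rfl
      · rintro ⟨j, rfl⟩
        simp [hcl]
    rw [h1, Finset.card_image_of_injective _ (by
      intro j j' h
      have := e.injective h
      simpa using this)]
    simp
  have hmain := hcore A b' cl hcard
    (fun i => by
      have := ha (e.symm i).1 (e.symm i).2; rw [← hAz] at this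
      exact_mod_cast this) hb1 hnp hadm'
  -- the set of classes and representatives
  set P : ℕ → Finset (Fin T) := fun n => univ.filter (fun g : Fin T => ∃ i, cl i = g ∧
    (A i * n + b' i).Prime) with hP
  have hG : ∀ η : ℝ, 0 < η → ∀ᶠ x : ℝ in atTop,
      x ^ (1 - η) ≤ ({n : ℕ | n ∈ {n : ℕ | M + 1 ≤ (P n).card} ∧ (n : ℝ) ≤ x}.ncard : ℝ) := by
    intro η hη
    filter_upwards [hmain η hη, eventually_ge_atTop (0 : ℝ)] with x hx hx0
    refine hx.trans ?_
    rw [← Set.ncard_coe_finset]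
    have hsub : (((Icc 1 ⌊x⌋₊).filter (fun n : ℕ => M + 1 ≤ (univ.filter (fun g : Fin T =>
        ∃ i, cl i = g ∧ (A i * n + b' i).Prime)).card) : Finset ℕ) : Set ℕ) ⊆
        {n : ℕ | n ∈ {n : ℕ | M + 1 ≤ (P n).card} ∧ (n : ℝ) ≤ x} := by
      intro n hn
      rw [Finset.mem_coe, Finset.mem_filter, Finset.mem_Icc] at hn
      exact ⟨hn.2, (Nat.cast_le.2 hn.1.2).trans (Nat.floor_le hx0)⟩
    exact_mod_cast Set.ncard_le_ncard hsub (fin_le _ x)
  have hK0 : 0 < K := by omega
  have hch : ∀ n, ∃ c : Fin T → Fin K, ∀ g ∈ P n, (A (e (g, c g)) * n + b' (e (g, c g))).Prime := by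
    intro n
    have h1 : ∀ g : Fin T, ∃ j : Fin K, g ∈ P n → (A (e (g, j)) * n + b' (e (g, j))).Prime := by
      intro g
      by_cases hg : g ∈ P n
      · obtain ⟨i, hi1, hi2⟩ := (mem_filter.1 hg).2
        refine ⟨(e.symm i).2, fun _ => ?_⟩
        have h2 : e (g, (e.symm i).2) = i := by
          rw [Equiv.apply_eq_iff_eq_symm_apply]
          exact Prod.ext hi1.symm rfl
        rw [h2]; exact hi2
      · exact ⟨⟨0, hK0⟩, fun h => absurd h hg⟩
    choose c hc using h1
    exact ⟨c, fun g hg => hc g hg⟩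
  choose cf hcf using hch
  have hcover : {n : ℕ | M + 1 ≤ (P n).card} ⊆
      ⋃ x : Finset (Fin T) × (Fin T → Fin K), {n : ℕ | M + 1 ≤ x.1.card ∧ P n = x.1 ∧ cf n = x.2} := by
    intro n hn
    exact Set.mem_iUnion.2 ⟨(P n, cf n), hn, rfl, rfl⟩
  obtain ⟨⟨S, c⟩, hS⟩ := big_of_cover _ _ hG hcover
  have hSc : M + 1 ≤ S.card := by
    obtain ⟨n, hn⟩ := hS.infinite.nonempty
    exact hn.1
  refine ⟨S, c, by omega, ?_⟩
  refine hS.affine 1 N le_rfl (fun n => n + N) (fun n _ => by push_cast; ring) ?_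
  rintro n ⟨_, h2, h3⟩
  intro g hg
  have h4 := hcf n g (by rw [h2]; exact hg)
  rw [h3] at h4
  have e1 : (a g (c g) * ((n + N : ℕ) : ℤ) + b g (c g)) =
      ((A (e (g, c g)) * n + b' (e (g, c g)) : ℕ) : ℤ) := by
    push_cast
    rw [hbz, hAz]
    simp only [hB, Equiv.symm_apply_apply]
    ring
  rw [e1]
  exact ⟨by exact_mod_cast h4.pos, Nat.prime_iff_prime_int.1 h4⟩


end Pool.Agent.H732R3.BigQ
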