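import Pool.Agent.H602R3.TupClusters
import Pool.Agent.Helper903.DHJ

/-!
Good tuples of shifts near every vector: the coloured Maynard-Tao theorem combined with the density
Hales-Jewett theorem.
-/

namespace Pool.Agent.H732R3.Tup

open Finset Pool.Agent.H461R2.PD Pool.Agent.H602R3.Tup

/-- the density Hales-Jewett theorem with cardinalities and density one quarter -/
theorem dhj_quarter (k : ℕ) : ∃ n : ℕ, ∀ A : Finset (Fin n → Fin (k + 1)),
    (k + 1) ^ n ≤ 4 * A.card → ∃ L : Combinatorics.Line (Fin (k + 1)) (Fin n), ∀ i, L i ∈ A := by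
  classical
  obtain ⟨n, hn⟩ := Pool.Agent.Helper903.DHJ.ldhj (Fin (k + 1)) (1 / 4) (by norm_num)
  refine ⟨n, fun A hA => ?_⟩
  obtain ⟨L, hL⟩ := hn (A : Set (Fin n → Fin (k + 1))) (by
    have h1 : Pool.Agent.Helper903.DHJ.dens (A : Set (Fin n → Fin (k + 1))) =
        (A.card : ℝ) / ((k : ℝ) + 1) ^ n := by
      unfold Pool.Agent.Helper903.DHJ.dens Pool.Agent.Helper903.DHJ.avg
      congr 1
      · unfold Pool.Agent.Helper903.DHJ.ind
        simp [Set.indicator_apply, Finset.sum_ite_mem]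
      · simp
    rw [h1, div_le_div_iff₀ (by norm_num) (by positivity)]
    have h2 : (((k + 1) ^ n : ℕ) : ℝ) ≤ ((4 * A.card : ℕ) : ℝ) := by exact_mod_cast hA
    push_cast at h2
    linarith)
  exact ⟨L, fun i => by exact_mod_cast hL i⟩

/-- sums over the moving coordinates are bounded distance away from a good tuple -/
theorem ipstar (hQ : Quarter) (k : ℕ) : ∃ n C : ℕ, ∀ (q : ℕ) (r : ℤ), 1 ≤ q →
    IsCoprime r (q : ℤ) → ∀ v : Fin n → Fin k → ℤ, ∃ J : Finset (Fin n), J.Nonempty ∧
    ∃ a : Fin k → ℤ, Function.Injective a ∧ (∀ i, a i ≠ 0) ∧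
      (∀ i, |a i - ∑ j ∈ J, v j i| ≤ C) ∧ Good q r a := by
  classical
  obtain ⟨n, hn⟩ := dhj_quarter k
  obtain ⟨Q, hQ1, hcl⟩ := clusters hQ ((k + 1) ^ n)
  refine ⟨n, 2 * Q, fun q r hq hqr v => ?_⟩
  have hQ0 : (0 : ℤ) < Q := by exact_mod_cast hQ1
  set e : (Fin n → Fin (k + 1)) ≃ Fin ((k + 1) ^ n) := finFunctionFinEquiv with he
  set V : Fin n → Fin (k + 1) → ℤ := fun j => Fin.cons 0 (v j) with hV
  set s : (Fin n → Fin (k + 1)) → ℤ := fun w => ∑ j, V j (w j) with hs
  obtain ⟨S, h, hS, hinj, hpos, hinf⟩ := hcl q r hq hqr (fun g => s (e.symm g) / Q)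
  obtain ⟨L, hL⟩ := hn (S.map e.symm.toEmbedding) (by rw [card_map]; exact hS)
  have hLS : ∀ i, e (L i) ∈ S := by
    intro i
    have := hL i
    rw [mem_map] at this
    obtain ⟨g, hg, hgi⟩ := this
    have h2 : e (L i) = g := by
      rw [← hgi]
      simp
    rw [h2]; exact hg
  have hclose : ∀ w, |h (e w) - s w| ≤ Q := by
    intro w
    have h1 := hpos (e w)
    rw [Equiv.symm_apply_apply] at h1
    have h2 := Int.emod_add_mul_ediv (s w) Q
    have h3 := Int.emod_nonneg (s w) hQ0.ne'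
    have h4 := Int.emod_lt_of_pos (s w) hQ0
    rw [abs_le]
    constructor <;> linarith [h1.1, h1.2]
  set J : Finset (Fin n) := univ.filter (fun j => L.idxFun j = none) with hJ
  have hJne : J.Nonempty := by
    obtain ⟨j, hj⟩ := L.proper
    exact ⟨j, by simp [hJ, hj]⟩
  have hdiff : ∀ i : Fin k, s (L i.succ) - s (L 0) = ∑ j ∈ J, v j i := by
    intro i
    rw [hs]
    simp only
    rw [← sum_sub_distrib, hJ, sum_filter]
    refine sum_congr rfl fun j _ => ?_
    by_cases hj : L.idxFun j = none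
    · rw [if_pos hj, Combinatorics.Line.apply_none _ _ _ hj, Combinatorics.Line.apply_none _ _ _ hj]
      simp [hV]
    · rw [if_neg hj]
      obtain ⟨y, hy⟩ := Option.ne_none_iff_exists'.1 hj
      rw [Combinatorics.Line.apply_some hy, Combinatorics.Line.apply_some hy, sub_self]
  have hLinj : Function.Injective (fun i => L i) := by
    intro i i' hii
    obtain ⟨j, hj⟩ := L.proper
    have := congrFun hii j
    simp only at this
    rw [Combinatorics.Line.apply_none _ _ _ hj, Combinatorics.Line.apply_none _ _ _ hj] at this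
    exact this
  refine ⟨J, hJne, fun i => h (e (L i.succ)) - h (e (L 0)), ?_, ?_, ?_, ?_⟩
  · intro i i' hii
    simp only [sub_left_inj] at hii
    exact Fin.succ_injective _ (hLinj (e.injective (hinj hii)))
  · intro i
    rw [sub_ne_zero]
    intro hh
    exact Fin.succ_ne_zero i (hLinj (e.injective (hinj hh)))
  · intro i
    have h1 := hclose (L i.succ)
    have h2 := hclose (L 0)
    have h3 := hdiff i
    rw [abs_le] at h1 h2 ⊢
    push_cast
    constructor <;> linarith [h1.1, h1.2, h2.1, h2.2]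
  · exact good_of_mem hq hinf (e (L 0)) (hLS 0) (fun i => e (L i.succ)) (fun i => hLS _)

/-- every vector is at a bounded distance from a good tuple -/
theorem syndetic (hQ : Quarter) (k : ℕ) (q : ℕ) (r : ℤ) (hq : 1 ≤ q) (hqr : IsCoprime r (q : ℤ)) :
    ∃ C : ℕ, ∀ v : Fin k → ℤ, ∃ a : Fin k → ℤ, Function.Injective a ∧ (∀ i, a i ≠ 0) ∧
      (∀ i, |a i - v i| ≤ C) ∧ Good q r a := by
  classical
  obtain ⟨n, C, hnC⟩ := ipstar hQ k
  by_contra hcon
  push Not at hcon
  -- vectors far from every good tuple, of rapidly increasing isolation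
  choose w hw using hcon
  -- size of a vector
  let sz : (Fin k → ℤ) → ℕ := fun x => ∑ i, (x i).natAbs
  have hsz : ∀ (x : Fin k → ℤ) i, |x i| ≤ sz x := by
    intro x i
    have h1 : (x i).natAbs ≤ sz x := Finset.single_le_sum (f := fun i => (x i).natAbs)
      (fun _ _ => Nat.zero_le _) (mem_univ i)
    rw [Int.abs_eq_natAbs]
    exact_mod_cast h1
  -- D m is the isolation of the m-th vector
  obtain ⟨D, hD0, hDs⟩ : ∃ D : ℕ → ℕ, D 0 = C ∧ ∀ m, D (m + 1) = D m + sz (w (D m)) :=
    ⟨fun m => Nat.rec C (fun _ d => d + sz (w d)) m, rfl, fun _ => rfl⟩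
  have hsum : ∀ m, C + ∑ j ∈ range m, sz (w (D j)) ≤ D m := by
    intro m
    induction m with
    | zero => simp [hD0]
    | succ m ih => rw [sum_range_succ, hDs]; omega
  obtain ⟨J, hJ, a, hinj, hne, hcl, hg⟩ := hnC q r hq hqr (fun j => w (D j))
  set m := J.max' hJ with hm
  refine hw (D m) a hinj hne ?_ hg
  intro i
  have hmJ : m ∈ J := J.max'_mem hJ
  have h1 := hcl i
  rw [← Finset.add_sum_erase J _ hmJ] at h1
  have h2 : |∑ j ∈ J.erase m, w (D j) i| ≤ ∑ j ∈ range (m : ℕ), (sz (w (D j)) : ℤ) := by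
    refine (Finset.abs_sum_le_sum_abs _ _).trans ?_
    calc ∑ j ∈ J.erase m, |w (D j) i| ≤ ∑ j ∈ J.erase m, (sz (w (D j)) : ℤ) :=
          sum_le_sum (fun j _ => hsz _ i)
      _ = ∑ j ∈ (J.erase m).map ⟨fun j : Fin n => (j : ℕ), Fin.val_injective⟩, (sz (w (D j)) : ℤ) := by
          rw [sum_map]; rfl
      _ ≤ _ := by
          apply sum_le_sum_of_subset_of_nonneg
          · intro x hx
            rw [mem_map] at hx
            obtain ⟨j, hj, rfl⟩ := hx
            rw [mem_erase] at hj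
            rw [mem_range]
            have h3 : j < m := lt_of_le_of_ne (J.le_max' j hj.2) hj.1
            exact h3
          · intro x _ _; positivity
  have h4 : (C : ℤ) + ∑ j ∈ range (m : ℕ), (sz (w (D j)) : ℤ) ≤ ((D (m : ℕ) : ℕ) : ℤ) := by
    have h5 := hsum (m : ℕ)
    exact_mod_cast h5
  rw [abs_le] at h1 h2 ⊢
  constructor <;> linarith [h1.1, h1.2, h2.1, h2.2]

end Pool.Agent.H732R3.Tup
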