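import Mathlib
import Pool.Agent.H361R2.T1
import Pool.Agent.H361R2.GMain

/-! Windowed Maynard-Tao theorem, part 1: two-sided sieve sums over arithmetic progressions
(adapted from `Pool.Agent.H361R2.T1`). -/

namespace Pool.Agent.H732R3.Win

open Finset Pool.Agent.H410R2 Pool.Agent.H361R2

open Classical in
/-- two-sided form of the sieve sum over an arithmetic progression -/
theorem s1Two (ι J : Type) [Fintype ι] [Fintype J]
    (pr : ι → ℕ) (L : J → ℕ → ℕ) (m v : ℕ) (hm : 1 ≤ m) (hS : SieveData ι J pr L m)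
    (c : (ι → Option J) → ℝ) : ∃ GG : ℝ,
      GG ≤ ∑ σ, c σ ^ 2 * mulc pr (fun p => (p : ℝ)) σ ∧ ∀ x : ℝ, 1 ≤ x →
    |∑ n ∈ (Icc 1 ⌊x⌋₊).filter (fun n => n ≡ v [MOD m]),
        Real.log (x / n) * (∑ σ, c σ * hN L pr σ n) ^ 2 - x / m * GG| ≤
        (Real.log x + 1) * (∑ σ, |c σ| * mulc pr (fun p => (p : ℝ) + 1) σ) ^ 2 := by
  refine ⟨∑ σ : ι → Option J, ∑ τ : ι → Option J, c σ * c τ * ∏ t, G1 (pr t) (σ t) (τ t), ?_, ?_⟩
  rotate_left
  intro x hx
  have hlog : 0 ≤ Real.log x := Real.log_nonneg hx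
  -- expand the square
  have hexp : ∀ n, (∑ σ, c σ * hN L pr σ n) ^ 2 = ∑ σ, ∑ τ, c σ * c τ *
      ∏ t, (∑ o, cc (pr t) (σ t) (τ t) o * ind L (pr t) n o) := by
    intro n
    rw [sq, Finset.sum_mul_sum]
    apply Finset.sum_congr rfl; intro σ _
    apply Finset.sum_congr rfl; intro τ _
    have : hN L pr σ n * hN L pr τ n =
        ∏ t, (∑ o, cc (pr t) (σ t) (τ t) o * ind L (pr t) n o) := by
      unfold hN
      rw [← Finset.prod_mul_distrib]
      apply Finset.prod_congr rfl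
      intro t _
      exact hl_mul (hS.excl t · · n) _ _
    rw [← this]; ring
  have hswap : ∑ n ∈ (Icc 1 ⌊x⌋₊).filter (fun n => n ≡ v [MOD m]),
        Real.log (x / n) * (∑ σ, c σ * hN L pr σ n) ^ 2 =
      ∑ σ : ι → Option J, ∑ τ : ι → Option J, c σ * c τ *
        ∑ n ∈ (Icc 1 ⌊x⌋₊).filter (fun n => n ≡ v [MOD m]), Real.log (x / n) *
          ∏ t, (∑ o, cc (pr t) (σ t) (τ t) o * ind L (pr t) n o) := by
    simp only [hexp, Finset.mul_sum]
    rw [Finset.sum_comm]
    apply Finset.sum_congr rfl; intro σ _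
    rw [Finset.sum_comm]
    apply Finset.sum_congr rfl; intro τ _
    apply Finset.sum_congr rfl; intro n _
    ring
  have hterm : ∀ σ τ : ι → Option J, |c σ * c τ *
        ∑ n ∈ (Icc 1 ⌊x⌋₊).filter (fun n => n ≡ v [MOD m]), Real.log (x / n) *
          ∏ t, (∑ o, cc (pr t) (σ t) (τ t) o * ind L (pr t) n o) -
      x / m * (c σ * c τ * ∏ t, G1 (pr t) (σ t) (τ t))| ≤ (Real.log x + 1) *
        ((|c σ| * mulc pr (fun p => (p : ℝ) + 1) σ) * (|c τ| * mulc pr (fun p => (p : ℝ) + 1) τ)) := by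
    intro σ τ
    have h1 := local_expand v hm hS hx (fun t o => cc (pr t) (σ t) (τ t) o)
    have h2 : ∏ t, (∑ o, |cc (pr t) (σ t) (τ t) o|) ≤ mulc pr (fun p => (p : ℝ) + 1) σ *
        mulc pr (fun p => (p : ℝ) + 1) τ := by
      unfold mulc
      rw [← Finset.prod_mul_distrib]
      apply Finset.prod_le_prod
      · intro t _
        exact Finset.sum_nonneg fun o _ => abs_nonneg _
      · intro t _
        refine (cc_abs (hS.prime t).two_le _ _).trans (le_of_eq ?_)
        rcases σ t with _ | j <;> rcases τ t with _ | l <;> simp [w1]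
    have h3 : ∏ t, (∑ o, cc (pr t) (σ t) (τ t) o * dn (pr t) o) = ∏ t, G1 (pr t) (σ t) (τ t) :=
      Finset.prod_congr rfl fun t _ => cc_dn (hS.prime t).pos _ _
    rw [h3] at h1
    set S := ∑ n ∈ (Icc 1 ⌊x⌋₊).filter (fun n => n ≡ v [MOD m]), Real.log (x / n) *
          ∏ t, (∑ o, cc (pr t) (σ t) (τ t) o * ind L (pr t) n o) with hSdef
    set P := ∏ t, G1 (pr t) (σ t) (τ t) with hP
    have h4 : |S - x / m * P| ≤ (Real.log x + 1) * (mulc pr (fun p => (p : ℝ) + 1) σ *
        mulc pr (fun p => (p : ℝ) + 1) τ) :=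
      h1.trans (mul_le_mul_of_nonneg_left h2 (by linarith))
    have h5 : c σ * c τ * S - x / m * (c σ * c τ * P) = c σ * c τ * (S - x / m * P) := by ring
    rw [h5, abs_mul, abs_mul]
    calc |c σ| * |c τ| * |S - x / m * P| ≤ |c σ| * |c τ| * ((Real.log x + 1) *
        (mulc pr (fun p => (p : ℝ) + 1) σ * mulc pr (fun p => (p : ℝ) + 1) τ)) :=
      mul_le_mul_of_nonneg_left h4 (by positivity)
      _ = _ := by ring
  rw [hswap, Finset.mul_sum, ← Finset.sum_sub_distrib]
  refine (Finset.abs_sum_le_sum_abs _ _).trans ?_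
  have hin : ∀ σ : ι → Option J, |∑ τ : ι → Option J, c σ * c τ *
        ∑ n ∈ (Icc 1 ⌊x⌋₊).filter (fun n => n ≡ v [MOD m]), Real.log (x / n) *
          ∏ t, (∑ o, cc (pr t) (σ t) (τ t) o * ind L (pr t) n o) -
      x / m * ∑ τ : ι → Option J, c σ * c τ * ∏ t, G1 (pr t) (σ t) (τ t)| ≤
      ∑ τ : ι → Option J, (Real.log x + 1) *
        ((|c σ| * mulc pr (fun p => (p : ℝ) + 1) σ) * (|c τ| * mulc pr (fun p => (p : ℝ) + 1) τ)) := by
    intro σ
    rw [Finset.mul_sum, ← Finset.sum_sub_distrib]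
    exact (Finset.abs_sum_le_sum_abs _ _).trans (Finset.sum_le_sum fun τ _ => hterm σ τ)
  refine (Finset.sum_le_sum fun σ _ => hin σ).trans (le_of_eq ?_)
  rw [sq, Finset.sum_mul_sum, Finset.mul_sum]
  apply Finset.sum_congr rfl; intro σ _
  rw [Finset.mul_sum]
  -- the quadratic form
  have hgram : IsGram (fun σ τ : ι → Option J =>
      ∏ t, (if σ t = τ t then D1 (pr t) (σ t) else 0) - ∏ t, G1 (pr t) (σ t) (τ t)) :=
    IsGram.prod_sub univ (G := fun (t : ι) (σ τ : ι → Option J) => G1 (pr t) (σ t) (τ t))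
      (D := fun (t : ι) (σ τ : ι → Option J) => if σ t = τ t then D1 (pr t) (σ t) else 0)
      (fun t _ => (isGram_G1 hS t).pull (fun σ : ι → Option J => σ t))
      (fun t _ => (isGram_D1_sub (pr t)).pull (fun σ : ι → Option J => σ t))
  have hnn := hgram.nonneg c
  have hsplit : ∑ σ : ι → Option J, ∑ τ : ι → Option J, c σ * c τ *
      (∏ t, (if σ t = τ t then D1 (pr t) (σ t) else 0) - ∏ t, G1 (pr t) (σ t) (τ t)) =
      ∑ σ, c σ ^ 2 * mulc pr (fun p => (p : ℝ)) σ -
      ∑ σ : ι → Option J, ∑ τ : ι → Option J, c σ * c τ * ∏ t, G1 (pr t) (σ t) (τ t) := by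
    rw [← Finset.sum_sub_distrib]
    apply Finset.sum_congr rfl; intro σ _
    simp only [mul_sub, Finset.sum_sub_distrib]
    congr 1
    rw [Finset.sum_eq_single σ]
    · have : ∏ t, (if σ t = σ t then D1 (pr t) (σ t) else 0) = mulc pr (fun p => (p : ℝ)) σ := by
        unfold mulc
        apply Finset.prod_congr rfl
        intro t _
        rcases σ t with _ | j <;> simp [D1]
      rw [this]; ring
    · intro τ _ hτ
      have : ∃ t, σ t ≠ τ t := by
        by_contra hc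
        push Not at hc
        exact hτ (funext fun t => (hc t).symm)
      obtain ⟨t, ht⟩ := this
      rw [Finset.prod_eq_zero (mem_univ t) (by rw [if_neg ht]), mul_zero]
    · intro h; exact absurd (mem_univ σ) h
  rw [hsplit] at hnn
  exact sub_nonneg.1 hnn

end Pool.Agent.H732R3.Win
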