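import Mathlib
import Pool.Agent.H732R3.W1

/-! Windowed Maynard-Tao theorem, part 2: upper bound for the total mass of a window
(adapted from `Pool.Agent.H410R2.MSieve1` and `Pool.Agent.H361R2.GFin2`). -/

namespace Pool.Agent.H732R3.Win

open Finset Filter Topology
open Pool.Agent.H410R2 hiding GP GP_prof GP_cut_some GP_cut_none GP_lip gg_pos gg_le_one gg_anti ee_bound ee_nonneg gg_lip LB_gg LB_ee Sums exists_sums yx wx wxi Br sum_GP_none sum_GP_some sum_GP_some_ee sum_GP_some_one sum_GPr_none sum_GPr_some S1_final QI_final S2_final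
open Pool.Agent.H361R2 Pool.Agent.H361R2.GM

/-- log-weighted sum over an arithmetic progression -/
noncomputable def SW (m v : ℕ) (F : ℕ → ℝ) (y : ℝ) : ℝ :=
  ∑ n ∈ (Icc 1 ⌊y⌋₊).filter (fun n => n ≡ v [MOD m]), Real.log (y / n) * F n

/-- windowed sum -/
noncomputable def SWin (m v : ℕ) (F : ℕ → ℝ) (ρ x : ℝ) : ℝ :=
  SW m v F x - 2 * SW m v F (ρ * x) + SW m v F (ρ ^ 2 * x)

section sv
variable {ι J : Type} [Fintype ι] [DecidableEq ι] [Fintype J] [DecidableEq J]

theorem s1Two_use (pr : ι → ℕ) (L : J → ℕ → ℕ) (m v : ℕ) (hm : 1 ≤ m)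
    (hS : SieveData ι J pr L m) (c : (ι → Option J) → ℝ) : ∃ GG : ℝ,
      GG ≤ ∑ σ, c σ ^ 2 * mulc pr (fun p => (p : ℝ)) σ ∧ ∀ x : ℝ, 1 ≤ x →
    |SW m v (fun n => (∑ σ, c σ * hN L pr σ n) ^ 2) x - x / m * GG| ≤
        (Real.log x + 1) * (∑ σ, |c σ| * mulc pr (fun p => (p : ℝ) + 1) σ) ^ 2 := by
  rename_i i1 i2 i3 i4
  have h1 : i2 = (fun a b => Classical.propDecidable (a = b)) := Subsingleton.elim _ _
  have h2 : i4 = (fun a b => Classical.propDecidable (a = b)) := Subsingleton.elim _ _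
  subst h1 h2
  exact s1Two ι J pr L m v hm hS c

theorem s1Win (pr : ι → ℕ) (L : J → ℕ → ℕ) (m v : ℕ) (hm : 1 ≤ m)
    (hS : SieveData ι J pr L m) (c : (ι → Option J) → ℝ) (ρ x : ℝ) (hρ : 0 < ρ) (hρ1 : ρ < 1)
    (hx : 1 ≤ ρ ^ 2 * x) :
    SWin m v (fun n => (∑ σ, c σ * hN L pr σ n) ^ 2) ρ x ≤
      (1 - ρ) ^ 2 * (x / m) * (∑ σ, c σ ^ 2 * mulc pr (fun p => (p : ℝ)) σ) +
        4 * (Real.log x + 1) * (∑ σ, |c σ| * mulc pr (fun p => (p : ℝ) + 1) σ) ^ 2 := by
  obtain ⟨GG, hG1, hG2⟩ := s1Two_use pr L m v hm hS c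
  have hx0 : 0 < x := by
    by_contra h
    have : ρ ^ 2 * x ≤ 0 := mul_nonpos_of_nonneg_of_nonpos (sq_nonneg _) (not_lt.1 h)
    linarith
  have h1 : ρ ^ 2 * x ≤ ρ * x := by
    apply mul_le_mul_of_nonneg_right _ hx0.le
    nlinarith
  have h2 : ρ * x ≤ x := by nlinarith
  have e1 := abs_le.1 (hG2 x (by linarith))
  have e2 := abs_le.1 (hG2 (ρ * x) (by linarith))
  have e3 := abs_le.1 (hG2 (ρ ^ 2 * x) hx)
  have l2 : Real.log (ρ * x) ≤ Real.log x := Real.log_le_log (by positivity) h2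
  have l3 : Real.log (ρ ^ 2 * x) ≤ Real.log x := Real.log_le_log (by positivity) (by linarith)
  set E := (∑ σ, |c σ| * mulc pr (fun p => (p : ℝ) + 1) σ) ^ 2 with hE
  have hE0 : 0 ≤ E := sq_nonneg _
  have m2 : (Real.log (ρ * x) + 1) * E ≤ (Real.log x + 1) * E := by gcongr
  have m3 : (Real.log (ρ ^ 2 * x) + 1) * E ≤ (Real.log x + 1) * E := by gcongr
  have hm0 : 0 ≤ (1 - ρ) ^ 2 * (x / m) := by positivity
  have m1 := mul_le_mul_of_nonneg_left hG1 hm0
  have k1 : x / m * GG - 2 * (ρ * x / m * GG) + ρ ^ 2 * x / m * GG = (1 - ρ) ^ 2 * (x / m) * GG := by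
    ring
  unfold SWin
  linarith [e1.2, e2.1, e3.2]

/-- upper bound for the sieve sum with weights dominated by a product -/
theorem S1gen (pr : ι → ℕ) (L : J → ℕ → ℕ) (m : ℕ)
    (hs : SieveData ι J pr L m) (y : (ι → Option J) → ℝ) (GG : J → Finset ι → ℝ)
    (Λ R' : ℝ) (hΛ : 0 ≤ Λ) (hGG0 : ∀ j a, 0 ≤ GG j a) (hGG1 : ∀ j a, GG j a ≤ 1)
    (hy : ∀ σ, |y σ| ≤ Λ * ∏ j, GG j (fib σ j))
    (hR : ∀ σ, y σ ≠ 0 → lgt pr σ ≤ R') (X Y S : ℝ) (hX : 0 ≤ X) (hY : 0 ≤ Y)
    (hSle : S ≤ X * ∑ σ, cw pr y σ ^ 2 * mulc pr (fun p => (p : ℝ)) σ +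
        Y * (∑ σ, |cw pr y σ| * mulc pr (fun p => (p : ℝ) + 1) σ) ^ 2) :
    S ≤
      Λ ^ 2 * (X * ∏ j, ∑ a : Finset ι, (∏ t ∈ a, (pr t : ℝ) / ((pr t : ℝ) - 1) ^ 2) * GG j a ^ 2 +
        Y *
          (Real.exp R' * ∏ t, (1 + 3 * (Fintype.card J : ℝ) / (pr t : ℝ))) ^ 2) := by
  have hp : ∀ t, 2 ≤ pr t := fun t => (hs.prime t).two_le
  have hp1 : ∀ t, (0 : ℝ) < (pr t : ℝ) - 1 := by
    intro t
    have : (2 : ℝ) ≤ pr t := by exact_mod_cast hp t
    linarith
  have hp0 : ∀ t, (0 : ℝ) < (pr t : ℝ) := fun t => by have := hp1 t; linarith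
  refine le_trans hSle ?_
  -- first term
  have h1 : ∑ σ, cw pr y σ ^ 2 * mulc pr (fun p => (p : ℝ)) σ ≤
      Λ ^ 2 * ∏ j, ∑ a : Finset ι, (∏ t ∈ a, (pr t : ℝ) / ((pr t : ℝ) - 1) ^ 2) * GG j a ^ 2 := by
    calc ∑ σ, cw pr y σ ^ 2 * mulc pr (fun p => (p : ℝ)) σ
        ≤ ∑ σ : ι → Option J, Λ ^ 2 * ∏ j, ((∏ t ∈ fib σ j, (pr t : ℝ) / ((pr t : ℝ) - 1) ^ 2) *
            GG j (fib σ j) ^ 2) := by
          apply Finset.sum_le_sum
          intro σ _
          rw [Finset.prod_mul_distrib, ← sq_abs (cw pr y σ), abs_cw pr hp, mul_pow]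
          have e1 : (mulc pr (fun p => 1 / ((p : ℝ) - 1)) σ) ^ 2 * mulc pr (fun p => (p : ℝ)) σ =
              ∏ j, ∏ t ∈ fib σ j, (pr t : ℝ) / ((pr t : ℝ) - 1) ^ 2 := by
            rw [prod_color (fun t => (pr t : ℝ) / ((pr t : ℝ) - 1) ^ 2)]
            unfold mulc
            rw [← Finset.prod_pow, ← Finset.prod_mul_distrib]
            refine Finset.prod_congr rfl fun t _ => ?_
            by_cases h : σ t = none
            · simp [h]
            · simp only [h, if_false]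
              have := (hp1 t).ne'
              field_simp
          have e2 : |y σ| ^ 2 ≤ Λ ^ 2 * ∏ j, GG j (fib σ j) ^ 2 := by
            rw [Finset.prod_pow, ← mul_pow]
            exact pow_le_pow_left₀ (abs_nonneg _) (hy σ) 2
          have e3 : 0 ≤ ∏ j, ∏ t ∈ fib σ j, (pr t : ℝ) / ((pr t : ℝ) - 1) ^ 2 :=
            Finset.prod_nonneg fun j _ => Finset.prod_nonneg fun t _ => by
              have := hp1 t
              have := hp0 t
              positivity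
          calc _ = ((mulc pr (fun p => 1 / ((p : ℝ) - 1)) σ) ^ 2 *
                mulc pr (fun p => (p : ℝ)) σ) * |y σ| ^ 2 := by ring
            _ ≤ (∏ j, ∏ t ∈ fib σ j, (pr t : ℝ) / ((pr t : ℝ) - 1) ^ 2) *
                (Λ ^ 2 * ∏ j, GG j (fib σ j) ^ 2) := by
                rw [e1]
                exact mul_le_mul_of_nonneg_left e2 e3
            _ = _ := by ring
      _ = Λ ^ 2 * ∑ σ : ι → Option J, ∏ j, ((∏ t ∈ fib σ j, (pr t : ℝ) / ((pr t : ℝ) - 1) ^ 2) *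
            GG j (fib σ j) ^ 2) := by rw [Finset.mul_sum]
      _ ≤ _ := by
          apply mul_le_mul_of_nonneg_left _ (sq_nonneg _)
          apply sum_tuple_le (fun j a => (∏ t ∈ a, (pr t : ℝ) / ((pr t : ℝ) - 1) ^ 2) * GG j a ^ 2)
          intro j a
          apply mul_nonneg _ (sq_nonneg _)
          exact Finset.prod_nonneg fun t _ => by
              have := hp1 t
              have := hp0 t
              positivity
  have h2 : ∑ σ, |cw pr y σ| * mulc pr (fun p => (p : ℝ) + 1) σ ≤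
      Λ * (Real.exp R' * ∏ t, (1 + 3 * (Fintype.card J : ℝ) / (pr t : ℝ))) := by
    calc ∑ σ, |cw pr y σ| * mulc pr (fun p => (p : ℝ) + 1) σ
        ≤ ∑ σ : ι → Option J, (if lgt pr σ ≤ R' then
            Λ * mulc pr (fun p => ((p : ℝ) + 1) / ((p : ℝ) - 1)) σ else 0) := by
          apply Finset.sum_le_sum
          intro σ _
          rw [abs_cw pr hp]
          have e1 : mulc pr (fun p => 1 / ((p : ℝ) - 1)) σ * mulc pr (fun p => (p : ℝ) + 1) σ =
              mulc pr (fun p => ((p : ℝ) + 1) / ((p : ℝ) - 1)) σ := by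
            unfold mulc
            rw [← Finset.prod_mul_distrib]
            refine Finset.prod_congr rfl fun t _ => ?_
            by_cases h : σ t = none
            · simp [h]
            · simp only [h, if_false]
              ring
          have e0 : 0 ≤ mulc pr (fun p => ((p : ℝ) + 1) / ((p : ℝ) - 1)) σ := by
            unfold mulc
            apply Finset.prod_nonneg
            intro t _
            split_ifs
            · norm_num
            · have := hp1 t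
              have := hp0 t
              positivity
          by_cases hy0 : y σ = 0
          · rw [hy0]
            simp only [abs_zero, mul_zero, zero_mul]
            split_ifs
            · positivity
            · exact le_rfl
          · rw [if_pos (hR σ hy0)]
            have e2 : |y σ| ≤ Λ := by
              refine le_trans (hy σ) ?_
              have : ∏ j, GG j (fib σ j) ≤ 1 :=
                Finset.prod_le_one (fun j _ => hGG0 j _) (fun j _ => hGG1 j _)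
              nlinarith
            calc _ = |y σ| * (mulc pr (fun p => 1 / ((p : ℝ) - 1)) σ *
                  mulc pr (fun p => (p : ℝ) + 1) σ) := by ring
              _ ≤ _ := by
                rw [e1]
                exact mul_le_mul_of_nonneg_right e2 e0
      _ = Λ * ∑ σ ∈ univ.filter (fun σ : ι → Option J => lgt pr σ ≤ R'),
          mulc pr (fun p => ((p : ℝ) + 1) / ((p : ℝ) - 1)) σ := by
          rw [Finset.mul_sum, Finset.sum_filter]
      _ ≤ _ := mul_le_mul_of_nonneg_left (rankin pr hp R') hΛ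
  have h3 : 0 ≤ ∑ σ, |cw pr y σ| * mulc pr (fun p => (p : ℝ) + 1) σ := by
    apply Finset.sum_nonneg
    intro σ _
    apply mul_nonneg (abs_nonneg _)
    unfold mulc
    apply Finset.prod_nonneg
    intro t _
    split_ifs
    · norm_num
    · have := hp0 t
      positivity
  calc X * ∑ σ, cw pr y σ ^ 2 * mulc pr (fun p => (p : ℝ)) σ +
        Y * (∑ σ, |cw pr y σ| * mulc pr (fun p => (p : ℝ) + 1) σ) ^ 2
      ≤ X * (Λ ^ 2 * ∏ j, ∑ a : Finset ι, (∏ t ∈ a, (pr t : ℝ) / ((pr t : ℝ) - 1) ^ 2) *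
          GG j a ^ 2) + Y * (Λ * (Real.exp R' *
            ∏ t, (1 + 3 * (Fintype.card J : ℝ) / (pr t : ℝ)))) ^ 2 := by
        gcongr
    _ = _ := by ring


end sv

variable {k : ℕ}

/-- first upper bound -/
theorem S1_win (Q : SPar) {a b : Fin k → ℕ} {D v : ℕ} (hc : Ctx a b D v) (ε : ℝ)
    (hε : 0 < ε) (hI2 : 0 < Q.I2) (ρ : ℝ) (hρ : 0 < ρ) (hρ1 : ρ < 1)
    (x : ℝ) (hx : 1 < x) (hxρ : 1 ≤ ρ ^ 2 * x)
    (hS : Sums Q D ε (k + 1) (Lx x) (Lx x / 48) (Px D x)) :
    SWin (WW D) v (fun n => (wx Q a b D x n) ^ 2) ρ x ≤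
      (1 - ρ) ^ 2 * (Q0 k D x * ((1 / 3 + ε) * (Q.I2 + ε) ^ k)) + 4 * E0 k D x := by
  have hL := Lx_pos hx
  have hL0 : 0 < Lx x / 48 := by positivity
  have hprof := GP_prof Q k (Lx x) (Lx x / 48) hL hL0
  have hsd := hc.sd (Px D x) (Px_prime D x)
  have h0 := s1Win (prx D x) (LF a b) (WW D) v hc.hW hsd (cw (prx D x) (yx Q k D x)) ρ x hρ hρ1 hxρ
  have hlog : 0 ≤ Real.log x := Real.log_nonneg hx.le
  have h := S1gen (prx D x) (LF a b) (WW D) hsd (yx Q k D x)
    (fun j s => GP Q k (Lx x) (Lx x / 48) j (lg (prx D x) s)) 1 (Lx x / 48 + Lx x) zero_le_one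
    (fun j s => hprof.nonneg j _ (lg_nonneg _ _)) (fun j s => hprof.le_one j _ (lg_nonneg _ _))
    (fun σ => by
      rw [one_mul, yx, abs_of_nonneg (yw_nonneg _ _ _ hprof _ _)]
      exact yw_le_prod _ _ _ hprof _ _)
    (fun σ hσ => yw_supp _ _ _ _ _ (fun s hs hs' => GP_cut_none Q k _ _ s hs hs') σ hσ)
    ((1 - ρ) ^ 2 * (x / WW D)) (4 * (Real.log x + 1)) _ (by positivity) (by positivity) h0
  refine le_trans h ?_
  rw [one_pow, one_mul]
  rw [prod_none_some _ _ _ (sum_GP_none Q D x hx h1) (fun i => sum_GP_some Q D x i h1), cardJ]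
  apply add_le_add _ (le_of_eq (by unfold E0; ring))
  have hB := hc.BDpos
  have hWpos : (0 : ℝ) < WW D := by exact_mod_cast hc.hW
  have hh1 : ∀ p ∈ Px D x, 0 ≤ h1 p := by
    intro p hp
    unfold h1
    positivity
  have hp0 : ∀ p ∈ Px D x, 0 < p := fun p hp => (Px_prime D x p hp).1.pos
  have n2 : 0 ≤ SS (Px D x) h1 Q.c (Lx x) (fun t => Q.gg t ^ 2) :=
    SS_nonneg _ _ _ _ _ hh1 hp0 hL fun t _ => sq_nonneg _
  have n1 : 0 ≤ SS (Px D x) h1 1 (Lx x / 48) (fun t => (1 - t) ^ 2) :=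
    SS_nonneg _ _ _ _ _ hh1 hp0 hL0 fun t _ => sq_nonneg _
  have hr0 : 0 ≤ (1 - ρ) ^ 2 := sq_nonneg _
  calc (1 - ρ) ^ 2 * (x / WW D) * (SS (Px D x) h1 1 (Lx x / 48) (fun t => (1 - t) ^ 2) *
        SS (Px D x) h1 Q.c (Lx x) (fun t => Q.gg t ^ 2) ^ k)
      ≤ (1 - ρ) ^ 2 * (x / WW D) * ((BD D * (Lx x / 48) * (1 / 3 + ε)) * (BD D * Lx x * (Q.I2 + ε)) ^ k) := by
        have := hS.a
        have := hS.b
        gcongr
    _ = _ := by
        unfold Q0
        rw [mul_pow (BD D * Lx x) (Q.I2 + ε) k]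
        ring


end Pool.Agent.H732R3.Win
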