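import Mathlib
import Pool.Agent.H732R3.W2
import Pool.Agent.H732R2.MT_S2Fb

/-! Windowed Maynard-Tao theorem, part 3: the error terms (adapted from `Pool.Agent.H732R2.MT_S2Fb`). -/

namespace Pool.Agent.H732R3.Win

open Finset Filter Topology
open Pool.Agent.H410R2 hiding GP GP_prof GP_cut_some GP_cut_none GP_lip gg_pos gg_le_one gg_anti ee_bound ee_nonneg gg_lip LB_gg LB_ee Sums exists_sums yx wx wxi Br sum_GP_none sum_GP_some sum_GP_some_ee sum_GP_some_one sum_GPr_none sum_GPr_some S1_final QI_final S2_final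

open Classical in
/-- the error term of `S2Approx` -/
noncomputable def ErrY (K : ℝ) (D : ℕ) (a b m : ℕ) (x y : ℝ) (r : ℕ → ℕ) : ℝ :=
  (∏ t : Ix D x, (1 + K / ((prx D x t : ℝ) - 1)) *
        ((prx D x t : ℝ) / ((prx D x t : ℝ) - 1))) ^ 2 *
      ∑ q ∈ (Icc 1 ⌊(Real.exp (Lx x / 48 + Lx x)) ^ 2⌋₊).filter
        (fun q => Squarefree q ∧ (r q).Coprime (a * m * q)),
        (3 * K) ^ q.primeFactors.card *
          (|psiLogAP (a * y) (a * m * q) (r q) - psiLog1 (a * y) / (Nat.totient (a * m * q) : ℝ)| +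
            ((a : ℝ) + b) ^ 2 * (Real.log (a * y) + 1))

open Classical in
theorem ErrY_le (hBV : BVAP) (hPB : ProdBound) (hOB : OmegaBound) (K : ℝ) (hK : 1 ≤ K) (D : ℕ)
    (a b m : ℕ) (ha : 1 ≤ a) (hm : 1 ≤ m) (s : ℝ) (hs0 : 0 < s) (hs1 : s ≤ 1) :
    ∀ᶠ x : ℝ in atTop, ∀ r : ℕ → ℕ, ErrY K D a b m x (s * x) r ≤ x := by
  obtain ⟨C, hC, M, hpre⟩ := prefactor_le hPB K (by linarith) D
  obtain ⟨X₀, hX⟩ := hBV (a * m) (Nat.mul_pos ha hm) (3 * K) (by linarith) (1 / 200) (by norm_num)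
    (M + 2)
  obtain ⟨C', hC', hΩ⟩ := hOB (3 * K) (by linarith) (1 / 100) (by norm_num)
  have ha1 : (1 : ℝ) ≤ a := by exact_mod_cast ha
  have ev1 : ∀ᶠ x : ℝ in atTop, 2 * C * a * 2 ^ (M + 2) ≤ Real.log x :=
    Real.tendsto_log_atTop.eventually_ge_atTop _
  have ev3 : ∀ᶠ x : ℝ in atTop, 1 / s ≤ x ^ (1 / 200 : ℝ) :=
    (tendsto_rpow_atTop (by norm_num)).eventually_ge_atTop _
  have ev4 : ∀ᶠ x : ℝ in atTop, X₀ ≤ s * x :=
    (tendsto_id.const_mul_atTop hs0).eventually_ge_atTop _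
  have ev2 := ev_polylog (C * (C' * ((a : ℝ) + b) ^ 2 * (2 * (1 + |Real.log a|)) * 2)) (M + 1)
    (49 / 100 + 49 / 100 * (1 / 100)) 1 (by norm_num)
  filter_upwards [hpre, ev1, ev2, ev3, ev4, eventually_ge_atTop (Real.exp 1)] with
    x hpre ev1 ev2 ev3 ev4 hxe r
  have hx0 : 0 < x := lt_of_lt_of_le (Real.exp_pos _) hxe
  have hl1 : 1 ≤ Real.log x := (Real.le_log_iff_exp_le hx0).2 hxe
  have hx1 : 1 ≤ x := by
    have := Real.add_one_le_exp (1 : ℝ)
    linarith
  obtain ⟨y, hy⟩ : ∃ y, y = s * x := ⟨_, rfl⟩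
  rw [← hy] at ev4 ⊢
  have hy0 : 0 < y := by rw [hy]; positivity
  have hyx : y ≤ x := by rw [hy]; nlinarith
  have hay : y ≤ a * y := by nlinarith
  have hay0 : 0 < a * y := by linarith
  have hyl : x ^ (199 / 200 : ℝ) ≤ y := by
    rw [div_le_iff₀ hs0] at ev3
    have h1 : x ^ (199 / 200 : ℝ) * 1 ≤ x ^ (199 / 200 : ℝ) * (x ^ (1 / 200 : ℝ) * s) :=
      mul_le_mul_of_nonneg_left ev3 (by positivity)
    have h2 : x ^ (199 / 200 : ℝ) * x ^ (1 / 200 : ℝ) = x := by
      rw [← Real.rpow_add hx0]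
      norm_num
    calc x ^ (199 / 200 : ℝ) = x ^ (199 / 200 : ℝ) * 1 := (mul_one _).symm
      _ ≤ x ^ (199 / 200 : ℝ) * (x ^ (1 / 200 : ℝ) * s) := h1
      _ = (x ^ (199 / 200 : ℝ) * x ^ (1 / 200 : ℝ)) * s := by ring
      _ = y := by rw [h2, hy]; ring
  have hlay : Real.log x / 2 ≤ Real.log (a * y) := by
    have h1 : Real.log (x ^ (199 / 200 : ℝ)) ≤ Real.log (a * y) :=
      Real.log_le_log (by positivity) (hyl.trans hay)
    rw [Real.log_rpow hx0] at h1
    linarith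
  have hBVx := hX (a * y) (ev4.trans hay) r
  unfold ErrY
  rw [R_sq x hx0]
  -- split the sum
  set S := (Icc 1 ⌊x ^ (49 / 100 : ℝ)⌋₊).filter
    (fun q => Squarefree q ∧ (r q).Coprime (a * m * q)) with hSd
  have hsplit : ∑ q ∈ S, (3 * K) ^ q.primeFactors.card *
      (|psiLogAP (a * y) (a * m * q) (r q) - psiLog1 (a * y) / (Nat.totient (a * m * q) : ℝ)| +
        ((a : ℝ) + b) ^ 2 * (Real.log (a * y) + 1)) =
      ∑ q ∈ S, (3 * K) ^ q.primeFactors.card *
      |psiLogAP (a * y) (a * m * q) (r q) - psiLog1 (a * y) / (Nat.totient (a * m * q) : ℝ)| +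
      ((a : ℝ) + b) ^ 2 * (Real.log (a * y) + 1) * ∑ q ∈ S, (3 * K) ^ q.primeFactors.card := by
    rw [Finset.mul_sum, ← Finset.sum_add_distrib]
    refine Finset.sum_congr rfl fun q _ => ?_
    ring
  rw [hsplit]
  have hA : ∑ q ∈ S, (3 * K) ^ q.primeFactors.card *
      |psiLogAP (a * y) (a * m * q) (r q) - psiLog1 (a * y) / (Nat.totient (a * m * q) : ℝ)| ≤
      a * x * 2 ^ (M + 2) / (Real.log x) ^ (M + 2) := by
    refine le_trans ?_ (hBVx.trans ?_)
    · apply Finset.sum_le_sum_of_subset_of_nonneg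
      · intro q hq
        rw [hSd, Finset.mem_filter, Finset.mem_Icc] at hq
        rw [Finset.mem_filter, Finset.mem_Icc]
        refine ⟨⟨hq.1.1, hq.1.2.trans ?_⟩, hq.2⟩
        apply Nat.floor_le_floor
        have e : (1 / 2 - 1 / 200 : ℝ) = 99 / 200 := by norm_num
        rw [e]
        calc x ^ (49 / 100 : ℝ) ≤ x ^ (199 / 200 * (99 / 200) : ℝ) :=
              Real.rpow_le_rpow_of_exponent_le hx1 (by norm_num)
          _ = (x ^ (199 / 200 : ℝ)) ^ (99 / 200 : ℝ) := by rw [Real.rpow_mul hx0.le]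
          _ ≤ (a * y) ^ (99 / 200 : ℝ) :=
              Real.rpow_le_rpow (by positivity) (hyl.trans hay) (by norm_num)
      · intro q _ _
        positivity
    · have h1 : (Real.log x / 2) ^ (M + 2) ≤ (Real.log (a * y)) ^ (M + 2) :=
        pow_le_pow_left₀ (by positivity) hlay _
      calc a * y / (Real.log (a * y)) ^ (M + 2) ≤ a * x / (Real.log x / 2) ^ (M + 2) := by
            apply div_le_div₀ (by positivity) _ (by positivity) h1
            gcongr
        _ = _ := by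
            rw [div_pow]
            field_simp
  have hB : ∑ q ∈ S, (3 * K) ^ q.primeFactors.card ≤
      C' * x ^ (49 / 100 + 49 / 100 * (1 / 100) : ℝ) := by
    calc ∑ q ∈ S, (3 * K) ^ q.primeFactors.card
        ≤ ∑ q ∈ S, C' * x ^ (49 / 100 * (1 / 100) : ℝ) := by
          apply Finset.sum_le_sum
          intro q hq
          rw [hSd, Finset.mem_filter, Finset.mem_Icc] at hq
          refine (hΩ q hq.1.1).trans ?_
          have h1 : (q : ℝ) ≤ x ^ (49 / 100 : ℝ) :=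
            (Nat.cast_le.2 hq.1.2).trans (Nat.floor_le (by positivity))
          rw [Real.rpow_mul hx0.le]
          gcongr
      _ ≤ ∑ q ∈ Icc 1 ⌊x ^ (49 / 100 : ℝ)⌋₊, C' * x ^ (49 / 100 * (1 / 100) : ℝ) :=
          Finset.sum_le_sum_of_subset_of_nonneg (Finset.filter_subset _ _)
            (fun _ _ _ => by positivity)
      _ = (⌊x ^ (49 / 100 : ℝ)⌋₊ : ℝ) * (C' * x ^ (49 / 100 * (1 / 100) : ℝ)) := by
          rw [Finset.sum_const, Nat.card_Icc, nsmul_eq_mul]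
          simp
      _ ≤ x ^ (49 / 100 : ℝ) * (C' * x ^ (49 / 100 * (1 / 100) : ℝ)) := by
          gcongr
          exact Nat.floor_le (by positivity)
      _ = _ := by rw [Real.rpow_add hx0]; ring
  have hlog2 : Real.log (a * y) + 1 ≤ (2 * (1 + |Real.log a|)) * Real.log x := by
    have h0 : Real.log y ≤ Real.log x := Real.log_le_log hy0 hyx
    rw [Real.log_mul (by positivity) hy0.ne']
    have h1 : Real.log a ≤ |Real.log a| := le_abs_self _
    have h2 : |Real.log a| ≤ |Real.log a| * Real.log x :=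
      le_mul_of_one_le_right (abs_nonneg _) hl1
    have h3 := abs_nonneg (Real.log a)
    nlinarith
  have hlax0 : 0 ≤ Real.log (a * y) + 1 := by linarith
  have hprenn : 0 ≤ (∏ t : Ix D x, (1 + K / ((prx D x t : ℝ) - 1)) *
        ((prx D x t : ℝ) / ((prx D x t : ℝ) - 1))) ^ 2 := sq_nonneg _
  have hfirst : C * (Real.log x) ^ M * (a * x * 2 ^ (M + 2) / (Real.log x) ^ (M + 2)) ≤ x / 2 := by
    have e : C * (Real.log x) ^ M * (a * x * 2 ^ (M + 2) / (Real.log x) ^ (M + 2)) =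
        (C * a * 2 ^ (M + 2)) * x / (Real.log x) ^ 2 := by
      have : Real.log x ≠ 0 := by positivity
      field_simp
      ring
    rw [e, div_le_div_iff₀ (by positivity) (by norm_num)]
    have h1 : Real.log x ≤ (Real.log x) ^ 2 := by nlinarith
    have h2 : 2 * C * a * 2 ^ (M + 2) ≤ (Real.log x) ^ 2 := ev1.trans h1
    have h3 := mul_le_mul_of_nonneg_left h2 hx0.le
    linarith
  have hsecond : C * (Real.log x) ^ M * (((a : ℝ) + b) ^ 2 * (Real.log (a * y) + 1) *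
      (C' * x ^ (49 / 100 + 49 / 100 * (1 / 100) : ℝ))) ≤ x / 2 := by
    have h1 : C * (Real.log x) ^ M * (((a : ℝ) + b) ^ 2 * (Real.log (a * y) + 1) *
      (C' * x ^ (49 / 100 + 49 / 100 * (1 / 100) : ℝ))) ≤
      C * (Real.log x) ^ M * (((a : ℝ) + b) ^ 2 * ((2 * (1 + |Real.log a|)) * Real.log x) *
      (C' * x ^ (49 / 100 + 49 / 100 * (1 / 100) : ℝ))) := by gcongr
    have h2 : C * (Real.log x) ^ M * (((a : ℝ) + b) ^ 2 * ((2 * (1 + |Real.log a|)) * Real.log x) *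
      (C' * x ^ (49 / 100 + 49 / 100 * (1 / 100) : ℝ))) * 2 =
      C * (C' * ((a : ℝ) + b) ^ 2 * (2 * (1 + |Real.log a|)) * 2) * (Real.log x) ^ (M + 1) *
        x ^ (49 / 100 + 49 / 100 * (1 / 100) : ℝ) := by ring
    rw [Real.rpow_one] at ev2
    linarith
  calc _ ≤ C * (Real.log x) ^ M * (a * x * 2 ^ (M + 2) / (Real.log x) ^ (M + 2) +
        ((a : ℝ) + b) ^ 2 * (Real.log (a * y) + 1) *
      (C' * x ^ (49 / 100 + 49 / 100 * (1 / 100) : ℝ))) := by
        apply mul_le_mul hpre _ _ (by positivity)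
        · gcongr
        · positivity
    _ = C * (Real.log x) ^ M * (a * x * 2 ^ (M + 2) / (Real.log x) ^ (M + 2)) +
        C * (Real.log x) ^ M * (((a : ℝ) + b) ^ 2 * (Real.log (a * y) + 1) *
      (C' * x ^ (49 / 100 + 49 / 100 * (1 / 100) : ℝ))) := by ring
    _ ≤ x := by linarith


end Pool.Agent.H732R3.Win
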