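import Mathlib
import Pool.Agent.H732R3.W3

/-! Windowed Maynard-Tao theorem, part 4: prime sums in windows (adapted from `Pool.Agent.H361R2.GS2`). -/

namespace Pool.Agent.H732R3.Win

open Finset Filter Topology
open Pool.Agent.H410R2 hiding GP GP_prof GP_cut_some GP_cut_none GP_lip gg_pos gg_le_one gg_anti ee_bound ee_nonneg gg_lip LB_gg LB_ee Sums exists_sums yx wx wxi Br sum_GP_none sum_GP_some sum_GP_some_ee sum_GP_some_one sum_GPr_none sum_GPr_some S1_final QI_final S2_final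
open Pool.Agent.H361R2 Pool.Agent.H361R2.GM

open Classical in
/-- log-weighted sum over the values of a linear form -/
noncomputable def TW (a b m v : ℕ) (F : ℕ → ℝ) (y : ℝ) : ℝ :=
  ∑ n ∈ (Icc 1 ⌊y⌋₊).filter (fun n => n ≡ v [MOD m] ∧ ((a * n + b : ℕ) : ℝ) ≤ a * y),
    ArithmeticFunction.vonMangoldt (a * n + b) * Real.log (a * y / ((a * n + b : ℕ) : ℝ)) * F n

/-- windowed sum -/
noncomputable def TWin (a b m v : ℕ) (F : ℕ → ℝ) (ρ x : ℝ) : ℝ :=
  TW a b m v F x - 2 * TW a b m v F (ρ * x) + TW a b m v F (ρ ^ 2 * x)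

variable {k : ℕ}

/-- task S2F -/
theorem S2_win (Q : SPar) (hT2 : S2Approx) (hT3 : S2Model) (hBV : BVAP) (hPNT : PNTLog) (hPB : ProdBound)
    (hOB : OmegaBound) {a b : Fin k → ℕ} {D v : ℕ} (hc : Ctx a b D v) (ε : ℝ) (hε : 0 < ε)
    (hε1 : ε < 1 / 3) (hI1 : ε < Q.I1) (hI2 : ε < Q.I2) (hBr : 0 < Br Q k ε)
    (hκ : ∀ x, ∏ t : Ix D x, (1 + ((k + 1 : ℕ) : ℝ) / ((prx D x t : ℝ) - 1) ^ 2) ≤ 1 + ε)
    (hovl : ∀ x, ((k + 1 : ℕ) : ℝ) ^ 2 * ∑ t : Ix D x, (hb (k + 1) (prx D x t)) ^ 2 ≤ ε)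
    (hS : ∀ᶠ x : ℝ in atTop, Sums Q D ε (k + 1) (Lx x) (Lx x / 48) (Px D x))
    (ρ : ℝ) (hρ : 0 < ρ) (hρ1 : ρ < 1) :
    ∀ᶠ x : ℝ in atTop, ∀ i : Fin k,
      (1 - ρ) ^ 2 * (Lx x * Q0 k D x * ((1 - ε) ^ 3 * (Q.I1 - ε) ^ 2 * Br Q k ε)) - 4 * x ≤
      TWin (a i) (b i) (WW D) v (fun n => (wxi Q a b D x i n) ^ 2) ρ x := by
  have hρ2 : 0 < ρ ^ 2 := by positivity
  have hρ21 : ρ ^ 2 < 1 := by nlinarith
  have hErrs : ∀ s : ℝ, 0 < s → s ≤ 1 → ∀ᶠ x : ℝ in atTop, ∀ i : Fin k, ∀ r : ℕ → ℕ,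
      ErrY ((k + 1 : ℕ) : ℝ) D (a i) (b i) (WW D) x (s * x) r ≤ x := by
    intro s hs0 hs1
    rw [Filter.eventually_all]
    intro i
    exact ErrY_le hBV hPB hOB _ (by push_cast; linarith [(Nat.cast_nonneg k : (0 : ℝ) ≤ k)]) D
      (a i) (b i) (WW D) (hc.ha i) hc.hW s hs0 hs1
  have hErr1 := hErrs 1 one_pos le_rfl
  have hErr2 := hErrs ρ hρ hρ1.le
  have hErr3 := hErrs (ρ ^ 2) hρ2 hρ21.le
  have hpsi : ∀ᶠ x : ℝ in atTop, ∀ i : Fin k, (1 - ε) * ((1 - ρ) ^ 2 * (a i * x)) ≤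
      psiLog1 (a i * x) - 2 * psiLog1 (a i * (ρ * x)) + psiLog1 (a i * (ρ ^ 2 * x)) := by
    rw [Filter.eventually_all]
    intro i
    have hai : (0 : ℝ) < a i := by exact_mod_cast hc.ha i
    have hε4 : 0 < ε * (1 - ρ) ^ 2 / 4 := by
      have : 0 < 1 - ρ := by linarith
      positivity
    have h1 : ∀ᶠ X : ℝ in atTop, 1 - ε * (1 - ρ) ^ 2 / 4 < psiLog1 X / X :=
      hPNT.eventually (lt_mem_nhds (by linarith))
    have h1' : ∀ᶠ X : ℝ in atTop, psiLog1 X / X < 1 + ε * (1 - ρ) ^ 2 / 4 :=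
      hPNT.eventually (gt_mem_nhds (by linarith))
    have h2 : ∀ s : ℝ, 0 < s → Tendsto (fun x : ℝ => (a i : ℝ) * (s * x)) atTop atTop := fun s hs =>
      (tendsto_id.const_mul_atTop hs).const_mul_atTop hai
    filter_upwards [(h2 1 one_pos).eventually h1, (h2 ρ hρ).eventually h1',
      (h2 (ρ ^ 2) hρ2).eventually h1, eventually_gt_atTop (0 : ℝ)] with x e1 e2 e3 hx0
    rw [one_mul] at e1
    rw [lt_div_iff₀ (by positivity)] at e1 e3
    rw [div_lt_iff₀ (by positivity)] at e2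
    have hax : 0 < (a i : ℝ) * x := by positivity
    have h5 : (1 + ρ) ^ 2 ≤ 4 := by nlinarith
    have h6 : ε * (1 - ρ) ^ 2 / 4 * ((1 + ρ) ^ 2 * (a i * x)) ≤ ε * (1 - ρ) ^ 2 / 4 * (4 * (a i * x)) :=
      mul_le_mul_of_nonneg_left (mul_le_mul_of_nonneg_right h5 hax.le) hε4.le
    nlinarith
  have hxe : ∀ᶠ x : ℝ in atTop, 1 ≤ ρ ^ 2 * x :=
    (tendsto_id.const_mul_atTop hρ2).eventually_ge_atTop _
  filter_upwards [hErr1, hErr2, hErr3, hpsi, hS, hxe, eventually_gt_atTop (1 : ℝ)] with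
    x hErr1 hErr2 hErr3 hpsi hS hxe hx i
  have hx0 : 0 < x := by linarith
  have hL := Lx_pos hx
  have hL0 : 0 < Lx x / 48 := by positivity
  have hB := hc.BDpos
  have hWpos : (0 : ℝ) < WW D := by exact_mod_cast hc.hW
  have hai : (0 : ℝ) < a i := by exact_mod_cast hc.ha i
  have hprof := GP_prof Q k (Lx x) (Lx x / 48) hL hL0
  have hsd := hc.sd (Px D x) (Px_prime D x)
  have hp2 : ∀ t : Ix D x, 2 ≤ prx D x t := fun t => (Px_prime D x t.1 t.2).1.two_le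
  have hp0 : ∀ t : Ix D x, 0 < prx D x t := fun t => by have := hp2 t; omega
  have hmn : ∀ σ : Ix D x → Option (Option (Fin k)),
      0 ≤ mulc (prx D x) (fun p => 1 / ((p : ℝ) - 1)) σ := by
    intro σ
    unfold mulc
    apply Finset.prod_nonneg
    intro t _
    split_ifs
    · norm_num
    · have : (2 : ℝ) ≤ (prx D x t : ℝ) := by exact_mod_cast hp2 t
      have h3 : 0 < (prx D x t : ℝ) - 1 := by linarith
      positivity
  have key : ∀ y : ℝ, 1 ≤ y → (∀ r : ℕ → ℕ, ErrY ((k + 1 : ℕ) : ℝ) D (a i) (b i) (WW D) x y r ≤ x) →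
      |TW (a i) (b i) (WW D) v (fun n => (wxi Q a b D x i n) ^ 2) y -
        psiLog1 (a i * y) / (a i * Nat.totient (WW D)) *
        QI (some i) (prx D x) (cw (prx D x) (yx Q k D x))| ≤ x := by
    intro y hy hE
    obtain ⟨r, hr⟩ := hT2.use (prx D x) (LF a b) (WW D) v (some i) (a i) (b i) hc.hW hsd (hc.ha i)
      (fun n => rfl) (hc.hadvd i) (hc.vcop' i) (cw (prx D x) (yx Q k D x))
      (Real.exp (Lx x / 48 + Lx x)) (Real.one_le_exp (by positivity))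
      (fun σ => by
        rw [abs_cw _ hp2]
        have h1 : |yx Q k D x σ| ≤ 1 := by
          unfold yx
          rw [abs_of_nonneg (yw_nonneg _ _ _ hprof _ _)]
          exact yw_le_one _ _ _ hprof _ _
        exact mul_le_of_le_one_right (hmn σ) h1)
      (fun σ hσ => by
        rw [mulc_exp _ hp0]
        apply Real.exp_le_exp.2
        apply yw_supp (prx D x) none (GP Q k (Lx x) (Lx x / 48)) (Lx x) (Lx x / 48)
          (fun s hs hs' => GP_cut_none Q k _ _ s hs hs') σ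
        intro h0
        apply hσ
        unfold cw
        have : yx Q k D x σ = 0 := h0
        rw [this, mul_zero]) y hy
    have hE2 : (∏ t : Ix D x, (1 + (Fintype.card (Option (Fin k)) : ℝ) / ((prx D x t : ℝ) - 1)) *
        ((prx D x t : ℝ) / ((prx D x t : ℝ) - 1))) ^ 2 *
      ∑ q ∈ (Icc 1 ⌊(Real.exp (Lx x / 48 + Lx x)) ^ 2⌋₊).filter
        (fun q => Squarefree q ∧ (r q).Coprime (a i * WW D * q)),
        (3 * (Fintype.card (Option (Fin k)) : ℝ)) ^ q.primeFactors.card *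
          (|psiLogAP (a i * y) (a i * WW D * q) (r q) -
            psiLog1 (a i * y) / (Nat.totient (a i * WW D * q) : ℝ)| +
            ((a i : ℝ) + b i) ^ 2 * (Real.log (a i * y) + 1)) ≤ x := by
      refine le_trans (le_of_eq ?_) (hE r)
      unfold ErrY
      rw [cardJ]
    exact hr.trans hE2
  have hQI := QI_final Q hT3 hc ε hε hε1 hI1 hI2 hBr x hx (hκ x) (hovl x) hS i
  have hQIn : 0 ≤ (1 - ε) ^ 2 * (BD D * Lx x * (Q.I1 - ε)) ^ 2 *
      (BD D * (Lx x / 48) * (BD D * Lx x) ^ (k - 1) * Br Q k ε) := by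
    have : 0 ≤ Q.I1 - ε := by linarith
    positivity
  have hρx : ρ ^ 2 * x ≤ ρ * x := by
    apply mul_le_mul_of_nonneg_right _ hx0.le
    nlinarith
  have k1 := key x hx.le (fun r => by have := hErr1 i r; rwa [one_mul] at this)
  have k2 := key (ρ * x) (hxe.trans hρx) (hErr2 i)
  have k3 := key (ρ ^ 2 * x) hxe (hErr3 i)
  have hmain : (1 - ρ) ^ 2 * (Lx x * Q0 k D x * ((1 - ε) ^ 3 * (Q.I1 - ε) ^ 2 * Br Q k ε)) ≤
      (psiLog1 (a i * x) - 2 * psiLog1 (a i * (ρ * x)) + psiLog1 (a i * (ρ ^ 2 * x))) /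
        (a i * Nat.totient (WW D)) *
        QI (some i) (prx D x) (cw (prx D x) (yx Q k D x)) := by
    have e1 : (1 - ε) * ((1 - ρ) ^ 2 * x) / (WW D * BD D) ≤
        (psiLog1 (a i * x) - 2 * psiLog1 (a i * (ρ * x)) + psiLog1 (a i * (ρ ^ 2 * x))) /
        (a i * Nat.totient (WW D)) := by
      rw [hc.tot, div_le_div_iff₀ (by positivity) (by positivity)]
      have := hpsi i
      have h3 : 0 ≤ (WW D : ℝ) * BD D := by positivity
      calc (1 - ε) * ((1 - ρ) ^ 2 * x) * (a i * (WW D * BD D)) =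
            ((1 - ε) * ((1 - ρ) ^ 2 * (a i * x))) * (WW D * BD D) := by ring
        _ ≤ _ := mul_le_mul_of_nonneg_right this h3
    have hk : (BD D * Lx x) ^ k = (BD D * Lx x) ^ (k - 1) * (BD D * Lx x) := by
      rw [← pow_succ]
      congr 1
      have := i.2
      omega
    calc (1 - ρ) ^ 2 * (Lx x * Q0 k D x * ((1 - ε) ^ 3 * (Q.I1 - ε) ^ 2 * Br Q k ε))
        = ((1 - ε) * ((1 - ρ) ^ 2 * x) / (WW D * BD D)) * ((1 - ε) ^ 2 * (BD D * Lx x * (Q.I1 - ε)) ^ 2 *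
          (BD D * (Lx x / 48) * (BD D * Lx x) ^ (k - 1) * Br Q k ε)) := by
          unfold Q0
          rw [hk]
          field_simp
      _ ≤ _ := by
          have h5 : 0 ≤ (1 - ε) * ((1 - ρ) ^ 2 * x) / (WW D * BD D) := by
            have : 0 ≤ 1 - ε := by linarith
            positivity
          gcongr
          exact h5.trans e1
  have k4 := (abs_le.1 k1).1
  have k5 := (abs_le.1 k2).2
  have k6 := (abs_le.1 k3).1
  set A0 := QI (some i) (prx D x) (cw (prx D x) (yx Q k D x)) with hA0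
  have e7 : (psiLog1 (a i * x) - 2 * psiLog1 (a i * (ρ * x)) + psiLog1 (a i * (ρ ^ 2 * x))) /
        (a i * Nat.totient (WW D)) * A0 = psiLog1 (a i * x) / (a i * Nat.totient (WW D)) * A0 -
        2 * (psiLog1 (a i * (ρ * x)) / (a i * Nat.totient (WW D)) * A0) +
        psiLog1 (a i * (ρ ^ 2 * x)) / (a i * Nat.totient (WW D)) * A0 := by ring
  rw [e7] at hmain
  unfold TWin
  linarith


end Pool.Agent.H732R3.Win
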