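import Mathlib
import Pool.Agent.H732R3.W4
import Pool.Agent.H361R2.GFinC

/-! Windowed Maynard-Tao theorem, part 5: the tent function and the passage to primes
(adapted from `Pool.Agent.H361R2.GFinC`). -/

namespace Pool.Agent.H732R3.Win

open Finset Filter Topology
open Pool.Agent.H410R2 hiding GP GP_prof GP_cut_some GP_cut_none GP_lip gg_pos gg_le_one gg_anti ee_bound ee_nonneg gg_lip LB_gg LB_ee Sums exists_sums yx wx wxi Br sum_GP_none sum_GP_some sum_GP_some_ee sum_GP_some_one sum_GPr_none sum_GPr_some S1_final QI_final S2_final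
open Pool.Agent.H361R2 Pool.Agent.H361R2.GM

/-- the tent function on the logarithmic scale, `l = log ρ < 0` -/
noncomputable def tent (l t : ℝ) : ℝ := max t 0 - 2 * max (t + l) 0 + max (t + 2 * l) 0

theorem tent_nonneg {l : ℝ} (hl : l < 0) (t : ℝ) : 0 ≤ tent l t := by
  unfold tent
  rcases le_total t 0 with h1 | h1 <;> rcases le_total (t + l) 0 with h2 | h2 <;>
    rcases le_total (t + 2 * l) 0 with h3 | h3 <;>
    simp only [max_eq_left, max_eq_right, h1, h2, h3] <;> linarith

theorem tent_le {l : ℝ} (hl : l < 0) {t : ℝ} (ht : 0 ≤ t) : tent l t ≤ t := by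
  unfold tent
  rcases le_total (t + l) 0 with h2 | h2 <;>
    rcases le_total (t + 2 * l) 0 with h3 | h3 <;>
    simp only [max_eq_left, max_eq_right, ht, h2, h3] <;> linarith

theorem tent_far {l : ℝ} (hl : l < 0) {t : ℝ} (ht : 0 ≤ t + 2 * l) : tent l t = 0 := by
  unfold tent
  rw [max_eq_left ht, max_eq_left (by linarith : 0 ≤ t + l), max_eq_left (by linarith : 0 ≤ t)]
  ring

theorem tent_lip {l : ℝ} (hl : l < 0) {s t : ℝ} (h : s ≤ t) : tent l s ≤ tent l t + (t - s) := by
  unfold tent
  rcases le_total t 0 with h1 | h1 <;> rcases le_total (t + l) 0 with h2 | h2 <;>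
    rcases le_total (t + 2 * l) 0 with h3 | h3 <;>
    rcases le_total s 0 with k1 | k1 <;> rcases le_total (s + l) 0 with k2 | k2 <;>
    rcases le_total (s + 2 * l) 0 with k3 | k3 <;>
    simp only [max_eq_left, max_eq_right, h1, h2, h3, k1, k2, k3] <;> linarith

theorem SW_eq (m v : ℕ) (F : ℕ → ℝ) (x s : ℝ) (hx : 0 < x) (hs : 0 < s) (hs1 : s ≤ 1) :
    SW m v F (s * x) = ∑ n ∈ (Icc 1 ⌊x⌋₊).filter (fun n => n ≡ v [MOD m]),
      max (Real.log (x / n) + Real.log s) 0 * F n := by
  unfold SW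
  have hsx : s * x ≤ x := by nlinarith
  have hlog : ∀ n : ℕ, 1 ≤ n → Real.log (x / n) + Real.log s = Real.log (s * x / n) := by
    intro n hn
    have hn0 : (0 : ℝ) < n := by exact_mod_cast hn
    rw [← Real.log_mul (by positivity) hs.ne']
    congr 1
    ring
  apply Finset.sum_subset_zero_on_sdiff
  · intro n hn
    rw [Finset.mem_filter, Finset.mem_Icc] at hn ⊢
    exact ⟨⟨hn.1.1, hn.1.2.trans (Nat.floor_le_floor hsx)⟩, hn.2⟩
  · intro n hn
    rw [Finset.mem_sdiff, Finset.mem_filter, Finset.mem_filter, Finset.mem_Icc, Finset.mem_Icc] at hn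
    have h1 : ⌊s * x⌋₊ < n := by
      by_contra h
      exact hn.2 ⟨⟨hn.1.1.1, not_lt.1 h⟩, hn.1.2⟩
    have h2 : s * x < n := Nat.lt_of_floor_lt h1
    have hn0 : (0 : ℝ) < n := by exact_mod_cast hn.1.1.1
    rw [hlog n hn.1.1.1, max_eq_right, zero_mul]
    apply Real.log_nonpos (by positivity)
    rw [div_le_one hn0]
    exact h2.le
  · intro n hn
    rw [Finset.mem_filter, Finset.mem_Icc] at hn
    have hn0 : (0 : ℝ) < n := by exact_mod_cast hn.1.1
    rw [hlog n hn.1.1, max_eq_left]
    apply Real.log_nonneg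
    rw [le_div_iff₀ hn0, one_mul]
    exact (Nat.le_floor_iff (by positivity)).1 hn.1.2

theorem SWin_eq (m v : ℕ) (F : ℕ → ℝ) (x ρ : ℝ) (hx : 0 < x) (hρ : 0 < ρ) (hρ1 : ρ < 1) :
    SWin m v F ρ x = ∑ n ∈ (Icc 1 ⌊x⌋₊).filter (fun n => n ≡ v [MOD m]),
      tent (Real.log ρ) (Real.log (x / n)) * F n := by
  have h1 := SW_eq m v F x 1 hx one_pos le_rfl
  have h2 := SW_eq m v F x ρ hx hρ hρ1.le
  have h3 := SW_eq m v F x (ρ ^ 2) hx (by positivity) (by nlinarith)
  rw [one_mul] at h1
  unfold SWin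
  rw [h1, h2, h3, Finset.mul_sum, ← Finset.sum_sub_distrib, ← Finset.sum_add_distrib]
  apply Finset.sum_congr rfl
  intro n _
  have e1 : Real.log (ρ ^ 2) = 2 * Real.log ρ := by rw [Real.log_pow]; norm_num
  unfold tent
  rw [e1, Real.log_one, add_zero]
  ring

open Classical in
theorem TW_eq (a b m v : ℕ) (F : ℕ → ℝ) (x s : ℝ) (ha : 1 ≤ a) (hb : 1 ≤ b) (hx : 0 < x)
    (hs : 0 < s) (hs1 : s ≤ 1) :
    TW a b m v F (s * x) = ∑ n ∈ (Icc 1 ⌊x⌋₊).filter
      (fun n => n ≡ v [MOD m] ∧ ((a * n + b : ℕ) : ℝ) ≤ a * x),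
      ArithmeticFunction.vonMangoldt (a * n + b) *
        max (Real.log (a * x / ((a * n + b : ℕ) : ℝ)) + Real.log s) 0 * F n := by
  unfold TW
  have hsx : s * x ≤ x := by nlinarith
  have ha0 : (0 : ℝ) < a := by exact_mod_cast ha
  have hm0 : ∀ n : ℕ, (0 : ℝ) < ((a * n + b : ℕ) : ℝ) := by
    intro n
    have : 1 ≤ a * n + b := by omega
    exact_mod_cast this
  have hlog : ∀ n : ℕ, Real.log (a * x / ((a * n + b : ℕ) : ℝ)) + Real.log s =
      Real.log (a * (s * x) / ((a * n + b : ℕ) : ℝ)) := by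
    intro n
    have := hm0 n
    rw [← Real.log_mul (by positivity) hs.ne']
    congr 1
    ring
  apply Finset.sum_subset_zero_on_sdiff
  · intro n hn
    rw [Finset.mem_filter, Finset.mem_Icc] at hn ⊢
    exact ⟨⟨hn.1.1, hn.1.2.trans (Nat.floor_le_floor hsx)⟩, hn.2.1,
      hn.2.2.trans (mul_le_mul_of_nonneg_left hsx ha0.le)⟩
  · intro n hn
    rw [Finset.mem_sdiff, Finset.mem_filter, Finset.mem_filter, Finset.mem_Icc, Finset.mem_Icc] at hn
    have h2 : a * (s * x) < ((a * n + b : ℕ) : ℝ) := by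
      by_contra h
      apply hn.2
      have h3 := not_lt.1 h
      refine ⟨⟨hn.1.1.1, ?_⟩, hn.1.2.1, h3⟩
      apply Nat.le_floor
      push_cast at h3
      have hb0 : (0 : ℝ) ≤ b := Nat.cast_nonneg _
      have h4 : (a : ℝ) * n ≤ a * (s * x) := by linarith
      exact le_of_mul_le_mul_left h4 ha0
    have := hm0 n
    rw [hlog n, max_eq_right, mul_zero, zero_mul]
    apply Real.log_nonpos (by positivity)
    rw [div_le_one this]
    exact h2.le
  · intro n hn
    rw [Finset.mem_filter, Finset.mem_Icc] at hn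
    have := hm0 n
    rw [hlog n, max_eq_left]
    apply Real.log_nonneg
    rw [le_div_iff₀ this, one_mul]
    exact hn.2.2

open Classical in
theorem TWin_eq (a b m v : ℕ) (F : ℕ → ℝ) (x ρ : ℝ) (ha : 1 ≤ a) (hb : 1 ≤ b) (hx : 0 < x)
    (hρ : 0 < ρ) (hρ1 : ρ < 1) :
    TWin a b m v F ρ x = ∑ n ∈ (Icc 1 ⌊x⌋₊).filter
      (fun n => n ≡ v [MOD m] ∧ ((a * n + b : ℕ) : ℝ) ≤ a * x),
      ArithmeticFunction.vonMangoldt (a * n + b) *
        tent (Real.log ρ) (Real.log (a * x / ((a * n + b : ℕ) : ℝ))) * F n := by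
  have h1 := TW_eq a b m v F x 1 ha hb hx one_pos le_rfl
  have h2 := TW_eq a b m v F x ρ ha hb hx hρ hρ1.le
  have h3 := TW_eq a b m v F x (ρ ^ 2) ha hb hx (by positivity) (by nlinarith)
  rw [one_mul] at h1
  unfold TWin
  rw [h1, h2, h3, Finset.mul_sum, ← Finset.sum_sub_distrib, ← Finset.sum_add_distrib]
  apply Finset.sum_congr rfl
  intro n _
  have e1 : Real.log (ρ ^ 2) = 2 * Real.log ρ := by rw [Real.log_pow]; norm_num
  unfold tent
  rw [e1, Real.log_one, add_zero]
  ring

variable {k : ℕ}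

theorem fcW (hFA : FA) (Q : SPar) (k : ℕ) (a b : Fin k → ℕ) (D v : ℕ) (hc : Ctx a b D v)
    (ρ : ℝ) (hρ : 0 < ρ) (hρ1 : ρ < 1) :
    ∃ C : ℝ, 0 ≤ C ∧ ∃ c₀ : ℝ, 0 ≤ c₀ ∧ ∀ᶠ x : ℝ in atTop, ∀ i : Fin k,
      TWin (a i) (b i) (WW D) v (fun n => (wxi Q a b D x i n) ^ 2) ρ x ≤
      (Real.log x + C) * ∑ n ∈ (Icc 1 ⌊x⌋₊).filter
          (fun n => n ≡ v [MOD (WW D)] ∧ (a i * n + b i).Prime),
            (tent (Real.log ρ) (Real.log (x / n)) + c₀ / x) * (wx Q a b D x n) ^ 2 +
              x ^ (3 / 4 : ℝ) := by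
  classical
  have hl0 : Real.log ρ < 0 := Real.log_neg hρ hρ1
  refine ⟨∑ i, Real.log (a i), Finset.sum_nonneg fun i _ => Real.log_natCast_nonneg _,
    ∑ i, 2 * (b i : ℝ) / ρ ^ 2, Finset.sum_nonneg fun i _ => by positivity, ?_⟩
  have herr : ∀ᶠ x : ℝ in atTop, ∀ i : Fin k, Real.log (a i * x) * x ^ (1 / 10 : ℝ) *
      (2 * √(a i * x) * Real.log (a i * x) + (Real.log 4 + 4) * Real.exp (Lx x)) ≤
        x ^ (3 / 4 : ℝ) := by
    rw [Filter.eventually_all]
    intro i
    exact err_small (a i) (hc.ha i)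
  have hbig : ∀ᶠ x : ℝ in atTop, ∀ i : Fin k, 2 * (b i : ℝ) / ρ ^ 2 ≤ x := by
    rw [Filter.eventually_all]
    intro i
    exact eventually_ge_atTop _
  filter_upwards [herr, hbig, hFA Q k a b D v hc (1 / 10) (by norm_num), eventually_gt_atTop (1 : ℝ)]
    with x herr hbig hFA hx i
  have hx0 : 0 < x := by linarith
  have hai : (1 : ℝ) ≤ a i := by exact_mod_cast hc.ha i
  have hai0 : (0 : ℝ) < a i := by linarith
  have hlx : 0 < Real.log x := Real.log_pos hx
  have hax : 1 ≤ (a i : ℝ) * x := by nlinarith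
  have hlax : 0 ≤ Real.log (a i * x) := Real.log_nonneg hax
  have hC : Real.log (a i) ≤ ∑ i, Real.log (a i) :=
    Finset.single_le_sum (f := fun i => Real.log (a i))
      (fun i _ => Real.log_natCast_nonneg (a i)) (Finset.mem_univ i)
  set C := ∑ i, Real.log (a i) with hCdef
  have hC0 : 0 ≤ C := le_trans (Real.log_natCast_nonneg _) hC
  have hc₀ : 2 * (b i : ℝ) / ρ ^ 2 ≤ ∑ i, 2 * (b i : ℝ) / ρ ^ 2 :=
    Finset.single_le_sum (f := fun i => 2 * (b i : ℝ) / ρ ^ 2)
      (fun i _ => by positivity) (Finset.mem_univ i)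
  set c₀ := ∑ i, 2 * (b i : ℝ) / ρ ^ 2 with hc₀def
  have hc₀0 : 0 ≤ c₀ := le_trans (by positivity) hc₀
  rw [TWin_eq (a i) (b i) (WW D) v _ x ρ (hc.ha i) (hc.hb i) hx0 hρ hρ1]
  set S := (Icc 1 ⌊x⌋₊).filter
          (fun n => n ≡ v [MOD (WW D)] ∧ ((a i * n + b i : ℕ) : ℝ) ≤ a i * x) with hS
  have hSm : ∀ n ∈ S, 1 ≤ n ∧ (n : ℝ) ≤ x ∧ n ≡ v [MOD (WW D)] ∧
      ((a i * n + b i : ℕ) : ℝ) ≤ a i * x := by
    intro n hn
    rw [hS, Finset.mem_filter, Finset.mem_Icc] at hn
    exact ⟨hn.1.1, (Nat.cast_le.2 hn.1.2).trans (Nat.floor_le hx0.le), hn.2.1, hn.2.2⟩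
  set g : ℕ → ℝ := fun n => if ¬ (a i * n + b i).Prime ∨ ((a i * n + b i : ℕ) : ℝ) ≤
      Real.exp (Lx x) then ArithmeticFunction.vonMangoldt (a i * n + b i) else 0 with hg
  have hg0 : ∀ n, 0 ≤ g n := by
    intro m
    simp only [hg]
    split_ifs
    · exact ArithmeticFunction.vonMangoldt_nonneg
    · exact le_rfl
  have key : ∀ n ∈ S, ArithmeticFunction.vonMangoldt (a i * n + b i) *
          tent (Real.log ρ) (Real.log (a i * x / ((a i * n + b i : ℕ) : ℝ))) *
            (wxi Q a b D x i n) ^ 2 ≤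
      (if (a i * n + b i).Prime then (Real.log x + C) * ((tent (Real.log ρ) (Real.log (x / n)) +
        c₀ / x) * (wx Q a b D x n) ^ 2)
        else 0) + Real.log (a i * x) * x ^ (1 / 10 : ℝ) * g n := by
    intro n hn
    obtain ⟨hn1, hnx, -, hnax⟩ := hSm n hn
    have hn0 : (0 : ℝ) < n := by exact_mod_cast hn1
    have hm1 : (1 : ℝ) ≤ ((a i * n + b i : ℕ) : ℝ) := by
      have : 1 ≤ a i * n + b i := by have := hc.hb i; omega
      exact_mod_cast this
    have hm0 : (0 : ℝ) < ((a i * n + b i : ℕ) : ℝ) := by linarith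
    have hlog1 : 0 ≤ Real.log (a i * x / ((a i * n + b i : ℕ) : ℝ)) := by
      apply Real.log_nonneg
      rw [le_div_iff₀ hm0]
      linarith
    have hlog2 : Real.log (a i * x / ((a i * n + b i : ℕ) : ℝ)) ≤ Real.log (a i * x) := by
      apply Real.log_le_log (by positivity)
      exact div_le_self (by linarith) hm1
    have hlogn : 0 ≤ Real.log (x / n) := by
      apply Real.log_nonneg
      rw [le_div_iff₀ hn0]
      linarith
    have hV0 : 0 ≤ ArithmeticFunction.vonMangoldt (a i * n + b i) :=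
      ArithmeticFunction.vonMangoldt_nonneg
    have htn := tent_nonneg hl0 (Real.log (x / n))
    have htm := tent_nonneg hl0 (Real.log (a i * x / ((a i * n + b i : ℕ) : ℝ)))
    have htm2 : tent (Real.log ρ) (Real.log (a i * x / ((a i * n + b i : ℕ) : ℝ))) ≤
      Real.log (a i * x) := (tent_le hl0 hlog1).trans hlog2
    have hw := (hFA n hn1 hnx).2 i
    by_cases hcase : ¬ (a i * n + b i).Prime ∨ ((a i * n + b i : ℕ) : ℝ) ≤ Real.exp (Lx x)
    · have h1 : 0 ≤ (if (a i * n + b i).Prime then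
          (Real.log x + C) * ((tent (Real.log ρ) (Real.log (x / n)) + c₀ / x) *
            (wx Q a b D x n) ^ 2) else 0) := by
        split_ifs
        · positivity
        · exact le_rfl
      have h2 : ArithmeticFunction.vonMangoldt (a i * n + b i) *
          tent (Real.log ρ) (Real.log (a i * x / ((a i * n + b i : ℕ) : ℝ))) *
            (wxi Q a b D x i n) ^ 2 ≤
          Real.log (a i * x) * x ^ (1 / 10 : ℝ) * g n := by
        simp only [hg]
        rw [if_pos hcase]
        calc _ ≤ ArithmeticFunction.vonMangoldt (a i * n + b i) *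
            Real.log (a i * x) * x ^ (1 / 10 : ℝ) := by gcongr
          _ = _ := by ring
      linarith
    · push Not at hcase
      obtain ⟨hpr, hbig2⟩ := hcase
      have hgn : g n = 0 := by
        simp only [hg]
        rw [if_neg]
        push Not
        exact ⟨hpr, hbig2⟩
      rw [hgn, mul_zero, add_zero, if_pos hpr]
      have hww : wxi Q a b D x i n = wx Q a b D x n := by
        apply wxi_eq_wx
        intro t ht
        have h1 := (Px_prime D x t.1 t.2).1
        have h2 := Px_le D x t.1 t.2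
        have h3 : prx D x t = a i * n + b i := (Nat.prime_dvd_prime_iff_eq h1 hpr).1 ht
        have h4 : ((prx D x t : ℕ) : ℝ) = ((a i * n + b i : ℕ) : ℝ) := by rw [h3]
        have h5 : ((prx D x t : ℕ) : ℝ) ≤ Real.exp (Lx x) := h2
        linarith
      rw [hww, ArithmeticFunction.vonMangoldt_apply_prime hpr]
      have h1 : Real.log ((a i * n + b i : ℕ) : ℝ) ≤ Real.log x + C := by
        calc Real.log ((a i * n + b i : ℕ) : ℝ) ≤ Real.log (a i * x) :=
              Real.log_le_log hm0 hnax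
          _ = Real.log (a i) + Real.log x := Real.log_mul hai0.ne' hx0.ne'
          _ ≤ _ := by linarith
      have h2 : tent (Real.log ρ) (Real.log (a i * x / ((a i * n + b i : ℕ) : ℝ))) ≤
          tent (Real.log ρ) (Real.log (x / n)) + c₀ / x := by
        by_cases hfar : 0 ≤ Real.log (a i * x / ((a i * n + b i : ℕ) : ℝ)) + 2 * Real.log ρ
        · rw [tent_far hl0 hfar]
          positivity
        · have h3 : Real.log (a i * x / ((a i * n + b i : ℕ) : ℝ)) ≤ Real.log (x / n) := by
            apply Real.log_le_log (by positivity)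
            rw [div_le_div_iff₀ hm0 hn0]
            push_cast
            have : 0 ≤ (b i : ℝ) := Nat.cast_nonneg _
            nlinarith
          refine (tent_lip hl0 h3).trans ?_
          have hb0 : (0 : ℝ) ≤ b i := Nat.cast_nonneg _
          -- `n` is large
          have h4 : a i * x * ρ ^ 2 < ((a i * n + b i : ℕ) : ℝ) := by
            have h5 := not_le.1 hfar
            have e1 : Real.log (a i * x / ((a i * n + b i : ℕ) : ℝ)) + 2 * Real.log ρ =
                Real.log (a i * x * ρ ^ 2 / ((a i * n + b i : ℕ) : ℝ)) := by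
              have e2 : 2 * Real.log ρ = Real.log (ρ ^ 2) := by rw [Real.log_pow]; norm_num
              rw [e2, ← Real.log_mul (by positivity) (by positivity)]
              congr 1
              ring
            rw [e1, Real.log_neg_iff (by positivity), div_lt_one hm0] at h5
            exact h5
          have h5 : ρ ^ 2 * x / 2 ≤ n := by
            have h6 := hbig i
            rw [div_le_iff₀ (by positivity)] at h6
            push_cast at h4
            have h7 : (b i : ℝ) ≤ a i * (ρ ^ 2 * x / 2) := by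
              have h8 : (b i : ℝ) ≤ ρ ^ 2 * x / 2 := by linarith
              have h9 : 0 ≤ ρ ^ 2 * x / 2 := by positivity
              nlinarith
            have h8 : (a i : ℝ) * (ρ ^ 2 * x / 2) ≤ a i * n := by nlinarith
            exact le_of_mul_le_mul_left h8 hai0
          have h6 : Real.log (x / n) - Real.log (a i * x / ((a i * n + b i : ℕ) : ℝ)) ≤
              (b i : ℝ) / (a i * n) := by
            have e1 : Real.log (x / n) - Real.log (a i * x / ((a i * n + b i : ℕ) : ℝ)) =
                Real.log (((a i * n + b i : ℕ) : ℝ) / (a i * n)) := by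
              rw [← Real.log_div (by positivity) (by positivity)]
              congr 1
              field_simp
            rw [e1]
            have e2 : ((a i * n + b i : ℕ) : ℝ) / (a i * n) = 1 + (b i : ℝ) / (a i * n) := by
              push_cast
              field_simp
            rw [e2]
            have := Real.log_le_sub_one_of_pos (show 0 < 1 + (b i : ℝ) / (a i * n) by positivity)
            linarith
          have h7 : (b i : ℝ) / (a i * n) ≤ (2 * (b i : ℝ) / ρ ^ 2) / x := by
            have h8 : ρ ^ 2 * x / 2 ≤ a i * n := by nlinarith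
            calc (b i : ℝ) / (a i * n) ≤ (b i : ℝ) / (ρ ^ 2 * x / 2) :=
                  div_le_div_of_nonneg_left hb0 (by positivity) h8
              _ = _ := by field_simp
          have h8 : (2 * (b i : ℝ) / ρ ^ 2) / x ≤ c₀ / x := by gcongr
          linarith
      have h3 : 0 ≤ Real.log ((a i * n + b i : ℕ) : ℝ) := Real.log_nonneg hm1
      calc _ ≤ (Real.log x + C) * (tent (Real.log ρ) (Real.log (x / n)) + c₀ / x) *
              (wx Q a b D x n) ^ 2 := by
            gcongr
        _ = _ := by ring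
  calc ∑ n ∈ S, ArithmeticFunction.vonMangoldt (a i * n + b i) *
          tent (Real.log ρ) (Real.log (a i * x / ((a i * n + b i : ℕ) : ℝ))) *
            (wxi Q a b D x i n) ^ 2
      ≤ ∑ n ∈ S, ((if (a i * n + b i).Prime then
          (Real.log x + C) * ((tent (Real.log ρ) (Real.log (x / n)) + c₀ / x) *
            (wx Q a b D x n) ^ 2) else 0) +
          Real.log (a i * x) * x ^ (1 / 10 : ℝ) * g n) := Finset.sum_le_sum key
    _ = ∑ n ∈ S, (if (a i * n + b i).Prime then
          (Real.log x + C) * ((tent (Real.log ρ) (Real.log (x / n)) + c₀ / x) *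
            (wx Q a b D x n) ^ 2) else 0) +
          Real.log (a i * x) * x ^ (1 / 10 : ℝ) * ∑ n ∈ S, g n := by
        rw [Finset.sum_add_distrib, Finset.mul_sum]
    _ ≤ (Real.log x + C) * ∑ n ∈ (Icc 1 ⌊x⌋₊).filter
          (fun n => n ≡ v [MOD (WW D)] ∧ (a i * n + b i).Prime),
            (tent (Real.log ρ) (Real.log (x / n)) + c₀ / x) * (wx Q a b D x n) ^ 2 +
              x ^ (3 / 4 : ℝ) := by
        apply add_le_add
        · rw [← Finset.sum_filter, ← Finset.mul_sum]
          apply mul_le_mul_of_nonneg_left _ (by positivity)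
          apply Finset.sum_le_sum_of_subset_of_nonneg
          · intro n hn
            rw [Finset.mem_filter, hS, Finset.mem_filter] at hn
            rw [Finset.mem_filter]
            exact ⟨hn.1.1, hn.1.2.1, hn.2⟩
          · intro n hn _
            have := tent_nonneg hl0 (Real.log (x / n))
            positivity
        · refine le_trans ?_ (herr i)
          apply mul_le_mul_of_nonneg_left _ (by positivity)
          exact bad_lambda (a i) (b i) (hc.ha i) (hc.hb i) S x (Real.exp (Lx x)) hx.le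
            (Real.exp_pos _).le (fun n hn => (hSm n hn).2.2.2)

end Pool.Agent.H732R3.Win
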