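import Mathlib
import Pool.Agent.H732R3.W5

/-! Windowed Maynard-Tao theorem: `M + 1` primes among the values of `k` linear forms at some `n` in every
interval `(ρ ^ 2 x, x]` with `x` large. -/

namespace Pool.Agent.H732R3.Win

open Finset Filter Topology
open Pool.Agent.H410R2 hiding GP GP_prof GP_cut_some GP_cut_none GP_lip gg_pos gg_le_one gg_anti ee_bound ee_nonneg gg_lip LB_gg LB_ee Sums exists_sums yx wx wxi Br sum_GP_none sum_GP_some sum_GP_some_ee sum_GP_some_one sum_GPr_none sum_GPr_some S1_final QI_final S2_final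
open Pool.Agent.H361R2 Pool.Agent.H361R2.GM

variable {k : ℕ}

/-- Maynard-Tao in windows -/
def MTW (m k : ℕ) : Prop := ∀ (a b : Fin k → ℕ), (∀ i, 1 ≤ a i) → (∀ i, 1 ≤ b i) →
  (∀ i j, i ≠ j → a i * b j ≠ a j * b i) →
  (∀ p : ℕ, p.Prime → ∃ n : ℕ, ¬ p ∣ n ∧ ∀ i, ¬ p ∣ a i * n + b i) →
  ∀ ρ : ℝ, 0 < ρ → ρ < 1 → ∀ᶠ x : ℝ in atTop, ∃ n : ℕ, ρ ^ 2 * x < n ∧ (n : ℝ) ≤ x ∧
    m ≤ (univ.filter (fun i => (a i * n + b i).Prime)).card

set_option maxHeartbeats 1000000 in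
theorem finalW (hT2 : S2Approx) (hT3 : S2Model) (hBV : BVAP) (hPNT : PNTLog)
    (hPB : ProdBound) (hOB : OmegaBound) (hOD : OneDim) (hTail : TailBound) (hAri : AriSetup)
    (hFA : FA) (Q : SPar) (k M : ℕ)
    (hnum : ∀ ε₁ : ℝ, 0 < ε₁ → ∃ ε : ℝ, 0 < ε ∧ ε < ε₁ ∧ ε < Q.I1 ∧ ε < Q.I2 ∧
      (M : ℝ) * ((1 + ε) ^ 2 * (1 / 3 + ε) * (Q.I2 + ε) ^ k) <
        (1 - ε) ^ 3 * (Q.I1 - ε) ^ 2 * k * (24 / 100) * Br Q k ε) :
    MTW (M + 1) k := by
  classical
  intro a b ha hb hnp hadm ρ hρ hρ1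
  obtain ⟨ε, hε, hε1, hI1, hI2, hmain⟩ := hnum (1 / 3) (by norm_num)
  have hI2p : 0 < Q.I2 := hε.trans hI2
  have h1ε : 0 < 1 - ε := by linarith
  have hI1ε : 0 < Q.I1 - ε := by linarith
  have hk0 : (0 : ℝ) ≤ k := Nat.cast_nonneg k
  have hM0 : (0 : ℝ) ≤ M := Nat.cast_nonneg M
  have hl0 : Real.log ρ < 0 := Real.log_neg hρ hρ1
  have hBr : 0 < Br Q k ε := by
    have h0 : 0 ≤ (M : ℝ) * ((1 + ε) ^ 2 * (1 / 3 + ε) * (Q.I2 + ε) ^ k) := by positivity
    have h1 : 0 < (1 - ε) ^ 3 * (Q.I1 - ε) ^ 2 * k * (24 / 100) * Br Q k ε := lt_of_le_of_lt h0 hmain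
    have h2 : 0 ≤ (1 - ε) ^ 3 * (Q.I1 - ε) ^ 2 * k * (24 / 100) := by positivity
    by_contra hcon
    have h3 : Br Q k ε ≤ 0 := not_lt.1 hcon
    have h4 := mul_nonpos_of_nonneg_of_nonpos h2 h3
    linarith
  set A : ℝ := (1 / 3 + ε) * (Q.I2 + ε) ^ k with hA
  have hA0 : 0 < A := by positivity
  set β : ℝ := (1 - ε) ^ 3 * (Q.I1 - ε) ^ 2 * Br Q k ε with hβ
  set B : ℝ := 24 / 100 * (k * β) with hB
  set γ : ℝ := B - M * ((1 + ε) ^ 2 * A) with hγ
  have hγ0 : 0 < γ := by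
    rw [hγ, hB, hβ, hA, sub_pos]
    calc (M : ℝ) * ((1 + ε) ^ 2 * ((1 / 3 + ε) * (Q.I2 + ε) ^ k)) =
          (M : ℝ) * ((1 + ε) ^ 2 * (1 / 3 + ε) * (Q.I2 + ε) ^ k) := by ring
      _ < _ := hmain
      _ = _ := by ring
  have hMA : M * A ≤ B - γ := by
    have h1 : (M : ℝ) * A ≤ M * ((1 + ε) ^ 2 * A) := by
      apply mul_le_mul_of_nonneg_left _ hM0
      have h2 : 1 ≤ (1 + ε) ^ 2 := one_le_pow₀ (by linarith)
      exact le_mul_of_one_le_left hA0.le h2
    rw [hγ]; linarith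
  set r : ℝ := (1 - ρ) ^ 2 with hr
  have hr0 : 0 < r := by
    have : 0 < 1 - ρ := by linarith
    positivity
  obtain ⟨D2, hctx⟩ := exists_ctx hAri a b ha hb hnp hadm
  obtain ⟨D3, hκ⟩ := hκ_of hTail k ε hε
  obtain ⟨D4, hov⟩ := hovl_of hTail k ε hε
  obtain ⟨D5, hsum⟩ := sums_ev Q hOD (k + 1) ε hε
  set D := D2 + D3 + D4 + D5 with hD
  obtain ⟨v, hc⟩ := hctx D (by omega)
  have hκ := hκ D (by omega)
  have hov := hov D (by omega)
  have hsum := hsum D (by omega)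
  obtain ⟨C, hC0, c₀, hc₀0, hFC⟩ := fcW hFA Q k a b D v hc ρ hρ hρ1
  have hFA := hFA Q k a b D v hc (1 / 10) (by norm_num)
  have hS2 := S2_win Q hT2 hT3 hBV hPNT hPB hOB hc ε hε hε1 hI1 hI2 hBr hκ hov hsum ρ hρ hρ1
  have hxe : ∀ᶠ x : ℝ in atTop, 1 ≤ ρ ^ 2 * x :=
    (tendsto_id.const_mul_atTop (by positivity)).eventually_ge_atTop _
  filter_upwards [hFA, hS2, hFC, hsum, E0_le hPB k D, hxe,
    Real.tendsto_log_atTop.eventually_ge_atTop (2 * (C * (M * A)) / γ),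
    Real.tendsto_log_atTop.eventually_ge_atTop C,
    Real.tendsto_log_atTop.eventually_ge_atTop 1,
    Q0_large k D hc.hW hc.BDpos ((5 * k + 2) / (r * (γ / 2))),
    ev_polylog (2 * (4 * M + k * c₀)) 1 (3 / 4) 1 (by norm_num), eventually_gt_atTop (1 : ℝ)]
    with x hFA hS2 hFC hsum hE0 hxe hl1 hl2 hl3 hq1 hp1 hx
  have hx0 : 0 < x := by linarith
  have hlx : 0 < Real.log x := Real.log_pos hx
  by_contra hcon
  push Not at hcon
  have hS1 := S1_win Q hc ε hε hI2p ρ hρ hρ1 x hx hxe hsum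
  rw [SWin_eq (WW D) v _ x ρ hx0 hρ hρ1] at hS1
  set N := (Icc 1 ⌊x⌋₊).filter (fun n => n ≡ v [MOD (WW D)]) with hN
  have hNm : ∀ n ∈ Icc 1 ⌊x⌋₊, 1 ≤ n ∧ (n : ℝ) ≤ x := by
    intro n hn
    rw [Finset.mem_Icc] at hn
    exact ⟨hn.1, (Nat.cast_le.2 hn.2).trans (Nat.floor_le hx0.le)⟩
  set pc : ℕ → ℕ := fun n => (univ.filter (fun i => (a i * n + b i).Prime)).card with hpc
  have hpck : ∀ n, pc n ≤ k := by
    intro n
    simp only [hpc]
    calc (univ.filter (fun i => (a i * n + b i).Prime)).card ≤ (univ : Finset (Fin k)).card :=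
          Finset.card_filter_le _ _
      _ = k := by simp
  set tn : ℕ → ℝ := fun n => tent (Real.log ρ) (Real.log (x / n)) with htn
  have htn0 : ∀ n, 0 ≤ tn n := fun n => tent_nonneg hl0 _
  have hzero : ∀ n ∈ Icc 1 ⌊x⌋₊, M < pc n → tn n = 0 := by
    intro n hn hMn
    obtain ⟨h1, h2⟩ := hNm n hn
    have hn0 : (0 : ℝ) < n := by exact_mod_cast h1
    by_cases h3 : ρ ^ 2 * x < n
    · have h4 := hcon n h3 h2
      simp only [hpc] at hMn
      omega
    · apply tent_far hl0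
      have e2 : 2 * Real.log ρ = Real.log (ρ ^ 2) := by rw [Real.log_pow]; norm_num
      rw [e2, ← Real.log_mul (by positivity) (by positivity)]
      apply Real.log_nonneg
      rw [div_mul_eq_mul_div, le_div_iff₀ hn0, one_mul, mul_comm]
      exact not_lt.1 h3
  -- the sum over `i`
  set T := ∑ i : Fin k, ∑ n ∈ (Icc 1 ⌊x⌋₊).filter
      (fun n => n ≡ v [MOD (WW D)] ∧ (a i * n + b i).Prime), (tn n + c₀ / x) * (wx Q a b D x n) ^ 2
    with hTd
  have hT : T ≤ M * (∑ n ∈ N, tn n * (wx Q a b D x n) ^ 2) +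
      k * (c₀ * x ^ (1 / 10 : ℝ)) := by
    have e1 : T =
      ∑ n ∈ Icc 1 ⌊x⌋₊, (if n ≡ v [MOD (WW D)] then (pc n : ℝ) * ((tn n + c₀ / x) *
        (wx Q a b D x n) ^ 2) else 0) := by
      rw [hTd]
      simp_rw [Finset.sum_filter]
      rw [Finset.sum_comm]
      refine Finset.sum_congr rfl fun n _ => ?_
      split_ifs with h
      · simp only [h, true_and]
        rw [← Finset.sum_filter, Finset.sum_const, nsmul_eq_mul]
      · simp [h]
    have e2 : ∑ _n ∈ Icc 1 ⌊x⌋₊, (k : ℝ) * (c₀ / x * x ^ (1 / 10 : ℝ)) ≤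
        k * (c₀ * x ^ (1 / 10 : ℝ)) := by
      rw [Finset.sum_const, Nat.card_Icc, nsmul_eq_mul, Nat.add_sub_cancel]
      have h1 : (⌊x⌋₊ : ℝ) ≤ x := Nat.floor_le hx0.le
      calc (⌊x⌋₊ : ℝ) * (k * (c₀ / x * x ^ (1 / 10 : ℝ))) ≤ x * (k * (c₀ / x * x ^ (1 / 10 : ℝ))) := by
            gcongr
        _ = _ := by field_simp
    rw [e1, hN]
    refine le_trans ?_ (add_le_add le_rfl e2)
    rw [Finset.sum_filter, Finset.mul_sum, ← Finset.sum_add_distrib]
    apply Finset.sum_le_sum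
    intro n hn
    obtain ⟨h1, h2⟩ := hNm n hn
    have hw := (hFA n h1 h2).1
    have hw0 : 0 ≤ (wx Q a b D x n) ^ 2 := sq_nonneg _
    have hpn : (pc n : ℝ) ≤ k := by exact_mod_cast hpck n
    have ht := htn0 n
    have hcx : 0 ≤ c₀ / x := by positivity
    have h6 : (pc n : ℝ) * (c₀ / x * (wx Q a b D x n) ^ 2) ≤ k * (c₀ / x * x ^ (1 / 10 : ℝ)) := by
      gcongr
    by_cases h3 : n ≡ v [MOD (WW D)]
    · rw [if_pos h3, if_pos h3]
      have h5 : (pc n : ℝ) * (tn n * (wx Q a b D x n) ^ 2) ≤ M * (tn n * (wx Q a b D x n) ^ 2) := by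
        by_cases h4 : M < pc n
        · rw [hzero n hn h4]; simp
        · have h7 : (pc n : ℝ) ≤ M := by exact_mod_cast not_lt.1 h4
          gcongr
      calc (pc n : ℝ) * ((tn n + c₀ / x) * (wx Q a b D x n) ^ 2) =
            (pc n : ℝ) * (tn n * (wx Q a b D x n) ^ 2) +
              (pc n : ℝ) * (c₀ / x * (wx Q a b D x n) ^ 2) := by ring
        _ ≤ _ := add_le_add h5 h6
    · rw [if_neg h3, if_neg h3]
      positivity
  -- combine
  set Z := Q0 k D x with hZ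
  set y := x ^ (3 / 4 : ℝ) with hy
  have hy0 : 0 ≤ y := by positivity
  have hyx : y ≤ x := by
    rw [hy]
    calc x ^ (3 / 4 : ℝ) ≤ x ^ (1 : ℝ) := Real.rpow_le_rpow_of_exponent_le hx.le (by norm_num)
      _ = x := Real.rpow_one x
  have hyE : E0 k D x ≤ y :=
    hE0.trans (Real.rpow_le_rpow_of_exponent_le hx.le (by norm_num))
  have hy10 : x ^ (1 / 10 : ℝ) ≤ y :=
    Real.rpow_le_rpow_of_exponent_le hx.le (by norm_num)
  have hsumS2 : k * (r * (Lx x * Z * β) - 4 * x) ≤ (Real.log x + C) * T + k * y := by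
    have h1 : ∀ i : Fin k, r * (Lx x * Z * β) - 4 * x ≤ (Real.log x + C) *
      ∑ n ∈ (Icc 1 ⌊x⌋₊).filter
      (fun n => n ≡ v [MOD (WW D)] ∧ (a i * n + b i).Prime), (tn n + c₀ / x) *
        (wx Q a b D x n) ^ 2 + y := by
      intro i
      exact (hS2 i).trans (hFC i)
    have h2 := Finset.sum_le_sum fun (i : Fin k) (_ : i ∈ univ) => h1 i
    rw [Finset.sum_add_distrib, ← Finset.mul_sum] at h2
    simp only [Finset.sum_const, Finset.card_univ, Fintype.card_fin, nsmul_eq_mul] at h2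
    exact h2
  have hTle : T ≤ M * (r * (Z * A)) + (4 * M + k * c₀) * y := by
    have h1 : (M : ℝ) * ∑ n ∈ N, tn n * (wx Q a b D x n) ^ 2 ≤ M * (r * (Z * A) + 4 * y) := by
      apply mul_le_mul_of_nonneg_left _ hM0
      refine hS1.trans ?_
      have h9 : 4 * E0 k D x ≤ 4 * y := mul_le_mul_of_nonneg_left hyE (by norm_num)
      exact add_le_add le_rfl h9
    have h2 : (k : ℝ) * (c₀ * x ^ (1 / 10 : ℝ)) ≤ k * (c₀ * y) := by gcongr
    linarith
  have h7 : (Real.log x + C) * ((4 * M + k * c₀) * y) ≤ x := by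
    calc (Real.log x + C) * ((4 * M + k * c₀) * y) ≤ (2 * Real.log x) * ((4 * M + k * c₀) * y) := by
          gcongr
          linarith
      _ = 2 * (4 * M + k * c₀) * (Real.log x) ^ 1 * y := by ring
      _ ≤ x ^ (1 : ℝ) := hp1
      _ = x := Real.rpow_one x
  have h10 : k * (Lx x * Z * β) = Real.log x * Z * B := by
    rw [hB]
    unfold Lx
    ring
  have hZ0 : 0 ≤ Z := by
    have h1 : 0 ≤ (5 * k + 2) / (r * (γ / 2)) * x := by positivity
    exact h1.trans hq1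
  have hCMA : C * (M * A) ≤ γ / 2 * Real.log x := by
    rw [div_le_iff₀ hγ0] at hl1
    linarith
  have h11 : (Real.log x + C) * (M * A) ≤ Real.log x * B - γ / 2 * Real.log x := by
    have := mul_le_mul_of_nonneg_left hMA hlx.le
    linarith
  have h12 : r * Z * (γ / 2 * Real.log x) ≤ (5 * k + 1) * x := by
    have e1 : (Real.log x + C) * T ≤ r * Z * ((Real.log x + C) * (M * A)) + x := by
      have h9 : 0 ≤ Real.log x + C := by linarith
      calc (Real.log x + C) * T ≤ (Real.log x + C) * (M * (r * (Z * A)) + (4 * M + k * c₀) * y) := by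
            gcongr
        _ = r * Z * ((Real.log x + C) * (M * A)) + (Real.log x + C) * ((4 * M + k * c₀) * y) := by
            ring
        _ ≤ _ := by linarith
    have e2 : r * Z * ((Real.log x + C) * (M * A)) ≤
        r * Z * (Real.log x * B - γ / 2 * Real.log x) :=
      mul_le_mul_of_nonneg_left h11 (by positivity)
    have e3 : k * (r * (Lx x * Z * β) - 4 * x) = r * (Real.log x * Z * B) - 4 * k * x := by
      rw [← h10]; ring
    rw [e3] at hsumS2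
    have e4 : k * y ≤ k * x := mul_le_mul_of_nonneg_left hyx hk0
    linarith
  have h13 : (5 * k + 2) * x ≤ r * Z * (γ / 2 * Real.log x) := by
    have h14 : (5 * k + 2) * x ≤ r * (γ / 2) * Z := by
      have := mul_le_mul_of_nonneg_left hq1 (by positivity : 0 ≤ r * (γ / 2))
      calc (5 * k + 2) * x = r * (γ / 2) * ((5 * k + 2) / (r * (γ / 2)) * x) := by field_simp
        _ ≤ _ := this
    have h15 : r * (γ / 2) * Z ≤ r * (γ / 2) * Z * Real.log x :=
      le_mul_of_one_le_right (by positivity) hl3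
    linarith
  linarith

/-- **Maynard-Tao theorem in windows**: for every `M` there is `k` such that for all suitable `k` linear
forms and every `ρ < 1` all intervals `(ρ ^ 2 x, x]` with `x` large contain `n` at which at least `M + 1`
of the forms are prime. -/
theorem maynardTaoW (M : ℕ) (hM : 1 ≤ M) : ∃ k : ℕ, 2 ≤ k ∧ MTW (M + 1) k := by
  obtain ⟨k, Q, hk, h⟩ := num_gen M hM
  exact ⟨k, hk, finalW Pool.Agent.H732R2.s2Approx Pool.Agent.H361R2.s2Model bvap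
    Pool.Agent.H732R2.pntLog Pool.Agent.H361R2.prodBound Pool.Agent.H361R2.omegaBound
    Pool.Agent.H399R2.oneDim Pool.Agent.H361R2.tailBound Pool.Agent.H398R2.ariSetup fa Q k M h⟩

end Pool.Agent.H732R3.Win
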