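import Mathlib
import Pool.Agent.H732R3.W6

/-! Many primes in the translates of an admissible set, in every window `(ρ ^ 2 x, x]`. -/

namespace Pool.Agent.H732R3.Win

open Finset Filter Topology

/-- The forms `(k + 5)! n + b i` are admissible together with `n` if no `b i` has a prime factor
`≤ k + 5`. -/
theorem forms_adm (k : ℕ) (b : Fin k → ℕ) (hb : ∀ p : ℕ, p.Prime → p ≤ k + 5 → ∀ i, ¬ p ∣ b i)
    (p : ℕ) (hp : p.Prime) :
    ∃ n : ℕ, ¬ p ∣ n ∧ ∀ i : Fin k, ¬ p ∣ (k + 5).factorial * n + b i := by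
  by_cases h : p ≤ k + 5
  · have hd : p ∣ (k + 5).factorial := (hp.dvd_factorial).2 h
    refine ⟨1, hp.one_lt.not_ge ∘ Nat.le_of_dvd one_pos, fun i hi => ?_⟩
    exact hb p hp h i ((Nat.dvd_add_right (hd.mul_right 1)).1 hi)
  · have := Fact.mk hp
    have hP0 : (((k + 5).factorial : ℕ) : ZMod p) ≠ 0 := by
      rw [Ne, ZMod.natCast_eq_zero_iff, hp.dvd_factorial]
      exact h
    set B : Finset (ZMod p) := insert 0 ((univ : Finset (Fin k)).image
      (fun i => -((b i : ℕ) : ZMod p) / (((k + 5).factorial : ℕ) : ZMod p))) with hB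
    have hc : B.card < (univ : Finset (ZMod p)).card := by
      rw [Finset.card_univ, ZMod.card]
      calc B.card ≤ _ + 1 := Finset.card_insert_le _ _
        _ ≤ k + 1 := by
          have := Finset.card_image_le (s := (univ : Finset (Fin k)))
            (f := fun i => -((b i : ℕ) : ZMod p) / (((k + 5).factorial : ℕ) : ZMod p))
          simp only [Finset.card_univ, Fintype.card_fin] at this
          omega
        _ < p := by omega
    obtain ⟨c, -, hcB⟩ := Finset.exists_mem_notMem_of_card_lt_card hc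
    refine ⟨c.val, ?_, fun i hi => ?_⟩
    · intro h0
      rw [← ZMod.natCast_eq_zero_iff, ZMod.natCast_val, ZMod.cast_id', id] at h0
      exact hcB (by rw [hB, h0]; exact Finset.mem_insert_self _ _)
    · rw [← ZMod.natCast_eq_zero_iff, Nat.cast_add, Nat.cast_mul, ZMod.natCast_val, ZMod.cast_id',
        id] at hi
      apply hcB
      have e1 : c = -((b i : ℕ) : ZMod p) / (((k + 5).factorial : ℕ) : ZMod p) := by
        rw [eq_div_iff hP0, mul_comm]
        exact eq_neg_of_add_eq_zero_left hi
      rw [hB, e1]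
      exact Finset.mem_insert_of_mem (Finset.mem_image_of_mem
        (fun i => -((b i : ℕ) : ZMod p) / (((k + 5).factorial : ℕ) : ZMod p)) (Finset.mem_univ i))

/-- For every `m` there is `k` such that every admissible set `H` with at least `k` elements has the
following property: in a suitable progression `t ≡ c [MOD P]` on which all `t + h`, `h ∈ H`, are coprime to
`30`, every window contains `t` for which at least `m` of the `t + h` are prime. -/
theorem tuples (m : ℕ) : ∃ k : ℕ, ∀ H : Finset ℕ, k ≤ H.card →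
    (∀ p : ℕ, p.Prime → ∃ c : ℕ, ∀ h ∈ H, ¬ p ∣ c + h) →
    ∃ P c : ℕ, 1 ≤ P ∧ (∀ h ∈ H, ∀ N : ℕ, Nat.Coprime (P * N + c + h) 30) ∧
      ∀ ρ : ℝ, 0 < ρ → ρ < 1 → ∀ᶠ x : ℝ in atTop,
        ∃ N : ℕ, ρ ^ 2 * x < N ∧ (N : ℝ) ≤ x ∧
          m ≤ (H.filter (fun h => (P * N + c + h).Prime)).card := by
  obtain ⟨k, hk, h⟩ := maynardTaoW (m + 1) (by omega)
  refine ⟨k, fun H hH hadm => ?_⟩
  choose! cc hcc using hadm
  -- CRT
  obtain ⟨c, hc⟩ := Nat.chineseRemainderOfFinset cc (fun p => p) ((range (k + 6)).filter Nat.Prime)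
    (fun p hp => (Finset.mem_filter.1 hp).2.ne_zero)
    (fun p hp q hq hpq => (Nat.coprime_primes (Finset.mem_filter.1 hp).2
      (Finset.mem_filter.1 hq).2).2 hpq)
  have hc' : ∀ p : ℕ, p.Prime → p ≤ k + 5 → ∀ h ∈ H, ¬ p ∣ c + h := by
    intro p hp hpk h hh hd
    have h1 := hc p (Finset.mem_filter.2 ⟨Finset.mem_range.2 (by omega), hp⟩)
    have h2 : c + h ≡ cc p + h [MOD p] := Nat.ModEq.add_right h h1
    exact hcc p hp h hh ((h2.dvd_iff (dvd_refl p)).1 hd)
  have hf : 0 < (k + 5).factorial := Nat.factorial_pos _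
  refine ⟨(k + 5).factorial, c, hf, ?_, fun ρ hρ hρ1 => ?_⟩
  · intro h hh N
    apply Nat.Coprime.symm
    apply Nat.coprime_of_dvd
    intro p hp hp30 hd
    have hp5 : p ≤ 5 := by
      have h30 : (30 : ℕ) = 2 * 3 * 5 := by norm_num
      rw [h30, hp.dvd_mul, hp.dvd_mul] at hp30
      rcases hp30 with (hd | hd) | hd <;> have := Nat.le_of_dvd (by norm_num) hd <;> omega
    have h1 : p ∣ (k + 5).factorial * N := (((hp.dvd_factorial).2 (by omega)).mul_right N)
    rw [Nat.add_assoc] at hd
    exact hc' p hp (by omega) h hh ((Nat.dvd_add_right h1).1 hd)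
  · obtain ⟨H', hH', hcard⟩ := Finset.exists_subset_card_eq hH
    set e := H'.orderIsoOfFin hcard with he
    have hmem : ∀ i : Fin k, (e i : ℕ) ∈ H := fun i => hH' (e i).2
    have hinj : ∀ i j : Fin k, (e i : ℕ) = e j → i = j := by
      intro i j hij
      exact e.injective (Subtype.ext hij)
    filter_upwards [h (fun _ => (k + 5).factorial) (fun i => c + e i) (fun _ => hf)
      (fun i => by
        have := hc' 2 Nat.prime_two (by omega) _ (hmem i)
        show 1 ≤ c + (e i : ℕ)
        omega)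
      (fun i j hij he => by
        have := Nat.eq_of_mul_eq_mul_left hf he
        exact hij (hinj i j (by omega)))
      (fun p hp => forms_adm k (fun i => c + e i) (fun p hp hpk i => hc' p hp hpk _ (hmem i)) p hp)
      ρ hρ hρ1] with x hx
    obtain ⟨N, h1, h2, h3⟩ := hx
    refine ⟨N, h1, h2, ?_⟩
    have h4 : ((univ : Finset (Fin k)).filter
        (fun i => ((k + 5).factorial * N + (c + (e i : ℕ))).Prime)).card ≤
        (H.filter (fun h => ((k + 5).factorial * N + c + h).Prime)).card := by
      apply Finset.card_le_card_of_injOn (fun i => (e i : ℕ))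
      · intro i hi
        have hi' := (Finset.mem_filter.1 hi).2
        rw [← Nat.add_assoc] at hi'
        exact Finset.mem_coe.2 (Finset.mem_filter.2 ⟨hmem i, hi'⟩)
      · intro i _ j _ hij
        exact hinj i j hij
    omega

end Pool.Agent.H732R3.Win
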